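import Pool.Agent.NTS.ResDefs
import Pool.Agent.IW.ResJ

/-!
TSW, bulk coupling (doc next/46f0ca_14b), row B1 (helper84): the literal. Any function of the first `j` steps of the walk together
with the whole curve hardly sees a small change of the number of steps.
-/

set_option autoImplicit false

open MeasureTheory Filter Topology ENNReal
open scoped Classical

namespace Pool.Agent.TSW

open Pool.Agent.NTS.Res
open Pool.Agent.IW.Res (mean)

/-- **B1**: any function of the first `j ≤ (1 - ε) n` steps times a function of the curve: `n` steps against `n + h` steps -/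
def BC1 : Prop := ∀ ε : ℝ, 0 < ε → ∃ δ : ℝ, 0 < δ ∧ ∃ n0 : ℕ, ∀ n h j : ℕ, n0 ≤ n → (h : ℝ) ≤ δ * n →
  (j : ℝ) ≤ (1 - ε) * n → ∀ Φ : List (Fin 3) → ℝ, (∀ x, |Φ x| ≤ 1) → ∀ G : C(unitInterval, ℂ) → ℝ, (∀ γ, |G γ| ≤ 1) →
    LipschitzWith 1 G →
    |mean (n + h) (fun s => Φ ((List.ofFn s).take j) * G (curve s)) -
      mean n (fun s => Φ ((List.ofFn s).take j) * G (curve s))| ≤ ε

end Pool.Agent.TSW
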