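import Pool.Agent.TSW.BCWDefs
import Pool.Agent.TSW.BCDefs
import Pool.Agent.SLW.PubY
import Pool.Agent.MC.Dict
import Pool.Agent.IW.Word

/-!
TSW, bulk coupling, row B1, the public part (helper41): **`bc1_of : WordT → BC1`**.

* `rep_small`: the curve of the walk with `n + h` steps and its first `n` steps in the scaling of `n` are close in the mean;
* the means over the walks as means over the words and the three rotations.
-/

set_option autoImplicit false

namespace Pool.Agent.TSW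

namespace BP

open Finset MeasureTheory Filter Topology

open HexObs hiding pos

open HexObs.TOG HexObs.OneS HexObs.SDN HexObs.TS HexObs.TIW HexObs.MCP

open Pool.Agent.NTS.Res

open Pool.Agent.IW.Res (mean)

open NTSF NTSF.Mg

open NTF (sw JJ)

open scoped Classical

/-! ### 1. The change of the scaling -/

/-- the distance of a curve from its change of the scaling, cut at 2 -/
noncomputable def dd (p : (ℝ × unitInterval) × C(unitInterval, ℂ)) : ℝ := min 2 (dist p.2 (rs p))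

lemma dd_cont : Continuous dd := continuous_const.min (continuous_snd.dist rs_cont)

lemma dd_nonneg (p : (ℝ × unitInterval) × C(unitInterval, ℂ)) : 0 ≤ dd p := le_min (by norm_num) dist_nonneg

lemma dd_le (p : (ℝ × unitInterval) × C(unitInterval, ℂ)) : dd p ≤ 2 := min_le_left _ _

lemma dd_one (γ : C(unitInterval, ℂ)) : dd ((1, 1), γ) = 0 := by
  have e : rs ((1, 1), γ) = γ := by
    unfold rs
    rw [tsc_one, ContinuousMap.comp_id]
    exact one_smul ℝ γ
  unfold dd
  rw [e, dist_self, min_eq_right (by norm_num)]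

/-- **the change of the scaling does not matter** -/
theorem rep_small {ε : ℝ} (hε : 0 < ε) : ∃ δ : ℝ, 0 < δ ∧ ∀ n h : ℕ, 1 / δ ≤ n → (h : ℝ) ≤ δ * n →
    ∫ γ, dd ((size (n + h) / size n, rt2 n (n + h)), γ) ∂(law (n + h)) ≤ ε := by
  obtain ⟨K, hK, hPK⟩ := exists_K (oneFacts finE)
  have key := eps_of_seq (D := fun n h => ∫ γ, dd ((size (n + h) / size n, rt2 n (n + h)), γ) ∂(law (n + h)))
    (Ev := fun _ => True) (fun a h ha ha0 hah _ => by
      obtain ⟨b, hb⟩ : ∃ b : ℕ → ℕ, b = fun j => a j + h j := ⟨_, rfl⟩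
      have hbj : ∀ j, b j = a j + h j := fun j => by rw [hb]
      have hab : ∀ j, a j ≤ b j := fun j => by
        rw [hbj]
        exact Nat.le_add_right _ _
      have hr1 : Tendsto (fun j => (b j : ℝ) / a j) atTop (𝓝 1) := by
        have h1 := hah.const_add 1
        rw [add_zero] at h1
        refine h1.congr fun j => ?_
        have : (a j : ℝ) ≠ 0 := by exact_mod_cast (ha0 j).ne'
        rw [hbj]
        push_cast
        field_simp
      have hrt := rt2_tendsto hab hr1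
      -- the sizes
      have hsz : Tendsto (fun j => size (b j) / size (a j)) atTop (𝓝 1) := by
        rw [Metric.tendsto_atTop]
        intro e he
        obtain ⟨δ, hδ, h1⟩ := slow_curves.1 (e / 2) (by positivity)
        have e1 : ∀ᶠ j in atTop, 1 / δ ≤ (a j : ℝ) :=
          (tendsto_natCast_atTop_atTop.comp ha).eventually_ge_atTop _
        have e2 := (tendsto_order.1 hah).2 δ hδ
        obtain ⟨j0, hj0⟩ := eventually_atTop.1 (e1.and e2)
        refine ⟨j0, fun j hj => ?_⟩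
        obtain ⟨g1, g2⟩ := hj0 j hj
        have ga : (0 : ℝ) < a j := by exact_mod_cast ha0 j
        rw [div_lt_iff₀ ga] at g2
        have h2 := (h1 (a j) (h j) g1 g2.le).1
        rw [Real.dist_eq, hbj]
        linarith
      obtain ⟨ν, -, θ, hθ, hlim⟩ := hK.tendsto_subseq (x := fun k => PM (b k)) (fun k => hPK _)
      refine ⟨θ, hθ, ?_⟩
      have L := (hsz.comp hθ.tendsto_atTop).prodMk_nhds (hrt.comp hθ.tendsto_atTop)
      have M := tendsto_integral_param hlim L
        (BoundedContinuousFunction.mkOfBound ⟨dd, dd_cont⟩ 2 fun x y => by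
          show dist (dd x) (dd y) ≤ 2
          rw [Real.dist_eq, abs_le]
          have a1 := dd_nonneg x
          have a2 := dd_le x
          have a3 := dd_nonneg y
          have a4 := dd_le y
          constructor <;> linarith)
      have e0 : ∫ z, (BoundedContinuousFunction.mkOfBound ⟨dd, dd_cont⟩ 2 fun x y => by
          show dist (dd x) (dd y) ≤ 2
          rw [Real.dist_eq, abs_le]
          have a1 := dd_nonneg x
          have a2 := dd_le x
          have a3 := dd_nonneg y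
          have a4 := dd_le y
          constructor <;> linarith) (((1 : ℝ), (1 : unitInterval)), z) ∂(ν : Measure C(unitInterval, ℂ)) = 0 := by
        show ∫ z, dd (((1 : ℝ), (1 : unitInterval)), z) ∂(ν : Measure C(unitInterval, ℂ)) = 0
        simp only [dd_one, integral_zero]
      rw [e0] at M
      refine M.congr fun j => ?_
      show ∫ z, dd ((size (b (θ j)) / size (a (θ j)), rt2 (a (θ j)) (b (θ j))), z) ∂(law (b (θ j))) = _
      rw [hbj]) hε
  obtain ⟨δ, hδ, h1⟩ := key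
  exact ⟨δ, hδ, fun n h hn hh => h1 n h hn hh trivial⟩

/-! ### 2. Words and rotations -/

/-- the rotation by `a` third turns -/
def rt3 (a : Fin 3) {n : ℕ} (s : Fin n → Fin 3) : Fin n → Fin 3 := fun i => s i + a

lemma rt3_zero {n : ℕ} (s : Fin n → Fin 3) : rt3 0 s = s := by
  funext i
  show s i + 0 = s i
  rw [add_zero]

lemma rt3_one {n : ℕ} (s : Fin n → Fin 3) : rt3 1 s = rot s := rfl

lemma rt3_two {n : ℕ} (s : Fin n → Fin 3) : rt3 2 s = rot (rot s) := by
  funext i
  show s i + 2 = s i + 1 + 1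
  rw [add_assoc]
  rfl

lemma mean_rt {m : ℕ} (hm : 0 < m) (F : (Fin m → Fin 3) → ℝ) :
    mean m F = (∑ a : Fin 3, Eu m (fun t => F (rt3 a (sw m t)))) / 3 := by
  have h1 := Pool.Agent.IW.MC.mean_words hm F
  have h2 : ∀ f : List Bool → ℝ, Eu m f = Pool.Agent.IW.MC.mw m f := by
    intro f
    unfold Eu Pool.Agent.IW.MC.mw
    rw [EF.sawF_eq]
  rw [Fin.sum_univ_three, h2, h2, h2, h1]
  simp only [rt3_zero, rt3_one, rt3_two]

/-- the factor of the rotation -/
noncomputable def cr (a : Fin 3) : ℂ := om ^ (a : ℕ)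

lemma cr_norm (a : Fin 3) : ‖cr a‖ = 1 := by
  unfold cr
  rw [norm_pow, om_norm, one_pow]

lemma pos_rt3 (a : Fin 3) {n : ℕ} (s : Fin n → Fin 3) (k : ℕ) : pos (rt3 a s) k = cr a * pos s k := by
  unfold cr
  fin_cases a
  · show pos (rt3 0 s) k = om ^ 0 * pos s k
    rw [rt3_zero, pow_zero, one_mul]
  · show pos (rot s) k = om ^ 1 * pos s k
    rw [pos_rot, pow_one]
  · show pos (rt3 2 s) k = om ^ 2 * pos s k
    rw [rt3_two, pos_rot, pos_rot, pow_two, mul_assoc]

/-- the curve of a rotated word -/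
lemma curve_rt {m : ℕ} (hm : 1 ≤ m) (a : Fin 3) (t : List Bool) :
    sg m • curve (rt3 a (sw m t)) = pn (cz (cr a) t) m := curve_word hm fun k hk => by
  rw [pos_rt3, pos_sw m t k hk]
  rfl

lemma sg_pos {n : ℕ} (hn : 1 ≤ n) : 0 < sg n := div_pos (size_pos hn) (nr_pos hn)

/-- the curve of the first `n` letters in the scaling of `n` -/
lemma part_rt {n m : ℕ} (hn : 1 ≤ n) (hm : n ≤ m) (a : Fin 3) {t : List Bool} (ht : t.length = m) :
    ((sg n)⁻¹ : ℝ) • pT (cr a) t n = rs ((size m / size n, rt2 n m), curve (rt3 a (sw m t))) := by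
  have h1 := curve_rt (hn.trans hm) a t
  rw [pT_of_le (by omega), pn_part hn hm, ← h1]
  ext u
  show ((sg n)⁻¹ : ℝ) • ((nr m / nr n) • (sg m • curve (rt3 a (sw m t)) (tsc (rt2 n m) u))) =
    (size m / size n) • curve (rt3 a (sw m t)) (tsc (rt2 n m) u)
  rw [smul_smul, smul_smul]
  congr 1
  unfold sg
  have p1 := (nr_pos hn).ne'
  have p2 := (nr_pos (hn.trans hm)).ne'
  have p3 := (size_pos hn).ne'
  field_simp

/-- the first steps -/
lemma take_rt {m j : ℕ} (hj : j ≤ m) (a : Fin 3) (t : List Bool) :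
    (List.ofFn (rt3 a (sw m t))).take j = List.ofFn (rt3 a (sw j (t.take j))) := by
  apply List.ext_getElem
  · rw [List.length_take, List.length_ofFn, List.length_ofFn]
    omega
  · intro i h1 h2
    rw [List.getElem_take, List.getElem_ofFn, List.getElem_ofFn]
    rw [List.length_ofFn] at h2
    show NTF.aa (dx up t i) + a = NTF.aa (dx up (t.take j) i) + a
    rw [Pool.Agent.IW.dx_take t j i h2.le]

/-! ### 3. Means -/

lemma Eu_congr {n : ℕ} {f g : List Bool → ℝ} (h : ∀ t, t.length = n → f t = g t) : Eu n f = Eu n g := by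
  unfold Eu
  congr 1
  refine sum_congr rfl fun t ht => h t ?_
  rw [EF.sawF_eq] at ht
  exact (mem_wdN.1 ht).1

lemma Eu_dist {n : ℕ} {f g d : List Bool → ℝ} (h : ∀ t, t.length = n → |f t - g t| ≤ d t) : |Eu n f - Eu n g| ≤ Eu n d := by
  unfold Eu
  rw [← sub_div, ← sum_sub_distrib, abs_div, abs_of_nonneg (Nat.cast_nonneg (cS n) : (0 : ℝ) ≤ cS n)]
  refine div_le_div_of_nonneg_right ?_ (Nat.cast_nonneg _)
  refine (abs_sum_le_sum_abs _ _).trans (sum_le_sum fun t ht => h t ?_)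
  rw [EF.sawF_eq] at ht
  exact (mem_wdN.1 ht).1

/-- the function of the words: the curve of the first `n` letters -/
noncomputable def FG (G : C(unitInterval, ℂ) → ℝ) (n : ℕ) (a : Fin 3) (t : List Bool) : ℝ :=
  G (((sg n)⁻¹ : ℝ) • pT (cr a) t n)

/-- the function of the first letters -/
noncomputable def gF (Φ : List (Fin 3) → ℝ) (j : ℕ) (a : Fin 3) (x : List Bool) : ℝ := Φ (List.ofFn (rt3 a (sw j x)))

variable {Φ : List (Fin 3) → ℝ} {G : C(unitInterval, ℂ) → ℝ}

/-- `n` steps -/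
lemma mean_n {n j : ℕ} (hn : 1 ≤ n) (hj : j ≤ n) :
    mean n (fun s => Φ ((List.ofFn s).take j) * G (curve s)) =
      (∑ a : Fin 3, Eu n (fun t => gF Φ j a (t.take j) * FG G n a t)) / 3 := by
  rw [mean_rt hn]
  congr 1
  refine sum_congr rfl fun a _ => Eu_congr fun t ht => ?_
  rw [take_rt hj]
  unfold gF FG
  have h1 := curve_rt hn a t
  rw [pT_of_le (by omega), ← h1, smul_smul, inv_mul_cancel₀ (sg_pos hn).ne', one_smul]

/-- `m ≥ n` steps -/
lemma mean_m (hΦ : ∀ x, |Φ x| ≤ 1) (hG : ∀ γ, |G γ| ≤ 1) (hL : LipschitzWith 1 G) {n m j : ℕ} (hn : 1 ≤ n) (hm : n ≤ m)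
    (hj : j ≤ m) :
    |mean m (fun s => Φ ((List.ofFn s).take j) * G (curve s)) -
      (∑ a : Fin 3, Eu m (fun t => gF Φ j a (t.take j) * FG G n a t)) / 3| ≤
      ∫ γ, dd ((size m / size n, rt2 n m), γ) ∂(law m) := by
  have hm1 : 1 ≤ m := hn.trans hm
  have e1 : ∫ γ, dd ((size m / size n, rt2 n m), γ) ∂(law m) =
      mean m (fun s => dd ((size m / size n, rt2 n m), curve s)) :=
    integral_law fun γ => dd ((size m / size n, rt2 n m), γ)
  rw [e1, mean_rt hm1, mean_rt hm1, ← sub_div, ← sum_sub_distrib, abs_div, abs_of_pos (by norm_num : (0 : ℝ) < 3)]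
  refine div_le_div_of_nonneg_right ?_ (by norm_num)
  refine (abs_sum_le_sum_abs _ _).trans (sum_le_sum fun a _ => Eu_dist fun t ht => ?_)
  rw [take_rt hj]
  unfold gF FG
  rw [part_rt hn hm a ht, ← mul_sub, abs_mul]
  have h1 := hΦ (List.ofFn (rt3 a (sw j (t.take j))))
  have h2 : |G (curve (rt3 a (sw m t))) - G (rs ((size m / size n, rt2 n m), curve (rt3 a (sw m t))))| ≤
      dd ((size m / size n, rt2 n m), curve (rt3 a (sw m t))) := by
    unfold dd
    refine le_min ?_ ?_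
    · have a1 := abs_le.1 (hG (curve (rt3 a (sw m t))))
      have a2 := abs_le.1 (hG (rs ((size m / size n, rt2 n m), curve (rt3 a (sw m t)))))
      rw [abs_le]
      constructor <;> linarith [a1.1, a1.2, a2.1, a2.2]
    · have := hL.dist_le_mul (curve (rt3 a (sw m t))) (rs ((size m / size n, rt2 n m), curve (rt3 a (sw m t))))
      rw [Real.dist_eq, NNReal.coe_one, one_mul] at this
      exact this
  calc _ ≤ 1 * |G (curve (rt3 a (sw m t))) - G (rs ((size m / size n, rt2 n m), curve (rt3 a (sw m t))))| :=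
        mul_le_mul_of_nonneg_right h1 (abs_nonneg _)
    _ ≤ _ := by
        rw [one_mul]
        exact h2

lemma dist_smul_le {r : ℝ} (hr : 0 ≤ r) (x y : C(unitInterval, ℂ)) : dist (r • x) (r • y) ≤ r * dist x y := by
  refine (ContinuousMap.dist_le (mul_nonneg hr dist_nonneg)).2 fun u => ?_
  have e : dist ((r • x) u) ((r • y) u) = r * dist (x u) (y u) := by
    show dist (r • x u) (r • y u) = _
    rw [dist_eq_norm, dist_eq_norm, ← smul_sub, norm_smul, Real.norm_eq_abs, abs_of_nonneg hr]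
  rw [e]
  exact mul_le_mul_of_nonneg_left (ContinuousMap.dist_apply_le_dist u) hr

/-- the function of the curve hardly sees the end -/
lemma endRob_FG (hL : LipschitzWith 1 G) {c0 : ℝ} (hc0 : 0 < c0) (hsg : ∀ n, 1 ≤ n → c0 ≤ sg n) {ρ τ : ℝ} (hρ : 0 < ρ)
    (hτ : 2 * ρ / c0 ≤ τ) {n : ℕ} (hn : 1 ≤ n) (hn2 : 1 ≤ ρ * nr n) (a : Fin 3) :
    EndRob (ρ * (n : ℝ) ^ (3 / 4 : ℝ)) τ (FG G n a) := by
  intro A Y hY
  have p1 := nr_pos hn
  have hR : ∀ i, i ≤ Y.length → HexObs.TIW.hn (vx oo up Y i) < (⌈ρ * nr n⌉₊ : ℕ) := by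
    intro i hi
    have h1 : ((HexObs.TIW.hn (vx oo up Y i) : ℤ) : ℝ) < ((⌈ρ * nr n⌉₊ : ℕ) : ℝ) := (hY i hi).trans_le (Nat.le_ceil _)
    exact_mod_cast h1
  have h2 := pT_end (cr_norm a) hR (A := A) hn
  have h3 : ((⌈ρ * nr n⌉₊ : ℕ) : ℝ) ≤ 2 * (ρ * nr n) := by
    have := (Nat.ceil_lt_add_one (by positivity : (0 : ℝ) ≤ ρ * nr n)).le
    linarith
  have h4 : dist (pT (cr a) (A ++ Y) n) (pT (cr a) A n) ≤ 2 * ρ := by
    refine h2.trans ?_
    rw [div_le_iff₀ p1]
    linarith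
  unfold FG
  have h5 := hL.dist_le_mul (((sg n)⁻¹ : ℝ) • pT (cr a) (A ++ Y) n) (((sg n)⁻¹ : ℝ) • pT (cr a) A n)
  rw [Real.dist_eq, NNReal.coe_one, one_mul] at h5
  refine (h5.trans (dist_smul_le (inv_pos.2 (sg_pos hn)).le _ _)).trans (le_trans ?_ hτ)
  have h6 : (sg n)⁻¹ ≤ c0⁻¹ := inv_anti₀ hc0 (hsg n hn)
  calc (sg n)⁻¹ * dist (pT (cr a) (A ++ Y) n) (pT (cr a) A n) ≤ c0⁻¹ * (2 * ρ) :=
        mul_le_mul h6 h4 dist_nonneg (inv_nonneg.2 hc0.le)
    _ = 2 * ρ / c0 := by ring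

/-! ### 4. The end -/

/-- **B1 from the word part** -/
theorem bc1_of (hW : WordT) : BC1 := by
  intro ε hε
  obtain ⟨c0, C0, hc0, hsz⟩ := (oneFacts finE).sz
  have hsg : ∀ n, 1 ≤ n → c0 ≤ sg n := by
    intro n hn
    unfold sg
    rw [le_div_iff₀ (nr_pos hn)]
    exact (hsz n hn).1
  obtain ⟨τ, hτ, h1⟩ := hW (ε / 2) (by positivity)
  obtain ⟨ρ, hρ⟩ : ∃ ρ : ℝ, ρ = c0 * τ / 2 := ⟨_, rfl⟩
  have hρ0 : 0 < ρ := by
    rw [hρ]
    positivity
  have hρτ : 2 * ρ / c0 ≤ τ := by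
    rw [hρ, div_le_iff₀ hc0]
    linarith
  obtain ⟨δ1, hδ1, n1, h2⟩ := h1 ρ hρ0
  obtain ⟨δ2, hδ2, h3⟩ := rep_small (half_pos hε)
  obtain ⟨n2, hn2⟩ := exists_nat_ge (1 / δ2)
  obtain ⟨n3, hn3⟩ := eventually_atTop.1 (nr_atTop.eventually_ge_atTop (1 / ρ))
  refine ⟨min δ1 δ2, lt_min hδ1 hδ2, max (max n1 n2) (max n3 1), fun n h j hn hh hj Φ hΦ G hG hL => ?_⟩
  have g1 : n1 ≤ n := ((le_max_left _ _).trans (le_max_left _ _)).trans hn
  have g2 : n2 ≤ n := ((le_max_right _ _).trans (le_max_left _ _)).trans hn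
  have g3 : n3 ≤ n := ((le_max_left _ _).trans (le_max_right _ _)).trans hn
  have g4 : 1 ≤ n := ((le_max_right _ _).trans (le_max_right _ _)).trans hn
  have hn0 : (0 : ℝ) ≤ n := Nat.cast_nonneg n
  have hjn : j ≤ n := by
    have : (j : ℝ) ≤ n := hj.trans (by nlinarith)
    exact_mod_cast this
  have hj2 : (j : ℝ) ≤ (1 - ε / 2) * n := hj.trans (by nlinarith)
  have hh1 : (h : ℝ) ≤ δ1 * n := hh.trans (mul_le_mul_of_nonneg_right (min_le_left _ _) hn0)
  have hh2 : (h : ℝ) ≤ δ2 * n := hh.trans (mul_le_mul_of_nonneg_right (min_le_right _ _) hn0)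
  have hnr : 1 ≤ ρ * nr n := by
    have := hn3 n g3
    rw [div_le_iff₀ hρ0] at this
    linarith
  have k1 := mean_n (Φ := Φ) (G := G) g4 hjn
  have k2 := mean_m hΦ hG hL g4 (Nat.le_add_right n h) (hjn.trans (Nat.le_add_right n h))
  have k3 := h3 n h (hn2.trans (by exact_mod_cast g2)) hh2
  have k4 : ∀ a : Fin 3, |Eu (n + h) (fun t => gF Φ j a (t.take j) * FG G n a t) -
      Eu n (fun t => gF Φ j a (t.take j) * FG G n a t)| ≤ ε / 2 := fun a =>
    h2 n h j g1 hh1 hj2 (gF Φ j a) (FG G n a) (fun x => hΦ _) (fun x => hG _)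
      (endRob_FG hL hc0 hsg hρ0 hρτ g4 hnr a)
  have k5 : |(∑ a : Fin 3, Eu (n + h) (fun t => gF Φ j a (t.take j) * FG G n a t)) / 3 -
      (∑ a : Fin 3, Eu n (fun t => gF Φ j a (t.take j) * FG G n a t)) / 3| ≤ ε / 2 := by
    rw [← sub_div, ← sum_sub_distrib, abs_div, abs_of_pos (by norm_num : (0 : ℝ) < 3), div_le_iff₀ (by norm_num)]
    refine (abs_sum_le_sum_abs _ _).trans ((sum_le_sum fun a _ => k4 a).trans ?_)
    rw [sum_const, card_univ, Fintype.card_fin, nsmul_eq_mul]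
    push_cast
    linarith
  rw [k1]
  have k6 := abs_le.1 k2
  have k7 := abs_le.1 k5
  rw [abs_le]
  constructor <;> linarith [k6.1, k6.2, k7.1, k7.2]

end BP

end Pool.Agent.TSW
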