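import Pool.Agent.TSW.BCWDefs
import Pool.Agent.CRT.PreTh
import Pool.Agent.PW.TipN

/-!
TSW, bulk coupling, row B1 (helper29): **`wordT_of : SlowAll → WordT`**. The mean of (a function of the first `j` letters) times
(a robust function) hardly sees a small change of the number of letters: a cut-off of the walks whose vertex number `j` is near the
end makes the product a functional that hardly sees a small end; the cut-off costs little by `CRT.far_th`.
-/

set_option autoImplicit false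

open scoped Classical

namespace Pool.Agent.TSW

open Finset HexObs HexObs.TS HexObs.SDN HexObs.TIW HexObs.MCP

/-- the cut-off: the vertex number `j` exists and is not near the end -/
noncomputable def xj (j : ℕ) (R : ℝ) (t : List Bool) : ℝ :=
  if j ≤ t.length then max 0 (min 1 ((hn (vx oo up t j - en t) : ℝ) / R - 1)) else 0

lemma xj_nonneg (j : ℕ) (R : ℝ) (t : List Bool) : 0 ≤ xj j R t := by
  unfold xj
  split_ifs
  · exact le_max_left _ _
  · exact le_rfl

lemma xj_le_one (j : ℕ) (R : ℝ) (t : List Bool) : xj j R t ≤ 1 := by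
  unfold xj
  split_ifs
  · exact max_le zero_le_one (min_le_left _ _)
  · exact zero_le_one

lemma xj_one {j : ℕ} {R : ℝ} (hR : 0 < R) {t : List Bool} (hj : j ≤ t.length)
    (h : 2 * R ≤ hn (vx oo up t j - en t)) : xj j R t = 1 := by
  unfold xj
  rw [if_pos hj]
  have h1 : 1 ≤ (hn (vx oo up t j - en t) : ℝ) / R - 1 := by
    rw [le_sub_iff_add_le, le_div_iff₀ hR]
    linarith
  rw [min_eq_left h1, max_eq_right zero_le_one]

/-- a small end after the vertex number `j` hardly changes the cut-off -/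
lemma xj_rob {j : ℕ} {R r : ℝ} (hR : 0 < R) {A Y : List Bool} (hj : j ≤ A.length) (hY : (hn (en Y) : ℝ) ≤ r) :
    |xj j R (A ++ Y) - xj j R A| ≤ r / R := by
  have e1 : vx oo up (A ++ Y) j = vx oo up A j := vx_append (by omega)
  have hj2 : j ≤ (A ++ Y).length := by
    rw [List.length_append]
    omega
  unfold xj
  rw [if_pos hj, if_pos hj2, e1]
  refine (abs_max_sub_max_le_max _ _ _ _).trans ?_
  rw [sub_self, abs_zero, max_eq_right (abs_nonneg _)]
  refine (abs_min_sub_min_le_max _ _ _ _).trans ?_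
  rw [sub_self, abs_zero, max_eq_right (abs_nonneg _), sub_sub_sub_cancel_right, ← sub_div, abs_div, abs_of_pos hR]
  refine div_le_div_of_nonneg_right ?_ hR.le
  have h1 : hn (vx oo up A j - en (A ++ Y)) ≤ hn (vx oo up A j - en A) + hn (en Y) := by
    rw [OscA.en_app, ← hn_mulE (nrm_rt A) (en Y)]
    have e2 : vx oo up A j - (en A + mulE (rt A) (en Y)) = vx oo up A j - en A - mulE (rt A) (en Y) := by
      rw [sub_sub]
    rw [e2]
    exact hn_sub _ _
  have h2 : hn (vx oo up A j - en A) ≤ hn (vx oo up A j - en (A ++ Y)) + hn (en Y) := by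
    rw [OscA.en_app, ← hn_mulE (nrm_rt A) (en Y)]
    have e2 : vx oo up A j - en A = vx oo up A j - (en A + mulE (rt A) (en Y)) + mulE (rt A) (en Y) := by
      rw [← sub_sub, sub_add_cancel]
    have h3 := hn_add (vx oo up A j - (en A + mulE (rt A) (en Y))) (mulE (rt A) (en Y))
    rw [← e2] at h3
    exact h3
  have h3 : (hn (vx oo up A j - en (A ++ Y)) : ℝ) ≤ hn (vx oo up A j - en A) + hn (en Y) := by exact_mod_cast h1
  have h4 : (hn (vx oo up A j - en A) : ℝ) ≤ hn (vx oo up A j - en (A ++ Y)) + hn (en Y) := by exact_mod_cast h2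
  rw [abs_le]
  constructor <;> linarith

/-- if the vertex number `j` is in the small end, then the cut-off is zero -/
lemma xj_zero {j : ℕ} {R r : ℝ} (hR : 0 < R) (hr : 2 * r ≤ R) {A Y : List Bool} (hj : A.length < j)
    (hY : ∀ i, i ≤ Y.length → (hn (vx oo up Y i) : ℝ) < r) : xj j R (A ++ Y) = 0 := by
  unfold xj
  split_ifs with h
  · obtain ⟨i, hi⟩ : ∃ i, j = A.length + i := ⟨j - A.length, by omega⟩
    rw [List.length_append] at h
    have h1 : vx oo up (A ++ Y) j - en (A ++ Y) = mulE (rt A) (vx oo up Y i - en Y) := by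
      rw [hi, vx_app, OscA.en_app, mulE_sub, add_sub_add_left_eq_sub]
    rw [h1, hn_mulE (nrm_rt A)]
    have h2 : (hn (vx oo up Y i - en Y) : ℝ) ≤ hn (vx oo up Y i) + hn (en Y) := by exact_mod_cast hn_sub _ _
    have h3 := hY i (by omega)
    have h4 : (hn (en Y) : ℝ) < r := hY Y.length le_rfl
    refine max_eq_left ((min_le_right _ _).trans ?_)
    rw [sub_nonpos, div_le_one hR]
    linarith
  · rfl

/-- the product with the cut-off hardly sees a small end -/
lemma H_rob {j : ℕ} {R r τ τ' : ℝ} (hR : 0 < R) (hr : 2 * r ≤ R) (hτ' : r / R ≤ τ') (hτ0 : 0 ≤ τ + τ') {g F : List Bool → ℝ}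
    (hg : ∀ x, |g x| ≤ 1) (hF : ∀ x, |F x| ≤ 1) {A Y : List Bool} (hFr : |F (A ++ Y) - F A| ≤ τ)
    (hY : ∀ i, i ≤ Y.length → (hn (vx oo up Y i) : ℝ) < r) :
    |g ((A ++ Y).take j) * (F (A ++ Y) * xj j R (A ++ Y)) - g (A.take j) * (F A * xj j R A)| ≤ τ + τ' := by
  rcases le_or_gt j A.length with h | h
  · rw [List.take_append_of_le_length h, ← mul_sub, abs_mul]
    have h1 : |xj j R (A ++ Y) - xj j R A| ≤ τ' := (xj_rob hR h (hY Y.length le_rfl).le).trans hτ'
    have h2 : |F (A ++ Y) * xj j R (A ++ Y) - F A * xj j R A| ≤ τ + τ' := by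
      have e : F (A ++ Y) * xj j R (A ++ Y) - F A * xj j R A =
          (F (A ++ Y) - F A) * xj j R (A ++ Y) + F A * (xj j R (A ++ Y) - xj j R A) := by ring
      rw [e]
      refine (abs_add_le _ _).trans (add_le_add ?_ ?_)
      · rw [abs_mul, abs_of_nonneg (xj_nonneg _ _ _)]
        calc |F (A ++ Y) - F A| * xj j R (A ++ Y) ≤ |F (A ++ Y) - F A| * 1 :=
              mul_le_mul_of_nonneg_left (xj_le_one _ _ _) (abs_nonneg _)
          _ ≤ τ := by rw [mul_one]; exact hFr
      · rw [abs_mul]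
        calc |F A| * |xj j R (A ++ Y) - xj j R A| ≤ 1 * τ' := mul_le_mul (hF A) h1 (abs_nonneg _) zero_le_one
          _ = τ' := one_mul _
    calc |g (A.take j)| * |F (A ++ Y) * xj j R (A ++ Y) - F A * xj j R A| ≤ 1 * (τ + τ') :=
          mul_le_mul (hg _) h2 (abs_nonneg _) zero_le_one
      _ = τ + τ' := one_mul _
  · have e1 : xj j R A = 0 := by
      unfold xj
      rw [if_neg (by omega)]
    rw [xj_zero hR hr h hY, e1, mul_zero, mul_zero, mul_zero, mul_zero, sub_zero, abs_zero]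
    exact hτ0

lemma H_le {j : ℕ} {R : ℝ} {g F : List Bool → ℝ} (hg : ∀ x, |g x| ≤ 1) (hF : ∀ x, |F x| ≤ 1) (t : List Bool) :
    |g (t.take j) * (F t * xj j R t)| ≤ 1 := by
  rw [abs_mul, abs_mul, abs_of_nonneg (xj_nonneg _ _ _)]
  refine mul_le_one₀ (hg _) (mul_nonneg (abs_nonneg _) (xj_nonneg _ _ _)) ?_
  exact mul_le_one₀ (hF _) (xj_nonneg _ _ _) (xj_le_one _ _ _)

/-- the cut-off costs only the walks whose vertex number `j` is near the end -/
lemma cut_xj (n j : ℕ) (R : ℝ) {g F : List Bool → ℝ} (hg : ∀ x, |g x| ≤ 1) (hF : ∀ x, |F x| ≤ 1) :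
    |Eu n (fun t => g (t.take j) * F t) - Eu n (fun t => g (t.take j) * (F t * xj j R t))| ≤ 1 - Eu n (xj j R) := by
  rw [← Eu_sub]
  refine (Eu_abs _ _).trans ?_
  have e : 1 - Eu n (xj j R) = Eu n (fun t => 1 - xj j R t) := by rw [Eu_sub, Eu_one]
  rw [e]
  refine Eu_mono fun t => ?_
  have h1 := xj_le_one j R t
  have e1 : g (t.take j) * F t - g (t.take j) * (F t * xj j R t) = g (t.take j) * (F t * (1 - xj j R t)) := by ring
  rw [e1, abs_mul, abs_mul, abs_of_nonneg (by linarith : 0 ≤ 1 - xj j R t)]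
  calc |g (t.take j)| * (|F t| * (1 - xj j R t)) ≤ 1 * (1 * (1 - xj j R t)) :=
        mul_le_mul (hg _) (mul_le_mul_of_nonneg_right (hF _) (by linarith))
          (mul_nonneg (abs_nonneg _) (by linarith)) zero_le_one
    _ = 1 - xj j R t := by rw [one_mul, one_mul]

lemma Eu_mono' {n : ℕ} {F G : List Bool → ℝ} (h : ∀ t ∈ sawF n, F t ≤ G t) : Eu n F ≤ Eu n G :=
  div_le_div_of_nonneg_right (sum_le_sum h) (Nat.cast_nonneg _)

/-- **the word part of B1** -/
theorem wordT_of (hS : SlowAll) : WordT := by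
  intro ε hε
  obtain ⟨τ, hτ, hS⟩ := hS (ε / 8) (by positivity)
  obtain ⟨c, k1, hfar⟩ := HexObs.CRT.far_th (θ := ε) (ε := ε / 8) hε (by positivity)
  obtain ⟨s, hs⟩ := exists_pow_lt_of_lt_one (show 0 < τ / 2 by positivity) (show (1 / 2 : ℝ) < 1 by norm_num)
  obtain ⟨a, A, ha, -, hpow⟩ := TIP.NQ.scale_pow
  refine ⟨τ / 2, by positivity, fun ρ hρ => ?_⟩
  obtain ⟨c4, hc4⟩ := exists_pow_lt_of_lt_one (show 0 < ρ * a by positivity) (show (1 / 2 : ℝ) < 1 by norm_num)
  obtain ⟨c2, k2, hS⟩ := hS (c + 2 + s + c4)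
  obtain ⟨n0, hn0⟩ := exists_nat_ge (PW.mZ (2 ^ (k1 + k2 + (c + 2 + s + c4))))
  refine ⟨(1 / 2) ^ c2, by positivity, n0, fun n h j hnn hh hj g F hg hF hrob => ?_⟩
  obtain ⟨k, hk, hsc⟩ := PWN.sc_ex (hn0.trans (by exact_mod_cast hnn : (n0 : ℝ) ≤ n))
  have hh' : h * 2 ^ c2 ≤ n := by
    have h1 : (h : ℝ) * 2 ^ c2 ≤ n := by
      calc (h : ℝ) * 2 ^ c2 ≤ (1 / 2) ^ c2 * n * 2 ^ c2 := mul_le_mul_of_nonneg_right hh (by positivity)
        _ = n := by
          rw [one_div, inv_pow]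
          field_simp
    exact_mod_cast h1
  -- the two radii
  obtain ⟨R, hR⟩ : ∃ R : ℝ, R = 2 ^ (k - (c + 1)) := ⟨_, rfl⟩
  obtain ⟨r, hr⟩ : ∃ r : ℝ, r = 2 ^ (k - (c + 2 + s + c4)) := ⟨_, rfl⟩
  have hR0 : 0 < R := by rw [hR]; positivity
  have hr0 : 0 < r := by rw [hr]; positivity
  have e1 : 2 * R = 2 ^ (k - c) := by
    rw [hR, ← pow_succ']
    congr 1
    omega
  have e2 : R = 2 ^ (s + c4 + 1) * r := by
    rw [hR, hr, ← pow_add]
    congr 1
    omega
  have hrR : 2 * r ≤ R := by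
    rw [e2]
    refine mul_le_mul_of_nonneg_right ?_ hr0.le
    calc (2 : ℝ) = 2 ^ 1 := (pow_one _).symm
      _ ≤ 2 ^ (s + c4 + 1) := pow_le_pow_right₀ (by norm_num) (by omega)
  have hrR' : r / R ≤ τ / 2 := by
    rw [div_le_iff₀ hR0, e2]
    have h1 : (1 : ℝ) ≤ τ / 2 * 2 ^ s := by
      have h2 : (1 / 2 : ℝ) ^ s * 2 ^ s = 1 := by
        rw [← mul_pow]
        norm_num
      calc (1 : ℝ) = (1 / 2 : ℝ) ^ s * 2 ^ s := h2.symm
        _ ≤ τ / 2 * 2 ^ s := mul_le_mul_of_nonneg_right hs.le (by positivity)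
    have h2 : (1 : ℝ) ≤ τ / 2 * 2 ^ (s + c4 + 1) := by
      refine h1.trans (mul_le_mul_of_nonneg_left ?_ (by positivity))
      exact pow_le_pow_right₀ (by norm_num) (by omega)
    calc r = 1 * r := (one_mul _).symm
      _ ≤ τ / 2 * 2 ^ (s + c4 + 1) * r := mul_le_mul_of_nonneg_right h2 hr0.le
      _ = τ / 2 * (2 ^ (s + c4 + 1) * r) := by ring
  have hrn : r ≤ ρ * (n : ℝ) ^ (3 / 4 : ℝ) := by
    have h1 := (hpow k n hsc.1 hsc.2).1
    have h2 : r = (1 / 2) ^ (c + 2 + s + c4) * 2 ^ k := by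
      have h3 : (2 : ℝ) ^ k = 2 ^ (c + 2 + s + c4) * r := by
        rw [hr, ← pow_add]
        congr 1
        omega
      rw [h3, ← mul_assoc, ← mul_pow]
      norm_num
    calc r = (1 / 2) ^ (c + 2 + s + c4) * 2 ^ k := h2
      _ ≤ (1 / 2) ^ c4 * 2 ^ k := by
          refine mul_le_mul_of_nonneg_right ?_ (by positivity)
          exact pow_le_pow_of_le_one (by norm_num) (by norm_num) (by omega)
      _ ≤ ρ * a * 2 ^ k := mul_le_mul_of_nonneg_right hc4.le (by positivity)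
      _ = ρ * (a * 2 ^ k) := by ring
      _ ≤ _ := mul_le_mul_of_nonneg_left h1 hρ.le
  -- the slow change of the product with the cut-off
  have key : ∀ g F : List Bool → ℝ, (∀ x, |g x| ≤ 1) → (∀ x, |F x| ≤ 1) → EndRob (ρ * (n : ℝ) ^ (3 / 4 : ℝ)) (τ / 2) F →
      |Eu (n + h) (fun t => g (t.take j) * (F t * xj j R t)) - Eu n (fun t => g (t.take j) * (F t * xj j R t))| ≤ ε / 8 := by
    intro g F hg hF hrob
    refine hS k n h (by omega) hsc hh' _ (H_le hg hF) fun A Y _ hY => ?_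
    have hY' : ∀ i, i ≤ Y.length → (hn (vx oo up Y i) : ℝ) < r := by
      intro i hi
      have h1 : ((hn (vx oo up Y i) : ℤ) : ℝ) < ((2 ^ (k - (c + 2 + s + c4)) : ℤ) : ℝ) := by exact_mod_cast hY i hi
      push_cast at h1
      rw [hr]
      exact h1
    have h1 := H_rob (j := j) hR0 hrR hrR' (by linarith : (0 : ℝ) ≤ τ / 2 + τ / 2) hg hF
      (hrob A Y fun i hi => (hY' i hi).trans_le hrn) hY'
    linarith
  have k1' := key g F hg hF hrob
  have k2' := key (fun _ => 1) (fun _ => 1) (fun _ => by rw [abs_one]) (fun _ => by rw [abs_one])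
    (fun _ _ _ => by rw [sub_self, abs_zero]; positivity)
  have e4 : (fun t : List Bool => (fun _ => (1 : ℝ)) (t.take j) * ((fun _ => (1 : ℝ)) t * xj j R t)) = xj j R := by
    funext t
    rw [one_mul, one_mul]
  rw [e4] at k2'
  have c1 := cut_xj n j R hg hF
  have c2' := cut_xj (n + h) j R hg hF
  have c3 : 1 - Eu n (xj j R) ≤ ε / 8 := by
    refine le_trans ?_ (hfar k n (by omega) hsc)
    have e5 : 1 - Eu n (xj j R) = Eu n (fun t => 1 - xj j R t) := by rw [Eu_sub, Eu_one]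
    rw [Pn_Eu, e5]
    refine Eu_mono' fun t ht => ?_
    by_cases h1 : ∃ i : ℕ, (i : ℝ) ≤ (1 - ε) * n ∧ hn (vx oo up t i - TIW.en t) < 2 ^ (k - c)
    · rw [TIP.ind_pos (show t ∈ {t | ∃ i : ℕ, (i : ℝ) ≤ (1 - ε) * n ∧ hn (vx oo up t i - TIW.en t) < 2 ^ (k - c)} from h1)]
      linarith [xj_nonneg j R t]
    · push Not at h1
      have h2 := h1 j hj
      have h3 : j ≤ t.length := by
        rw [(mem_sawF.1 ht).1]
        have h4 : (0 : ℝ) ≤ ε * n := by positivity
        have h5 : (j : ℝ) ≤ n := by linarith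
        exact_mod_cast h5
      have h6 : 2 * R ≤ hn (vx oo up t j - en t) := by
        rw [e1]
        exact_mod_cast h2
      rw [xj_one hR0 h3 h6, sub_self]
      exact TIP.ind_nonneg _
  have a1 := abs_le.1 k1'
  have a2 := abs_le.1 k2'
  have a3 := abs_le.1 c1
  have a4 := abs_le.1 c2'
  rw [abs_le]
  constructor
  · linarith [a1.1, a2.1, a3.2, a4.1]
  · linarith [a1.2, a2.1, a3.1, a4.2]

end Pool.Agent.TSW
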