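import Pool.Agent.TSW.Res
import Pool.Agent.IW.ResJ

/-!
TSW, bulk coupling (doc next/46f0ca_14b): the literal of the shift lemma (literal: helper29; file: helper41).
-/

set_option autoImplicit false

open MeasureTheory Filter Topology ENNReal
open scoped Classical

namespace Pool.Agent.TSW

open Pool.Agent.NTS.Res
open Pool.Agent.IW.Res (mean)

/-- **the shift of the time**: the window around the step `k` against the window around the step `k + u`, the curve up to the
sign -/
def ShiftT : Prop := ∀ ε : ℝ, 0 < ε → ∃ δ : ℝ, 0 < δ ∧ ∃ n0 : ℕ, ∀ n k u m : ℕ, n0 ≤ n → ε * n ≤ k → (k : ℝ) ≤ (1 - ε) * n →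
  (u : ℝ) ≤ δ * n → (m : ℝ) ≤ δ * n → ∀ (S : Set (Fin (2 * m) → Bool)) (G : C(unitInterval, ℂ) → ℝ), (∀ g, |G g| ≤ 1) →
    LipschitzWith 1 G → (∀ g, G (-g) = G g) →
    |mean n (fun s => (if seen s (k + u) ∈ cyl (-(m : ℤ)) S then 1 else 0) * G (curve s)) -
      mean n (fun s => (if seen s k ∈ cyl (-(m : ℤ)) S then 1 else 0) * G (curve s))| ≤ ε

end Pool.Agent.TSW
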