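import Pool.Agent.TSW.RevC
import Pool.Agent.TSW.BCDefs
import Pool.Agent.TSW.ShiftDefs

/-!
# TSW, BC, row B2 and the shift of the time (helper29)

* `bc2` : the reversal of B1: any function of the last `j` steps times a function of the curve; the steps are added at the
  start, the curve changes its sign with the parity;
* **`shiftT`** : the time of the window can be shifted by `u ≤ δ n`, for functions of the curve up to the sign.
-/

set_option autoImplicit false

open MeasureTheory Filter Topology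
open scoped Classical

namespace Pool.Agent.TSW

open Pool.Agent.NTS.Res

open Pool.Agent.IW.Res (mean)

open HexObs.SIM (rv rv_rv pos_rv rv_mem)

lemma mean_eq (n : ℕ) (F : (Fin n → Fin 3) → ℝ) : mean n F = (∑ s ∈ saw n, F s) / ((saw n).card : ℝ) := rfl

lemma mean_rv {n : ℕ} (F : (Fin n → Fin 3) → ℝ) : mean n (fun s => F (rv s)) = mean n F := by
  rw [mean_eq, mean_eq, sum_rv]

lemma sgn_sgn (n h : ℕ) (x : C(unitInterval, ℂ)) : (-1 : ℂ) ^ h • (-1 : ℂ) ^ (n + h) • x = (-1 : ℂ) ^ n • x := by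
  rw [smul_smul, pow_add]
  congr 1
  have : ((-1 : ℂ) ^ h) * (-1) ^ h = 1 := by
    rw [← mul_pow]
    norm_num
  linear_combination ((-1 : ℂ) ^ n) * this

/-- **B2** -/
def BC2 : Prop := ∀ ε : ℝ, 0 < ε → ∃ δ : ℝ, 0 < δ ∧ ∃ n0 : ℕ, ∀ n h j : ℕ, n0 ≤ n → (h : ℝ) ≤ δ * n →
  (j : ℝ) ≤ (1 - ε) * n → ∀ Φ : List (Fin 3) → ℝ, (∀ x, |Φ x| ≤ 1) → ∀ G : C(unitInterval, ℂ) → ℝ, (∀ γ, |G γ| ≤ 1) →
    LipschitzWith 1 G →
    |mean (n + h) (fun s => Φ ((List.ofFn (rv s)).take j) * G ((-1 : ℂ) ^ h • curve s)) -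
      mean n (fun s => Φ ((List.ofFn (rv s)).take j) * G (curve s))| ≤ ε

theorem bc2 (hB : BC1) : BC2 := by
  intro ε hε
  obtain ⟨δ, hδ, n0, h⟩ := hB (ε / 2) (by positivity)
  refine ⟨δ, hδ, n0, fun n h' j hn hh hj Φ hΦ G hG hL => ?_⟩
  have hn0 : (0 : ℝ) ≤ n := Nat.cast_nonneg n
  have h1 := h n h' j hn hh (hj.trans (mul_le_mul_of_nonneg_right (by linarith) hn0)) Φ hΦ
    (fun γ => 1 / 2 * G ((-1 : ℂ) ^ n • Rc γ)) (fun γ => by
      rw [abs_mul, abs_of_pos (by norm_num : (0 : ℝ) < 1 / 2)]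
      linarith [hG ((-1 : ℂ) ^ n • Rc γ)]) (by
      refine LipschitzWith.of_dist_le_mul fun x y => ?_
      have h2 := (lip_comp hL n).dist_le_mul x y
      rw [Real.dist_eq] at h2 ⊢
      rw [← mul_sub, abs_mul, abs_of_pos (by norm_num : (0 : ℝ) < 1 / 2)]
      push_cast at h2 ⊢
      linarith)
  have e1 : mean n (fun s => Φ ((List.ofFn (rv s)).take j) * G (curve s)) =
      mean n (fun s => Φ ((List.ofFn s).take j) * G ((-1 : ℂ) ^ n • Rc (curve s))) := by
    rw [← mean_rv]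
    refine congrArg _ (funext fun s => ?_)
    rw [rv_rv, curve_rv]
  have e2 : mean (n + h') (fun s => Φ ((List.ofFn (rv s)).take j) * G ((-1 : ℂ) ^ h' • curve s)) =
      mean (n + h') (fun s => Φ ((List.ofFn s).take j) * G ((-1 : ℂ) ^ n • Rc (curve s))) := by
    rw [← mean_rv]
    refine congrArg _ (funext fun s => ?_)
    rw [rv_rv, curve_rv, sgn_sgn]
  rw [e1, e2]
  have e3 : ∀ m : ℕ, mean m (fun s => Φ ((List.ofFn s).take j) * (1 / 2 * G ((-1 : ℂ) ^ n • Rc (curve s)))) =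
      1 / 2 * mean m (fun s => Φ ((List.ofFn s).take j) * G ((-1 : ℂ) ^ n • Rc (curve s))) := by
    intro m
    unfold mean
    rw [← mul_div_assoc, Finset.mul_sum]
    congr 1
    refine Finset.sum_congr rfl fun s _ => ?_
    ring
  rw [e3, e3, ← mul_sub, abs_mul, abs_of_pos (by norm_num : (0 : ℝ) < 1 / 2)] at h1
  linarith

/-- the turns of a list of steps -/
def turnL (l : List (Fin 3)) (i : ℕ) : Bool := if h : i + 1 < l.length then decide (l[i + 1] - l[i] = 2) else false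

lemma turnL_take {n : ℕ} (s : Fin n → Fin 3) {i j : ℕ} (hij : i + 1 < j) (hj : j ≤ n) :
    turnL ((List.ofFn s).take j) i = turn s i := by
  unfold turnL turn
  have hl : i + 1 < ((List.ofFn s).take j).length := by
    rw [List.length_take, List.length_ofFn]
    omega
  rw [dif_pos hl, dif_pos (by omega : i + 1 < n)]
  simp only [List.getElem_take, List.getElem_ofFn]

lemma seen_eq {n : ℕ} (s : Fin n → Fin 3) {k m : ℕ} (hm : m ≤ k) (j : Fin (2 * m)) :
    seen s k (-(m : ℤ) + (j : ℕ)) = turn s (k - m + j) := by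
  unfold seen
  have h1 : (0 : ℤ) ≤ (k : ℤ) + (-(m : ℤ) + (j : ℕ)) := by omega
  rw [if_pos h1]
  congr 1
  omega

/-- the window as a function of the first steps -/
lemma win_first {n : ℕ} (s : Fin n → Fin 3) {k m : ℕ} (hm : m ≤ k) (hk : k + m + 1 ≤ n) (S : Set (Fin (2 * m) → Bool)) :
    seen s k ∈ cyl (-(m : ℤ)) S ↔ (fun j : Fin (2 * m) => turnL ((List.ofFn s).take (k + m + 1)) (k - m + j)) ∈ S := by
  unfold cyl
  rw [Set.mem_ofPred_eq]
  have h : (fun j : Fin (2 * m) => seen s k (-(m : ℤ) + (j : ℕ))) =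
      fun j : Fin (2 * m) => turnL ((List.ofFn s).take (k + m + 1)) (k - m + j) := by
    funext j
    have hj := j.2
    rw [seen_eq s hm j, turnL_take s (by omega) hk]
  rw [h]

/-- the window as a function of the last steps -/
lemma win_last {n : ℕ} {s : Fin n → Fin 3} (hs : s ∈ saw n) {k m : ℕ} (hm : m ≤ k) (hk : k + m + 1 ≤ n) {c : ℕ}
    (hc : c + k = n) (S : Set (Fin (2 * m) → Bool)) :
    seen s k ∈ cyl (-(m : ℤ)) S ↔
      (fun j : Fin (2 * m) => !turnL ((List.ofFn (rv s)).take (c + m)) (c + m - 2 - j)) ∈ S := by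
  unfold cyl
  rw [Set.mem_ofPred_eq]
  have h : (fun j : Fin (2 * m) => seen s k (-(m : ℤ) + (j : ℕ))) =
      fun j : Fin (2 * m) => !turnL ((List.ofFn (rv s)).take (c + m)) (c + m - 2 - j) := by
    funext j
    have hj := j.2
    rw [seen_eq s hm j, turnL_take (rv s) (by omega) (by omega)]
    have h1 := turn_rvs hs (i := c + m - 2 - j) (by omega)
    have e : rvs n s = rv s := rfl
    rw [e] at h1
    rw [h1, Bool.not_not]
    congr 1
    omega
  rw [h]

lemma mean_congr {n : ℕ} {F F' : (Fin n → Fin 3) → ℝ} (h : ∀ s ∈ saw n, F s = F' s) : mean n F = mean n F' := by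
  rw [mean_eq, mean_eq, Finset.sum_congr rfl h]

theorem shiftT (hB : BC1) : ShiftT := by
  intro ε hε
  obtain ⟨δ1, hδ1, n1, h1⟩ := hB (ε / 2) (by positivity)
  obtain ⟨δ2, hδ2, n2, h2⟩ := bc2 hB (ε / 2) (by positivity)
  obtain ⟨δ, hδ⟩ : ∃ δ, δ = min (min δ1 δ2) (ε / 16) := ⟨_, rfl⟩
  have hδ0 : 0 < δ := by rw [hδ]; exact lt_min (lt_min hδ1 hδ2) (by positivity)
  have hδa : δ ≤ δ1 := by rw [hδ]; exact (min_le_left _ _).trans (min_le_left _ _)
  have hδb : δ ≤ δ2 := by rw [hδ]; exact (min_le_left _ _).trans (min_le_right _ _)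
  have hδc : δ ≤ ε / 16 := by rw [hδ]; exact min_le_right _ _
  refine ⟨δ, hδ0, max (max n1 n2) ⌈8 / ε⌉₊, fun n k u m hn hk1 hk2 hu hm S G hG hL hE => ?_⟩
  have hn1 : n1 ≤ n := (le_max_left _ _).trans ((le_max_left _ _).trans hn)
  have hn2 : n2 ≤ n := (le_max_right _ _).trans ((le_max_left _ _).trans hn)
  have hn3 : 8 ≤ ε * n := by
    have e1 : (8 / ε : ℝ) ≤ n := (Nat.le_ceil _).trans (by exact_mod_cast (le_max_right _ _).trans hn)
    rw [div_le_iff₀ hε] at e1
    linarith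
  have hn0 : (0 : ℝ) ≤ n := Nat.cast_nonneg n
  have hmε : (m : ℝ) ≤ ε / 16 * n := hm.trans (mul_le_mul_of_nonneg_right hδc hn0)
  have huε : (u : ℝ) ≤ ε / 16 * n := hu.trans (mul_le_mul_of_nonneg_right hδc hn0)
  have hu1 : (u : ℝ) ≤ δ1 * n := hu.trans (mul_le_mul_of_nonneg_right hδa hn0)
  have hu2 : (u : ℝ) ≤ δ2 * n := hu.trans (mul_le_mul_of_nonneg_right hδb hn0)
  have hmk : m ≤ k := by
    have : (m : ℝ) ≤ k := by linarith
    exact_mod_cast this
  have hku : k + u + m + 1 ≤ n := by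
    have : ((k + u + m + 1 : ℕ) : ℝ) ≤ n := by
      push_cast
      linarith
    exact_mod_cast this
  obtain ⟨c, hc⟩ : ∃ c : ℕ, c = n - k := ⟨_, rfl⟩
  have hck : c + k = n := by omega
  -- at the start
  obtain ⟨Φ2, hΦ2⟩ : ∃ Φ2 : List (Fin 3) → ℝ, Φ2 = fun l =>
    if (fun j : Fin (2 * m) => !turnL l (c + m - 2 - j)) ∈ S then 1 else 0 := ⟨_, rfl⟩
  have hΦ2a : ∀ x, |Φ2 x| ≤ 1 := by
    intro x
    rw [hΦ2]
    simp only
    split_ifs <;> norm_num
  have a1 := h2 n u (c + m) hn2 hu2 (by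
    have : ((c + m : ℕ) : ℝ) = n - k + m := by
      rw [Nat.cast_add, hc, Nat.cast_sub (by omega)]
    rw [this]
    linarith) Φ2 hΦ2a G hG hL
  have b1 : mean n (fun s => Φ2 ((List.ofFn (rv s)).take (c + m)) * G (curve s)) =
      mean n (fun s => (if seen s k ∈ cyl (-(m : ℤ)) S then 1 else 0) * G (curve s)) := by
    refine mean_congr fun s hs => ?_
    rw [hΦ2]
    simp only
    rw [win_last hs hmk (by omega) hck S]
  have hGs : ∀ (h : ℕ) (g : C(unitInterval, ℂ)), G ((-1 : ℂ) ^ h • g) = G g := by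
    intro h g
    rcases Nat.even_or_odd h with he | ho
    · rw [he.neg_one_pow, one_smul]
    · rw [ho.neg_one_pow]
      have e : (-1 : ℂ) • g = -g := by
        ext x
        show (-1 : ℂ) * g x = -(g x)
        ring
      rw [e, hE]
  have b2 : mean (n + u) (fun s => Φ2 ((List.ofFn (rv s)).take (c + m)) * G ((-1 : ℂ) ^ u • curve s)) =
      mean (n + u) (fun s => (if seen s (k + u) ∈ cyl (-(m : ℤ)) S then 1 else 0) * G (curve s)) := by
    refine mean_congr fun s hs => ?_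
    rw [hΦ2, hGs]
    simp only
    rw [win_last hs (show m ≤ k + u by omega) (by omega) (show c + (k + u) = n + u by omega) S]
  rw [b1, b2] at a1
  -- at the end
  obtain ⟨Φ1, hΦ1⟩ : ∃ Φ1 : List (Fin 3) → ℝ, Φ1 = fun l =>
    if (fun j : Fin (2 * m) => turnL l (k + u - m + j)) ∈ S then 1 else 0 := ⟨_, rfl⟩
  have hΦ1a : ∀ x, |Φ1 x| ≤ 1 := by
    intro x
    rw [hΦ1]
    simp only
    split_ifs <;> norm_num
  have a2 := h1 n u (k + u + m + 1) hn1 hu1 (by
    push_cast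
    linarith) Φ1 hΦ1a G hG hL
  have b3 : ∀ N : ℕ, k + u + m + 1 ≤ N → mean N (fun s => Φ1 ((List.ofFn s).take (k + u + m + 1)) * G (curve s)) =
      mean N (fun s => (if seen s (k + u) ∈ cyl (-(m : ℤ)) S then 1 else 0) * G (curve s)) := by
    intro N hN
    refine mean_congr fun s _ => ?_
    rw [hΦ1]
    simp only
    rw [win_first s (show m ≤ k + u by omega) hN S]
  rw [b3 n hku, b3 (n + u) (by omega)] at a2
  rw [abs_le] at a1 a2 ⊢
  constructor
  · linarith [a1.1, a2.2]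
  · linarith [a1.2, a2.1]

end Pool.Agent.TSW
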