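import Pool.Agent.TSW.BC1O
import Pool.Agent.TSW.BC1Pub
import Pool.Agent.TSW.BC1W
import Pool.Agent.TSW.ShiftT

/-!
TSW, bulk coupling (helper29): the shift of the time, without hypotheses.
-/

set_option autoImplicit false

namespace Pool.Agent.TSW

/-- the word part of B1 -/
theorem wordT : WordT := wordT_of HexObs.BCO.slowAll

/-- **B1** -/
theorem bc1 : BC1 := BP.bc1_of wordT

/-- **the shift of the time** -/
theorem shiftT_all : ShiftT := shiftT bc1

end Pool.Agent.TSW
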