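import Pool.Agent.TSW.LayA

/-!
# Two-sided walk, layer A (helper41): the walk of the turns, self-avoidance, reflection and reversal

* `disp_seen` : displacements of the finite walks; `ae_disp` : almost surely self-avoiding;
* `map_neg`, `map_rev` : reflection and reversal;
* **`qOk : DenF → BulkF → ∃ Q, QOk Q`**.
-/

set_option autoImplicit false

open MeasureTheory Filter Topology Set
open scoped ENNReal Classical

namespace Pool.Agent.TSW

open Pool.Agent.NTS.Res

variable {n m : ℕ}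

/-! ### one turn -/

/-- the sixth root of unity -/
noncomputable def w6 : ℂ := Complex.exp (Real.pi / 3 * Complex.I)

lemma w6_cube : w6 ^ 3 = -1 := by
  unfold w6
  rw [← Complex.exp_nat_mul]
  have : ((3 : ℕ) : ℂ) * (Real.pi / 3 * Complex.I) = Real.pi * Complex.I := by
    push_cast
    ring
  rw [this, Complex.exp_pi_mul_I]

lemma w6_ne : w6 ≠ 0 := Complex.exp_ne_zero _

lemma step_w6 (i : ℕ) (a : Fin 3) : step i a = (-1) ^ i * w6 ^ (2 * (a : ℕ)) := by
  unfold step w6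
  rw [← Complex.exp_nat_mul]
  congr 2
  push_cast
  ring

lemma exp_sg (b : Bool) : Complex.exp (Real.pi / 3 * Complex.I * ((sg b : ℤ) : ℂ)) = if b then w6 else w6⁻¹ := by
  unfold sg w6
  cases b
  · rw [if_neg (by decide), if_neg (by decide), ← Complex.exp_neg]
    congr 1
    push_cast
    ring
  · rw [if_pos rfl, if_pos rfl]
    congr 1
    push_cast
    ring

lemma w6_inv : w6⁻¹ = -w6 ^ 2 := by
  have h := w6_cube
  have h0 := w6_ne
  field_simp
  linear_combination h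

lemma w6_six : w6 ^ 6 = 1 := by
  linear_combination (w6 ^ 3 - 1) * w6_cube

lemma w6_mod (k : ℕ) : w6 ^ k = w6 ^ (k % 6) := by
  conv_lhs => rw [← Nat.div_add_mod k 6, pow_add, pow_mul, w6_six, one_pow, one_mul]

lemma turn_table : ∀ a b : Fin 3, a ≠ b →
    (decide (b - a = 2) = true ∧ (2 * (b : ℕ) + 3) % 6 = (2 * (a : ℕ) + 1) % 6) ∨
      (decide (b - a = 2) = false ∧ (2 * (b : ℕ) + 3) % 6 = (2 * (a : ℕ) + 5) % 6) := by
  decide

lemma step_turn (i : ℕ) {a b : Fin 3} (h : a ≠ b) :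
    step (i + 1) b = step i a * Complex.exp (Real.pi / 3 * Complex.I * ((sg (decide (b - a = 2)) : ℤ) : ℂ)) := by
  have e0 : step (i + 1) b = (-1) ^ i * w6 ^ (2 * (b : ℕ) + 3) := by
    rw [step_w6, pow_succ, pow_add w6, w6_cube]
    ring
  have e5 : w6⁻¹ = w6 ^ 5 := by
    have h0 := w6_ne
    field_simp
    linear_combination -w6_six
  rw [exp_sg, e0, step_w6]
  rcases turn_table a b h with ⟨h1, h2⟩ | ⟨h1, h2⟩
  · rw [h1, if_pos rfl, w6_mod (2 * (b : ℕ) + 3), h2, ← w6_mod, pow_succ]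
    ring
  · rw [h1, if_neg (by decide), e5, w6_mod (2 * (b : ℕ) + 3), h2, ← w6_mod, pow_add]
    ring

lemma step_back (i : ℕ) (a : Fin 3) : step i a + step (i + 1) a = 0 := by
  unfold step
  rw [pow_succ]
  ring

/-- no step back -/
lemma no_back {s : Fin n → Fin 3} (hs : s ∈ saw n) {i : ℕ} (hi : i + 1 < n) :
    s ⟨i, Nat.lt_of_succ_lt hi⟩ ≠ s ⟨i + 1, hi⟩ := by
  intro he
  have h1 := NTSF.pos_succ s i (Nat.lt_of_succ_lt hi)
  have h2 := NTSF.pos_succ s (i + 1) hi
  rw [h1, ← he, add_assoc (pos s i), step_back, add_zero] at h2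
  have := NTSF.mem_saw.1 hs (i + 1 + 1) i hi (by omega) h2
  omega

lemma turn_step {s : Fin n → Fin 3} (hs : s ∈ saw n) {i : ℕ} (hi : i + 1 < n) :
    step (i + 1) (s ⟨i + 1, hi⟩) = step i (s ⟨i, Nat.lt_of_succ_lt hi⟩) *
      Complex.exp (Real.pi / 3 * Complex.I * ((sg (turn s i) : ℤ) : ℂ)) := by
  rw [step_turn i (no_back hs hi)]
  unfold turn
  rw [dif_pos hi]

/-- the turns as natural partial sums -/
noncomputable def ts (s : Fin n → Fin 3) (i k : ℕ) : ℤ := ∑ l ∈ Finset.range k, sg (turn s (i + l))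

lemma step_sum {s : Fin n → Fin 3} (hs : s ∈ saw n) {i k : ℕ} (hi : i + k < n) :
    step (i + k) (s ⟨i + k, hi⟩) = step i (s ⟨i, by omega⟩) *
      Complex.exp (Real.pi / 3 * Complex.I * ((ts s i k : ℤ) : ℂ)) := by
  induction k with
  | zero => simp [ts]
  | succ k ih =>
    have h1 := turn_step hs (i := i + k) (by omega)
    have h2 := ih (by omega)
    have h3 : step (i + (k + 1)) (s ⟨i + (k + 1), hi⟩) = step (i + k + 1) (s ⟨i + k + 1, by omega⟩) := rfl
    rw [h3, h1, h2, mul_assoc, ← Complex.exp_add]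
    congr 2
    unfold ts
    rw [Finset.sum_range_succ]
    push_cast
    ring

lemma pos_sum {s : Fin n → Fin 3} (hs : s ∈ saw n) {i : ℕ} (hi : i < n) (k : ℕ) (hk : i + k ≤ n) :
    pos s (i + k) = pos s i + step i (s ⟨i, hi⟩) *
      ∑ j ∈ Finset.range k, Complex.exp (Real.pi / 3 * Complex.I * ((ts s i j : ℤ) : ℂ)) := by
  induction k with
  | zero => simp
  | succ k ih =>
    have h1 := NTSF.pos_succ s (i + k) (by omega)
    have h2 : pos s (i + (k + 1)) = pos s (i + k + 1) := rfl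
    rw [h2, h1, ih (by omega), step_sum hs (by omega), Finset.sum_range_succ]
    ring

/-- the displacements of the finite walks -/
theorem disp_seen {s : Fin n → Fin 3} (hs : s ∈ saw n) {i : ℕ} (hi : i < n) {a : ℤ} {m : ℕ} (ha : 0 ≤ (i : ℤ) + a)
    (hn : (((i : ℤ) + a).toNat) < n) (hm : ((i : ℤ) + a).toNat + m ≤ n) :
    pos s (((i : ℤ) + a).toNat + m) - pos s (((i : ℤ) + a).toNat) =
      step ((i : ℤ) + a).toNat (s ⟨((i : ℤ) + a).toNat, hn⟩) * disp (seen s i) a m := by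
  rw [pos_sum hs hn m hm, add_sub_cancel_left]
  congr 1
  unfold disp
  refine Finset.sum_congr rfl fun k _ => ?_
  congr 3
  unfold ts
  refine Finset.sum_congr rfl fun l _ => ?_
  rw [seen_nat s ha l]

/-! ### self-avoidance -/

/-- the patterns that close up -/
def ZP (m : ℕ) : Set (Fin m → Bool) := {p | ∑ k ∈ Finset.range m, Complex.exp (Real.pi / 3 * Complex.I *
  ((∑ l ∈ Finset.range k, sg (if h : l < m then p ⟨l, h⟩ else false) : ℤ) : ℂ)) = 0}

lemma mem_ZP {ω : ℤ → Bool} {a : ℤ} {m : ℕ} : ω ∈ cyl a (ZP m) ↔ disp ω a m = 0 := by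
  rw [mem_cyl]
  unfold ZP disp
  rw [mem_ofPred_eq]
  have h1 : ∀ k ∈ Finset.range m, Complex.exp (Real.pi / 3 * Complex.I *
      ((∑ l ∈ Finset.range k, sg (if h : l < m then ω (a + ((⟨l, h⟩ : Fin m) : ℕ)) else false) : ℤ) : ℂ)) =
      Complex.exp (Real.pi / 3 * Complex.I * ((∑ l ∈ Finset.range k, sg (ω (a + l)) : ℤ) : ℂ)) := by
    intro k hk
    rw [Finset.mem_range] at hk
    congr 3
    refine Finset.sum_congr rfl fun l hl => ?_
    rw [Finset.mem_range] at hl
    rw [dif_pos (by omega)]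
  rw [Finset.sum_congr rfl h1]

lemma hits_ZP {s : Fin n → Fin 3} (hs : s ∈ saw n) {m : ℕ} (hm : 1 ≤ m) (a b : ℕ) : hits s (ZP m) a b = 0 := by
  unfold hits
  rw [Finset.card_eq_zero, Finset.filter_eq_empty_iff]
  rintro i - ⟨h1, h2⟩
  have h3 := seen_cyl s (i := i) (a := 0) (by omega) (ZP m)
  have h4 : ((i : ℤ) + 0).toNat = i := by omega
  rw [h4] at h3
  have h5 := mem_ZP.1 (h3.2 h2)
  have h6 := disp_seen hs (i := i) (by omega) (a := 0) (m := m) (by omega) (by omega) (by omega)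
  rw [h5, mul_zero, h4, sub_eq_zero] at h6
  have := NTSF.mem_saw.1 hs (i + m) i (by omega) (by omega) h6
  omega

lemma den_ZP {m : ℕ} (hm : 1 ≤ m) : Den (ZP m) 0 := by
  intro ε hε
  refine Eventually.of_forall fun n => ?_
  have h1 : ∀ s ∈ saw n, ¬ ∃ a b : ℕ, a ≤ b ∧ b ≤ n ∧ ε * n < |(hits s (ZP m) a b : ℝ) - 0 * ((b : ℝ) - a)| := by
    rintro s hs ⟨a, b, -, -, h⟩
    rw [hits_ZP hs hm, Nat.cast_zero, zero_mul, sub_zero, abs_zero] at h
    have : 0 ≤ ε * n := by positivity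
    linarith
  rw [Finset.filter_false_of_mem h1, Finset.card_empty, Nat.cast_zero]
  positivity

/-- **almost surely self-avoiding** -/
theorem ae_disp {Q : Measure (ℤ → Bool)} (hQ : QD Q) : ∀ᵐ ω ∂Q, ∀ (a : ℤ) (m : ℕ), 1 ≤ m → disp ω a m ≠ 0 := by
  have := hQ.prob
  rw [ae_all_iff]
  intro a
  rw [ae_all_iff]
  intro m
  by_cases hm : 1 ≤ m
  · have h1 := (hQ.den m (ZP m) a).unique (den_ZP hm)
    have h2 : Q (cyl a (ZP m)) = 0 := (measureReal_eq_zero_iff (measure_ne_top _ _)).1 h1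
    have h3 : ∀ᵐ ω ∂Q, ω ∉ cyl a (ZP m) := measure_eq_zero_iff_ae_notMem.1 h2
    filter_upwards [h3] with ω hω _ h0
    exact hω (mem_ZP.2 h0)
  · exact Eventually.of_forall fun ω h => absurd h hm

/-! ### reflection and reversal -/

/-- the means of the numbers of windows -/
lemma mean_lim {S : Set (Fin m → Bool)} {ρ : ℝ} (h : Den S ρ) :
    Tendsto (fun n : ℕ => (∑ s ∈ saw n, (hits s S 0 n : ℝ)) / (n * (saw n).card)) atTop (𝓝 ρ) := by
  rw [Metric.tendsto_atTop]
  intro ε hε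
  obtain ⟨N1, hN1⟩ := eventually_atTop.1 (h.mean (ε := ε / 4) (by positivity))
  refine ⟨max N1 1, fun n hn => ?_⟩
  have hn0 : (0 : ℝ) < n := by
    have : 1 ≤ n := (le_max_right _ _).trans hn
    exact_mod_cast this
  have hc := NTSF.saw_card_pos n
  have hd : (0 : ℝ) < n * (saw n).card := by positivity
  have h1 := hN1 n ((le_max_left _ _).trans hn)
  rw [Real.dist_eq]
  have e1 : (∑ s ∈ saw n, (hits s S 0 n : ℝ)) / (n * (saw n).card) - ρ =
      ((∑ s ∈ saw n, (hits s S 0 n : ℝ)) - ρ * (n * (saw n).card)) / (n * (saw n).card) := by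
    field_simp
  rw [e1, abs_div, abs_of_pos hd, div_lt_iff₀ hd]
  nlinarith

/-- a symmetry of the finite walks is a symmetry of Q -/
lemma sym_of {Q : Measure (ℤ → Bool)} (hQ : QD Q) (S S' : Set (Fin m → Bool)) (a a' : ℤ)
    (F : ∀ n : ℕ, (Fin n → Fin 3) → (Fin n → Fin 3)) (hF : ∀ n, ∀ s ∈ saw n, F n s ∈ saw n) (hF2 : ∀ n s, F n (F n s) = s)
    (h : ∀ n, ∀ s ∈ saw n, hits s S' 0 n = hits (F n s) S 0 n) : Q (cyl a' S') = Q (cyl a S) := by
  have := hQ.prob
  have h1 := mean_lim (hQ.den m S a)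
  have h2 := mean_lim (hQ.den m S' a')
  have h3 : (fun n : ℕ => (∑ s ∈ saw n, (hits s S' 0 n : ℝ)) / (n * (saw n).card)) =
      fun n : ℕ => (∑ s ∈ saw n, (hits s S 0 n : ℝ)) / (n * (saw n).card) := by
    funext n
    congr 1
    have h4 : ∑ s ∈ saw n, (hits s S' 0 n : ℝ) = ∑ s ∈ saw n, (hits (F n s) S 0 n : ℝ) :=
      Finset.sum_congr rfl fun s hs => by rw [h n s hs]
    rw [h4]
    exact Finset.sum_nbij' (F n) (F n) (hF n) (hF n) (fun s _ => hF2 n s) (fun s _ => hF2 n s) fun s _ => rfl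
  rw [h3] at h2
  have h4 := tendsto_nhds_unique h2 h1
  exact (ENNReal.toReal_eq_toReal_iff' (measure_ne_top _ _) (measure_ne_top _ _)).1 h4

/-- reflection -/
def cj (n : ℕ) (s : Fin n → Fin 3) : Fin n → Fin 3 := fun i => -s i

lemma step_cj (i : ℕ) (a : Fin 3) : step i (-a) = (starRingEnd ℂ) (step i a) := by
  have h1 : (starRingEnd ℂ) w6 = w6⁻¹ := by
    unfold w6
    rw [← Complex.exp_conj, ← Complex.exp_neg]
    congr 1
    rw [map_mul, Complex.conj_I, map_div₀, Complex.conj_ofReal, map_ofNat]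
    ring
  have h5 : w6⁻¹ = w6 ^ 5 := by
    have h0 := w6_ne
    field_simp
    linear_combination -w6_six
  rw [step_w6, step_w6, map_mul, map_pow, map_pow, map_neg, map_one, h1, h5, ← pow_mul]
  congr 1
  rw [w6_mod (2 * ((-a : Fin 3) : ℕ)), w6_mod (5 * (2 * (a : ℕ)))]
  have h2 : ∀ a : Fin 3, 2 * ((-a : Fin 3) : ℕ) % 6 = 5 * (2 * (a : ℕ)) % 6 := by decide
  rw [h2]

lemma pos_cj (s : Fin n → Fin 3) (k : ℕ) : pos (cj n s) k = (starRingEnd ℂ) (pos s k) := by
  unfold pos cj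
  rw [map_sum]
  exact Finset.sum_congr rfl fun i _ => step_cj _ _

lemma cj_saw {s : Fin n → Fin 3} (hs : s ∈ saw n) : cj n s ∈ saw n := by
  refine NTSF.mem_saw.2 fun j k hj hk h => NTSF.mem_saw.1 hs j k hj hk ?_
  rw [pos_cj, pos_cj] at h
  exact (starRingEnd ℂ).injective h

lemma turn_cj {s : Fin n → Fin 3} (hs : s ∈ saw n) {i : ℕ} (hi : i + 1 < n) : turn (cj n s) i = !turn s i := by
  unfold turn
  rw [dif_pos hi, dif_pos hi]
  have h1 := no_back hs hi
  have h2 : ∀ a b : Fin 3, a ≠ b → decide (-b - -a = 2) = !decide (b - a = 2) := by decide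
  exact h2 _ _ h1

/-- **reflection** -/
theorem map_neg {Q : Measure (ℤ → Bool)} (hQ : QD Q) : Q.map (fun (ω : ℤ → Bool) (j : ℤ) => !ω j) = Q := by
  have := hQ.prob
  have hc : Continuous fun (ω : ℤ → Bool) (j : ℤ) => !ω j := by
    refine continuous_pi fun j => ?_
    exact (continuous_of_discreteTopology (f := Bool.not)).comp (continuous_apply j)
  have : IsProbabilityMeasure (Q.map fun (ω : ℤ → Bool) (j : ℤ) => !ω j) :=
    Measure.isProbabilityMeasure_map hc.measurable.aemeasurable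
  refine ext_cyl fun m a S => ?_
  rw [Measure.map_apply hc.measurable (measurableSet_cyl a S)]
  have h1 : (fun (ω : ℤ → Bool) (j : ℤ) => !ω j) ⁻¹' cyl a S = cyl a {p : Fin m → Bool | (fun j => !p j) ∈ S} := rfl
  rw [h1]
  refine sym_of hQ S _ a a cj (fun n s hs => cj_saw hs) (fun n s => ?_) fun n s hs => ?_
  · funext i
    unfold cj
    rw [neg_neg]
  · unfold hits
    congr 1
    refine Finset.filter_congr fun i _ => and_congr_right fun hi => ?_
    rw [mem_ofPred_eq]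
    have h2 : (fun j : Fin m => !turn s (i + j)) = fun j : Fin m => turn (cj n s) (i + j) := by
      funext j
      have := j.2
      exact (turn_cj hs (by omega)).symm
    rw [h2]

/-- reversal -/
def rvs (n : ℕ) (s : Fin n → Fin 3) : Fin n → Fin 3 := fun i => s i.rev

lemma step_par (i j : ℕ) (a : Fin 3) : step i a = (-1) ^ (i + j) * step j a := by
  unfold step
  rw [pow_add]
  have : ((-1 : ℂ) ^ j) * (-1) ^ j = 1 := by
    rw [← pow_add, ← two_mul, pow_mul]
    simp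
  linear_combination (-((-1 : ℂ) ^ i * Complex.exp (2 * (Real.pi : ℂ) * Complex.I * ((a : ℕ) : ℂ) / 3))) * this

lemma pos_rvs (s : Fin n → Fin 3) : ∀ k : ℕ, k ≤ n → pos (rvs n s) k = (-1) ^ (n - 1) * (pos s n - pos s (n - k)) := by
  intro k
  induction k with
  | zero =>
    intro _
    rw [NTSF.pos_zero, Nat.sub_zero, sub_self, mul_zero]
  | succ k ih =>
    intro hk
    rw [NTSF.pos_succ _ k (by omega), ih (by omega)]
    have h1 := NTSF.pos_succ s (n - (k + 1)) (by omega)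
    have h2 : n - (k + 1) + 1 = n - k := by omega
    rw [h2] at h1
    rw [h1]
    have h3 : rvs n s ⟨k, by omega⟩ = s ⟨n - (k + 1), by omega⟩ := by
      unfold rvs
      congr 1
    rw [h3, step_par k (n - (k + 1))]
    have h4 : k + (n - (k + 1)) = n - 1 := by omega
    rw [h4]
    ring

lemma rvs_saw {s : Fin n → Fin 3} (hs : s ∈ saw n) : rvs n s ∈ saw n := by
  refine NTSF.mem_saw.2 fun j k hj hk h => ?_
  rw [pos_rvs s j hj, pos_rvs s k hk] at h
  have h0 : ((-1 : ℂ) ^ (n - 1)) ≠ 0 := pow_ne_zero _ (by norm_num)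
  have h1 := mul_left_cancel₀ h0 h
  have h2 : pos s (n - j) = pos s (n - k) := by linear_combination -h1
  have := NTSF.mem_saw.1 hs (n - j) (n - k) (by omega) (by omega) h2
  omega

lemma turn_rvs {s : Fin n → Fin 3} (hs : s ∈ saw n) {i : ℕ} (hi : i + 1 < n) : turn (rvs n s) i = !turn s (n - 2 - i) := by
  have hj : n - 2 - i + 1 < n := by omega
  unfold turn
  rw [dif_pos hi, dif_pos hj]
  have h1 := no_back hs hj
  have h2 : ∀ a b : Fin 3, a ≠ b → decide (a - b = 2) = !decide (b - a = 2) := by decide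
  have e1 : rvs n s ⟨i + 1, hi⟩ = s ⟨n - 2 - i, by omega⟩ := by
    unfold rvs
    congr 1
    ext
    rw [Fin.val_rev]
    show n - (i + 1 + 1) = n - 2 - i
    omega
  have e2 : rvs n s ⟨i, by omega⟩ = s ⟨n - 2 - i + 1, hj⟩ := by
    unfold rvs
    congr 1
    ext
    rw [Fin.val_rev]
    show n - (i + 1) = n - 2 - i + 1
    omega
  rw [e1, e2]
  exact h2 _ _ h1

/-- the reversed patterns -/
def RP (S : Set (Fin m → Bool)) : Set (Fin m → Bool) := {p | (fun j => !p j.rev) ∈ S}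

lemma hits_rvs {s : Fin n → Fin 3} (hs : s ∈ saw n) (S : Set (Fin m → Bool)) : hits s (RP S) 0 n = hits (rvs n s) S 0 n := by
  unfold hits
  have key : ∀ i, i + m < n → ((fun j : Fin m => turn s (n - 1 - m - i + j)) ∈ RP S ↔
      (fun j : Fin m => turn (rvs n s) (i + j)) ∈ S) := by
    intro i hi
    unfold RP
    rw [mem_ofPred_eq]
    have h2 : (fun j : Fin m => !turn s (n - 1 - m - i + (j.rev : ℕ))) = fun j : Fin m => turn (rvs n s) (i + j) := by
      funext j
      have hj := j.2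
      rw [turn_rvs hs (by omega)]
      congr 2
      rw [Fin.val_rev]
      omega
    rw [h2]
  refine Finset.card_nbij' (fun i => n - 1 - m - i) (fun i => n - 1 - m - i) ?_ ?_ ?_ ?_
  · intro i hi
    rw [Finset.mem_coe, Finset.mem_filter, Finset.mem_Ico] at hi ⊢
    obtain ⟨-, h1, h2⟩ := hi
    beta_reduce
    refine ⟨by omega, by omega, ?_⟩
    refine (key (n - 1 - m - i) (by omega)).1 ?_
    have h3 : n - 1 - m - (n - 1 - m - i) = i := by omega
    rw [h3]
    exact h2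
  · intro i hi
    rw [Finset.mem_coe, Finset.mem_filter, Finset.mem_Ico] at hi ⊢
    obtain ⟨-, h1, h2⟩ := hi
    beta_reduce
    exact ⟨by omega, by omega, (key i h1).2 h2⟩
  · intro i hi
    rw [Finset.mem_coe, Finset.mem_filter, Finset.mem_Ico] at hi
    show n - 1 - m - (n - 1 - m - i) = i
    omega
  · intro i hi
    rw [Finset.mem_coe, Finset.mem_filter, Finset.mem_Ico] at hi
    show n - 1 - m - (n - 1 - m - i) = i
    omega

/-- **reversal** -/
theorem map_rev {Q : Measure (ℤ → Bool)} (hQ : QD Q) : Q.map (fun (ω : ℤ → Bool) (j : ℤ) => !ω (-j)) = Q := by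
  have := hQ.prob
  have hc : Continuous fun (ω : ℤ → Bool) (j : ℤ) => !ω (-j) := by
    refine continuous_pi fun j => ?_
    exact (continuous_of_discreteTopology (f := Bool.not)).comp (continuous_apply (-j))
  have : IsProbabilityMeasure (Q.map fun (ω : ℤ → Bool) (j : ℤ) => !ω (-j)) :=
    Measure.isProbabilityMeasure_map hc.measurable.aemeasurable
  refine ext_cyl fun m a S => ?_
  rw [Measure.map_apply hc.measurable (measurableSet_cyl a S)]
  have h1 : (fun (ω : ℤ → Bool) (j : ℤ) => !ω (-j)) ⁻¹' cyl a S = cyl (-a - m + 1) (RP S) := by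
    ext ω
    rw [mem_preimage, mem_cyl, mem_cyl]
    unfold RP
    rw [mem_ofPred_eq]
    have h2 : (fun j : Fin m => !ω (-(a + (j : ℕ)))) = fun j : Fin m => !ω (-a - m + 1 + ((j.rev : ℕ) : ℤ)) := by
      funext j
      have hj := j.2
      congr 2
      rw [Fin.val_rev]
      omega
    rw [h2]
  rw [h1]
  refine sym_of hQ S _ a _ rvs (fun n s hs => rvs_saw hs) (fun n s => ?_) fun n s hs => hits_rvs hs S
  funext i
  unfold rvs
  rw [Fin.rev_rev]

/-! ### the result -/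

/-- what is known about Q -/
def QOk (Q : Measure (ℤ → Bool)) : Prop := StA Q ∧ ∀ (m : ℕ) (S : Set (Fin m → Bool)) (a : ℤ), Den S (Q.real (cyl a S))

/-- **layer A** -/
theorem qOk (hD : DenF) (hB : BulkF) : ∃ Q : Measure (ℤ → Bool), QOk Q := by
  obtain ⟨Q, h1, h2⟩ := exists_Q hD
  have hQ : QD Q := ⟨h1, h2⟩
  exact ⟨Q, ⟨h1, erg_Q hQ hB, map_neg hQ, map_rev hQ, ae_disp hQ⟩, h2⟩

/-- (b) -/
theorem stB_of {Q : Measure (ℤ → Bool)} (hQ : QOk Q) : StB Q := by
  intro m S ε hε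
  have h0 := hQ.2 m S 0
  have e0 : cyl 0 S = {ω : ℤ → Bool | (fun j : Fin m => ω (j : ℕ)) ∈ S} := by
    ext ω
    rw [mem_cyl]
    simp only [zero_add]
    rfl
  rw [e0] at h0
  obtain ⟨ρ, hρ⟩ : ∃ ρ, ρ = Q.real {ω : ℤ → Bool | (fun j : Fin m => ω (j : ℕ)) ∈ S} := ⟨_, rfl⟩
  rw [← hρ] at h0 ⊢
  rw [Metric.tendsto_atTop]
  intro δ hδ
  obtain ⟨e, he⟩ : ∃ e, e = min ε (δ / 2) := ⟨_, rfl⟩
  have he0 : 0 < e := by
    rw [he]
    exact lt_min hε (half_pos hδ)
  obtain ⟨N, hN⟩ := eventually_atTop.1 (h0 e he0)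
  refine ⟨N, fun n hn => ?_⟩
  have h1 := hN n hn
  have hc := NTSF.saw_card_pos n
  obtain ⟨G, hG⟩ : ∃ G : Finset (Fin n → Fin 3), G = (saw n).filter fun s =>
    ∀ a b : ℕ, a ≤ b → b ≤ n → |(hits s S a b : ℝ) - ρ * ((b : ℝ) - a)| ≤ ε * n := ⟨_, rfl⟩
  rw [← hG]
  have h2 : (saw n).card ≤ G.card + ((saw n).filter fun s => ∃ a b : ℕ, a ≤ b ∧ b ≤ n ∧
      e * n < |(hits s S a b : ℝ) - ρ * ((b : ℝ) - a)|).card := by
    refine (Finset.card_le_card ?_).trans (Finset.card_union_le _ _)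
    intro s hs
    rw [Finset.mem_union, hG, Finset.mem_filter, Finset.mem_filter]
    by_cases h : ∃ a b : ℕ, a ≤ b ∧ b ≤ n ∧ e * n < |(hits s S a b : ℝ) - ρ * ((b : ℝ) - a)|
    · exact Or.inr ⟨hs, h⟩
    · push Not at h
      refine Or.inl ⟨hs, fun a b hab hb => (h a b hab hb).trans ?_⟩
      have : e ≤ ε := by
        rw [he]
        exact min_le_left _ _
      exact mul_le_mul_of_nonneg_right this (Nat.cast_nonneg n)
  have h3 : ((saw n).card : ℝ) ≤ G.card + e * (saw n).card := by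
    have : ((saw n).card : ℝ) ≤ G.card + (((saw n).filter fun s => ∃ a b : ℕ, a ≤ b ∧ b ≤ n ∧
      e * n < |(hits s S a b : ℝ) - ρ * ((b : ℝ) - a)|).card : ℝ) := by exact_mod_cast h2
    linarith
  have h4 : (G.card : ℝ) ≤ (saw n).card := by
    rw [hG]
    exact_mod_cast Finset.card_filter_le _ _
  have he2 : e ≤ δ / 2 := by
    rw [he]
    exact min_le_right _ _
  rw [Real.dist_eq, abs_lt]
  constructor
  · have h5 : 1 - δ / 2 ≤ (G.card : ℝ) / (saw n).card := by
      rw [le_div_iff₀ hc]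
      nlinarith
    linarith
  · have : (G.card : ℝ) / (saw n).card ≤ 1 := by
      rw [div_le_one hc]
      exact h4
    linarith

end Pool.Agent.TSW
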