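import Pool.Agent.TSW.Res

/-!
# TSW, the symmetries of the scaling limits of the two-sided walk (helper69)

* `stat_y` : every weak limit of `Y_k` has stationary increments;
* `self_a` : every weak limit of `Y_k`, `k` with weights `1 / k`, is in addition self-similar with the exponent `3 / 4`.

Integer shifts are exact symmetries (the first step is uniform among the six directions); rounding costs `2 k ^ (-3/4)`; for
real times `r` the dilation is exact, and the logarithmic average of a slowly varying function is dilation invariant.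
-/

set_option autoImplicit false

open Set Filter Topology MeasureTheory
open scoped ENNReal

namespace Pool.Agent.TSW.Sym

open Pool.Agent.TSW

/-- curves -/
abbrev CI : Type := C(unitInterval, ℂ)

/-! ### linear interpolation -/

/-- the number between 0 and 1 next to `x` -/
noncomputable def cl (x : ℝ) : ℝ := max 0 (min 1 x)

lemma cl_zero {x : ℝ} (h : x ≤ 0) : cl x = 0 := by
  unfold cl
  exact max_eq_left ((min_le_right _ _).trans h)

lemma cl_one {x : ℝ} (h : 1 ≤ x) : cl x = 1 := by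
  unfold cl
  rw [min_eq_left h]
  exact max_eq_right zero_le_one

lemma cl_mono {x y : ℝ} (h : x ≤ y) : cl x ≤ cl y := max_le_max le_rfl (min_le_min le_rfl h)

lemma sum_cl (K : ℕ) (x : ℝ) : ∑ j ∈ Finset.range K, cl (x - j) = max 0 (min (K : ℝ) x) := by
  induction K with
  | zero =>
    rw [Finset.sum_range_zero, Nat.cast_zero]
    exact (max_eq_left (min_le_left _ _)).symm
  | succ K ih =>
    rw [Finset.sum_range_succ, ih, Nat.cast_succ]
    have hK : (0 : ℝ) ≤ K := Nat.cast_nonneg K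
    unfold cl
    rcases le_total x K with h | h
    · rw [min_eq_right h, min_eq_right (by linarith : x ≤ (K : ℝ) + 1), min_eq_right (by linarith : x - K ≤ 1),
        max_eq_left (by linarith : x - K ≤ 0), add_zero]
    · rw [min_eq_left h, max_eq_right hK]
      rcases le_total x ((K : ℝ) + 1) with h1 | h1
      · rw [min_eq_right h1, min_eq_right (by linarith : x - K ≤ 1), max_eq_right (by linarith : 0 ≤ x - K),
          max_eq_right (by linarith : 0 ≤ x)]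
        ring
      · rw [min_eq_left h1, min_eq_left (by linarith : 1 ≤ x - K), max_eq_right zero_le_one,
          max_eq_right (by linarith : (0 : ℝ) ≤ K + 1)]

/-- linear interpolation, `K` steps -/
noncomputable def WK (z : ℕ → ℂ) (K : ℕ) (x : ℝ) : ℂ :=
  ∑ j ∈ Finset.range K, ((cl (x - j) : ℝ) : ℂ) * (z (j + 1) - z j)

lemma WK_lip1 {z : ℕ → ℂ} (hz : ∀ j, ‖z (j + 1) - z j‖ ≤ 1) (K : ℕ) {x y : ℝ} (h : y ≤ x) :
    ‖WK z K x - WK z K y‖ ≤ x - y := by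
  unfold WK
  rw [← Finset.sum_sub_distrib]
  have h1 : ∀ j ∈ Finset.range K, ‖((cl (x - j) : ℝ) : ℂ) * (z (j + 1) - z j) -
      ((cl (y - j) : ℝ) : ℂ) * (z (j + 1) - z j)‖ ≤ cl (x - j) - cl (y - j) := by
    intro j _
    have h2 : cl (y - j) ≤ cl (x - j) := cl_mono (by linarith)
    rw [← sub_mul, ← Complex.ofReal_sub, norm_mul, Complex.norm_real, Real.norm_eq_abs, abs_of_nonneg (by linarith)]
    exact mul_le_of_le_one_right (by linarith) (hz j)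
  refine (norm_sum_le_of_le _ h1).trans ?_
  rw [Finset.sum_sub_distrib, sum_cl, sum_cl]
  have h3 : min (K : ℝ) x ≤ min (K : ℝ) y + (x - y) := by
    rcases le_total (K : ℝ) y with h4 | h4
    · rw [min_eq_left h4]
      exact (min_le_left _ _).trans (by linarith)
    · rw [min_eq_right h4]
      exact (min_le_right _ _).trans (by linarith)
  have h4 : max 0 (min (K : ℝ) x) ≤ max 0 (min (K : ℝ) y) + (x - y) := by
    refine max_le ?_ ?_
    · have := le_max_left 0 (min (K : ℝ) y)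
      linarith
    · have := le_max_right 0 (min (K : ℝ) y)
      linarith
  linarith

/-- linear interpolation -/
noncomputable def Wf (z : ℕ → ℂ) (x : ℝ) : ℂ := WK z ⌈x⌉₊ x

lemma WK_eq (z : ℕ → ℂ) {K : ℕ} {x : ℝ} (h : x ≤ K) : WK z K x = Wf z x := by
  unfold Wf WK
  symm
  refine Finset.sum_subset (Finset.range_subset_range.2 (Nat.ceil_le.2 h)) fun j _ hj => ?_
  rw [Finset.mem_range, not_lt] at hj
  have h1 : x ≤ j := (Nat.le_ceil x).trans (by exact_mod_cast hj)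
  rw [cl_zero (by linarith), Complex.ofReal_zero, zero_mul]

lemma Wf_lip {z : ℕ → ℂ} (hz : ∀ j, ‖z (j + 1) - z j‖ ≤ 1) (x y : ℝ) : ‖Wf z x - Wf z y‖ ≤ |x - y| := by
  have key : ∀ x y : ℝ, y ≤ x → ‖Wf z x - Wf z y‖ ≤ x - y := by
    intro x y h
    have hx : x ≤ (⌈x⌉₊ : ℝ) := Nat.le_ceil x
    rw [← WK_eq z hx, ← WK_eq z (h.trans hx)]
    exact WK_lip1 hz _ h
  rcases le_total y x with h | h
  · rw [abs_of_nonneg (by linarith)]
    exact key x y h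
  · rw [norm_sub_rev, abs_sub_comm, abs_of_nonneg (by linarith)]
    exact key y x h

lemma Wf_zero (z : ℕ → ℂ) : Wf z 0 = 0 := by
  unfold Wf WK
  rw [Nat.ceil_zero, Finset.sum_range_zero]

lemma Wf_norm {z : ℕ → ℂ} (hz : ∀ j, ‖z (j + 1) - z j‖ ≤ 1) (x : ℝ) : ‖Wf z x‖ ≤ |x| := by
  have := Wf_lip hz x 0
  rwa [Wf_zero, sub_zero, sub_zero] at this

lemma Wf_congr {z z' : ℕ → ℂ} (h : ∀ j, z (j + 1) - z j = z' (j + 1) - z' j) (x : ℝ) : Wf z x = Wf z' x := by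
  unfold Wf WK
  exact Finset.sum_congr rfl fun j _ => by rw [h j]

lemma Wf_shift (z : ℕ → ℂ) (i : ℕ) {x : ℝ} (hx : 0 ≤ x) : Wf z (i + x) - Wf z i = Wf (fun j => z (i + j)) x := by
  have hK : x ≤ (⌈x⌉₊ : ℝ) := Nat.le_ceil x
  rw [← WK_eq z (K := i + ⌈x⌉₊) (x := i + x) (by push_cast; linarith), ← WK_eq z (K := i) le_rfl]
  unfold Wf WK
  rw [Finset.sum_range_add, add_comm, add_sub_assoc]
  have h1 : ∑ j ∈ Finset.range i, ((cl ((i : ℝ) + x - j) : ℝ) : ℂ) * (z (j + 1) - z j) =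
      ∑ j ∈ Finset.range i, ((cl ((i : ℝ) - j) : ℝ) : ℂ) * (z (j + 1) - z j) := by
    refine Finset.sum_congr rfl fun j hj => ?_
    have h2 : ((j + 1 : ℕ) : ℝ) ≤ i := by exact_mod_cast Finset.mem_range.1 hj
    push_cast at h2
    rw [cl_one (by linarith), cl_one (by linarith)]
  rw [h1, sub_self, add_zero]
  refine Finset.sum_congr rfl fun j _ => ?_
  rw [Nat.cast_add, add_sub_add_left_eq_sub]
  rfl

/-! ### the curves for real times -/

/-- the path up to the time `r`, divided by `r ^ (3 / 4)` -/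
noncomputable def Yr (z : ℕ → ℂ) (hz : ∀ j, ‖z (j + 1) - z j‖ ≤ 1) (r : ℝ) : CI where
  toFun u := ((r ^ (-(3 / 4) : ℝ) : ℝ) : ℂ) * Wf z (u * r)
  continuous_toFun := by
    have h1 : Continuous (Wf z) := by
      refine (LipschitzWith.of_dist_le_mul (K := 1) fun x y => ?_).continuous
      rw [dist_eq_norm, NNReal.coe_one, one_mul, Real.dist_eq]
      exact Wf_lip hz x y
    exact continuous_const.mul (h1.comp (by fun_prop))

lemma Yr_apply {z : ℕ → ℂ} (hz : ∀ j, ‖z (j + 1) - z j‖ ≤ 1) (r : ℝ) (u : unitInterval) :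
    Yr z hz r u = ((r ^ (-(3 / 4) : ℝ) : ℝ) : ℂ) * Wf z (u * r) := rfl

/-- slow change -/
lemma Yr_dist {z : ℕ → ℂ} (hz : ∀ j, ‖z (j + 1) - z j‖ ≤ 1) {a b : ℝ} (ha : 0 < a) (hab : a ≤ b) :
    dist (Yr z hz b) (Yr z hz a) ≤ 2 * ((b - a) * a ^ (-(3 / 4) : ℝ)) := by
  have hb : 0 < b := lt_of_lt_of_le ha hab
  have hA : 0 < a ^ (-(3 / 4) : ℝ) := Real.rpow_pos_of_pos ha _
  have hB : 0 < b ^ (-(3 / 4) : ℝ) := Real.rpow_pos_of_pos hb _
  have hBA : b ^ (-(3 / 4) : ℝ) ≤ a ^ (-(3 / 4) : ℝ) := Real.rpow_le_rpow_of_nonpos ha hab (by norm_num)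
  rw [ContinuousMap.dist_le (by have : 0 ≤ b - a := by linarith
                                positivity)]
  intro u
  have hu0 : (0 : ℝ) ≤ u := u.2.1
  have hu1 : (u : ℝ) ≤ 1 := u.2.2
  rw [dist_eq_norm, Yr_apply, Yr_apply]
  have e : ((b ^ (-(3 / 4) : ℝ) : ℝ) : ℂ) * Wf z (u * b) - ((a ^ (-(3 / 4) : ℝ) : ℝ) : ℂ) * Wf z (u * a) =
      ((b ^ (-(3 / 4) : ℝ) : ℝ) : ℂ) * (Wf z (u * b) - Wf z (u * a)) -
        ((a ^ (-(3 / 4) : ℝ) - b ^ (-(3 / 4) : ℝ) : ℝ) : ℂ) * Wf z (u * a) := by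
    push_cast
    ring
  rw [e]
  refine (norm_sub_le _ _).trans ?_
  rw [norm_mul, norm_mul, Complex.norm_real, Complex.norm_real, Real.norm_eq_abs, Real.norm_eq_abs, abs_of_pos hB,
    abs_of_nonneg (by linarith : 0 ≤ a ^ (-(3 / 4) : ℝ) - b ^ (-(3 / 4) : ℝ))]
  have h1 : ‖Wf z (u * b) - Wf z (u * a)‖ ≤ b - a := by
    refine (Wf_lip hz _ _).trans ?_
    rw [← mul_sub, abs_mul, abs_of_nonneg hu0, abs_of_nonneg (by linarith : 0 ≤ b - a)]
    exact mul_le_of_le_one_left (by linarith) hu1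
  have h2 : ‖Wf z (u * a)‖ ≤ a := by
    refine (Wf_norm hz _).trans ?_
    rw [abs_mul, abs_of_nonneg hu0, abs_of_pos ha]
    exact mul_le_of_le_one_left ha.le hu1
  -- `a (a ^ (-3/4) - b ^ (-3/4)) ≤ (b - a) a ^ (-3/4)`
  have h3 : (a ^ (-(3 / 4) : ℝ) - b ^ (-(3 / 4) : ℝ)) * a ≤ (b - a) * a ^ (-(3 / 4) : ℝ) := by
    have h4 : a ^ (-(3 / 4) : ℝ) * (a / b) ≤ b ^ (-(3 / 4) : ℝ) := by
      have h5 : (a / b) ^ (1 : ℝ) ≤ (a / b) ^ (3 / 4 : ℝ) :=
        Real.rpow_le_rpow_of_exponent_ge (by positivity) (by rw [div_le_one hb]; exact hab) (by norm_num)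
      rw [Real.rpow_one] at h5
      have h6 : a ^ (-(3 / 4) : ℝ) * (a / b) ^ (3 / 4 : ℝ) = b ^ (-(3 / 4) : ℝ) := by
        rw [Real.div_rpow ha.le hb.le, Real.rpow_neg ha.le, Real.rpow_neg hb.le]
        have : a ^ (3 / 4 : ℝ) ≠ 0 := (Real.rpow_pos_of_pos ha _).ne'
        field_simp
      rw [← h6]
      exact mul_le_mul_of_nonneg_left h5 hA.le
    have h7 : (a ^ (-(3 / 4) : ℝ) - b ^ (-(3 / 4) : ℝ)) * a ≤
        (a ^ (-(3 / 4) : ℝ) - a ^ (-(3 / 4) : ℝ) * (a / b)) * a := by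
      refine mul_le_mul_of_nonneg_right ?_ ha.le
      linarith
    have h8 : (a ^ (-(3 / 4) : ℝ) - a ^ (-(3 / 4) : ℝ) * (a / b)) * a = (a / b) * ((b - a) * a ^ (-(3 / 4) : ℝ)) := by
      field_simp
    have h9 : (a / b) * ((b - a) * a ^ (-(3 / 4) : ℝ)) ≤ 1 * ((b - a) * a ^ (-(3 / 4) : ℝ)) := by
      refine mul_le_mul_of_nonneg_right ((div_le_one hb).2 hab) ?_
      have : 0 ≤ b - a := by linarith
      positivity
    linarith
  calc b ^ (-(3 / 4) : ℝ) * ‖Wf z (u * b) - Wf z (u * a)‖ +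
      (a ^ (-(3 / 4) : ℝ) - b ^ (-(3 / 4) : ℝ)) * ‖Wf z (u * a)‖ ≤
        a ^ (-(3 / 4) : ℝ) * (b - a) + (a ^ (-(3 / 4) : ℝ) - b ^ (-(3 / 4) : ℝ)) * a := by
        refine add_le_add (mul_le_mul hBA h1 (norm_nonneg _) hA.le) (mul_le_mul_of_nonneg_left h2 (by linarith))
    _ ≤ 2 * ((b - a) * a ^ (-(3 / 4) : ℝ)) := by linarith

lemma part_apply {z : ℕ → ℂ} (hz : ∀ j, ‖z (j + 1) - z j‖ ≤ 1) (r : ℝ) {s c : ℝ} (hs : 0 ≤ s) (hc : 0 < c)
    (hsc : s + c ≤ 1) (t : unitInterval) : part s c (Yr z hz r) t =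
      ((r ^ (-(3 / 4) : ℝ) : ℝ) : ℂ) * (Wf z ((s + c * t) * r) - Wf z (s * r)) := by
  have ht0 : (0 : ℝ) ≤ t := t.2.1
  have ht1 : (t : ℝ) ≤ 1 := t.2.2
  have hct : c * t ≤ c := mul_le_of_le_one_right hc.le ht1
  have hct0 : 0 ≤ c * t := by positivity
  have e1 : ((projIcc (0 : ℝ) 1 zero_le_one (s + c * t) : unitInterval) : ℝ) = s + c * t := by
    rw [projIcc_of_mem zero_le_one (⟨by linarith, by linarith⟩ : s + c * t ∈ Icc (0 : ℝ) 1)]
  have e2 : ((projIcc (0 : ℝ) 1 zero_le_one s : unitInterval) : ℝ) = s := by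
    rw [projIcc_of_mem zero_le_one (⟨hs, by linarith⟩ : s ∈ Icc (0 : ℝ) 1)]
  show Yr z hz r (projIcc 0 1 zero_le_one (s + c * t)) - Yr z hz r (projIcc 0 1 zero_le_one s) = _
  rw [Yr_apply, Yr_apply, e1, e2]
  ring

/-- dilations are exact -/
lemma part_zero {z : ℕ → ℂ} (hz : ∀ j, ‖z (j + 1) - z j‖ ≤ 1) {r : ℝ} (hr : 0 < r) {c : ℝ} (hc : 0 < c) (hc1 : c ≤ 1) :
    part 0 c (Yr z hz r) = ((c ^ (3 / 4 : ℝ) : ℝ) : ℂ) • Yr z hz (c * r) := by
  ext t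
  rw [part_apply hz r le_rfl hc (by linarith), ContinuousMap.smul_apply, Yr_apply, smul_eq_mul, zero_mul, Wf_zero,
    sub_zero, zero_add]
  have e1 : (c * (t : ℝ)) * r = t * (c * r) := by ring
  have e2 : r ^ (-(3 / 4) : ℝ) = c ^ (3 / 4 : ℝ) * (c * r) ^ (-(3 / 4) : ℝ) := by
    rw [Real.mul_rpow hc.le hr.le, ← mul_assoc, ← Real.rpow_add hc]
    norm_num
  rw [e1, e2]
  push_cast
  ring

/-- integer shifts are exact -/
lemma part_int {z : ℕ → ℂ} (hz : ∀ j, ‖z (j + 1) - z j‖ ≤ 1) {k i : ℕ} (hk : 0 < k) {c : ℝ} (hc : 0 < c)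
    (hic : (i : ℝ) / k + c ≤ 1) (hz' : ∀ j, ‖z (i + (j + 1)) - z (i + j)‖ ≤ 1) :
    part (i / k) c (Yr z hz k) = part 0 c (Yr (fun j => z (i + j)) hz' k) := by
  have hk' : (0 : ℝ) < k := by exact_mod_cast hk
  have hi : (0 : ℝ) ≤ (i : ℝ) / k := by positivity
  ext t
  have ht0 : (0 : ℝ) ≤ t := t.2.1
  rw [part_apply hz _ hi hc hic, part_apply hz' _ le_rfl hc (by linarith), zero_mul, Wf_zero, sub_zero, zero_add]
  have e1 : ((i : ℝ) / k + c * t) * k = i + c * t * k := by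
    field_simp
  have e2 : (i : ℝ) / k * k = i := by
    field_simp
  rw [e1, e2, Wf_shift z i (by positivity)]

/-- rounding -/
lemma part_round {z : ℕ → ℂ} (hz : ∀ j, ‖z (j + 1) - z j‖ ≤ 1) {r : ℝ} (hr : 0 < r) {s s' c : ℝ} (hs : 0 ≤ s)
    (hs' : 0 ≤ s') (hc : 0 < c) (h : s + c ≤ 1) (h' : s' + c ≤ 1) :
    dist (part s c (Yr z hz r)) (part s' c (Yr z hz r)) ≤ 2 * (|s - s'| * r) * r ^ (-(3 / 4) : ℝ) := by
  have hR : 0 < r ^ (-(3 / 4) : ℝ) := Real.rpow_pos_of_pos hr _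
  rw [ContinuousMap.dist_le (by positivity)]
  intro t
  rw [dist_eq_norm, part_apply hz r hs hc h, part_apply hz r hs' hc h', ← mul_sub, norm_mul, Complex.norm_real,
    Real.norm_eq_abs, abs_of_pos hR, mul_comm]
  refine mul_le_mul_of_nonneg_right ?_ hR.le
  have e : Wf z ((s + c * t) * r) - Wf z (s * r) - (Wf z ((s' + c * t) * r) - Wf z (s' * r)) =
      (Wf z ((s + c * t) * r) - Wf z ((s' + c * t) * r)) - (Wf z (s * r) - Wf z (s' * r)) := by ring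
  rw [e]
  refine (norm_sub_le _ _).trans ?_
  have h1 := Wf_lip hz ((s + c * t) * r) ((s' + c * t) * r)
  have h2 := Wf_lip hz (s * r) (s' * r)
  rw [show (s + c * t) * r - (s' + c * t) * r = (s - s') * r by ring, abs_mul, abs_of_pos hr] at h1
  rw [← sub_mul, abs_mul, abs_of_pos hr] at h2
  linarith

/-! ### the walk -/

/-- the unit vectors -/
noncomputable def ex (n : ℤ) : ℂ := Complex.exp (Real.pi / 3 * Complex.I * (n : ℂ))

lemma ex_norm (n : ℤ) : ‖ex n‖ = 1 := by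
  unfold ex
  rw [show (Real.pi : ℂ) / 3 * Complex.I * (n : ℂ) = ((Real.pi / 3 * n : ℝ) : ℂ) * Complex.I by push_cast; ring,
    Complex.norm_exp_ofReal_mul_I]

lemma ex_add (m n : ℤ) : ex (m + n) = ex m * ex n := by
  unfold ex
  rw [← Complex.exp_add]
  congr 1
  push_cast
  ring

lemma ex_six : ex 6 = 1 := by
  unfold ex
  rw [show (Real.pi : ℂ) / 3 * Complex.I * ((6 : ℤ) : ℂ) = 2 * Real.pi * Complex.I by push_cast; ring,
    Complex.exp_two_pi_mul_I]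

/-- the sum of the turns -/
def sm (ω : ℤ → Bool) (i : ℕ) : ℤ := ∑ l ∈ Finset.range i, sg (ω (0 + l))

lemma disp_succ (ω : ℤ → Bool) (j : ℕ) : disp ω 0 (j + 1) - disp ω 0 j = ex (sm ω j) := by
  unfold disp
  rw [Finset.sum_range_succ, add_sub_cancel_left]
  rfl

/-- the path -/
noncomputable def zz (ζ : ℂ) (ω : ℤ → Bool) (j : ℕ) : ℂ := ζ * disp ω 0 j

lemma zz_succ (ζ : ℂ) (ω : ℤ → Bool) (j : ℕ) : zz ζ ω (j + 1) - zz ζ ω j = ζ * ex (sm ω j) := by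
  unfold zz
  rw [← mul_sub, disp_succ]

lemma zz_step {ζ : ℂ} (hζ : ‖ζ‖ = 1) (ω : ℤ → Bool) (j : ℕ) : ‖zz ζ ω (j + 1) - zz ζ ω j‖ ≤ 1 := by
  rw [zz_succ, norm_mul, hζ, ex_norm, one_mul]

lemma ycurve_eq {ζ : ℂ} (hζ : ‖ζ‖ = 1) (k : ℕ) (ω : ℤ → Bool) : ycurve k ζ ω = Yr (zz ζ ω) (zz_step hζ ω) k := by
  ext u
  have hu1 : (u : ℝ) ≤ 1 := u.2.2
  have hk : (0 : ℝ) ≤ k := Nat.cast_nonneg k
  have h1 : (u : ℝ) * k ≤ k := mul_le_of_le_one_left hk hu1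
  rw [Yr_apply, ← WK_eq _ h1]
  unfold WK
  rw [Finset.mul_sum]
  show ∑ j ∈ Finset.range k, ((max 0 (min 1 ((u : ℝ) * k - j)) : ℝ) : ℂ) *
    (ζ * (disp ω 0 (j + 1) - disp ω 0 j) / ((k : ℝ) ^ (3 / 4 : ℝ) : ℝ)) = _
  refine Finset.sum_congr rfl fun j _ => ?_
  rw [Real.rpow_neg hk, Complex.ofReal_inv]
  unfold zz cl
  rw [← mul_sub, div_eq_mul_inv]
  ring

/-- the shift by `i` -/
def Sh (i : ℕ) (ω : ℤ → Bool) : ℤ → Bool := fun j => ω (j + i)

lemma sm_add (ω : ℤ → Bool) (i j : ℕ) : sm ω (i + j) = sm ω i + sm (Sh i ω) j := by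
  unfold sm
  rw [Finset.sum_range_add]
  congr 1
  refine Finset.sum_congr rfl fun l _ => ?_
  unfold Sh
  congr 2
  push_cast
  ring

lemma zz_shift (ζ : ℂ) (ω : ℤ → Bool) (i j : ℕ) : zz ζ ω (i + (j + 1)) - zz ζ ω (i + j) =
    zz (ζ * ex (sm ω i)) (Sh i ω) (j + 1) - zz (ζ * ex (sm ω i)) (Sh i ω) j := by
  rw [← add_assoc, zz_succ, zz_succ, sm_add, ex_add]
  ring

/-- the window of the walk behind the step `i` is the walk seen from the step `i` -/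
lemma part_shift {ζ : ℂ} (hζ : ‖ζ‖ = 1) (ω : ℤ → Bool) {k i : ℕ} (hk : 0 < k) {c : ℝ} (hc : 0 < c)
    (hic : (i : ℝ) / k + c ≤ 1) :
    part (i / k) c (ycurve k ζ ω) = part 0 c (ycurve k (ζ * ex (sm ω i)) (Sh i ω)) := by
  have hζ' : ‖ζ * ex (sm ω i)‖ = 1 := by rw [norm_mul, hζ, ex_norm, one_mul]
  have hi : (0 : ℝ) ≤ (i : ℝ) / k := by positivity
  have hz' : ∀ j, ‖zz ζ ω (i + (j + 1)) - zz ζ ω (i + j)‖ ≤ 1 := by
    intro j
    rw [zz_shift]
    exact zz_step hζ' _ _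
  rw [ycurve_eq hζ, ycurve_eq hζ', part_int (zz_step hζ ω) hk hc hic hz']
  have hW : ∀ x, Wf (fun j => zz ζ ω (i + j)) x = Wf (zz (ζ * ex (sm ω i)) (Sh i ω)) x :=
    fun x => Wf_congr (fun j => zz_shift ζ ω i j) x
  ext t
  rw [part_apply hz' _ le_rfl hc (by linarith), part_apply (zz_step hζ' _) _ le_rfl hc (by linarith), hW, hW]

/-! ### the directions -/

lemma sum_rot (f : ℂ → ℝ) (n : ℤ) : ∑ a : Fin 6, f (ex ((a : ℕ) : ℤ) * ex n) = ∑ a : Fin 6, f (ex ((a : ℕ) : ℤ)) := by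
  have key : ∀ n : ℤ, ∑ a : Fin 6, f (ex ((a : ℕ) : ℤ) * ex (n + 1)) = ∑ a : Fin 6, f (ex ((a : ℕ) : ℤ) * ex n) := by
    intro n
    simp only [Fin.sum_univ_six]
    have e : ∀ a b : ℤ, b = a + 1 → ex a * ex (n + 1) = ex b * ex n := by
      rintro a b rfl
      rw [ex_add, ex_add]
      ring
    have e5 : ex ((5 : ℕ) : ℤ) * ex (n + 1) = ex ((0 : ℕ) : ℤ) * ex n := by
      rw [e _ 6 (by norm_num), ex_six]
      unfold ex
      simp
    have h0 := e ((0 : ℕ) : ℤ) ((1 : ℕ) : ℤ) (by norm_num)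
    have h1 := e ((1 : ℕ) : ℤ) ((2 : ℕ) : ℤ) (by norm_num)
    have h2 := e ((2 : ℕ) : ℤ) ((3 : ℕ) : ℤ) (by norm_num)
    have h3 := e ((3 : ℕ) : ℤ) ((4 : ℕ) : ℤ) (by norm_num)
    have h4 := e ((4 : ℕ) : ℤ) ((5 : ℕ) : ℤ) (by norm_num)
    show f (ex ((0 : ℕ) : ℤ) * ex (n + 1)) + f (ex ((1 : ℕ) : ℤ) * ex (n + 1)) + f (ex ((2 : ℕ) : ℤ) * ex (n + 1)) +
      f (ex ((3 : ℕ) : ℤ) * ex (n + 1)) + f (ex ((4 : ℕ) : ℤ) * ex (n + 1)) + f (ex ((5 : ℕ) : ℤ) * ex (n + 1)) =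
      f (ex ((0 : ℕ) : ℤ) * ex n) + f (ex ((1 : ℕ) : ℤ) * ex n) + f (ex ((2 : ℕ) : ℤ) * ex n) +
      f (ex ((3 : ℕ) : ℤ) * ex n) + f (ex ((4 : ℕ) : ℤ) * ex n) + f (ex ((5 : ℕ) : ℤ) * ex n)
    rw [h0, h1, h2, h3, h4, e5]
    ring
  have h0 : ∑ a : Fin 6, f (ex ((a : ℕ) : ℤ) * ex 0) = ∑ a : Fin 6, f (ex ((a : ℕ) : ℤ)) := by
    have : ex 0 = 1 := by
      unfold ex
      simp
    simp only [this, mul_one]
  induction n using Int.induction_on with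
  | zero => exact h0
  | succ n ih => rw [key, ih]
  | pred n ih =>
    have := key (-(n : ℤ) - 1)
    rw [sub_add_cancel] at this
    rw [← this, ih]

/-! ### measurability -/

lemma sm_congr {ω ω' : ℤ → Bool} {i : ℕ} (h : ∀ l : ℕ, l < i → ω l = ω' l) : sm ω i = sm ω' i := by
  unfold sm
  refine Finset.sum_congr rfl fun l hl => ?_
  rw [zero_add, h l (Finset.mem_range.1 hl)]

lemma ycurve_congr (k : ℕ) (ζ : ℂ) {ω ω' : ℤ → Bool} (h : ∀ l : ℕ, l < k → ω l = ω' l) :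
    ycurve k ζ ω = ycurve k ζ ω' := by
  ext u
  show ∑ j ∈ Finset.range k, _ = ∑ j ∈ Finset.range k, _
  refine Finset.sum_congr rfl fun j hj => ?_
  have hj' := Finset.mem_range.1 hj
  rw [disp_succ, disp_succ, sm_congr fun l hl => h l (by omega)]

/-- extension by `false` -/
def xt (k : ℕ) (τ : Fin k → Bool) : ℤ → Bool := fun j => if h : j.toNat < k then τ ⟨j.toNat, h⟩ else false

lemma meas_ycurve (k : ℕ) (ζ : ℂ) : Measurable (ycurve k ζ) := by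
  have h1 : ycurve k ζ = (fun τ : Fin k → Bool => ycurve k ζ (xt k τ)) ∘ fun (ω : ℤ → Bool) (j : Fin k) => ω ((j : ℕ) : ℤ) := by
    funext ω
    show ycurve k ζ ω = ycurve k ζ (xt k fun j : Fin k => ω ((j : ℕ) : ℤ))
    refine ycurve_congr k ζ fun l hl => ?_
    unfold xt
    rw [dif_pos (by simpa using hl)]
    simp
  rw [h1]
  exact (measurable_of_countable _).comp (measurable_pi_lambda _ fun j => measurable_pi_apply _)

/-! ### the laws -/

lemma part_cont (s c : ℝ) : Continuous (part s c) := by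
  refine ContinuousMap.continuous_of_continuous_uncurry _ ?_
  have h1 : Continuous fun q : CI × unitInterval => q.1 (projIcc 0 1 zero_le_one (s + c * q.2)) := by
    have h2 : Continuous fun q : CI × unitInterval => projIcc (0 : ℝ) 1 zero_le_one (s + c * q.2) :=
      continuous_projIcc.comp (by fun_prop)
    exact (show Continuous fun q : CI × unitInterval => q.1 from by fun_prop).eval h2
  have h3 : Continuous fun q : CI × unitInterval => q.1 (projIcc 0 1 zero_le_one s) := by fun_prop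
  exact h1.sub h3

section

variable {Q : Measure (ℤ → Bool)}

lemma ex_eq (a : Fin 6) : Complex.exp ((Real.pi : ℂ) / 3 * Complex.I * ((a : ℕ) : ℂ)) = ex ((a : ℕ) : ℤ) := by
  unfold ex
  push_cast
  rfl

lemma ylaw_prob (hQ : IsProbabilityMeasure Q) (k : ℕ) : IsProbabilityMeasure (ylaw Q k) := by
  refine ⟨?_⟩
  unfold ylaw
  rw [Measure.finsetSum_apply]
  have h1 : ∀ a : Fin 6, ((6 : ℝ≥0∞)⁻¹ • Q.map (ycurve k (Complex.exp ((Real.pi : ℂ) / 3 * Complex.I * ((a : ℕ) : ℂ)))))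
      univ = (6 : ℝ≥0∞)⁻¹ := by
    intro a
    rw [Measure.smul_apply, Measure.map_apply (meas_ycurve k _) MeasurableSet.univ, preimage_univ, measure_univ,
      smul_eq_mul, mul_one]
  rw [Finset.sum_congr rfl fun a _ => h1 a, Finset.sum_const, Finset.card_univ, Fintype.card_fin, nsmul_eq_mul]
  exact ENNReal.mul_inv_cancel (by norm_num) (by norm_num)

/-- the integrals -/
lemma ylaw_int (hQ : IsProbabilityMeasure Q) (k : ℕ) {F : CI → ℝ} (hF : Continuous F) {B : ℝ} (hB : ∀ γ, ‖F γ‖ ≤ B) :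
    ∫ γ, F γ ∂(ylaw Q k) = 6⁻¹ * ∫ ω, (∑ a : Fin 6, F (ycurve k (ex ((a : ℕ) : ℤ)) ω)) ∂Q := by
  have hi : ∀ (μ : Measure CI) [IsFiniteMeasure μ], Integrable F μ := fun μ _ =>
    Integrable.of_bound hF.aestronglyMeasurable B (Eventually.of_forall hB)
  have hiQ : ∀ ζ : ℂ, Integrable (fun ω => F (ycurve k ζ ω)) Q := fun ζ =>
    Integrable.of_bound (hF.measurable.comp (meas_ycurve k ζ)).aestronglyMeasurable B (Eventually.of_forall fun ω => hB _)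
  unfold ylaw
  rw [integral_finsetSum_measure fun a _ => ?_, integral_finsetSum _ fun a _ => hiQ _, Finset.mul_sum]
  · refine Finset.sum_congr rfl fun a _ => ?_
    rw [integral_smul_measure, integral_map (meas_ycurve k _).aemeasurable hF.aestronglyMeasurable, ex_eq,
      ENNReal.toReal_inv, smul_eq_mul]
    norm_num
  · have : IsProbabilityMeasure (Q.map (ycurve k (Complex.exp ((Real.pi : ℂ) / 3 * Complex.I * ((a : ℕ) : ℂ))))) :=
      Measure.isProbabilityMeasure_map (meas_ycurve k _).aemeasurable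
    exact (hi _).smul_measure (by norm_num)

lemma shift_pres (hS : MeasurePreserving (fun (ω : ℤ → Bool) (j : ℤ) => ω (j + 1)) Q Q) (i : ℕ) :
    MeasurePreserving (Sh i) Q Q := by
  have h1 : ∀ i : ℕ, (fun (ω : ℤ → Bool) (j : ℤ) => ω (j + 1))^[i] = Sh i := by
    intro i
    induction i with
    | zero =>
      funext ω j
      show ω j = ω (j + ((0 : ℕ) : ℤ))
      simp
    | succ i ih =>
      rw [Function.iterate_succ', ih]
      funext ω j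
      show ω (j + 1 + (i : ℤ)) = ω (j + ((i + 1 : ℕ) : ℤ))
      congr 1
      push_cast
      ring
  rw [← h1 i]
  exact hS.iterate i

/-- **exact stationarity** -/
lemma ylaw_shift (hQ : IsProbabilityMeasure Q)
    (hS : MeasurePreserving (fun (ω : ℤ → Bool) (j : ℤ) => ω (j + 1)) Q Q) {k i : ℕ} (hk : 0 < k) {c : ℝ} (hc : 0 < c)
    (hic : (i : ℝ) / k + c ≤ 1) {F : CI → ℝ} (hF : Continuous F) {B : ℝ} (hB : ∀ γ, ‖F γ‖ ≤ B) :
    ∫ γ, F (part (i / k) c γ) ∂(ylaw Q k) = ∫ γ, F (part 0 c γ) ∂(ylaw Q k) := by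
  rw [ylaw_int hQ k (F := fun γ => F (part (i / k) c γ)) (hF.comp (part_cont _ _)) fun γ => hB _,
    ylaw_int hQ k (F := fun γ => F (part 0 c γ)) (hF.comp (part_cont _ _)) fun γ => hB _]
  congr 1
  have h1 : ∀ ω : ℤ → Bool, ∑ a : Fin 6, F (part (i / k) c (ycurve k (ex ((a : ℕ) : ℤ)) ω)) =
      (fun ω' => ∑ a : Fin 6, F (part 0 c (ycurve k (ex ((a : ℕ) : ℤ)) ω'))) (Sh i ω) := by
    intro ω
    have h2 := sum_rot (fun ζ => F (part 0 c (ycurve k ζ (Sh i ω)))) (sm ω i)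
    simp only at h2 ⊢
    rw [← h2]
    exact Finset.sum_congr rfl fun a _ => by rw [part_shift (ex_norm _) ω hk hc hic]
  rw [integral_congr_ae (Eventually.of_forall h1)]
  have hm : Measurable fun ω' : ℤ → Bool => ∑ a : Fin 6, F (part 0 c (ycurve k (ex ((a : ℕ) : ℤ)) ω')) :=
    Finset.measurable_fun_sum _ fun a _ => (hF.comp (part_cont 0 c)).measurable.comp (meas_ycurve k _)
  have hp := shift_pres hS i
  rw [← integral_map hp.measurable.aemeasurable hm.aestronglyMeasurable, hp.map_eq]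

/-- approximate stationarity -/
lemma stat_le (hQ : IsProbabilityMeasure Q)
    (hS : MeasurePreserving (fun (ω : ℤ → Bool) (j : ℤ) => ω (j + 1)) Q Q) {k : ℕ} (hk : 0 < k) {s c : ℝ} (hs : 0 ≤ s)
    (hc : 0 < c) (hsc : s + c ≤ 1) {F : CI → ℝ} {L : NNReal} (hF : LipschitzWith L F) {B : ℝ} (hB : ∀ γ, ‖F γ‖ ≤ B) :
    |(∫ γ, F (part s c γ) ∂(ylaw Q k)) - ∫ γ, F (part 0 c γ) ∂(ylaw Q k)| ≤ 2 * L * (k : ℝ) ^ (-(3 / 4) : ℝ) := by
  have hk' : (0 : ℝ) < k := by exact_mod_cast hk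
  have hFc : Continuous F := hF.continuous
  obtain ⟨i, hi⟩ : ∃ i, i = ⌊s * k⌋₊ := ⟨_, rfl⟩
  have h1 : (i : ℝ) ≤ s * k := by
    rw [hi]
    exact Nat.floor_le (by positivity)
  have h2 : s * k < i + 1 := by
    rw [hi]
    exact Nat.lt_floor_add_one _
  have h3 : (i : ℝ) / k ≤ s := by rwa [div_le_iff₀ hk']
  have h4 : |s - (i : ℝ) / k| * k ≤ 1 := by
    rw [abs_of_nonneg (by linarith), sub_mul, div_mul_cancel₀ _ hk'.ne']
    linarith
  have hi0 : (0 : ℝ) ≤ (i : ℝ) / k := by positivity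
  rw [← ylaw_shift hQ hS hk hc (i := i) (by linarith) hFc hB,
    ylaw_int hQ k (F := fun γ => F (part s c γ)) (hFc.comp (part_cont _ _)) fun γ => hB _,
    ylaw_int hQ k (F := fun γ => F (part (i / k) c γ)) (hFc.comp (part_cont _ _)) fun γ => hB _, ← mul_sub]
  have hiQ : ∀ s : ℝ, Integrable (fun ω => ∑ a : Fin 6, F (part s c (ycurve k (ex ((a : ℕ) : ℤ)) ω))) Q := fun s =>
    integrable_finsetSum _ fun a _ =>
      Integrable.of_bound ((hFc.comp (part_cont s c)).measurable.comp (meas_ycurve k _)).aestronglyMeasurable B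
        (Eventually.of_forall fun ω => hB _)
  rw [← integral_sub (hiQ _) (hiQ _), abs_mul, abs_of_pos (by norm_num : (0 : ℝ) < 6⁻¹)]
  have h5 : ‖∫ ω, ((∑ a : Fin 6, F (part s c (ycurve k (ex ((a : ℕ) : ℤ)) ω))) -
      ∑ a : Fin 6, F (part (i / k) c (ycurve k (ex ((a : ℕ) : ℤ)) ω))) ∂Q‖ ≤ 6 * (2 * L * (k : ℝ) ^ (-(3 / 4) : ℝ)) := by
    have h6 := norm_integral_le_of_norm_le_const (μ := Q) (C := 6 * (2 * L * (k : ℝ) ^ (-(3 / 4) : ℝ)))
      (f := fun ω => (∑ a : Fin 6, F (part s c (ycurve k (ex ((a : ℕ) : ℤ)) ω))) -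
        ∑ a : Fin 6, F (part (i / k) c (ycurve k (ex ((a : ℕ) : ℤ)) ω)))
      (Eventually.of_forall fun ω => ?_)
    · rwa [probReal_univ, mul_one] at h6
    · rw [← Finset.sum_sub_distrib]
      have h7 : ∀ a ∈ (Finset.univ : Finset (Fin 6)), ‖F (part s c (ycurve k (ex ((a : ℕ) : ℤ)) ω)) -
          F (part (i / k) c (ycurve k (ex ((a : ℕ) : ℤ)) ω))‖ ≤ 2 * L * (k : ℝ) ^ (-(3 / 4) : ℝ) := by
        intro a _
        rw [← dist_eq_norm]
        refine (hF.dist_le_mul _ _).trans ?_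
        rw [ycurve_eq (ex_norm _)]
        have h8 := part_round (zz_step (ex_norm ((a : ℕ) : ℤ)) ω) hk' hs hi0 hc hsc (by linarith)
        have h9 : 2 * (|s - (i : ℝ) / k| * k) * (k : ℝ) ^ (-(3 / 4) : ℝ) ≤ 2 * 1 * (k : ℝ) ^ (-(3 / 4) : ℝ) := by
          gcongr
        calc (L : ℝ) * dist _ _ ≤ L * (2 * 1 * (k : ℝ) ^ (-(3 / 4) : ℝ)) :=
              mul_le_mul_of_nonneg_left (h8.trans h9) L.2
          _ = 2 * L * (k : ℝ) ^ (-(3 / 4) : ℝ) := by ring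
      refine (norm_sum_le_of_le _ h7).trans (le_of_eq ?_)
      rw [Finset.sum_const, Finset.card_univ, Fintype.card_fin, nsmul_eq_mul]
      norm_num
  rw [Real.norm_eq_abs] at h5
  linarith

end

/-! ### logarithmic averages -/

/-- the sum of `1 / k` -/
noncomputable def hm (N : ℕ) : ℝ := ∑ k ∈ Finset.Icc 1 N, (k : ℝ)⁻¹

lemma hm_tendsto : Tendsto hm atTop atTop := by
  refine Real.tendsto_sum_range_one_div_nat_succ_atTop.congr fun n => ?_
  unfold hm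
  induction n with
  | zero => simp
  | succ n ih =>
    rw [Finset.sum_range_succ, ih, ← Finset.insert_Icc_right_eq_Icc_add_one (by omega : 1 ≤ n + 1),
      Finset.sum_insert (by simp), add_comm, one_div, Nat.cast_add_one]

section

variable {G : ℝ → ℝ} {A B : ℝ}

lemma cont_of (hA : 0 ≤ A)
    (hG : ∀ a b : ℝ, 0 < a → a ≤ b → |G b - G a| ≤ A * ((b - a) * a ^ (-(3 / 4) : ℝ))) : ContinuousOn G (Ioi 0) := by
  intro x hx
  have hx0 : (0 : ℝ) < x := hx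
  have hM : 0 ≤ A * (x / 2) ^ (-(3 / 4) : ℝ) := mul_nonneg hA (Real.rpow_nonneg (by positivity) _)
  have h1 : LipschitzOnWith (Real.toNNReal (A * (x / 2) ^ (-(3 / 4) : ℝ))) G (Ici (x / 2)) := by
    have key : ∀ a b : ℝ, x / 2 ≤ a → a ≤ b → |G b - G a| ≤ A * (x / 2) ^ (-(3 / 4) : ℝ) * (b - a) := by
      intro a b ha hab
      have h2 : a ^ (-(3 / 4) : ℝ) ≤ (x / 2) ^ (-(3 / 4) : ℝ) := Real.rpow_le_rpow_of_nonpos (by positivity) ha (by norm_num)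
      refine (hG a b (by linarith) hab).trans ?_
      have h3 : (b - a) * a ^ (-(3 / 4) : ℝ) ≤ (b - a) * (x / 2) ^ (-(3 / 4) : ℝ) :=
        mul_le_mul_of_nonneg_left h2 (by linarith)
      calc A * ((b - a) * a ^ (-(3 / 4) : ℝ)) ≤ A * ((b - a) * (x / 2) ^ (-(3 / 4) : ℝ)) :=
            mul_le_mul_of_nonneg_left h3 hA
        _ = A * (x / 2) ^ (-(3 / 4) : ℝ) * (b - a) := by ring
    refine LipschitzOnWith.of_dist_le_mul fun a ha b hb => ?_
    rw [Real.coe_toNNReal _ hM, Real.dist_eq, Real.dist_eq]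
    rcases le_total a b with h | h
    · rw [abs_sub_comm, abs_sub_comm a b, abs_of_nonneg (by linarith : 0 ≤ b - a)]
      exact key a b ha h
    · rw [abs_of_nonneg (by linarith : 0 ≤ a - b)]
      exact key b a hb h
  exact ((h1.continuousOn.continuousAt (Ici_mem_nhds (by linarith))).continuousWithinAt)

lemma one_le (hA : 0 ≤ A) (hB : ∀ r, |G r| ≤ B)
    (hG : ∀ a b : ℝ, 0 < a → a ≤ b → |G b - G a| ≤ A * ((b - a) * a ^ (-(3 / 4) : ℝ))) {c : ℝ} (hc : 0 < c)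
    (hc1 : c ≤ 1) {k : ℕ} (hk : 1 ≤ k) :
    |(k : ℝ)⁻¹ * G (c * k) - ∫ r in (k : ℝ)..((k + 1 : ℕ) : ℝ), G (c * r) / r| ≤
      B * ((k : ℝ)⁻¹ - ((k + 1 : ℕ) : ℝ)⁻¹) + A * (k : ℝ) ^ (-(7 / 4) : ℝ) := by
  have hk0 : (0 : ℝ) < k := by exact_mod_cast hk
  have hcont : ContinuousOn (fun r : ℝ => G (c * r) / r) (uIcc (k : ℝ) ((k + 1 : ℕ) : ℝ)) := by
    rw [uIcc_of_le (by push_cast; linarith)]
    refine ContinuousOn.div ((cont_of hA hG).comp (by fun_prop) fun r hr => ?_) continuousOn_id fun r hr => ?_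
    · have : 0 < r := lt_of_lt_of_le hk0 hr.1
      exact mul_pos hc this
    · exact (lt_of_lt_of_le hk0 hr.1).ne'
  have e : (k : ℝ)⁻¹ * G (c * k) = ∫ _ in (k : ℝ)..((k + 1 : ℕ) : ℝ), (k : ℝ)⁻¹ * G (c * k) := by
    rw [intervalIntegral.integral_const]
    push_cast
    rw [add_sub_cancel_left, one_smul]
  rw [e, ← intervalIntegral.integral_sub intervalIntegrable_const hcont.intervalIntegrable]
  have h1 : ‖∫ r in (k : ℝ)..((k + 1 : ℕ) : ℝ), ((k : ℝ)⁻¹ * G (c * k) - G (c * r) / r)‖ ≤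
      (B * ((k : ℝ)⁻¹ - ((k + 1 : ℕ) : ℝ)⁻¹) + A * (k : ℝ) ^ (-(7 / 4) : ℝ)) * |((k + 1 : ℕ) : ℝ) - k| := by
    refine intervalIntegral.norm_integral_le_of_norm_le_const fun r hr => ?_
    rw [uIoc_of_le (by push_cast; linarith)] at hr
    have hkr : (k : ℝ) ≤ r := hr.1.le
    have hr0 : 0 < r := lt_of_lt_of_le hk0 hkr
    have hr1 : r ≤ ((k + 1 : ℕ) : ℝ) := hr.2
    have e1 : (k : ℝ)⁻¹ * G (c * k) - G (c * r) / r = ((k : ℝ)⁻¹ - r⁻¹) * G (c * k) - r⁻¹ * (G (c * r) - G (c * k)) := by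
      rw [div_eq_inv_mul]
      ring
    rw [e1]
    refine (norm_sub_le _ _).trans ?_
    rw [norm_mul, norm_mul, Real.norm_eq_abs, Real.norm_eq_abs, Real.norm_eq_abs, Real.norm_eq_abs]
    have i1 : r⁻¹ ≤ (k : ℝ)⁻¹ := by
      rw [inv_le_inv₀ hr0 hk0]
      exact hkr
    have i2 : ((k + 1 : ℕ) : ℝ)⁻¹ ≤ r⁻¹ := by
      rw [inv_le_inv₀ (by positivity) hr0]
      exact hr1
    have i3 : 0 < r⁻¹ := inv_pos.2 hr0
    rw [abs_of_nonneg (by linarith : 0 ≤ (k : ℝ)⁻¹ - r⁻¹), abs_of_pos i3]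
    refine add_le_add ?_ ?_
    · have hB0 : 0 ≤ B := (abs_nonneg _).trans (hB 0)
      calc ((k : ℝ)⁻¹ - r⁻¹) * |G (c * k)| ≤ ((k : ℝ)⁻¹ - ((k + 1 : ℕ) : ℝ)⁻¹) * B :=
            mul_le_mul (by linarith) (hB _) (abs_nonneg _) (by linarith)
        _ = B * ((k : ℝ)⁻¹ - ((k + 1 : ℕ) : ℝ)⁻¹) := mul_comm _ _
    · have h2 := hG (c * k) (c * r) (by positivity) (mul_le_mul_of_nonneg_left hkr hc.le)
      have h3 : (c * r - c * k) * (c * k) ^ (-(3 / 4) : ℝ) ≤ (k : ℝ) ^ (-(3 / 4) : ℝ) := by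
        rw [Real.mul_rpow hc.le hk0.le, ← mul_sub]
        have h4 : c * c ^ (-(3 / 4) : ℝ) ≤ 1 := by
          have h5 : c * c ^ (-(3 / 4) : ℝ) = c ^ (1 / 4 : ℝ) := by
            nth_rewrite 1 [← Real.rpow_one c]
            rw [← Real.rpow_add hc]
            norm_num
          rw [h5]
          exact Real.rpow_le_one hc.le hc1 (by norm_num)
        have h6 : 0 ≤ (k : ℝ) ^ (-(3 / 4) : ℝ) := Real.rpow_nonneg hk0.le _
        have h7 : r - k ≤ 1 := by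
          push_cast at hr1
          linarith
        have h8 : 0 ≤ c * c ^ (-(3 / 4) : ℝ) := by
          have := Real.rpow_nonneg hc.le (-(3 / 4) : ℝ)
          positivity
        calc c * (r - k) * (c ^ (-(3 / 4) : ℝ) * (k : ℝ) ^ (-(3 / 4) : ℝ)) =
            (c * c ^ (-(3 / 4) : ℝ)) * (r - k) * (k : ℝ) ^ (-(3 / 4) : ℝ) := by ring
          _ ≤ 1 * 1 * (k : ℝ) ^ (-(3 / 4) : ℝ) := by
              refine mul_le_mul_of_nonneg_right (mul_le_mul h4 h7 (by linarith) zero_le_one) h6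
          _ = (k : ℝ) ^ (-(3 / 4) : ℝ) := by ring
      have h9 : (k : ℝ)⁻¹ * (k : ℝ) ^ (-(3 / 4) : ℝ) = (k : ℝ) ^ (-(7 / 4) : ℝ) := by
        rw [← Real.rpow_neg_one, ← Real.rpow_add hk0]
        norm_num
      have hk34 : 0 ≤ (k : ℝ) ^ (-(3 / 4) : ℝ) := Real.rpow_nonneg hk0.le _
      calc r⁻¹ * |G (c * r) - G (c * k)| ≤ (k : ℝ)⁻¹ * (A * (k : ℝ) ^ (-(3 / 4) : ℝ)) :=
            mul_le_mul i1 (h2.trans (mul_le_mul_of_nonneg_left h3 hA)) (abs_nonneg _) (by positivity)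
        _ = A * ((k : ℝ)⁻¹ * (k : ℝ) ^ (-(3 / 4) : ℝ)) := by ring
        _ = A * (k : ℝ) ^ (-(7 / 4) : ℝ) := by rw [h9]
  have e2 : |((k + 1 : ℕ) : ℝ) - k| = 1 := by
    push_cast
    rw [add_sub_cancel_left, abs_one]
  rwa [e2, mul_one, Real.norm_eq_abs] at h1

/-- sum and integral -/
lemma sum_int (hA : 0 ≤ A) (hB : ∀ r, |G r| ≤ B)
    (hG : ∀ a b : ℝ, 0 < a → a ≤ b → |G b - G a| ≤ A * ((b - a) * a ^ (-(3 / 4) : ℝ))) {c : ℝ} (hc : 0 < c)
    (hc1 : c ≤ 1) (N : ℕ) :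
    |(∑ k ∈ Finset.Icc 1 N, (k : ℝ)⁻¹ * G (c * k)) - ∫ u in c..(c * ((N + 1 : ℕ) : ℝ)), G u / u| ≤
      B + A * ∑' k : ℕ, (k : ℝ) ^ (-(7 / 4) : ℝ) := by
  have e0 : Finset.Icc 1 N = Finset.Ico 1 (N + 1) := by
    ext k
    simp only [Finset.mem_Icc, Finset.mem_Ico]
    omega
  have h1 : ∑ k ∈ Finset.Icc 1 N, ∫ r in (k : ℝ)..((k + 1 : ℕ) : ℝ), G (c * r) / r =
      ∫ u in c..(c * ((N + 1 : ℕ) : ℝ)), G u / u := by
    rw [e0, intervalIntegral.sum_integral_adjacent_intervals_Ico (a := fun k : ℕ => (k : ℝ)) (by omega) fun k hk => ?_]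
    · have h2 : ∀ r ∈ uIcc (((1 : ℕ) : ℝ)) ((N + 1 : ℕ) : ℝ), G (c * r) / r = c * (fun u => G u / u) (c * r) := by
        intro r hr
        have h3 : 0 < r := by
          rw [uIcc_of_le (by push_cast; linarith [(Nat.cast_nonneg N : (0 : ℝ) ≤ N)])] at hr
          have := hr.1
          push_cast at this
          linarith
        simp only
        field_simp
      have h4 := intervalIntegral.mul_integral_comp_mul_left (a := ((1 : ℕ) : ℝ)) (b := ((N + 1 : ℕ) : ℝ))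
        (f := fun u => G u / u) c
      rw [intervalIntegral.integral_congr h2, intervalIntegral.integral_const_mul, h4, Nat.cast_one, mul_one]
    · have hk0 : (0 : ℝ) < k := by exact_mod_cast (lt_of_lt_of_le one_pos hk.1 : 0 < k)
      refine ContinuousOn.intervalIntegrable ?_
      rw [uIcc_of_le (by push_cast; linarith)]
      refine ContinuousOn.div ((cont_of hA hG).comp (by fun_prop) fun r hr => ?_) continuousOn_id fun r hr => ?_
      · have : 0 < r := lt_of_lt_of_le hk0 hr.1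
        exact mul_pos hc this
      · exact (lt_of_lt_of_le hk0 hr.1).ne'
  rw [← h1, ← Finset.sum_sub_distrib]
  refine (Finset.abs_sum_le_sum_abs _ _).trans ((Finset.sum_le_sum fun k hk =>
    one_le hA hB hG hc hc1 (Finset.mem_Icc.1 hk).1).trans ?_)
  rw [Finset.sum_add_distrib, ← Finset.mul_sum, ← Finset.mul_sum]
  have hB0 : 0 ≤ B := (abs_nonneg _).trans (hB 0)
  refine add_le_add ?_ ?_
  · have h2 : ∑ k ∈ Finset.Icc 1 N, ((k : ℝ)⁻¹ - ((k + 1 : ℕ) : ℝ)⁻¹) = 1 - ((N + 1 : ℕ) : ℝ)⁻¹ := by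
      rw [e0]
      clear h1 e0
      induction N with
      | zero => simp
      | succ N ih =>
        rw [Finset.sum_Ico_succ_top (by omega), ih]
        ring
    rw [h2]
    have h3 : 0 ≤ ((N + 1 : ℕ) : ℝ)⁻¹ := by positivity
    exact mul_le_of_le_one_right hB0 (by linarith)
  · refine mul_le_mul_of_nonneg_left ?_ hA
    have hs : Summable fun k : ℕ => (k : ℝ) ^ (-(7 / 4) : ℝ) := Real.summable_nat_rpow.2 (by norm_num)
    exact hs.sum_le_tsum _ fun k _ => Real.rpow_nonneg (Nat.cast_nonneg k) _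

/-- the integral over a dilated interval -/
lemma int_le (hB : ∀ r, |G r| ≤ B) {a b : ℝ} (ha : 0 < a) (hab : a ≤ b) :
    |∫ u in a..b, G u / u| ≤ B * Real.log (b / a) := by
  have hb : 0 < b := lt_of_lt_of_le ha hab
  have hc : ContinuousOn (fun u : ℝ => B * u⁻¹) (uIcc a b) := by
    rw [uIcc_of_le hab]
    exact continuousOn_const.mul (continuousOn_id.inv₀ fun u hu => (lt_of_lt_of_le ha hu.1).ne')
  have h1 : ‖∫ u in a..b, G u / u‖ ≤ ∫ u in a..b, B * u⁻¹ := by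
    refine intervalIntegral.norm_integral_le_of_norm_le hab (Eventually.of_forall fun u hu => ?_) hc.intervalIntegrable
    have hu0 : 0 < u := lt_trans ha hu.1
    rw [norm_div, Real.norm_eq_abs, Real.norm_eq_abs, abs_of_pos hu0, div_eq_mul_inv]
    exact mul_le_mul_of_nonneg_right (hB u) (inv_pos.2 hu0).le
  rw [intervalIntegral.integral_const_mul, integral_inv_of_pos ha hb] at h1
  exact h1

/-- **the logarithmic average of a slowly varying function is dilation invariant** -/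
lemma log_avg (hA : 0 ≤ A) (hB : ∀ r, |G r| ≤ B)
    (hG : ∀ a b : ℝ, 0 < a → a ≤ b → |G b - G a| ≤ A * ((b - a) * a ^ (-(3 / 4) : ℝ))) {c : ℝ} (hc : 0 < c)
    (hc1 : c ≤ 1) (N : ℕ) : |∑ k ∈ Finset.Icc 1 N, (k : ℝ)⁻¹ * (G (c * k) - G k)| ≤
      2 * (B + A * ∑' k : ℕ, (k : ℝ) ^ (-(7 / 4) : ℝ)) + 2 * (B * Real.log (1 / c)) := by
  have h1 := sum_int hA hB hG hc hc1 N
  have h2 := sum_int hA hB hG one_pos le_rfl N
  simp only [one_mul] at h2
  have hN : (1 : ℝ) ≤ ((N + 1 : ℕ) : ℝ) := by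
    push_cast
    linarith [(Nat.cast_nonneg N : (0 : ℝ) ≤ N)]
  have hN0 : (0 : ℝ) < ((N + 1 : ℕ) : ℝ) := by linarith
  have hii : ∀ a b : ℝ, 0 < a → 0 < b → IntervalIntegrable (fun u => G u / u) volume a b := by
    intro a b ha hb
    refine ContinuousOn.intervalIntegrable ?_
    have h3 : uIcc a b ⊆ Ioi 0 := by
      intro u hu
      exact lt_of_lt_of_le (lt_min ha hb) hu.1
    exact ((cont_of hA hG).mono h3).div continuousOn_id fun u hu => (h3 hu).ne'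
  have e1 : ∫ u in c..(c * ((N + 1 : ℕ) : ℝ)), G u / u = (∫ u in c..1, G u / u) + (∫ u in (1 : ℝ)..((N + 1 : ℕ) : ℝ), G u / u) -
      ∫ u in (c * ((N + 1 : ℕ) : ℝ))..((N + 1 : ℕ) : ℝ), G u / u := by
    have h3 := intervalIntegral.integral_add_adjacent_intervals (hii c (c * ((N + 1 : ℕ) : ℝ)) hc (by positivity))
      (hii (c * ((N + 1 : ℕ) : ℝ)) ((N + 1 : ℕ) : ℝ) (by positivity) hN0)
    have h4 := intervalIntegral.integral_add_adjacent_intervals (hii c 1 hc one_pos) (hii 1 ((N + 1 : ℕ) : ℝ) one_pos hN0)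
    linarith
  have h5 := int_le hB hc hc1
  have h6 := int_le hB (a := c * ((N + 1 : ℕ) : ℝ)) (b := ((N + 1 : ℕ) : ℝ)) (by positivity)
    (mul_le_of_le_one_left hN0.le hc1)
  rw [show ((N + 1 : ℕ) : ℝ) / (c * ((N + 1 : ℕ) : ℝ)) = 1 / c by field_simp] at h6
  have e2 : ∑ k ∈ Finset.Icc 1 N, (k : ℝ)⁻¹ * (G (c * k) - G k) =
      (∑ k ∈ Finset.Icc 1 N, (k : ℝ)⁻¹ * G (c * k)) - ∑ k ∈ Finset.Icc 1 N, (k : ℝ)⁻¹ * G k := by
    rw [← Finset.sum_sub_distrib]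
    exact Finset.sum_congr rfl fun k _ => by ring
  rw [e2]
  rw [e1] at h1
  have a1 := abs_le.1 h1
  have a2 := abs_le.1 h2
  have a5 := abs_le.1 h5
  have a6 := abs_le.1 h6
  rw [abs_le]
  constructor <;> linarith

end

/-! ### the averaged laws -/

section

variable {Q : Measure (ℤ → Bool)}

lemma hm_pos {N : ℕ} (hN : 1 ≤ N) : 0 < hm N := by
  unfold hm
  refine Finset.sum_pos (fun k hk => ?_) ⟨1, by simp [hN]⟩
  have : (0 : ℝ) < k := by exact_mod_cast (Finset.mem_Icc.1 hk).1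
  positivity

lemma hm_nonneg (N : ℕ) : 0 ≤ hm N := by
  unfold hm
  exact Finset.sum_nonneg fun k _ => by positivity

lemma hm_enn (N : ℕ) : ∑ k ∈ Finset.Icc 1 N, (k : ℝ≥0∞)⁻¹ = ENNReal.ofReal (hm N) := by
  unfold hm
  rw [ENNReal.ofReal_sum_of_nonneg fun k _ => by positivity]
  refine Finset.sum_congr rfl fun k hk => ?_
  have : (0 : ℝ) < k := by exact_mod_cast (Finset.mem_Icc.1 hk).1
  rw [ENNReal.ofReal_inv_of_pos this, ENNReal.ofReal_natCast]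

lemma alaw_prob (hQ : IsProbabilityMeasure Q) {N : ℕ} (hN : 1 ≤ N) : IsProbabilityMeasure (alaw Q N) := by
  refine ⟨?_⟩
  unfold alaw
  rw [Measure.smul_apply, Measure.finsetSum_apply]
  have h1 : ∀ k ∈ Finset.Icc 1 N, ((k : ℝ≥0∞)⁻¹ • ylaw Q k) univ = (k : ℝ≥0∞)⁻¹ := by
    intro k _
    have := ylaw_prob hQ k
    rw [Measure.smul_apply, measure_univ, smul_eq_mul, mul_one]
  rw [Finset.sum_congr rfl h1, smul_eq_mul, hm_enn]
  exact ENNReal.inv_mul_cancel (ENNReal.ofReal_pos.2 (hm_pos hN)).ne' ENNReal.ofReal_ne_top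

lemma alaw_int (hQ : IsProbabilityMeasure Q) (N : ℕ) {F : CI → ℝ} (hF : Continuous F) {B : ℝ} (hB : ∀ γ, ‖F γ‖ ≤ B) :
    ∫ γ, F γ ∂(alaw Q N) = (hm N)⁻¹ * ∑ k ∈ Finset.Icc 1 N, (k : ℝ)⁻¹ * ∫ γ, F γ ∂(ylaw Q k) := by
  unfold alaw
  rw [integral_smul_measure, integral_finsetSum_measure fun k hk => ?_, hm_enn, ENNReal.toReal_inv,
    ENNReal.toReal_ofReal (hm_nonneg N), smul_eq_mul]
  · congr 1
    refine Finset.sum_congr rfl fun k _ => ?_
    rw [integral_smul_measure, ENNReal.toReal_inv, ENNReal.toReal_natCast, smul_eq_mul]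
  · have := ylaw_prob hQ k
    have hk0 : (k : ℝ≥0∞) ≠ 0 := by
      have := (Finset.mem_Icc.1 hk).1
      exact_mod_cast (by omega : k ≠ 0)
    exact (Integrable.of_bound hF.aestronglyMeasurable B (Eventually.of_forall hB)).smul_measure
      (ENNReal.inv_ne_top.2 hk0)

/-- the dilation, for every path -/
lemma dil_le {z : ℕ → ℂ} (hz : ∀ j, ‖z (j + 1) - z j‖ ≤ 1) {c : ℝ} (hc : 0 < c) (hc1 : c ≤ 1) {F : CI → ℝ}
    {L : NNReal} (hF : LipschitzWith L F) {B : ℝ} (hB : ∀ γ, ‖F γ‖ ≤ B) (N : ℕ) :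
    |∑ k ∈ Finset.Icc 1 N, (k : ℝ)⁻¹ * (F (part 0 c (Yr z hz k)) -
      F (((c ^ (3 / 4 : ℝ) : ℝ) : ℂ) • Yr z hz k))| ≤
      2 * (B + 2 * L * ∑' k : ℕ, (k : ℝ) ^ (-(7 / 4) : ℝ)) + 2 * (B * Real.log (1 / c)) := by
  have hL : (0 : ℝ) ≤ L := L.2
  have h1 := log_avg (G := fun r => F (((c ^ (3 / 4 : ℝ) : ℝ) : ℂ) • Yr z hz r)) (A := 2 * L) (B := B) (by positivity)
    (fun r => hB _) (fun a b ha hab => ?_) hc hc1 N
  · have e : ∑ k ∈ Finset.Icc 1 N, (k : ℝ)⁻¹ * (F (part 0 c (Yr z hz k)) -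
        F (((c ^ (3 / 4 : ℝ) : ℝ) : ℂ) • Yr z hz k)) = ∑ k ∈ Finset.Icc 1 N, (k : ℝ)⁻¹ *
        (F (((c ^ (3 / 4 : ℝ) : ℝ) : ℂ) • Yr z hz (c * k)) - F (((c ^ (3 / 4 : ℝ) : ℝ) : ℂ) • Yr z hz k)) := by
      refine Finset.sum_congr rfl fun k hk => ?_
      have hk0 : (0 : ℝ) < k := by exact_mod_cast (Finset.mem_Icc.1 hk).1
      rw [part_zero hz hk0 hc hc1]
    rw [e]
    exact h1
  · rw [← Real.dist_eq]
    refine (hF.dist_le_mul _ _).trans ?_
    have h2 : dist (((c ^ (3 / 4 : ℝ) : ℝ) : ℂ) • Yr z hz b) (((c ^ (3 / 4 : ℝ) : ℝ) : ℂ) • Yr z hz a) ≤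
        dist (Yr z hz b) (Yr z hz a) := by
      rw [ContinuousMap.dist_le dist_nonneg]
      intro u
      rw [ContinuousMap.smul_apply, ContinuousMap.smul_apply, smul_eq_mul, smul_eq_mul, dist_eq_norm, ← mul_sub,
        norm_mul, Complex.norm_real, Real.norm_eq_abs, abs_of_nonneg (Real.rpow_nonneg hc.le _)]
      refine (mul_le_of_le_one_left (norm_nonneg _) (Real.rpow_le_one hc.le hc1 (by norm_num))).trans ?_
      rw [← dist_eq_norm]
      exact ContinuousMap.dist_apply_le_dist u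
    calc (L : ℝ) * dist _ _ ≤ L * (2 * ((b - a) * a ^ (-(3 / 4) : ℝ))) :=
          mul_le_mul_of_nonneg_left (h2.trans (Yr_dist hz ha hab)) hL
      _ = 2 * L * ((b - a) * a ^ (-(3 / 4) : ℝ)) := by ring

/-- the averaged laws: shift and dilation -/
lemma alaw_le (hQ : IsProbabilityMeasure Q)
    (hS : MeasurePreserving (fun (ω : ℤ → Bool) (j : ℤ) => ω (j + 1)) Q Q) {s c : ℝ} (hs : 0 ≤ s)
    (hc : 0 < c) (hsc : s + c ≤ 1) {F : CI → ℝ} {L : NNReal} (hF : LipschitzWith L F) {B : ℝ} (hB : ∀ γ, ‖F γ‖ ≤ B) :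
    ∃ C : ℝ, ∀ N : ℕ, 1 ≤ N → |(∫ γ, F (part s c γ) ∂(alaw Q N)) -
      ∫ γ, F (((c ^ (3 / 4 : ℝ) : ℝ) : ℂ) • γ) ∂(alaw Q N)| ≤ C / hm N := by
  have hc1 : c ≤ 1 := by linarith
  have hL : (0 : ℝ) ≤ L := L.2
  have hFc : Continuous F := hF.continuous
  obtain ⟨D, hD⟩ : ∃ D : ℝ, D = 2 * (B + 2 * L * ∑' k : ℕ, (k : ℝ) ^ (-(7 / 4) : ℝ)) + 2 * (B * Real.log (1 / c)) :=
    ⟨_, rfl⟩
  have hsm : Continuous fun γ : CI => ((c ^ (3 / 4 : ℝ) : ℝ) : ℂ) • γ := by fun_prop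
  refine ⟨2 * L * (∑' k : ℕ, (k : ℝ) ^ (-(7 / 4) : ℝ)) + D, fun N hN => ?_⟩
  have hh := hm_pos hN
  rw [alaw_int hQ N (F := fun γ => F (part s c γ)) (hFc.comp (part_cont s c)) fun γ => hB _,
    alaw_int hQ N (F := fun γ => F (((c ^ (3 / 4 : ℝ) : ℝ) : ℂ) • γ)) (hFc.comp hsm) fun γ => hB _,
    ← mul_sub, ← Finset.sum_sub_distrib, abs_mul, abs_of_pos (inv_pos.2 hh)]
  refine le_trans (mul_le_mul_of_nonneg_left (b := _) (c := 2 * L * (∑' k : ℕ, (k : ℝ) ^ (-(7 / 4) : ℝ)) + D) ?_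
    (inv_pos.2 hh).le) (le_of_eq (div_eq_inv_mul _ _).symm)
  have e1 : ∑ k ∈ Finset.Icc 1 N, ((k : ℝ)⁻¹ * (∫ γ, F (part s c γ) ∂(ylaw Q k)) -
      (k : ℝ)⁻¹ * ∫ γ, F (((c ^ (3 / 4 : ℝ) : ℝ) : ℂ) • γ) ∂(ylaw Q k)) =
      (∑ k ∈ Finset.Icc 1 N, (k : ℝ)⁻¹ * ((∫ γ, F (part s c γ) ∂(ylaw Q k)) - ∫ γ, F (part 0 c γ) ∂(ylaw Q k))) +
      ∑ k ∈ Finset.Icc 1 N, (k : ℝ)⁻¹ * ((∫ γ, F (part 0 c γ) ∂(ylaw Q k)) -
        ∫ γ, F (((c ^ (3 / 4 : ℝ) : ℝ) : ℂ) • γ) ∂(ylaw Q k)) := by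
    rw [← Finset.sum_add_distrib]
    exact Finset.sum_congr rfl fun k _ => by ring
  rw [e1]
  refine (abs_add_le _ _).trans (add_le_add ?_ ?_)
  · refine (Finset.abs_sum_le_sum_abs _ _).trans ?_
    have h1 : ∀ k ∈ Finset.Icc 1 N, |(k : ℝ)⁻¹ * ((∫ γ, F (part s c γ) ∂(ylaw Q k)) -
        ∫ γ, F (part 0 c γ) ∂(ylaw Q k))| ≤ 2 * L * (k : ℝ) ^ (-(7 / 4) : ℝ) := by
      intro k hk
      have hk1 := (Finset.mem_Icc.1 hk).1
      have hk0 : (0 : ℝ) < k := by exact_mod_cast hk1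
      rw [abs_mul, abs_of_pos (inv_pos.2 hk0)]
      have h2 := stat_le hQ hS (k := k) (by omega) hs hc hsc hF hB
      have h9 : (k : ℝ)⁻¹ * (k : ℝ) ^ (-(3 / 4) : ℝ) = (k : ℝ) ^ (-(7 / 4) : ℝ) := by
        rw [← Real.rpow_neg_one, ← Real.rpow_add hk0]
        norm_num
      calc (k : ℝ)⁻¹ * |_| ≤ (k : ℝ)⁻¹ * (2 * L * (k : ℝ) ^ (-(3 / 4) : ℝ)) :=
            mul_le_mul_of_nonneg_left h2 (inv_pos.2 hk0).le
        _ = 2 * L * ((k : ℝ)⁻¹ * (k : ℝ) ^ (-(3 / 4) : ℝ)) := by ring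
        _ = 2 * L * (k : ℝ) ^ (-(7 / 4) : ℝ) := by rw [h9]
    refine (Finset.sum_le_sum h1).trans ?_
    rw [← Finset.mul_sum]
    refine mul_le_mul_of_nonneg_left ?_ (by positivity)
    have hsum : Summable fun k : ℕ => (k : ℝ) ^ (-(7 / 4) : ℝ) := Real.summable_nat_rpow.2 (by norm_num)
    exact hsum.sum_le_tsum _ fun k _ => Real.rpow_nonneg (Nat.cast_nonneg k) _
  · -- the dilation
    have hi1 : ∀ k : ℕ, Integrable (fun ω => ∑ a : Fin 6, F (part 0 c (ycurve k (ex ((a : ℕ) : ℤ)) ω))) Q := fun k =>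
      integrable_finsetSum _ fun a _ =>
        Integrable.of_bound ((hFc.comp (part_cont 0 c)).measurable.comp (meas_ycurve k _)).aestronglyMeasurable B
          (Eventually.of_forall fun ω => hB _)
    have hi2 : ∀ k : ℕ, Integrable (fun ω => ∑ a : Fin 6,
        F (((c ^ (3 / 4 : ℝ) : ℝ) : ℂ) • ycurve k (ex ((a : ℕ) : ℤ)) ω)) Q := fun k =>
      integrable_finsetSum _ fun a _ =>
        Integrable.of_bound ((hFc.comp hsm).measurable.comp (meas_ycurve k _)).aestronglyMeasurable B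
          (Eventually.of_forall fun ω => hB _)
    have e2 : ∀ k ∈ Finset.Icc 1 N, (k : ℝ)⁻¹ * ((∫ γ, F (part 0 c γ) ∂(ylaw Q k)) -
        ∫ γ, F (((c ^ (3 / 4 : ℝ) : ℝ) : ℂ) • γ) ∂(ylaw Q k)) =
        ∫ ω, 6⁻¹ * ((k : ℝ)⁻¹ * ((∑ a : Fin 6, F (part 0 c (ycurve k (ex ((a : ℕ) : ℤ)) ω))) -
          ∑ a : Fin 6, F (((c ^ (3 / 4 : ℝ) : ℝ) : ℂ) • ycurve k (ex ((a : ℕ) : ℤ)) ω))) ∂Q := by
      intro k _
      rw [ylaw_int hQ k (F := fun γ => F (part 0 c γ)) (hFc.comp (part_cont _ _)) fun γ => hB _,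
        ylaw_int hQ k (F := fun γ => F (((c ^ (3 / 4 : ℝ) : ℝ) : ℂ) • γ)) (hFc.comp hsm) fun γ => hB _,
        integral_const_mul, integral_const_mul, integral_sub (hi1 k) (hi2 k)]
      ring
    have hi3 : ∀ k : ℕ, Integrable (fun ω => 6⁻¹ * ((k : ℝ)⁻¹ * ((∑ a : Fin 6,
        F (part 0 c (ycurve k (ex ((a : ℕ) : ℤ)) ω))) -
          ∑ a : Fin 6, F (((c ^ (3 / 4 : ℝ) : ℝ) : ℂ) • ycurve k (ex ((a : ℕ) : ℤ)) ω)))) Q := fun k =>
      (((hi1 k).sub (hi2 k)).const_mul _).const_mul _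
    rw [Finset.sum_congr rfl e2, ← integral_finsetSum _ fun k _ => hi3 k, ← Real.norm_eq_abs]
    have h6 := norm_integral_le_of_norm_le_const (μ := Q) (C := D)
      (f := fun ω => ∑ k ∈ Finset.Icc 1 N, 6⁻¹ * ((k : ℝ)⁻¹ * ((∑ a : Fin 6,
        F (part 0 c (ycurve k (ex ((a : ℕ) : ℤ)) ω))) -
          ∑ a : Fin 6, F (((c ^ (3 / 4 : ℝ) : ℝ) : ℂ) • ycurve k (ex ((a : ℕ) : ℤ)) ω))))
      (Eventually.of_forall fun ω => ?_)
    · rwa [probReal_univ, mul_one] at h6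
    · have e3 : ∑ k ∈ Finset.Icc 1 N, 6⁻¹ * ((k : ℝ)⁻¹ * ((∑ a : Fin 6,
          F (part 0 c (ycurve k (ex ((a : ℕ) : ℤ)) ω))) -
            ∑ a : Fin 6, F (((c ^ (3 / 4 : ℝ) : ℝ) : ℂ) • ycurve k (ex ((a : ℕ) : ℤ)) ω))) =
          6⁻¹ * ∑ a : Fin 6, ∑ k ∈ Finset.Icc 1 N, (k : ℝ)⁻¹ *
            (F (part 0 c (Yr (zz (ex ((a : ℕ) : ℤ)) ω) (zz_step (ex_norm _) ω) k)) -
              F (((c ^ (3 / 4 : ℝ) : ℝ) : ℂ) • Yr (zz (ex ((a : ℕ) : ℤ)) ω) (zz_step (ex_norm _) ω) k)) := by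
        rw [Finset.sum_comm, Finset.mul_sum]
        refine Finset.sum_congr rfl fun k _ => ?_
        rw [← Finset.mul_sum, ← Finset.sum_sub_distrib]
        congr 2
        exact Finset.sum_congr rfl fun a _ => by rw [ycurve_eq (ex_norm _)]
      rw [e3, norm_mul, Real.norm_eq_abs, abs_of_pos (by norm_num : (0 : ℝ) < 6⁻¹)]
      have h7 : ∀ a ∈ (Finset.univ : Finset (Fin 6)), ‖∑ k ∈ Finset.Icc 1 N, (k : ℝ)⁻¹ *
          (F (part 0 c (Yr (zz (ex ((a : ℕ) : ℤ)) ω) (zz_step (ex_norm _) ω) k)) -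
            F (((c ^ (3 / 4 : ℝ) : ℝ) : ℂ) • Yr (zz (ex ((a : ℕ) : ℤ)) ω) (zz_step (ex_norm _) ω) k))‖ ≤ D := by
        intro a _
        rw [hD, Real.norm_eq_abs]
        exact dil_le _ hc hc1 hF hB N
      have h8 := norm_sum_le_of_le _ h7
      rw [Finset.sum_const, Finset.card_univ, Fintype.card_fin, nsmul_eq_mul] at h8
      have h9 : (6 : ℝ)⁻¹ * ‖∑ a : Fin 6, ∑ k ∈ Finset.Icc 1 N, (k : ℝ)⁻¹ *
          (F (part 0 c (Yr (zz (ex ((a : ℕ) : ℤ)) ω) (zz_step (ex_norm _) ω) k)) -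
            F (((c ^ (3 / 4 : ℝ) : ℝ) : ℂ) • Yr (zz (ex ((a : ℕ) : ℤ)) ω) (zz_step (ex_norm _) ω) k))‖ ≤
          (6 : ℝ)⁻¹ * ((6 : ℕ) * D) := mul_le_mul_of_nonneg_left h8 (by norm_num)
      refine h9.trans (le_of_eq ?_)
      push_cast
      ring

end

/-! ### the limits -/

/-- probability measures are determined by the bounded Lipschitz functions -/
lemma ext_lip {μ ν : Measure CI} (hμ : IsProbabilityMeasure μ) (hν : IsProbabilityMeasure ν)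
    (h : ∀ (F : CI → ℝ) (L : NNReal) (B : ℝ), LipschitzWith L F → (∀ γ, ‖F γ‖ ≤ B) → ∫ γ, F γ ∂μ = ∫ γ, F γ ∂ν) :
    μ = ν := by
  obtain ⟨m, rfl⟩ : ∃ m : ProbabilityMeasure CI, (m : Measure CI) = μ := ⟨⟨μ, hμ⟩, rfl⟩
  obtain ⟨n, rfl⟩ : ∃ n : ProbabilityMeasure CI, (n : Measure CI) = ν := ⟨⟨ν, hν⟩, rfl⟩
  have h1 : Tendsto (fun _ : ℕ => m) atTop (𝓝 n) := by
    rw [tendsto_iff_forall_lipschitz_integral_tendsto]
    rintro f ⟨C, hC⟩ ⟨L, hL⟩
    have h2 : ∀ γ, ‖f γ‖ ≤ ‖f 0‖ + C := by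
      intro γ
      have h3 := hC γ 0
      rw [dist_eq_norm] at h3
      have h4 := norm_add_le (f γ - f 0) (f 0)
      rw [sub_add_cancel] at h4
      linarith
    have h5 := h f L _ hL h2
    rw [← h5]
    exact tendsto_const_nhds
  have h2 : n = m := tendsto_nhds_unique h1 tendsto_const_nhds
  rw [h2]

/-- bounded continuous functions from bounded Lipschitz functions -/
noncomputable def bcf (F : CI → ℝ) (hF : Continuous F) (B : ℝ) (hB : ∀ γ, ‖F γ‖ ≤ B) : BoundedContinuousFunction CI ℝ :=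
  BoundedContinuousFunction.ofNormedAddCommGroup F hF B hB

end Pool.Agent.TSW.Sym

open Pool.Agent.TSW.Sym

namespace Pool.Agent.TSW

variable {Q : Measure (ℤ → Bool)}

/-- **the weak limits of `Y_k` have stationary increments** -/
theorem stat_y (hQ : IsProbabilityMeasure Q)
    (hS : MeasurePreserving (fun (ω : ℤ → Bool) (j : ℤ) => ω (j + 1)) Q Q) {φ : ℕ → ℕ} {ν : Measure C(unitInterval, ℂ)}
    (hφ : Tendsto φ atTop atTop) (hν : IsProbabilityMeasure ν) (h : ToLaw (ylaw Q) φ ν) {s c : ℝ} (hs : 0 ≤ s)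
    (hc : 0 < c) (hsc : s + c ≤ 1) : ν.map (part s c) = ν.map (part 0 c) := by
  have hm1 := (part_cont s c).measurable
  have hm2 := (part_cont 0 c).measurable
  refine ext_lip (Measure.isProbabilityMeasure_map hm1.aemeasurable)
    (Measure.isProbabilityMeasure_map hm2.aemeasurable) fun F L B hF hB => ?_
  rw [integral_map hm1.aemeasurable hF.continuous.aestronglyMeasurable,
    integral_map hm2.aemeasurable hF.continuous.aestronglyMeasurable]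
  have h1 := h (bcf (fun γ => F (part s c γ)) (hF.continuous.comp (part_cont s c)) B fun γ => hB _)
  have h2 := h (bcf (fun γ => F (part 0 c γ)) (hF.continuous.comp (part_cont 0 c)) B fun γ => hB _)
  have h3 : Tendsto (fun k : ℕ => 2 * (L : ℝ) * ((φ k : ℕ) : ℝ) ^ (-(3 / 4) : ℝ)) atTop (𝓝 (2 * L * 0)) :=
    ((tendsto_rpow_neg_atTop (by norm_num : (0 : ℝ) < 3 / 4)).comp (tendsto_natCast_atTop_atTop.comp hφ)).const_mul _
  rw [mul_zero] at h3
  have h4 : Tendsto (fun k => (∫ γ, F (part s c γ) ∂(ylaw Q (φ k))) - ∫ γ, F (part 0 c γ) ∂(ylaw Q (φ k))) atTop (𝓝 0) := by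
    refine squeeze_zero_norm' ?_ h3
    filter_upwards [hφ.eventually_ge_atTop 1] with k hk
    exact stat_le hQ hS (by omega) hs hc hsc hF hB
  have h5 := tendsto_nhds_unique (h1.sub h2) h4
  exact sub_eq_zero.1 h5

/-- **the weak limits of `Y_k`, `k` with weights `1 / k`, are self-similar with the exponent `3 / 4`, with stationary
increments** -/
theorem self_a (hQ : IsProbabilityMeasure Q)
    (hS : MeasurePreserving (fun (ω : ℤ → Bool) (j : ℤ) => ω (j + 1)) Q Q) {φ : ℕ → ℕ} {ν : Measure C(unitInterval, ℂ)}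
    (hφ : Tendsto φ atTop atTop) (hν : IsProbabilityMeasure ν) (h : ToLaw (alaw Q) φ ν) {s c : ℝ} (hs : 0 ≤ s)
    (hc : 0 < c) (hsc : s + c ≤ 1) : ν.map (part s c) = ν.map (fun γ => ((c ^ (3 / 4 : ℝ) : ℝ) : ℂ) • γ) := by
  have hsm : Continuous fun γ : CI => ((c ^ (3 / 4 : ℝ) : ℝ) : ℂ) • γ := by fun_prop
  have hm1 := (part_cont s c).measurable
  have hm2 := hsm.measurable
  refine ext_lip (Measure.isProbabilityMeasure_map hm1.aemeasurable)
    (Measure.isProbabilityMeasure_map hm2.aemeasurable) fun F L B hF hB => ?_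
  rw [integral_map hm1.aemeasurable hF.continuous.aestronglyMeasurable,
    integral_map hm2.aemeasurable hF.continuous.aestronglyMeasurable]
  have h1 := h (bcf (fun γ => F (part s c γ)) (hF.continuous.comp (part_cont s c)) B fun γ => hB _)
  have h2 := h (bcf (fun γ => F (((c ^ (3 / 4 : ℝ) : ℝ) : ℂ) • γ)) (hF.continuous.comp hsm) B fun γ => hB _)
  obtain ⟨C, hC⟩ := alaw_le hQ hS hs hc hsc hF hB
  have h3 : Tendsto (fun k => C / hm (φ k)) atTop (𝓝 0) := tendsto_const_nhds.div_atTop (hm_tendsto.comp hφ)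
  have h4 : Tendsto (fun k => (∫ γ, F (part s c γ) ∂(alaw Q (φ k))) -
      ∫ γ, F (((c ^ (3 / 4 : ℝ) : ℝ) : ℂ) • γ) ∂(alaw Q (φ k))) atTop (𝓝 0) := by
    refine squeeze_zero_norm' ?_ h3
    filter_upwards [hφ.eventually_ge_atTop 1] with k hk
    exact hC _ hk
  have h5 := tendsto_nhds_unique (h1.sub h2) h4
  exact sub_eq_zero.1 h5

end Pool.Agent.TSW
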