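import Pool.Agent.TSW.Geo
import Pool.Agent.SIM.Rev

/-!
# TSW, BC, row B2 (helper29): reversal of the curves

* `Rc` : the reversed curve, from the origin; `curve_rv` : the curve of the reversed walk is `± Rc`;
* `sum_rv` : sums over the walks do not change.
-/

set_option autoImplicit false

open MeasureTheory Filter Topology
open scoped Classical

namespace Pool.Agent.TSW

open Pool.Agent.NTS.Res

open HexObs.SIM (rv rv_rv pos_rv rv_mem)

/-- the reversed curve, from the origin -/
noncomputable def Rc (γ : C(unitInterval, ℂ)) : C(unitInterval, ℂ) where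
  toFun u := γ (unitInterval.symm u) - γ 1
  continuous_toFun := by fun_prop

lemma Rc_apply (γ : C(unitInterval, ℂ)) (u : unitInterval) : Rc γ u = γ (unitInterval.symm u) - γ 1 := rfl

lemma curve_apply {n : ℕ} (s : Fin n → Fin 3) (u : unitInterval) : curve s u = ∑ k ∈ Finset.range n,
    ((max 0 (min 1 ((u : ℝ) * n - k)) : ℝ) : ℂ) * ((pos s (k + 1) - pos s k) / size n) := rfl

lemma clamp_sub (y : ℝ) : max 0 (min 1 (1 - y)) = 1 - max 0 (min 1 y) := by
  rcases le_total y 0 with h | h
  · rw [min_eq_left (by linarith), max_eq_right (by norm_num), min_eq_right (by linarith), max_eq_left h, sub_zero]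
  · rcases le_total 1 y with h' | h'
    · rw [min_eq_right (by linarith), max_eq_left (by linarith), min_eq_left h', max_eq_right (by norm_num), sub_self]
    · rw [min_eq_right (by linarith), max_eq_right (by linarith), min_eq_right h', max_eq_right h]

/-- **the curve of the reversed walk** -/
theorem curve_rv {n : ℕ} (s : Fin n → Fin 3) : curve (rv s) = (-1 : ℂ) ^ n • Rc (curve s) := by
  ext u
  show curve (rv s) u = (-1 : ℂ) ^ n * (curve s (unitInterval.symm u) - curve s 1)
  rw [curve_apply, curve_apply, curve_apply, ← Finset.sum_range_reflect, ← Finset.sum_sub_distrib, Finset.mul_sum]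
  refine Finset.sum_congr rfl fun k hk => ?_
  have hk' := Finset.mem_range.1 hk
  have e1 : n - 1 - k + 1 = n - k := by omega
  have e2 : n - (n - k) = k := by omega
  have e3 : n - (n - 1 - k) = k + 1 := by omega
  rw [e1, pos_rv s (by omega : n - k ≤ n), pos_rv s (by omega : n - 1 - k ≤ n), e2, e3]
  have h1 : ((n - 1 - k : ℕ) : ℝ) = n - 1 - k := by
    rw [Nat.cast_sub (by omega), Nat.cast_sub (by omega)]
    push_cast
    ring
  have h2 : (u : ℝ) * n - ((n - 1 - k : ℕ) : ℝ) = 1 - (((unitInterval.symm u : unitInterval) : ℝ) * n - k) := by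
    rw [h1, unitInterval.coe_symm_eq]
    ring
  have h3 : max 0 (min 1 (((1 : unitInterval) : ℝ) * n - k)) = 1 := by
    have h4 : (k : ℝ) + 1 ≤ n := by exact_mod_cast hk'
    rw [Set.Icc.coe_one, one_mul, min_eq_left (by linarith), max_eq_right (by norm_num)]
  rw [h2, clamp_sub, h3]
  push_cast
  ring

lemma sum_rv {n : ℕ} (F : (Fin n → Fin 3) → ℝ) : ∑ s ∈ saw n, F (rv s) = ∑ s ∈ saw n, F s := by
  refine Finset.sum_nbij' rv rv (fun s hs => rv_mem hs) (fun s hs => rv_mem hs) (fun s _ => rv_rv s) (fun s _ => rv_rv s)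
    fun s _ => rfl

lemma lip_Rc : LipschitzWith 2 Rc := by
  refine LipschitzWith.of_dist_le_mul fun x y => ?_
  refine (ContinuousMap.dist_le (by positivity)).2 fun u => ?_
  have h1 : dist (x (unitInterval.symm u)) (y (unitInterval.symm u)) ≤ dist x y := ContinuousMap.dist_apply_le_dist _
  have h2 : dist (x 1) (y 1) ≤ dist x y := ContinuousMap.dist_apply_le_dist _
  rw [Rc_apply, Rc_apply]
  rw [dist_eq_norm] at h1 h2 ⊢
  have e : x (unitInterval.symm u) - x 1 - (y (unitInterval.symm u) - y 1) =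
      (x (unitInterval.symm u) - y (unitInterval.symm u)) - (x 1 - y 1) := by ring
  rw [e]
  refine (norm_sub_le _ _).trans ?_
  push_cast
  linarith

lemma dist_sgn (n : ℕ) (x y : C(unitInterval, ℂ)) : dist ((-1 : ℂ) ^ n • x) ((-1 : ℂ) ^ n • y) = dist x y := by
  have key : ∀ x y : C(unitInterval, ℂ), dist ((-1 : ℂ) ^ n • x) ((-1 : ℂ) ^ n • y) ≤ dist x y := by
    intro x y
    refine (ContinuousMap.dist_le dist_nonneg).2 fun u => ?_
    show dist ((-1 : ℂ) ^ n * x u) ((-1 : ℂ) ^ n * y u) ≤ _
    rw [dist_eq_norm, ← mul_sub, norm_mul, norm_pow, norm_neg, norm_one, one_pow, one_mul, ← dist_eq_norm]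
    exact ContinuousMap.dist_apply_le_dist u
  refine le_antisymm (key x y) ?_
  have h := key ((-1 : ℂ) ^ n • x) ((-1 : ℂ) ^ n • y)
  have e : ∀ z : C(unitInterval, ℂ), (-1 : ℂ) ^ n • (-1 : ℂ) ^ n • z = z := by
    intro z
    rw [smul_smul, ← mul_pow]
    norm_num
  rwa [e, e] at h

lemma lip_comp {G : C(unitInterval, ℂ) → ℝ} {K : NNReal} (hG : LipschitzWith K G) (n : ℕ) :
    LipschitzWith (K * 2) fun γ => G ((-1 : ℂ) ^ n • Rc γ) := by
  have h1 : LipschitzWith 1 fun γ : C(unitInterval, ℂ) => (-1 : ℂ) ^ n • γ :=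
    LipschitzWith.of_dist_le_mul fun x y => by rw [dist_sgn, NNReal.coe_one, one_mul]
  have h2 := (hG.comp (h1.comp lip_Rc))
  rw [one_mul] at h2
  exact h2

end Pool.Agent.TSW
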