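import Pool.Agent.TSW.Dict
import Pool.Agent.ERG.ExR

/-!
# TSW, layer B (helper22): the densities of the windows of the turns

* **`dens_all`** : `ExR → ` for every weight `Φ : (Fin m → Bool) → [0, 1]` there is one density ρ, for the words of all boxes and
  for the walks with n ≥ R (m + 1) steps, R depends only on ε.
* **`denF_of`** : `ExR → DenF`.
-/

set_option autoImplicit false

open Finset

open scoped ENNReal

namespace Pool.Agent.TSW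

open HexObs hiding pos turn
open HexObs.NPR HexObs.TS HexObs.TIW HexObs.NTA HexObs.SDN
open Pool.Agent.NTS.Res
open NTF (sw aa de Ed JJ)
open NTSF (rot)

/-! ### scales -/

lemma lsc_ex (m : ℕ) : ∃ l : ℕ, (m : ℝ) + 1 ≤ PW.mZ (2 ^ l) := by
  obtain ⟨j, hj⟩ := pow_unbounded_of_one_lt ((m : ℝ) + 1) (one_lt_two : (1 : ℝ) < 2)
  refine ⟨j, ?_⟩
  have h1 := mz_low 0 j
  have h2 := mz_one 0
  rw [Nat.zero_add] at h1
  have h3 : (2 : ℝ) ^ j * 1 ≤ 2 ^ j * PW.mZ (2 ^ 0) := mul_le_mul_of_nonneg_left h2 (by positivity)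
  linarith

open Classical in
/-- the scale of the windows of m letters -/
noncomputable def lsc (m : ℕ) : ℕ := Nat.find (lsc_ex m)

lemma lsc_spec (m : ℕ) : (m : ℝ) + 1 ≤ PW.mZ (2 ^ lsc m) := by
  classical
  exact Nat.find_spec (lsc_ex m)

lemma lsc_up : ∃ C : ℝ, 1 ≤ C ∧ ∀ m : ℕ, PW.mZ (2 ^ lsc m) ≤ C * (m + 1) := by
  classical
  obtain ⟨C4, hC4, hup⟩ := exists_mz_up
  refine ⟨4 * C4 + PW.mZ (2 ^ 0), by have := mz_pos 0; linarith, fun m => ?_⟩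
  have hm : (0 : ℝ) ≤ m := Nat.cast_nonneg m
  have h0 := mz_pos 0
  rcases Nat.eq_zero_or_pos (lsc m) with h | h
  · rw [h]
    have : PW.mZ (2 ^ 0) * 1 ≤ PW.mZ (2 ^ 0) * (m + 1) := mul_le_mul_of_nonneg_left (by linarith) h0.le
    nlinarith
  · have h1 : ¬ ((m : ℝ) + 1 ≤ PW.mZ (2 ^ (lsc m - 1))) := Nat.find_min (lsc_ex m) (m := lsc m - 1) (by
      show lsc m - 1 < lsc m
      omega)
    have h2 := hup (lsc m - 1) 1
    rw [Nat.sub_add_cancel h, pow_one] at h2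
    push Not at h1
    have h3 : C4 * 4 * PW.mZ (2 ^ (lsc m - 1)) ≤ C4 * 4 * (m + 1) := mul_le_mul_of_nonneg_left h1.le (by linarith)
    nlinarith

/-- every large number of letters has a scale -/
lemma sc_ex {n : ℕ} (h : PW.mZ (2 ^ 0) ≤ n) : ∃ k, TIP.Sc k n := by
  classical
  have hex : ∃ j, (n : ℝ) < PW.mZ (2 ^ (j + 1)) := by
    obtain ⟨j, hj⟩ := lsc_ex n
    refine ⟨j, ?_⟩
    have := mz_mono (show j ≤ j + 1 by omega)
    linarith
  refine ⟨Nat.find hex, ?_, Nat.find_spec hex⟩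
  rcases Nat.eq_zero_or_pos (Nat.find hex) with h1 | h1
  · rw [h1]
    exact h
  · have h2 := Nat.find_min hex (m := Nat.find hex - 1) (by omega)
    rw [not_lt] at h2
    rwa [show Nat.find hex - 1 + 1 = Nat.find hex by omega] at h2

/-- large n: the scale of n is far above the scale of m -/
lemma sc_far (d : ℕ) : ∃ R : ℕ, ∀ m n : ℕ, R * (m + 1) ≤ n → ∃ k, TIP.Sc k n ∧ lsc m + d ≤ k := by
  obtain ⟨C4, hC4, hup⟩ := exists_mz_up
  obtain ⟨C, hC, hC'⟩ := lsc_up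
  refine ⟨⌈C4 * 4 ^ d * C + PW.mZ (2 ^ 0)⌉₊, fun m n hn => ?_⟩
  have hn' : (C4 * 4 ^ d * C + PW.mZ (2 ^ 0)) * ((m : ℝ) + 1) ≤ n := by
    have h1 : ((⌈C4 * 4 ^ d * C + PW.mZ (2 ^ 0)⌉₊ * (m + 1) : ℕ) : ℝ) ≤ n := by exact_mod_cast hn
    push_cast at h1
    exact (mul_le_mul_of_nonneg_right (Nat.le_ceil _) (by positivity)).trans h1
  have hm : (0 : ℝ) ≤ m := Nat.cast_nonneg m
  have h0 := mz_pos 0
  have hA : 0 ≤ C4 * 4 ^ d * C := by positivity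
  obtain ⟨k, hk⟩ := sc_ex (n := n) (by nlinarith)
  refine ⟨k, hk, ?_⟩
  by_contra hcon
  push Not at hcon
  have h1 : PW.mZ (2 ^ (k + 1)) ≤ PW.mZ (2 ^ (lsc m + d)) := mz_mono (by omega)
  have h2 := hup (lsc m) d
  have h3 := hk.2
  have h4 := hC' m
  have h5 : C4 * 4 ^ d * PW.mZ (2 ^ lsc m) ≤ C4 * 4 ^ d * (C * (m + 1)) := mul_le_mul_of_nonneg_left h4 (by positivity)
  nlinarith

/-! ### densities -/

/-- **densities of weighted windows** -/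
theorem dens_all (h : ExR) : ∃ (c C : ℝ) (j0 : ℕ) (ρ : (m : ℕ) → ((Fin m → Bool) → ℝ) → ℝ), 0 < c ∧ 0 < C ∧
    (∀ (m : ℕ) (Φ : (Fin m → Bool) → ℝ), (∀ x, 0 ≤ Φ x ∧ Φ x ≤ 1) → 0 ≤ ρ m Φ ∧ ρ m Φ ≤ 2 ∧ ∀ K, lsc m + j0 ≤ K →
      gf {t | t ∈ WL K ∧ t.length ≤ ML (K + 2) ∧ ¬ ∀ x y : ℕ, x ≤ y → y ≤ t.length →
        |VW Φ (wd t x y) + (m + 1) - ρ m Φ * ((y : ℝ) - x)| ≤ C * ((K : ℝ) - lsc m + 1) ^ (-c) * PW.mZ (2 ^ K)} ≤
        ENNReal.ofReal ((1 / 2) ^ (K - lsc m)) * FK K) ∧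
    ∀ ε : ℝ, 0 < ε → ∃ R : ℕ, ∀ (m : ℕ) (Φ : (Fin m → Bool) → ℝ), (∀ x, 0 ≤ Φ x ∧ Φ x ≤ 1) → ∀ n : ℕ, R * (m + 1) ≤ n →
      ∀ (P : (Fin n → Fin 3) → Prop) [DecidablePred P], (∀ s, P s ↔ ∃ a b : ℕ, a ≤ b ∧ b ≤ n ∧
        ε * n < |hitw s Φ a b - ρ m Φ * ((b : ℝ) - a)|) → (((saw n).filter P).card : ℝ) ≤ ε * (saw n).card := by
  obtain ⟨c, C, j0, ρ, hc, hC, h1, h2⟩ := h 1 one_pos
  have e : ∀ (m : ℕ) (Φ : (Fin m → Bool) → ℝ) (u : List Bool),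
      ((m : ℝ) + 1) * (VW Φ u / (m + 1) + 1) = VW Φ u + (m + 1) := by
    intro m Φ u
    have hm : (0 : ℝ) < m + 1 := by positivity
    rw [mul_add, mul_div_cancel₀ _ hm.ne', mul_one]
  refine ⟨c, C, j0, fun m Φ => ρ (lsc m) (m + 1) (fun u => VW Φ u / (m + 1) + 1), hc, hC, fun m Φ hΦ => ?_, fun ε hε => ?_⟩
  · have h3 := h1 (lsc m) (m + 1) (fun u => VW Φ u / (m + 1) + 1) (add1_VW hΦ) (by positivity) (lsc_spec m) (bd_VW hΦ)
    refine ⟨h3.1, by linarith [h3.2.1], fun K hK => ?_⟩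
    have h4 := h3.2.2 K hK
    simp only [e] at h4
    exact h4
  · obtain ⟨d, hd⟩ := h2 (ε / 2) (by linarith)
    obtain ⟨R0, hR0⟩ := sc_far d
    obtain ⟨R1, hR1⟩ := exists_nat_ge (4 / ε)
    refine ⟨R0 + R1 + 1, fun m Φ hΦ n hn P _ hP => ?_⟩
    have hn0 : R0 * (m + 1) ≤ n := (Nat.mul_le_mul_right _ (by omega)).trans hn
    have hn1 : R1 * (m + 1) ≤ n := (Nat.mul_le_mul_right _ (by omega)).trans hn
    have hn2 : 0 < n := by
      have : 1 * (m + 1) ≤ n := (Nat.mul_le_mul_right _ (by omega)).trans hn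
      omega
    have hmn : 2 * ((m : ℝ) + 1) ≤ ε / 2 * n := by
      have k1 : ((R1 * (m + 1) : ℕ) : ℝ) ≤ n := by exact_mod_cast hn1
      push_cast at k1
      have k2 : 4 / ε * ((m : ℝ) + 1) ≤ R1 * (m + 1) := mul_le_mul_of_nonneg_right hR1 (by positivity)
      have k3 := mul_le_mul_of_nonneg_left (k2.trans k1) (show 0 ≤ ε / 2 by linarith)
      have k4 : ε / 2 * (4 / ε * ((m : ℝ) + 1)) = 2 * (m + 1) := by
        field_simp
        ring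
      linarith
    obtain ⟨k, hsc, hk⟩ := hR0 m n hn0
    have h3 := hd (lsc m) (m + 1) (fun u => VW Φ u / (m + 1) + 1) (add1_VW hΦ) (by positivity) (lsc_spec m) (bd_VW hΦ)
      k n hsc hk
    simp only [e] at h3
    refine (saw_of_Pn hn2 P (fun s => ?_) (fun t ht hPt => ?_) h3).trans ?_
    · rw [hP, hP]
      simp only [hitw_rot]
    · rw [hP] at hPt
      obtain ⟨a, b, hab, hb, hgt⟩ := hPt
      intro hcon
      have k1 := hcon a b hab (by rw [ht.1]; exact hb)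
      have k2 := hitw_VW hΦ ht.1 hab hb
      rw [abs_le] at k1 k2
      have k3 : |hitw (sw n t) Φ a b - ρ (lsc m) (m + 1) (fun u => VW Φ u / (m + 1) + 1) * ((b : ℝ) - a)| ≤ ε * n := by
        rw [abs_le]
        constructor
        · linarith [k1.1, k2.1]
        · linarith [k1.2, k2.2]
      linarith
    · exact mul_le_mul_of_nonneg_right (by linarith) (Nat.cast_nonneg _)

lemma ind_bd {m : ℕ} (S : Set (Fin m → Bool)) [DecidablePred (· ∈ S)] (x : Fin m → Bool) :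
    (0 : ℝ) ≤ (if x ∈ S then 1 else 0) ∧ (if x ∈ S then (1 : ℝ) else 0) ≤ 1 := by
  split_ifs
  · exact ⟨zero_le_one, le_rfl⟩
  · exact ⟨le_rfl, zero_le_one⟩

/-- **layer B, first half** -/
theorem denF_of (h : ExR) : DenF := by
  classical
  obtain ⟨c, C, j0, ρ, -, -, -, h2⟩ := dens_all h
  intro m S
  refine ⟨ρ m (fun x => if x ∈ S then 1 else 0), fun ε hε => ?_⟩
  obtain ⟨R, hR⟩ := h2 ε hε
  filter_upwards [Filter.eventually_ge_atTop (R * (m + 1))] with n hn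
  refine hR m _ (ind_bd S) n hn _ fun s => ?_
  simp only [hits_eq]

end Pool.Agent.TSW
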