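import Pool.Agent.TSW.BulkF
import Pool.Agent.ERG.DensZ
import Pool.Agent.SSI.RtF
import Pool.Agent.NPR.ExtT

/-!
# TSW, layer B (helper22): the inputs of Q8, no hypothesis

* `exR : ExR`, **`denF : DenF`**, **`bulkF : BulkF`**, `exists_QOk`.
-/

set_option autoImplicit false

namespace Pool.Agent.TSW

open HexObs.NPR

theorem exR : ExR := exR_of denG

/-- **the densities exist** -/
theorem denF : DenF := denF_of exR

/-- **typical windows** -/
theorem bulkF : BulkF := bulkF_of HexObs.SSI.rt timeF fk4 exR

/-- the two-sided infinite walk -/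
theorem exists_QOk : ∃ Q : MeasureTheory.Measure (ℤ → Bool), QOk Q := qOk denF bulkF

end Pool.Agent.TSW
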