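import Pool.Agent.TSW.StEb
import Pool.Agent.CRT.Defs

/-!
# TSW, row StE (helper22): if the laws of X_n converge, then so do those of the two-sided infinite walk

* `mean_dens` : the mean over the walks with n ≥ R (k + 1) steps of a functional of windows of k turns is its Q-mean, up to ε,
  uniformly in k and in the functional;
* `conv_of` : tight laws on the curves, convergence of the means of the Lipschitz functions;
* **`stE_of`** : `RegSz → ExR → QOk Q → StC Q → StE Q`.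
-/

set_option autoImplicit false

open Set Filter Topology MeasureTheory
open scoped ENNReal

namespace Pool.Agent.TSW.E

open Pool.Agent.TSW Pool.Agent.TSW.Sym Pool.Agent.NTS.Res

/-! ### the Q-mean of a functional of k turns -/

section mean

variable {Q : Measure (ℤ → Bool)}

/-- the Q-mean -/
noncomputable def qm (Q : Measure (ℤ → Bool)) {m : ℕ} (Φ : (Fin m → Bool) → ℝ) : ℝ :=
  ∑ τ : Fin m → Bool, Φ τ * Q.real (cyl 0 {τ})

lemma hitw_sum {n m : ℕ} (s : Fin n → Fin 3) (Φ : (Fin m → Bool) → ℝ) (a b : ℕ) :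
    hitw s Φ a b = ∑ τ : Fin m → Bool, Φ τ * (hits s ({τ} : Set (Fin m → Bool)) a b : ℝ) := by
  classical
  have h1 : ∀ τ : Fin m → Bool, Φ τ * (hits s ({τ} : Set (Fin m → Bool)) a b : ℝ) =
      ∑ i ∈ Finset.Ico a b, if i + m < n ∧ (fun j : Fin m => turn s (i + j)) = τ then Φ τ else 0 := by
    intro τ
    unfold hits
    rw [Finset.card_filter]
    push_cast
    rw [Finset.mul_sum]
    refine Finset.sum_congr rfl fun i _ => ?_
    rw [mul_ite, mul_one, mul_zero]
    simp only [Set.mem_singleton_iff]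
  rw [Finset.sum_congr rfl fun τ _ => h1 τ, Finset.sum_comm]
  unfold hitw
  refine Finset.sum_congr rfl fun i _ => ?_
  by_cases h2 : i + m < n
  · rw [if_pos h2]
    simp only [h2, true_and]
    rw [Finset.sum_ite_eq, if_pos (Finset.mem_univ _)]
  · rw [if_neg h2]
    simp only [h2, false_and, if_false, Finset.sum_const_zero]

lemma hitw_mean (hQ : QOk Q) {m : ℕ} (Φ : (Fin m → Bool) → ℝ) :
    Tendsto (fun n : ℕ => (∑ s ∈ saw n, hitw s Φ 0 n) / (n * (saw n).card)) atTop (𝓝 (qm Q Φ)) := by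
  have h1 : (fun n : ℕ => (∑ s ∈ saw n, hitw s Φ 0 n) / (n * (saw n).card)) = fun n : ℕ =>
      ∑ τ : Fin m → Bool, Φ τ * ((∑ s ∈ saw n, (hits s ({τ} : Set (Fin m → Bool)) 0 n : ℝ)) / (n * (saw n).card)) := by
    funext n
    have h2 : ∑ s ∈ saw n, hitw s Φ 0 n =
        ∑ τ : Fin m → Bool, Φ τ * ∑ s ∈ saw n, (hits s ({τ} : Set (Fin m → Bool)) 0 n : ℝ) := by
      rw [Finset.sum_congr rfl fun s _ => hitw_sum s Φ 0 n, Finset.sum_comm]
      exact Finset.sum_congr rfl fun τ _ => (Finset.mul_sum _ _ _).symm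
    rw [h2, Finset.sum_div]
    exact Finset.sum_congr rfl fun τ _ => mul_div_assoc _ _ _
  rw [h1]
  unfold qm
  exact tendsto_finset_sum _ fun τ _ => (mean_lim (hQ.2 m {τ} 0)).const_mul _

lemma hitw_bd {n m : ℕ} (s : Fin n → Fin 3) {Φ : (Fin m → Bool) → ℝ} (hΦ : ∀ x, 0 ≤ Φ x ∧ Φ x ≤ 1) :
    0 ≤ hitw s Φ 0 n ∧ hitw s Φ 0 n ≤ n := by
  unfold hitw
  refine ⟨Finset.sum_nonneg fun i _ => ?_, (Finset.sum_le_card_nsmul _ _ 1 fun i _ => ?_).trans ?_⟩
  · split_ifs
    · exact (hΦ _).1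
    · exact le_rfl
  · split_ifs
    · exact (hΦ _).2
    · exact zero_le_one
  · rw [Nat.card_Ico, Nat.sub_zero, nsmul_eq_mul, mul_one]

/-- **uniform law of large numbers for the means** -/
theorem mean_dens (hX : HexObs.NPR.ExR) (hQ : QOk Q) {ε : ℝ} (hε : 0 < ε) : ∃ R : ℕ, ∀ (m : ℕ) (Φ : (Fin m → Bool) → ℝ),
    (∀ x, 0 ≤ Φ x ∧ Φ x ≤ 1) → ∀ n : ℕ, 1 ≤ n → R * (m + 1) ≤ n →
      |(∑ s ∈ saw n, hitw s Φ 0 n) / (n * (saw n).card) - qm Q Φ| ≤ ε := by
  classical
  obtain ⟨c, C, j0, ρ, hc0, hC0, h1, h2⟩ := dens_all hX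
  have key : ∀ e : ℝ, 0 < e → ∃ R : ℕ, ∀ (m : ℕ) (Φ : (Fin m → Bool) → ℝ),
      (∀ x, 0 ≤ Φ x ∧ Φ x ≤ 1) → ∀ n : ℕ, 1 ≤ n → R * (m + 1) ≤ n →
        |(∑ s ∈ saw n, hitw s Φ 0 n) / (n * (saw n).card) - ρ m Φ| ≤ 3 * e := by
    intro e he
    obtain ⟨R, hR⟩ := h2 e he
    refine ⟨R, fun m Φ hΦ n hn1 hn => ?_⟩
    have hn0 : (0 : ℝ) < n := by exact_mod_cast hn1
    have hc := NTSF.saw_card_pos n
    have hd : (0 : ℝ) < n * (saw n).card := by positivity
    obtain ⟨P, hP⟩ : ∃ P : (Fin n → Fin 3) → Prop, P = fun s => ∃ a b : ℕ, a ≤ b ∧ b ≤ n ∧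
      e * n < |hitw s Φ a b - ρ m Φ * ((b : ℝ) - a)| := ⟨_, rfl⟩
    have h3 := hR m Φ hΦ n hn P (fun s => by rw [hP])
    have hρ := h1 m Φ hΦ
    have h4 : ∀ s ∈ saw n, |hitw s Φ 0 n - ρ m Φ * n| ≤ e * n + if P s then 2 * (n : ℝ) else 0 := by
      intro s _
      split_ifs with h5
      · have h6 := hitw_bd s hΦ
        have h7 : ρ m Φ * n ≤ 2 * n := mul_le_mul_of_nonneg_right hρ.2.1 hn0.le
        have h8 : 0 ≤ ρ m Φ * n := mul_nonneg hρ.1 hn0.le
        have h9 : 0 ≤ e * n := by positivity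
        rw [abs_le]
        constructor <;> linarith [h6.1, h6.2]
      · rw [hP] at h5
        push Not at h5
        have := h5 0 n (Nat.zero_le _) le_rfl
        rw [Nat.cast_zero, sub_zero] at this
        linarith
    have e1 : (∑ s ∈ saw n, hitw s Φ 0 n) / (n * (saw n).card) - ρ m Φ =
        (∑ s ∈ saw n, (hitw s Φ 0 n - ρ m Φ * n)) / (n * (saw n).card) := by
      rw [Finset.sum_sub_distrib, Finset.sum_const, nsmul_eq_mul, sub_div]
      congr 1
      field_simp
    rw [e1, abs_div, abs_of_pos hd, div_le_iff₀ hd]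
    refine (Finset.abs_sum_le_sum_abs _ _).trans ((Finset.sum_le_sum h4).trans ?_)
    rw [Finset.sum_add_distrib, Finset.sum_const, nsmul_eq_mul, ← Finset.sum_filter, Finset.sum_const, nsmul_eq_mul]
    have h5 := mul_le_mul_of_nonneg_right h3 (show (0 : ℝ) ≤ 2 * n by positivity)
    linarith
  -- the density is the Q-mean
  have heq : ∀ (m : ℕ) (Φ : (Fin m → Bool) → ℝ), (∀ x, 0 ≤ Φ x ∧ Φ x ≤ 1) → ρ m Φ = qm Q Φ := by
    intro m Φ hΦ
    by_contra hne
    have hpos : 0 < |ρ m Φ - qm Q Φ| := abs_pos.2 (sub_ne_zero.2 hne)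
    obtain ⟨R, hR⟩ := key (|ρ m Φ - qm Q Φ| / 12) (by positivity)
    have h3 := (Metric.tendsto_atTop.1 (hitw_mean hQ Φ)) (|ρ m Φ - qm Q Φ| / 4) (by positivity)
    obtain ⟨N, hN⟩ := h3
    have h4 := hN (N + R * (m + 1) + 1) (by omega)
    have h5 := hR m Φ hΦ (N + R * (m + 1) + 1) (by omega) (by omega)
    rw [Real.dist_eq] at h4
    rw [abs_le] at h5
    rw [abs_lt] at h4
    have h6 : |ρ m Φ - qm Q Φ| ≤ |ρ m Φ - qm Q Φ| / 2 := by
      rw [abs_le]
      constructor <;> linarith [h4.1, h4.2, h5.1, h5.2]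
    linarith
  obtain ⟨R, hR⟩ := key (ε / 3) (by linarith)
  refine ⟨R, fun m Φ hΦ n hn1 hn => ?_⟩
  rw [← heq m Φ hΦ]
  refine (hR m Φ hΦ n hn1 hn).trans ?_
  linarith

/-! ### the laws of the walk -/

/-- the factor -/
noncomputable def sk (k : ℕ) : ℂ := (((k : ℝ) ^ (3 / 4 : ℝ) / size k : ℝ) : ℂ)

/-- the Q-mean of the functional is the mean of F -/
lemma qm_eq (hQ : IsProbabilityMeasure Q) (k : ℕ) {F : CI → ℝ} (hF : Continuous F) (h01 : ∀ γ, 0 ≤ F γ ∧ F γ ≤ 1) :
    ∫ γ, F γ ∂((ylaw Q k).map fun γ => sk k • γ) = qm Q (Ph k (size k) F) := by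
  classical
  have hb : ∀ γ, ‖F γ‖ ≤ 1 := fun γ => by
    rw [Real.norm_eq_abs, abs_of_nonneg (h01 γ).1]
    exact (h01 γ).2
  have hsm : Continuous fun γ : CI => sk k • γ := by fun_prop
  rw [integral_map hsm.measurable.aemeasurable hF.aestronglyMeasurable,
    ylaw_int hQ k (F := fun γ => F (sk k • γ)) (hF.comp hsm) fun γ => hb _]
  have h1 : ∀ ω : ℤ → Bool, 6⁻¹ * ∑ a : Fin 6, F (sk k • ycurve k (ex ((a : ℕ) : ℤ)) ω) =
      Ph k (size k) F (fun j : Fin k => ω ((j : ℕ) : ℤ)) := by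
    intro ω
    unfold Ph av
    congr 1
    refine Finset.sum_congr rfl fun a _ => ?_
    rw [ycurve_smul k (ex ((a : ℕ) : ℤ)) ω, smul_comm]
    have h2 : ycurve k 1 ω = ycurve k 1 (xt k fun j : Fin k => ω ((j : ℕ) : ℤ)) := by
      refine ycurve_congr k 1 fun l hl => ?_
      rw [xt_apply _ hl]
    rw [h2]
    rfl
  rw [← integral_const_mul]
  simp only [h1]
  -- the integral of a function of k turns
  have h2 : ∀ ω : ℤ → Bool, Ph k (size k) F (fun j : Fin k => ω ((j : ℕ) : ℤ)) =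
      ∑ τ : Fin k → Bool, (cyl 0 ({τ} : Set (Fin k → Bool))).indicator (fun _ => Ph k (size k) F τ) ω := by
    intro ω
    rw [Finset.sum_eq_single (fun j : Fin k => ω ((j : ℕ) : ℤ))]
    · rw [Set.indicator_of_mem]
      rw [mem_cyl]
      simp only [zero_add]
      exact Set.mem_singleton _
    · intro τ _ hτ
      rw [Set.indicator_of_notMem]
      rw [mem_cyl]
      simp only [zero_add]
      intro h3
      exact hτ (Set.mem_singleton_iff.1 h3).symm
    · intro h3
      exact absurd (Finset.mem_univ _) h3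
  simp only [h2]
  rw [integral_finsetSum]
  · unfold qm
    refine Finset.sum_congr rfl fun τ _ => ?_
    rw [integral_indicator (measurableSet_cyl _ _), setIntegral_const, smul_eq_mul, mul_comm]
  · intro τ _
    exact (integrable_const _).indicator (measurableSet_cyl _ _)

end mean

/-! ### the limit of the means -/

/-- the curves are bounded, from the convergence of the laws -/
lemma norm_tail {ν : Measure CI} [IsProbabilityMeasure ν] (h : LawTo (fun n => n) ν) {ε : ℝ} (hε : 0 < ε) :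
    ∃ A : ℝ, 0 < A ∧ ∀ᶠ n : ℕ in atTop,
      ∀ (P : (Fin n → Fin 3) → Prop) [DecidablePred P], (∀ s, P s ↔ A < ‖curve s‖) →
        (((saw n).filter P).card : ℝ) ≤ ε * (saw n).card := by
  classical
  obtain ⟨H, hH⟩ : ∃ H : ℝ → CI → ℝ, H = fun A γ => min 1 (max 0 (‖γ‖ - A)) := ⟨_, rfl⟩
  have hHc : ∀ A, Continuous (H A) := fun A => by
    rw [hH]
    fun_prop
  have hH0 : ∀ A γ, 0 ≤ H A γ ∧ H A γ ≤ 1 := fun A γ => by
    rw [hH]
    exact ⟨le_min zero_le_one (le_max_left _ _), min_le_left _ _⟩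
  have hlim : Tendsto (fun j : ℕ => ∫ γ, H j γ ∂ν) atTop (𝓝 (∫ _, (0 : ℝ) ∂ν)) := by
    refine tendsto_integral_of_dominated_convergence (fun _ => (1 : ℝ)) (fun j => (hHc j).aestronglyMeasurable)
      (integrable_const _) (fun j => Eventually.of_forall fun γ => ?_) (Eventually.of_forall fun γ => ?_)
    · rw [Real.norm_eq_abs, abs_of_nonneg (hH0 j γ).1]
      exact (hH0 j γ).2
    · refine tendsto_const_nhds.congr' ?_
      filter_upwards [eventually_ge_atTop ⌈‖γ‖⌉₊] with j hj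
      have h1 : ‖γ‖ ≤ j := (Nat.le_ceil _).trans (by exact_mod_cast hj)
      rw [hH]
      simp only
      rw [max_eq_left (by linarith), min_eq_right zero_le_one]
  rw [integral_zero] at hlim
  obtain ⟨j, hj⟩ := (hlim.eventually (gt_mem_nhds hε)).exists
  refine ⟨j + 1, by positivity, ?_⟩
  let f : BoundedContinuousFunction CI ℝ := BoundedContinuousFunction.ofNormedAddCommGroup (H j) (hHc j) 1 fun γ => by
    rw [Real.norm_eq_abs, abs_of_nonneg (hH0 j γ).1]
    exact (hH0 j γ).2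
  have h1 := h f
  have h2 : ∫ γ, f γ ∂ν < ε := hj
  filter_upwards [h1.eventually (gt_mem_nhds h2)] with n hn P _ hP
  have hc := NTSF.saw_card_pos n
  rw [NTSF.integral_law, div_lt_iff₀ hc] at hn
  refine le_trans ?_ hn.le
  rw [Finset.card_filter]
  push_cast
  refine Finset.sum_le_sum fun s _ => ?_
  show _ ≤ H j (curve s)
  by_cases h3 : P s
  · rw [if_pos h3]
    rw [hP] at h3
    rw [hH]
    simp only
    refine le_min le_rfl (le_max_of_le_right ?_)
    linarith
  · rw [if_neg h3]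
    exact (hH0 _ _).1

/-- **the means of F have a limit** -/
theorem mean_conv (hR : Pool.Agent.CRT.RegSz) (hX : HexObs.NPR.ExR) {Q : Measure (ℤ → Bool)} (hQ : QOk Q)
    {ν : Measure CI} [IsProbabilityMeasure ν] (h : LawTo (fun n => n) ν) {F : CI → ℝ} {K : ℝ} (hK : 0 ≤ K)
    (hL : ∀ γ γ', |F γ - F γ'| ≤ K * ‖γ - γ'‖) (h01 : ∀ γ, 0 ≤ F γ ∧ F γ ≤ 1) :
    ∃ l : ℝ, Tendsto (fun k : ℕ => qm Q (Ph k (size k) F)) atTop (𝓝 l) := by
  classical
  have hQ1 : Pool.Agent.CRT.Q1 := ⟨ν, inferInstance, h⟩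
  have key : ∀ ε : ℝ, 0 < ε → ∃ a : ℝ, ∀ᶠ k : ℕ in atTop, |qm Q (Ph k (size k) F) - a| ≤ ε := by
    intro ε hε
    obtain ⟨R0, hR0⟩ := mean_dens hX hQ (show 0 < ε / 6 by linarith)
    obtain ⟨A, hA, htail⟩ := norm_tail h (show 0 < ε / 6 by linarith)
    obtain ⟨R, hRd⟩ : ∃ R : ℕ, R = 2 * R0 + 1 := ⟨_, rfl⟩
    have hR1 : 1 ≤ R := by omega
    have hRr : (0 : ℝ) < R := by exact_mod_cast hR1
    -- the numbers
    have hsz : Tendsto (fun k : ℕ => K * (2 * |(R : ℝ) ^ (3 / 4 : ℝ) - size (R * k) / size k| * A + 2 / size k)) atTop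
        (𝓝 0) := by
      have h1 := hR hQ1 R hRr
      have h2 : (fun k : ℕ => size ⌊(R : ℝ) * k⌋₊ / size k) = fun k : ℕ => size (R * k) / size k := by
        funext k
        rw [show (R : ℝ) * k = ((R * k : ℕ) : ℝ) by push_cast; ring, Nat.floor_natCast]
      rw [h2] at h1
      have h3 : Tendsto (fun k : ℕ => |(R : ℝ) ^ (3 / 4 : ℝ) - size (R * k) / size k|) atTop (𝓝 0) := by
        have := (h1.const_sub ((R : ℝ) ^ (3 / 4 : ℝ))).abs
        rwa [sub_self, abs_zero] at this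
      have h4 : Tendsto (fun k : ℕ => 2 / size k) atTop (𝓝 0) := by
        obtain ⟨c, C, hc, hsz, -⟩ := NTSF.finE
        have h5 : Tendsto size atTop atTop := by
          have h6 : Tendsto (fun n : ℕ => c * (n : ℝ) ^ (3 / 4 : ℝ)) atTop atTop :=
            ((tendsto_rpow_atTop (by norm_num)).comp tendsto_natCast_atTop_atTop).const_mul_atTop hc
          refine tendsto_atTop_mono' _ ?_ h6
          filter_upwards [eventually_ge_atTop 1] with n hn
          exact (hsz n hn).1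
        exact h5.const_div_atTop 2
      have h5 := (((h3.const_mul 2).mul_const A).add h4).const_mul K
      simpa using h5
    let f : BoundedContinuousFunction CI ℝ := BoundedContinuousFunction.ofNormedAddCommGroup (GR F R)
      (GR_cont hK hL h01 R) 1 fun γ => by
        rw [Real.norm_eq_abs, abs_of_nonneg (GR_bd h01 hR1 γ).1]
        exact (GR_bd h01 hR1 γ).2
    have hRk : Tendsto (fun k : ℕ => R * k) atTop atTop := tendsto_id.const_mul_atTop' (by omega)
    have hf := (h f).comp hRk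
    refine ⟨∫ γ, f γ ∂ν, ?_⟩
    have hf1 := (Metric.tendsto_nhds.1 hf) (ε / 6) (by linarith)
    filter_upwards [hf1, hRk.eventually htail, hsz.eventually (ge_mem_nhds (show 0 < ε / 6 by linarith)),
      eventually_ge_atTop 1] with k e1 e2 e3 hk
    obtain ⟨n, hn⟩ : ∃ n, n = R * k := ⟨_, rfl⟩
    have hn1 : 1 ≤ n := by
      rw [hn]
      exact Nat.mul_pos hR1 hk
    have hn0 : (0 : ℝ) < n := by exact_mod_cast hn1
    have hc := NTSF.saw_card_pos n
    have hsk := NTSF.size_pos hk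
    have e1' : dist (∫ γ, f γ ∂(law (R * k))) (∫ γ, f γ ∂ν) < ε / 6 := e1
    rw [← hn] at e1' e2 e3
    rw [Real.dist_eq, NTSF.integral_law] at e1'
    have e1'' : |(∑ s ∈ saw n, GR F R (curve s)) / ((saw n).card : ℝ) - ∫ γ, f γ ∂ν| < ε / 6 := e1'
    have h2 := hR0 k (Ph k (size k) F) (Ph_bd h01 k _) n hn1 (by
      rw [hn, hRd]
      nlinarith)
    -- the comparison
    have h3 := e2 (fun s => A < ‖curve s‖) fun s => Iff.rfl
    have h4 : ∀ s ∈ saw n, |n * GR F R (curve s) - hitw s (Ph k (size k) F) 0 n| ≤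
        n * (ε / 6) + if A < ‖curve s‖ then (n : ℝ) else 0 := by
      intro s hs
      have h5 := GR_bd h01 hR1 (curve s)
      have h6 := hitw_bd s (Ph_bd h01 k (size k))
      split_ifs with h7
      · have h8 : n * GR F R (curve s) ≤ n := mul_le_of_le_one_right hn0.le h5.2
        have h9 : 0 ≤ n * GR F R (curve s) := mul_nonneg hn0.le h5.1
        have h10 : 0 ≤ n * (ε / 6) := by positivity
        rw [abs_le]
        constructor <;> linarith [h6.1, h6.2]
      · push Not at h7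
        rw [add_zero]
        refine (riemann hK hL h01 hR1 hk hn hs).trans (mul_le_mul_of_nonneg_left (le_trans ?_ e3) hn0.le)
        refine mul_le_mul_of_nonneg_left (add_le_add (mul_le_mul_of_nonneg_left h7 (by positivity)) le_rfl) hK
    have h5 : |(∑ s ∈ saw n, GR F R (curve s)) / ((saw n).card : ℝ) -
        (∑ s ∈ saw n, hitw s (Ph k (size k) F) 0 n) / (n * (saw n).card)| ≤ ε / 3 := by
      have hd : (0 : ℝ) < n * (saw n).card := by positivity
      have e5 : (∑ s ∈ saw n, GR F R (curve s)) / ((saw n).card : ℝ) -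
          (∑ s ∈ saw n, hitw s (Ph k (size k) F) 0 n) / (n * (saw n).card) =
          (∑ s ∈ saw n, (n * GR F R (curve s) - hitw s (Ph k (size k) F) 0 n)) / (n * (saw n).card) := by
        rw [Finset.sum_sub_distrib, ← Finset.mul_sum, sub_div]
        congr 1
        field_simp
      rw [e5, abs_div, abs_of_pos hd, div_le_iff₀ hd]
      refine (Finset.abs_sum_le_sum_abs _ _).trans ((Finset.sum_le_sum h4).trans ?_)
      rw [Finset.sum_add_distrib, Finset.sum_const, nsmul_eq_mul, ← Finset.sum_filter, Finset.sum_const, nsmul_eq_mul]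
      have h6 := mul_le_mul_of_nonneg_right h3 hn0.le
      linarith
    rw [abs_le] at h2 h5 ⊢
    rw [abs_lt] at e1''
    constructor <;> linarith [h2.1, h2.2, h5.1, h5.2, e1''.1, e1''.2]
  refine cauchySeq_tendsto_of_complete (Metric.cauchySeq_iff'.2 fun ε hε => ?_)
  obtain ⟨a, ha⟩ := key (ε / 3) (by linarith)
  obtain ⟨N, hN⟩ := eventually_atTop.1 ha
  refine ⟨N, fun k hk => ?_⟩
  have h1 := hN k hk
  have h2 := hN N le_rfl
  rw [Real.dist_eq]
  rw [abs_le] at h1 h2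
  rw [abs_lt]
  constructor <;> linarith [h1.1, h1.2, h2.1, h2.2]

/-! ### weak convergence -/

/-- tight laws with convergent means of the Lipschitz functions converge -/
theorem conv_of {P : ℕ → ProbabilityMeasure CI}
    (ht : IsTightMeasureSet {((ρ : ProbabilityMeasure CI) : Measure CI) | ρ ∈ Set.range P})
    (h : ∀ (F : CI → ℝ) (K : ℝ), 0 ≤ K → (∀ γ γ', |F γ - F γ'| ≤ K * ‖γ - γ'‖) → (∀ γ, 0 ≤ F γ ∧ F γ ≤ 1) →
      ∃ l : ℝ, Tendsto (fun k => ∫ γ, F γ ∂(P k : Measure CI)) atTop (𝓝 l)) :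
    ∃ ν : ProbabilityMeasure CI, Tendsto P atTop (𝓝 ν) := by
  have hc := isCompact_closure_of_isTightMeasureSet ht
  obtain ⟨ν, -, hν⟩ := hc.ultrafilter_le_nhds (Ultrafilter.map P (hyperfilter ℕ)) (by
    rw [le_principal_iff]
    show P ⁻¹' closure (Set.range P) ∈ hyperfilter ℕ
    have : P ⁻¹' closure (Set.range P) = Set.univ := by
      ext k
      simp only [Set.mem_preimage, Set.mem_univ, iff_true]
      exact subset_closure ⟨k, rfl⟩
    rw [this]
    exact Filter.univ_mem)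
  have hlim : Tendsto P (hyperfilter ℕ) (𝓝 ν) := hν
  refine ⟨ν, ?_⟩
  -- functions with values in [0, 1]
  have h1 : ∀ (F : CI → ℝ) (K : ℝ), 0 ≤ K → (∀ γ γ', |F γ - F γ'| ≤ K * ‖γ - γ'‖) → (∀ γ, 0 ≤ F γ ∧ F γ ≤ 1) →
      Tendsto (fun k => ∫ γ, F γ ∂(P k : Measure CI)) atTop (𝓝 (∫ γ, F γ ∂(ν : Measure CI))) := by
    intro F K hK hL h01
    obtain ⟨l, hl⟩ := h F K hK hL h01
    have hFc : Continuous F := by
      refine (LipschitzWith.of_dist_le_mul (K := ⟨K, hK⟩) fun γ γ' => ?_).continuous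
      rw [Real.dist_eq, dist_eq_norm]
      exact hL γ γ'
    let f : BoundedContinuousFunction CI ℝ := BoundedContinuousFunction.ofNormedAddCommGroup F hFc 1 fun γ => by
      rw [Real.norm_eq_abs, abs_of_nonneg (h01 γ).1]
      exact (h01 γ).2
    have h2 := (ProbabilityMeasure.tendsto_iff_forall_integral_tendsto.1 hlim) f
    have h3 : Tendsto (fun k => ∫ γ, F γ ∂(P k : Measure CI)) (hyperfilter ℕ) (𝓝 l) := hl.mono_left Nat.hyperfilter_le_atTop
    have h4 : Tendsto (fun k => ∫ γ, F γ ∂(P k : Measure CI)) (hyperfilter ℕ) (𝓝 (∫ γ, F γ ∂(ν : Measure CI))) := h2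
    rw [← tendsto_nhds_unique h3 h4]
    exact hl
  rw [tendsto_iff_forall_lipschitz_integral_tendsto]
  rintro f ⟨C, hC⟩ ⟨L, hL⟩
  have hC0 : 0 ≤ C := (dist_nonneg).trans (hC 0 0)
  obtain ⟨D, hD⟩ : ∃ D : ℝ, D = 2 * C + 1 := ⟨_, rfl⟩
  have hD0 : 0 < D := by rw [hD]; linarith
  have h2 := h1 (fun γ => (f γ - f 0 + C) / D) (L / D) (by positivity) (fun γ γ' => by
    have h3 := hL.dist_le_mul γ γ'
    rw [Real.dist_eq, dist_eq_norm] at h3
    have e : (f γ - f 0 + C) / D - (f γ' - f 0 + C) / D = (f γ - f γ') / D := by ring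
    rw [e, abs_div, abs_of_pos hD0, div_mul_eq_mul_div]
    gcongr) (fun γ => by
    have h3 := hC γ 0
    rw [Real.dist_eq, abs_le] at h3
    constructor
    · apply div_nonneg _ hD0.le
      linarith [h3.1]
    · rw [div_le_one hD0, hD]
      linarith [h3.2])
  have hfi : ∀ μ : ProbabilityMeasure CI, ∫ γ, f γ ∂(μ : Measure CI) =
      D * (∫ γ, (f γ - f 0 + C) / D ∂(μ : Measure CI)) + (f 0 - C) := by
    intro μ
    have hi : Integrable f (μ : Measure CI) := by
      refine Integrable.of_bound hL.continuous.aestronglyMeasurable (|f 0| + C) (Eventually.of_forall fun γ => ?_)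
      have h3 := hC γ 0
      rw [Real.dist_eq] at h3
      rw [Real.norm_eq_abs]
      have h4 := abs_add_le (f γ - f 0) (f 0)
      rw [sub_add_cancel] at h4
      linarith
    have e : ∀ γ, (f γ - f 0 + C) / D = D⁻¹ * f γ + D⁻¹ * (C - f 0) := fun γ => by
      rw [div_eq_inv_mul]
      ring
    simp only [e]
    rw [integral_add (hi.const_mul _) (integrable_const _), integral_const_mul, integral_const, probReal_univ,
      one_smul]
    field_simp
    ring
  simp only [hfi]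
  exact (h2.const_mul D).add_const _

/-- **row StE** -/
theorem stE_of (hR : Pool.Agent.CRT.RegSz) (hX : HexObs.NPR.ExR) {Q : Measure (ℤ → Bool)} (hQ : QOk Q) (hC : StC Q) :
    StE Q := by
  rintro ⟨ν, hν, h⟩
  have hQp : IsProbabilityMeasure Q := hQ.1.1
  have hsm : ∀ k, Continuous fun γ : CI => sk k • γ := fun k => by fun_prop
  have hpr : ∀ k, IsProbabilityMeasure ((ylaw Q k).map fun γ => sk k • γ) := fun k => by
    have := ylaw_prob hQp k
    exact Measure.isProbabilityMeasure_map (hsm k).measurable.aemeasurable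
  obtain ⟨P, hP⟩ : ∃ P : ℕ → ProbabilityMeasure CI, ∀ k, (P k : Measure CI) = (ylaw Q (k + 1)).map fun γ => sk (k + 1) • γ :=
    ⟨fun k => ⟨_, hpr (k + 1)⟩, fun k => rfl⟩
  -- tightness
  obtain ⟨c, C, hc, hsz, -⟩ := NTSF.finE
  have hskb : ∀ k : ℕ, ‖sk (k + 1)‖ ≤ c⁻¹ := by
    intro k
    have hk : 1 ≤ k + 1 := by omega
    have h1 := (hsz (k + 1) hk).1
    have h2 := NTSF.size_pos hk
    have h3 : (0 : ℝ) ≤ ((k + 1 : ℕ) : ℝ) ^ (3 / 4 : ℝ) := by positivity
    unfold sk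
    rw [Complex.norm_real, Real.norm_eq_abs, abs_of_nonneg (by positivity), div_le_iff₀ h2, inv_mul_eq_div, le_div_iff₀ hc]
    linarith
  have ht : IsTightMeasureSet {((ρ : ProbabilityMeasure CI) : Measure CI) | ρ ∈ Set.range P} := by
    rw [isTightMeasureSet_iff_exists_isCompact_measure_compl_le]
    intro ε hε
    obtain ⟨A, hA, hA2⟩ := (isTightMeasureSet_iff_exists_isCompact_measure_compl_le.1 hC.1) ε hε
    have hA3 : IsCompact ((fun p : ℂ × CI => p.1 • p.2) '' (Metric.closedBall 0 c⁻¹ ×ˢ A)) := by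
      refine ((isCompact_closedBall _ _).prod hA).image ?_
      fun_prop
    refine ⟨_, hA3, ?_⟩
    rintro _ ⟨ρ, ⟨k, rfl⟩, rfl⟩
    rw [hP k, Measure.map_apply (hsm (k + 1)).measurable hA3.isClosed.measurableSet.compl]
    refine (measure_mono fun γ hγ hγA => ?_).trans (hA2 (ylaw Q (k + 1)) ⟨k + 1, by omega, rfl⟩)
    refine hγ ⟨(sk (k + 1), γ), ⟨?_, hγA⟩, rfl⟩
    rw [Metric.mem_closedBall, dist_zero_right]
    exact hskb k
  obtain ⟨ν', hν'⟩ := conv_of ht fun F K hK hL h01 => by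
    obtain ⟨l, hl⟩ := mean_conv hR hX hQ h hK hL h01
    have hFc : Continuous F := by
      refine (LipschitzWith.of_dist_le_mul (K := ⟨K, hK⟩) fun γ γ' => ?_).continuous
      rw [Real.dist_eq, dist_eq_norm]
      exact hL γ γ'
    refine ⟨l, ?_⟩
    have h2 := hl.comp (tendsto_add_atTop_nat 1)
    refine h2.congr fun k => ?_
    rw [hP k, qm_eq hQp (k + 1) hFc h01]
    rfl
  refine ⟨ν', inferInstance, fun f => ?_⟩
  have h3 := (ProbabilityMeasure.tendsto_iff_forall_integral_tendsto.1 hν') f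
  rw [← tendsto_add_atTop_iff_nat 1]
  refine h3.congr fun k => ?_
  rw [hP k]
  rfl

end Pool.Agent.TSW.E
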