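import Pool.Agent.TSW.LayA
import Pool.Agent.SSI.RtF
import Pool.Agent.SSI.Rf

/-!
# Two-sided walk (helper78): rare windows have small mass under Q

* `dQ ω i j` : the distance of the vertices `i` and `j` of the walk with the turns `ω`;
* `dS_dQ` : the distances in the windows of a finite walk;
* **`badK`** : from the transfer principle `rt` to the law `Q` of the two-sided walk.
-/

set_option autoImplicit false

open MeasureTheory Filter Topology
open scoped Classical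

namespace Pool.Agent.TSW

open Pool.Agent.NTS.Res
open HexObs.SSI (WP cB dS BQ dW)

/-- the distance of the vertices `i` and `j` of the walk with the turns `ω` -/
noncomputable def dQ (ω : ℤ → Bool) (i j : ℕ) : ℝ := ‖disp ω 0 j - disp ω 0 i‖

/-- the direction of the step `k` relative to the step 0 -/
noncomputable def dirn (ω : ℤ → Bool) (k : ℕ) : ℂ :=
  Complex.exp (Real.pi / 3 * Complex.I * ((∑ l ∈ Finset.range k, sg (ω (0 + l)) : ℤ) : ℂ))

lemma disp_succ0 (ω : ℤ → Bool) (k : ℕ) : disp ω 0 (k + 1) = disp ω 0 k + dirn ω k := by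
  unfold disp dirn
  rw [Finset.sum_range_succ]

lemma disp_zero (ω : ℤ → Bool) (a : ℤ) : disp ω a 0 = 0 := by
  unfold disp
  rw [Finset.range_zero, Finset.sum_empty]

lemma dirn_zero (ω : ℤ → Bool) : dirn ω 0 = 1 := by
  unfold dirn
  simp

lemma dirn_succ (ω : ℤ → Bool) (k : ℕ) : dirn ω (k + 1) = Complex.exp (Real.pi / 3 * Complex.I * (sg (ω k) : ℂ)) * dirn ω k := by
  unfold dirn
  rw [Finset.sum_range_succ, ← Complex.exp_add]
  congr 1
  push_cast
  rw [zero_add]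
  ring

lemma dirn_norm (ω : ℤ → Bool) (k : ℕ) : ‖dirn ω k‖ = 1 := by
  unfold dirn
  rw [show (Real.pi : ℂ) / 3 * Complex.I * ((∑ l ∈ Finset.range k, sg (ω (0 + l)) : ℤ) : ℂ) =
    ((Real.pi / 3 * (∑ l ∈ Finset.range k, sg (ω (0 + l)) : ℤ) : ℝ) : ℂ) * Complex.I by push_cast; ring]
  exact Complex.norm_exp_ofReal_mul_I _

/-- the distances depend on the first turns only -/
lemma disp_congr {ω ω' : ℤ → Bool} {k : ℕ} (h : ∀ l : ℕ, l < k → ω l = ω' l) : disp ω 0 k = disp ω' 0 k := by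
  unfold disp
  refine Finset.sum_congr rfl fun j hj => ?_
  rw [Finset.mem_range] at hj
  congr 3
  refine Finset.sum_congr rfl fun l hl => ?_
  rw [Finset.mem_range] at hl
  rw [zero_add, h l (by omega)]

/-- turn of a self-avoiding walk -/
lemma turnStep {n : ℕ} {s : Fin n → Fin 3} (hs : s ∈ saw n) {i : ℕ} (h : i + 1 < n) :
    step (i + 1) (s ⟨i + 1, h⟩) = Complex.exp (Real.pi / 3 * Complex.I * (sg (turn s i) : ℂ)) * step i (s ⟨i, Nat.lt_of_succ_lt h⟩) := by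
  have e0 : ∀ a : Fin 3, step (i + 1) a = -step i a := fun a => by
    unfold step
    rw [pow_succ]
    ring
  have hne : s ⟨i + 1, h⟩ ≠ s ⟨i, Nat.lt_of_succ_lt h⟩ := by
    intro he
    have h1 := NTSF.pos_succ s i (Nat.lt_of_succ_lt h)
    have h2 := NTSF.pos_succ s (i + 1) h
    rw [he, e0, h1] at h2
    have h3 := NTSF.mem_saw.1 hs (i + 1 + 1) i (by omega) (by omega) (by rw [h2]; ring)
    omega
  have hom1 : -NTSF.om = Complex.exp (Real.pi / 3 * Complex.I * ((-1 : ℤ) : ℂ)) := by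
    unfold NTSF.om
    rw [neg_eq_neg_one_mul, ← Complex.exp_pi_mul_I, ← Complex.exp_add]
    have e : (Real.pi : ℂ) * Complex.I + 2 * (Real.pi : ℂ) * Complex.I / 3 =
        Real.pi / 3 * Complex.I * ((-1 : ℤ) : ℂ) + 2 * Real.pi * Complex.I := by
      push_cast
      ring
    rw [e, Complex.exp_add, Complex.exp_two_pi_mul_I, mul_one]
  have hom2 : -(NTSF.om * NTSF.om) = Complex.exp (Real.pi / 3 * Complex.I * ((1 : ℤ) : ℂ)) := by
    unfold NTSF.om
    rw [neg_eq_neg_one_mul, ← Complex.exp_pi_mul_I, ← Complex.exp_add, ← Complex.exp_add]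
    have e : (Real.pi : ℂ) * Complex.I + (2 * (Real.pi : ℂ) * Complex.I / 3 + 2 * (Real.pi : ℂ) * Complex.I / 3) =
        Real.pi / 3 * Complex.I * ((1 : ℤ) : ℂ) + 2 * Real.pi * Complex.I := by
      push_cast
      ring
    rw [e, Complex.exp_add, Complex.exp_two_pi_mul_I, mul_one]
  have hcase : s ⟨i + 1, h⟩ = s ⟨i, Nat.lt_of_succ_lt h⟩ + 1 ∨ s ⟨i + 1, h⟩ = s ⟨i, Nat.lt_of_succ_lt h⟩ + 1 + 1 := by
    generalize s ⟨i + 1, h⟩ = b at hne
    generalize s ⟨i, Nat.lt_of_succ_lt h⟩ = a at hne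
    revert a b
    decide
  rcases hcase with hc | hc
  · have ht : turn s i = false := by
      unfold turn
      rw [dif_pos h, hc, add_sub_cancel_left]
      decide
    rw [ht, hc, e0, NTSF.step_rot]
    show -(NTSF.om * _) = Complex.exp (Real.pi / 3 * Complex.I * ((-1 : ℤ) : ℂ)) * _
    rw [← hom1]
    ring
  · have ht : turn s i = true := by
      unfold turn
      rw [dif_pos h, hc, add_assoc, add_sub_cancel_left]
      decide
    rw [ht, hc, e0, NTSF.step_rot, NTSF.step_rot]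
    show -(NTSF.om * (NTSF.om * _)) = Complex.exp (Real.pi / 3 * Complex.I * ((1 : ℤ) : ℂ)) * _
    rw [← hom2]
    ring

/-- the steps of a window -/
lemma step_dirn {n : ℕ} {s : Fin n → Fin 3} (hs : s ∈ saw n) {z : ℕ} {ω : ℤ → Bool} {H : ℕ} (hω : ∀ l : ℕ, l < H → ω l = turn s (z + l))
    (hz : z < n) : ∀ k : ℕ, k ≤ H → ∀ h : z + k < n, step (z + k) (s ⟨z + k, h⟩) = dirn ω k * step z (s ⟨z, hz⟩) := by
  intro k
  induction k with
  | zero =>
    intro _ h
    rw [dirn_zero, one_mul]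
    rfl
  | succ k ih =>
    intro hk h
    have h1 := turnStep hs (i := z + k) h
    have h2 : step (z + (k + 1)) (s ⟨z + (k + 1), h⟩) = step (z + k + 1) (s ⟨z + k + 1, h⟩) := rfl
    rw [h2, h1, ih (by omega) (by omega), dirn_succ, hω k (by omega)]
    ring

/-- the positions of a window -/
lemma pos_disp {n : ℕ} {s : Fin n → Fin 3} (hs : s ∈ saw n) {z : ℕ} {ω : ℤ → Bool} {H : ℕ} (hω : ∀ l : ℕ, l < H → ω l = turn s (z + l))
    (hz : z < n) : ∀ k : ℕ, k ≤ H → z + k ≤ n → pos s (z + k) - pos s z = step z (s ⟨z, hz⟩) * disp ω 0 k := by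
  intro k
  induction k with
  | zero =>
    intro _ _
    rw [disp_zero, mul_zero, add_zero, sub_self]
  | succ k ih =>
    intro hk h
    have h1 := NTSF.pos_succ s (z + k) (by omega)
    rw [← add_assoc, h1, disp_succ0, mul_add, ← ih (by omega) (by omega), step_dirn hs hω hz k (by omega) (by omega)]
    ring

lemma step_norm (i : ℕ) (a : Fin 3) : ‖step i a‖ = 1 := HexObs.SIM.step_norm i a

/-- **the distances in a window of a finite walk** -/
lemma dS_dQ {n : ℕ} {s : Fin n → Fin 3} (hs : s ∈ saw n) {z : ℕ} {ω : ℤ → Bool} {H : ℕ} (hω : ∀ l : ℕ, l < H → ω l = turn s (z + l))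
    (hz : z < n) {i j : ℕ} (hi : i ≤ H) (hj : j ≤ H) (hH : z + H ≤ n) : dQ ω i j = dS s (z + i) (z + j) := by
  have h1 := pos_disp hs hω hz i hi (by omega)
  have h2 := pos_disp hs hω hz j hj (by omega)
  unfold dQ dS
  rw [show pos s (z + j) - pos s (z + i) = (pos s (z + j) - pos s z) - (pos s (z + i) - pos s z) by ring, h1, h2, ← mul_sub,
    norm_mul, step_norm, one_mul]

/-! ### rare windows -/

/-- the extension of a finite list of turns -/
def exten {m : ℕ} (η : Fin m → Bool) : ℤ → Bool := fun j => if h : 0 ≤ j ∧ j.toNat < m then η ⟨j.toNat, h.2⟩ else false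

lemma exten_nat {m : ℕ} (η : Fin m → Bool) {l : ℕ} (h : l < m) : exten η l = η ⟨l, h⟩ := by
  unfold exten
  rw [dif_pos ⟨Int.natCast_nonneg l, by simpa using h⟩]
  rfl

/-- the windows with the predicate B -/
def SB (B : (ℕ → ℕ → ℝ) → ℕ → ℕ → Prop) (H : ℕ) : Set (Fin H → Bool) := {η | B (dQ (exten η)) 0 H}

lemma mem_SB {B : (ℕ → ℕ → ℝ) → ℕ → ℕ → Prop} (hB : WP B) {H : ℕ} {ω : ℤ → Bool} : ω ∈ cyl 0 (SB B H) ↔ B (dQ ω) 0 H := by
  rw [mem_cyl]
  have e : ∀ i j : ℕ, i ≤ H → j ≤ H → dQ (exten fun l : Fin H => ω (0 + (l : ℕ))) i j = dQ ω i j := by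
    intro i j hi hj
    unfold dQ
    have h1 : ∀ l : ℕ, l < H → (exten fun l : Fin H => ω (0 + (l : ℕ))) l = ω l := fun l hl => by
      rw [exten_nat _ hl]
      simp
    rw [disp_congr (k := j) fun l hl => h1 l (by omega), disp_congr (k := i) fun l hl => h1 l (by omega)]
  have e1 : ∀ d d' : ℕ → ℕ → ℝ, (∀ i j : ℕ, i ≤ H → j ≤ H → d i j = d' i j) → B d 0 H → B d' 0 H := by
    intro d d' hd h
    have := hB.shift d d' 0 0 H (fun x y hx hy => by rw [zero_add, zero_add]; exact hd x y hx hy) h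
    simpa using this
  constructor
  · exact e1 _ _ e
  · exact e1 _ _ fun i j hi hj => (e i j hi hj).symm

/-- the windows of a finite walk -/
lemma hits_cB {B : (ℕ → ℕ → ℝ) → ℕ → ℕ → Prop} (hB : WP B) {n H : ℕ} {s : Fin n → Fin 3} (hs : s ∈ saw n) :
    hits s (SB B H) 0 n ≤ cB B (dS s) n H := by
  unfold hits cB
  refine Finset.card_le_card fun z hz => ?_
  rw [Finset.mem_filter, Finset.mem_Ico] at hz
  obtain ⟨⟨-, hz1⟩, hz2, hz3⟩ := hz
  rw [Finset.mem_filter, Finset.mem_range]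
  refine ⟨by omega, ?_⟩
  have h1 := hB.shift (dQ (exten fun j : Fin H => turn s (z + j))) (dS s) z 0 H (fun x y hx hy =>
    dS_dQ hs (fun l hl => exten_nat _ hl) hz1 hx hy hz2.le) hz3
  simpa using h1

/-- every large number of letters has a scale -/
lemma exists_sc (c0 : ℕ) : ∃ n0 : ℕ, ∀ n : ℕ, n0 ≤ n → ∃ k : ℕ, c0 ≤ k ∧ HexObs.TIP.Sc k n := by
  refine ⟨⌈HexObs.PW.mZ (2 ^ c0)⌉₊, fun n hn => ?_⟩
  have h0 : HexObs.PW.mZ (2 ^ c0) ≤ n := (Nat.le_ceil _).trans (by exact_mod_cast hn)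
  obtain ⟨k, hk1, hk2⟩ := HexObs.SSI.exists_Sc ((HexObs.NPR.mz_mono (Nat.zero_le c0)).trans h0)
  refine ⟨k, ?_, hk1, hk2⟩
  by_contra hcon
  have h1 : HexObs.PW.mZ (2 ^ (k + 1)) ≤ HexObs.PW.mZ (2 ^ c0) := HexObs.NPR.mz_mono (by omega)
  linarith

/-- **rare windows have small mass under Q** -/
theorem badK {Q : Measure (ℤ → Bool)} (hQ : QD Q) {ε : ℝ} (hε : 0 < ε) : ∃ (δ θ : ℝ) (L0 : ℕ), 0 < δ ∧ 0 < θ ∧ ∀ (L H : ℕ)
    (B B' : (ℕ → ℕ → ℝ) → ℕ → ℕ → Prop), WP B → WP B' → L0 ≤ L → (H : ℝ) ≤ θ * HexObs.PW.mZ (2 ^ L) →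
    HexObs.gf {t | t ∈ HexObs.SDN.WL (L + 16) ∧ t ∈ HexObs.NPR.Fac (BQ B)} ≤ ENNReal.ofReal δ * HexObs.NPR.FK L →
    (∀ (n : ℕ) (t : List Bool) (z : ℕ), t ∈ HexObs.SawN n → z + H ≤ n → B' (dS (NTF.sw n t)) z (z + H) → B (dW t) z (z + H)) →
    Q.real {ω | B' (dQ ω) 0 H} ≤ ε := by
  obtain ⟨δ, θ, c0, L0, hδ, hθ, h⟩ := HexObs.SSI.dens_s HexObs.SSI.rt (ε := ε / 4) (by positivity)
  refine ⟨δ, θ, L0, hδ, hθ, fun L H B B' hB hB' hL hH hg hBB => ?_⟩
  have e1 : {ω | B' (dQ ω) 0 H} = cyl 0 (SB B' H) := by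
    ext ω
    exact (mem_SB hB').symm
  rw [e1]
  obtain ⟨ρ, hρ⟩ : ∃ ρ, ρ = Q.real (cyl 0 (SB B' H)) := ⟨_, rfl⟩
  have hden := hQ.den H (SB B' H) 0
  rw [← hρ] at hden ⊢
  obtain ⟨n0, hn0⟩ := exists_sc (L + c0)
  obtain ⟨n, h1, h2⟩ := ((hden.mean (ε := ε / 4) (by positivity)).and (eventually_ge_atTop (max n0 1))).exists
  obtain ⟨k, hk1, hk2⟩ := hn0 n ((le_max_left _ _).trans h2)
  have h3 := h L H B B' hB hL hH hg k n hk1 hk2 (fun t ht z hz hb => hBB n t z ht hz hb)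
  have h4 : ∑ s ∈ saw n, (hits s (SB B' H) 0 n : ℝ) ≤ ∑ s ∈ saw n, (cB B' (dS s) n H : ℝ) :=
    Finset.sum_le_sum fun s hs => by exact_mod_cast hits_cB hB' hs
  have h5 : (0 : ℝ) < n * (saw n).card := by
    have := card_pos' (n := n) ((le_max_right _ _).trans h2)
    exact_mod_cast this
  rw [abs_le] at h1
  have h6 : ρ * (n * (saw n).card) ≤ (3 / 4 * ε) * (n * (saw n).card) := by nlinarith
  have h7 := le_of_mul_le_mul_right h6 h5
  linarith

end Pool.Agent.TSW
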