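import Pool.Agent.TSW.Fin
import Pool.Agent.TSW.Res
import Mathlib.MeasureTheory.Measure.Prokhorov
import Mathlib.Topology.LocallyConstant.Basic

/-!
# Two-sided walk, layer A (helper41, design helper66): existence, stationarity, ergodicity

* `exists_Q : DenF → ∃ Q, IsProbabilityMeasure Q ∧ ∀ m S a, Den S (Q.real (cyl a S))`;
* `erg_Q` : with `BulkF` the shift is measure preserving and ergodic;
* `law2_to` : the walk seen from a uniform step converges to `Q`.
-/

set_option autoImplicit false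

open MeasureTheory Filter Topology Set
open scoped ENNReal

namespace Pool.Agent.TSW

open Pool.Agent.NTS.Res

variable {m : ℕ}

lemma isLC_cnt (S : Set (Fin m → Bool)) (k : ℕ) : IsLocallyConstant (cnt S k) := by
  unfold cnt
  induction k with
  | zero =>
    simp only [Finset.range_zero, Finset.sum_empty]
    exact IsLocallyConstant.const 0
  | succ k ih =>
    simp only [Finset.sum_range_succ]
    refine ih.add ?_
    intro T
    have hc := isClopen_cyl (k : ℤ) S
    by_cases h1 : (1 : ℝ) ∈ T <;> by_cases h0 : (0 : ℝ) ∈ T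
    · have : (cyl (k : ℤ) S).indicator (fun _ => (1 : ℝ)) ⁻¹' T = univ := by
        ext x
        by_cases hx : x ∈ cyl (k : ℤ) S <;> simp [hx, h1, h0]
      rw [this]
      exact isOpen_univ
    · have : (cyl (k : ℤ) S).indicator (fun _ => (1 : ℝ)) ⁻¹' T = cyl (k : ℤ) S := by
        ext x
        by_cases hx : x ∈ cyl (k : ℤ) S <;> simp [hx, h1, h0]
      rw [this]
      exact hc.isOpen
    · have : (cyl (k : ℤ) S).indicator (fun _ => (1 : ℝ)) ⁻¹' T = (cyl (k : ℤ) S)ᶜ := by
        ext x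
        by_cases hx : x ∈ cyl (k : ℤ) S <;> simp [hx, h1, h0]
      rw [this]
      exact hc.compl.isOpen
    · have : (cyl (k : ℤ) S).indicator (fun _ => (1 : ℝ)) ⁻¹' T = ∅ := by
        ext x
        by_cases hx : x ∈ cyl (k : ℤ) S <;> simp [hx, h1, h0]
      rw [this]
      exact isOpen_empty

lemma isClopen_bad (S : Set (Fin m → Bool)) (k : ℕ) (ρ x : ℝ) : IsClopen {ω | x < |cnt S k ω - ρ * k|} := by
  have h1 : {ω | x < |cnt S k ω - ρ * k|} = cnt S k ⁻¹' {y | x < |y - ρ * k|} := rfl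
  rw [h1]
  refine ⟨⟨?_⟩, isLC_cnt S k _⟩
  rw [← preimage_compl]
  exact isLC_cnt S k _

/-- the laws as probability measures -/
noncomputable def PM2 (n : ℕ) : ProbabilityMeasure (ℤ → Bool) := ⟨law2 (n + 1), law2_prob (Nat.succ_pos n)⟩

/-- limits of the masses of clopen events -/
lemma clopen_lim {L : Filter ℕ} {Q : ProbabilityMeasure (ℤ → Bool)} (h : Tendsto PM2 L (𝓝 Q)) {E : Set (ℤ → Bool)}
    (hE : IsClopen E) : Tendsto (fun n => (law2 (n + 1)).real E) L (𝓝 ((Q : Measure (ℤ → Bool)).real E)) := by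
  have h1 := ProbabilityMeasure.tendsto_measure_of_isClopen_of_tendsto h hE
  exact (NNReal.tendsto_coe.2 h1)

/-- along every convergent ultrafilter the limit has the densities -/
lemma lim_cyl {L : Filter ℕ} [L.NeBot] (hL : L ≤ atTop) {Q : ProbabilityMeasure (ℤ → Bool)} (h : Tendsto PM2 L (𝓝 Q))
    {S : Set (Fin m → Bool)} {ρ : ℝ} (hS : Den S ρ) (a : ℤ) : (Q : Measure (ℤ → Bool)).real (cyl a S) = ρ := by
  have h1 := clopen_lim h (isClopen_cyl a S)
  have h2 : Tendsto (fun n : ℕ => (law2 (n + 1)).real (cyl a S)) L (𝓝 ρ) :=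
    ((law2_cyl hS a).comp (tendsto_add_atTop_nat 1)).mono_left hL
  exact tendsto_nhds_unique h1 h2

/-- **existence** -/
theorem exists_Q (hD : DenF) : ∃ Q : Measure (ℤ → Bool), IsProbabilityMeasure Q ∧
    ∀ (m : ℕ) (S : Set (Fin m → Bool)) (a : ℤ), Den S (Q.real (cyl a S)) := by
  obtain ⟨Q, -, hQ⟩ := (isCompact_univ (X := ProbabilityMeasure (ℤ → Bool))).ultrafilter_le_nhds
    (Ultrafilter.map PM2 (hyperfilter ℕ)) (by simp)
  have hlim : Tendsto PM2 (hyperfilter ℕ) (𝓝 Q) := hQ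
  refine ⟨(Q : Measure (ℤ → Bool)), inferInstance, fun m S a => ?_⟩
  obtain ⟨ρ, hρ⟩ := hD m S
  rw [lim_cyl (Nat.hyperfilter_le_atTop) hlim hρ a]
  exact hρ

/-- the densities and the measure -/
structure QD (Q : Measure (ℤ → Bool)) : Prop where
  prob : IsProbabilityMeasure Q
  den : ∀ (m : ℕ) (S : Set (Fin m → Bool)) (a : ℤ), Den S (Q.real (cyl a S))

/-- the density is unique -/
lemma Den.unique {S : Set (Fin m → Bool)} {ρ ρ' : ℝ} (h : Den S ρ) (h' : Den S ρ') : ρ = ρ' :=
  tendsto_nhds_unique (law2_cyl h 0) (law2_cyl h' 0)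

/-- a measure is determined by the real masses of the cylinders -/
lemma ext_real {μ ν : Measure (ℤ → Bool)} [IsProbabilityMeasure μ] [IsProbabilityMeasure ν]
    (h : ∀ (m : ℕ) (a : ℤ) (S : Set (Fin m → Bool)), μ.real (cyl a S) = ν.real (cyl a S)) : μ = ν :=
  ext_cyl fun m a S => (ENNReal.toReal_eq_toReal_iff' (measure_ne_top _ _) (measure_ne_top _ _)).1 (h m a S)

section

variable {Q : Measure (ℤ → Bool)} (hQ : QD Q)

include hQ

/-- **the walk seen from a uniform step converges to Q** -/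
theorem law2_to : Tendsto PM2 atTop (𝓝 ⟨Q, hQ.prob⟩) := by
  rw [tendsto_iff_ultrafilter]
  intro g hg
  obtain ⟨Q', -, hQ'⟩ := (isCompact_univ (X := ProbabilityMeasure (ℤ → Bool))).ultrafilter_le_nhds
    (Ultrafilter.map PM2 g) (by simp)
  have hlim : Tendsto PM2 g (𝓝 Q') := hQ'
  have := hQ.prob
  have h1 : (Q' : Measure (ℤ → Bool)) = Q := ext_real fun m a S => lim_cyl hg hlim (hQ.den m S a) a
  have h2 : Q' = ⟨Q, hQ.prob⟩ := Subtype.ext h1
  rw [← h2]
  exact hlim

/-- the limits of the masses of clopen events -/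
theorem law2_clopen {E : Set (ℤ → Bool)} (hE : IsClopen E) : Tendsto (fun n => (law2 n).real E) atTop (𝓝 (Q.real E)) := by
  have h1 := clopen_lim (law2_to hQ) hE
  exact (tendsto_add_atTop_iff_nat 1).1 h1

theorem mp_Q : MeasurePreserving shift Q Q := by
  have := hQ.prob
  refine preserving_of fun m a S => ?_
  have h1 := (hQ.den m S (a + 1)).unique (hQ.den m S a)
  exact (ENNReal.toReal_eq_toReal_iff' (measure_ne_top _ _) (measure_ne_top _ _)).1 h1

theorem erg_Q (hB : BulkF) : Ergodic shift Q := by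
  have := hQ.prob
  refine ergodic_of (mp_Q hQ) fun m S ε hε => ?_
  obtain ⟨k, hk, h1⟩ := law2_cnt hB (hQ.den m S 0) hε
  refine ⟨k, hk, ?_⟩
  have h2 := law2_clopen hQ (isClopen_bad S k (Q.real (cyl 0 S)) (ε * k))
  have h3 : Q.real {ω | ε * k < |cnt S k ω - Q.real (cyl 0 S) * k|} ≤ ε := le_of_tendsto h2 h1
  rw [← ENNReal.ofReal_toReal (measure_ne_top Q {ω | ε * k < |cnt S k ω - Q.real (cyl 0 S) * k|})]
  exact ENNReal.ofReal_le_ofReal h3

end

end Pool.Agent.TSW
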