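import Pool.Agent.TSW.All2
import Pool.Agent.TSW.LayB
import Pool.Agent.TSW.LayA

/-!
# TSW: the two-sided walk, assembly (helper14)

Rows: layer A (41), layer B (22), Sym (69), NiceL, StCD (41), BadK, NiceY (78), StE (22), bulk coupling: SlowAll (84), WordT, ShiftT
(29), BC1Pub (41), the densities uniform in the windows (94, here `dens_all_Q`, the same as `dens_Q` of BCMean), StF (51).
-/

set_option autoImplicit false

open MeasureTheory Filter Topology
open scoped Classical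

namespace Pool.Agent.TSW

open Pool.Agent.NTS.Res

variable {Q : Measure (ℤ → Bool)}

/-- **the densities, uniform in the windows** (helper94) -/
theorem dens_all_Q (hQ : QD Q) {ε : ℝ} (hε : 0 < ε) : ∃ R : ℕ, ∀ (m : ℕ) (S : Set (Fin m → Bool)) (a0 : ℤ) (n : ℕ),
    R * (m + 1) ≤ n → (((saw n).filter fun s => ∃ a b : ℕ, a ≤ b ∧ b ≤ n ∧
      ε * n < |(hits s S a b : ℝ) - Q.real (cyl a0 S) * ((b : ℝ) - a)|).card : ℝ) ≤ ε * (saw n).card := by
  obtain ⟨c, C, j0, ρ, -, -, -, h2⟩ := dens_all exR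
  have hρ : ∀ (m : ℕ) (S : Set (Fin m → Bool)) (a0 : ℤ), Q.real (cyl a0 S) = ρ m (fun x => if x ∈ S then 1 else 0) := by
    intro m S a0
    refine (hQ.den m S a0).unique fun ε hε => ?_
    obtain ⟨R, hR⟩ := h2 ε hε
    filter_upwards [Filter.eventually_ge_atTop (R * (m + 1))] with n hn
    refine hR m _ (ind_bd S) n hn _ fun s => ?_
    simp only [hits_eq]
  obtain ⟨R, hR⟩ := h2 ε hε
  refine ⟨R, fun m S a0 n hn => ?_⟩
  refine hR m _ (ind_bd S) n hn _ fun s => ?_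
  rw [hρ]
  simp only [hits_eq]

theorem bc3 (hQ : QD Q) : BC3 Q := by
  intro ε hε
  obtain ⟨R, hR⟩ := dens_all_Q hQ hε
  refine ⟨1 / (2 * R + 2), by positivity, 2 * R + 2, fun n m hn hm S => hR m S 0 n ?_⟩
  have h1 : (2 * (R : ℝ) + 2) * m ≤ n := by
    have h2 : (0 : ℝ) < 2 * R + 2 := by positivity
    have h3 : (2 * (R : ℝ) + 2) * m ≤ (2 * R + 2) * (1 / (2 * R + 2) * n) := mul_le_mul_of_nonneg_left hm h2.le
    have h4 : (2 * (R : ℝ) + 2) * (1 / (2 * R + 2) * n) = n := by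
      field_simp
    rw [h4] at h3
    exact h3
  have h2 : (2 * R + 2) * m ≤ n := by exact_mod_cast h1
  nlinarith

theorem two_sided : ∃ Q, StA Q ∧ StB Q ∧ StC Q ∧ StD Q ∧ StE Q ∧ StF Q :=
  two_sided_g fun _ hQ => bc3 ⟨hQ.1.1, hQ.2⟩

end Pool.Agent.TSW
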