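import Pool.Agent.TSW.NiceY

/-!
# Two-sided walk (helper78): the limits are nowhere Hoelder of an exponent above 3/4

* `lowKb` : the points of the walk;
* `LwB c β h` : the curves with a slow piece of length at least h;
* **`low_y`, `low_a`** : the limits of `ylaw Q`, `alaw Q`;
* **`stC`, `stD`** : the limits of the curves of the two-sided walk.
-/

set_option autoImplicit false

open MeasureTheory Filter Topology
open scoped Classical ENNReal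

namespace Pool.Agent.TSW

open Pool.Agent.NTS.Res
open HexObs.SSI (WP cB dS BQ dW HB LB PB wp_HB wp_LB wp_PB)

variable {Q : Measure (ℤ → Bool)}

/-- the points of the walk: no slow pieces, all exponents above 3/4 -/
theorem lowKb (hQ : QD Q) {β : ℝ} (hβ : 3 / 4 < β) {ε : ℝ} (hε : 0 < ε) : ∃ (c : ℝ) (k0 : ℕ), 0 < c ∧ ∀ k : ℕ, k0 ≤ k →
    Q.real {ω | ∃ i j : ℕ, i < j ∧ j ≤ k ∧ ∀ l l' : ℕ, i ≤ l → l ≤ j → i ≤ l' → l' ≤ j →
      dQ ω l l' ≤ c * (k : ℝ) ^ (3 / 4 : ℝ) * (((j : ℝ) - i) / k) ^ β} ≤ ε := by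
  have := hQ.prob
  obtain ⟨δ, θ, L0, hδ, hθ, hbad⟩ := badK hQ hε
  obtain ⟨C1, C2, C3, hC1, hC2, hC3, hscl⟩ := HexObs.SSI.scl_r (θ := min θ 1) (T := 1 / 2) (lt_min hθ one_pos)
    (min_le_right _ _) le_rfl
  obtain ⟨c, hc, hlow⟩ := HexObs.SSI.lowA hβ δ hδ
  obtain ⟨r0, cn, hr0, hcn, hscl⟩ := hscl L0 0
  refine ⟨c / 2 / (C3 * C1 ^ β), ⌈r0⌉₊, by positivity, fun k hk => ?_⟩
  have hrk : r0 ≤ k := (Nat.le_ceil _).trans (by exact_mod_cast hk)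
  obtain ⟨L, hL, hH, hm1, hm2, hL2, hL3, -⟩ := hscl k hrk
  have hk0 : (0 : ℝ) < k := by linarith
  have hm0 : 0 < HexObs.PW.mZ (2 ^ L) := HexObs.NPR.mz_pos L
  have hkH : (k : ℝ) ≤ θ * HexObs.PW.mZ (2 ^ L) := by
    have h1 : (k : ℝ) ≤ HexObs.SSI.Hr (1 / 2) k := by
      unfold HexObs.SSI.Hr
      push_cast
      have h1 := Nat.lt_floor_add_one (2 * (1 / 2 : ℝ) * k)
      linarith
    have h2 : min θ 1 * HexObs.PW.mZ (2 ^ L) ≤ θ * HexObs.PW.mZ (2 ^ L) :=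
      mul_le_mul_of_nonneg_right (min_le_left _ _) hm0.le
    linarith
  refine le_trans ?_ (hbad L k (LB (c * 2 ^ L) (HexObs.PW.mZ (2 ^ L)) β) (LB (c / 2 * 2 ^ L) (HexObs.PW.mZ (2 ^ L)) β)
    (wp_LB _ _ _) (wp_LB _ _ _) hL hkH (hlow L) ?_)
  · refine measureReal_mono ?_ (measure_ne_top _ _)
    rintro ω ⟨i, j, h1, h2, h4⟩
    have hjk : (j : ℝ) ≤ k := by exact_mod_cast h2
    have hi0 : (0 : ℝ) ≤ i := Nat.cast_nonneg i
    have hij : (0 : ℝ) < (j : ℝ) - i := by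
      have : (i : ℝ) < j := by exact_mod_cast h1
      linarith
    refine ⟨i, j, Nat.zero_le _, h1, by omega, by linarith, fun l l' q1 q2 q3 q4 => (h4 l l' q1 q2 q3 q4).trans ?_⟩
    have h5 : (((j : ℝ) - i) / k) ^ β / C1 ^ β ≤ (((j : ℝ) - i) / HexObs.PW.mZ (2 ^ L)) ^ β := by
      rw [← Real.div_rpow (by positivity) hC1.le]
      refine Real.rpow_le_rpow (by positivity) ?_ (by linarith)
      rw [div_div]
      refine div_le_div_of_nonneg_left hij.le hm0 ?_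
      linarith
    have h6 : c / 2 * (k : ℝ) ^ (3 / 4 : ℝ) / C3 ≤ c / 2 * 2 ^ L := by
      rw [div_le_iff₀ hC3]
      have := mul_le_mul_of_nonneg_left hL3 (show 0 ≤ c / 2 by positivity)
      linarith
    calc c / 2 / (C3 * C1 ^ β) * (k : ℝ) ^ (3 / 4 : ℝ) * (((j : ℝ) - i) / k) ^ β
        = c / 2 * (k : ℝ) ^ (3 / 4 : ℝ) / C3 * ((((j : ℝ) - i) / k) ^ β / C1 ^ β) := by
          field_simp
      _ ≤ c / 2 * 2 ^ L * (((j : ℝ) - i) / HexObs.PW.mZ (2 ^ L)) ^ β := mul_le_mul h6 h5 (by positivity) (by positivity)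
  · rintro n t z ht hz ⟨i, j, h1, h2, h3, h4, h5⟩
    refine ⟨i, j, h1, h2, h3, h4, fun l l' q1 q2 q3 q4 => ?_⟩
    have h8 := HexObs.SSI.dW_le (n := n) t (i := l) (j := l') (by omega) (by omega)
    have h9 := h5 l l' q1 q2 q3 q4
    calc dW t l l' ≤ 2 * dS (NTF.sw n t) l l' := h8
      _ ≤ 2 * (c / 2 * 2 ^ L * (((j : ℝ) - i) / HexObs.PW.mZ (2 ^ L)) ^ β) := by linarith
      _ = _ := by ring

/-- the curves with a slow piece of length at least h -/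
def LwB (c β h : ℝ) : Set C(unitInterval, ℂ) := {γ | ∃ u v : unitInterval, h ≤ (v : ℝ) - u ∧ u ≤ v ∧
  ∀ x : unitInterval, u ≤ x → x ≤ v → dist (γ x) (γ u) < c * ((v : ℝ) - u) ^ β}

lemma lwB_open (c β h : ℝ) : IsOpen (LwB c β h) := by
  rw [Metric.isOpen_iff]
  rintro γ ⟨u, v, h1, h2, h3⟩
  obtain ⟨η, hη⟩ : ∃ η, η = c * ((v : ℝ) - u) ^ β := ⟨_, rfl⟩
  rw [← hη] at h3
  have hc : IsCompact (Set.Icc u v) := isCompact_Icc
  have hne : (Set.Icc u v).Nonempty := ⟨u, Set.left_mem_Icc.2 h2⟩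
  have hcont : ContinuousOn (fun x : unitInterval => dist (γ x) (γ u)) (Set.Icc u v) :=
    (γ.continuous.dist continuous_const).continuousOn
  obtain ⟨x0, hx0, hmax⟩ := hc.exists_isMaxOn hne hcont
  have h4 := h3 x0 hx0.1 hx0.2
  refine ⟨(η - dist (γ x0) (γ u)) / 2, by linarith, fun γ' hγ' => ⟨u, v, h1, h2, fun x hx1 hx2 => ?_⟩⟩
  rw [← hη]
  rw [Metric.mem_ball, dist_comm] at hγ'
  have a1 := (ContinuousMap.dist_apply_le_dist (f := γ) (g := γ') x).trans_lt hγ'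
  have a2 := (ContinuousMap.dist_apply_le_dist (f := γ) (g := γ') u).trans_lt hγ'
  have a3 : dist (γ x) (γ u) ≤ dist (γ x0) (γ u) := hmax ⟨hx1, hx2⟩
  have a4 : dist (γ' x) (γ' u) ≤ dist (γ' x) (γ x) + dist (γ x) (γ u) + dist (γ u) (γ' u) :=
    (dist_triangle _ (γ u) _).trans (add_le_add (dist_triangle _ _ _) le_rfl)
  rw [dist_comm (γ' x) (γ x)] at a4
  linarith

/-- the curves of the walk with a slow piece -/
theorem lowYb (hQ : QD Q) {β : ℝ} (hβ : 3 / 4 < β) {ε : ℝ} (hε : 0 < ε) : ∃ c : ℝ, 0 < c ∧ ∀ h : ℝ, 0 < h →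
    ∀ᶠ k in atTop, ylaw Q k (LwB c β h) ≤ ENNReal.ofReal ε := by
  have := hQ.prob
  obtain ⟨c, k0, hc, h1⟩ := lowKb hQ hβ hε
  refine ⟨c / (2 * 2 ^ β), by positivity, fun h hh => ?_⟩
  refine eventually_atTop.2 ⟨max (max k0 ⌈4 / h⌉₊) 1, fun k hk => ?_⟩
  have hk01 : 1 ≤ k := (le_max_right _ _).trans hk
  have hk0 : (0 : ℝ) < k := by exact_mod_cast hk01
  refine ylaw_le (lwB_open _ _ _).measurableSet fun ζ hζ => ?_
  refine (measure_mono ?_).trans (of_real hQ (h1 k (by omega)))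
  intro ω hω
  obtain ⟨u, v, a1, a2, a3⟩ : ycurve k ζ ω ∈ LwB (c / (2 * 2 ^ β)) β h := hω
  have h2 : 4 ≤ ((v : ℝ) - u) * k := by
    have h3 : 4 / h ≤ k := (Nat.le_ceil _).trans (by exact_mod_cast (by omega : ⌈4 / h⌉₊ ≤ k))
    rw [div_le_iff₀ hh] at h3
    nlinarith
  have h4 : crv k (fun j => ζ * disp ω 0 j) ∈ Pool.Agent.IW.Flat ((v : ℝ) - u) (c / (2 * 2 ^ β) * ((v : ℝ) - u) ^ β) := by
    rw [← ycurve_crv]
    exact ⟨u, v, le_rfl, a2, a3⟩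
  obtain ⟨i, j, b1, b2, b3, b4⟩ := crv_flat hk01 (fun j _ => pts_step hζ ω j) h2 h4
  refine ⟨i, j, b1, b2, fun l l' q1 q2 q3 q4 => ?_⟩
  have h5 := b4 l l' q1 q2 q3 q4
  rw [pts_norm hζ] at h5
  refine h5.trans ?_
  have huv : 0 < (v : ℝ) - u := by linarith
  have hij : (0 : ℝ) < (j : ℝ) - i := by
    have : (i : ℝ) < j := by exact_mod_cast b1
    linarith
  have h6 : ((v : ℝ) - u) ^ β ≤ 2 ^ β * (((j : ℝ) - i) / k) ^ β := by
    rw [← Real.mul_rpow (by norm_num) (by positivity)]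
    refine Real.rpow_le_rpow huv.le ?_ (by linarith)
    rw [← mul_div_assoc, le_div_iff₀ hk0]
    linarith
  have h7 : (0 : ℝ) < 2 ^ β := by positivity
  calc 2 * (c / (2 * 2 ^ β) * ((v : ℝ) - u) ^ β) * (k : ℝ) ^ (3 / 4 : ℝ)
      ≤ 2 * (c / (2 * 2 ^ β) * (2 ^ β * (((j : ℝ) - i) / k) ^ β)) * (k : ℝ) ^ (3 / 4 : ℝ) := by gcongr
    _ = _ := by field_simp

/-- not Hoelder of the exponent β, uniformly -/
def Rough (β : ℝ) (γ : C(unitInterval, ℂ)) : Prop := ∃ c : ℝ, 0 < c ∧ ∀ u v : unitInterval, u < v →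
  ∃ x : unitInterval, u ≤ x ∧ x ≤ v ∧ c * ((v : ℝ) - u) ^ β ≤ ‖γ x - γ u‖

lemma Rough.mono {β β' : ℝ} (hb : β ≤ β') {γ : C(unitInterval, ℂ)} (h : Rough β γ) : Rough β' γ := by
  obtain ⟨c, hc, h⟩ := h
  refine ⟨c, hc, fun u v huv => ?_⟩
  obtain ⟨x, h1, h2, h3⟩ := h u v huv
  have huv' : 0 < (v : ℝ) - u := sub_pos.2 (by exact_mod_cast huv)
  have hv1 : (v : ℝ) - u ≤ 1 := by
    have := v.2.2
    have := u.2.1
    linarith
  exact ⟨x, h1, h2, (mul_le_mul_of_nonneg_left (Real.rpow_le_rpow_of_exponent_ge huv' hv1 hb) hc.le).trans h3⟩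

/-- limits -/
lemma rough_lim {μ : ℕ → Measure C(unitInterval, ℂ)} {φ : ℕ → ℕ} {ν : Measure C(unitInterval, ℂ)}
    (hT : ∀ j, IsProbabilityMeasure (μ (j + 1))) (hφ : Tendsto φ atTop atTop) (hν : IsProbabilityMeasure ν)
    (hlim : ToLaw μ φ ν) (h : ∀ β : ℝ, 3 / 4 < β → ∀ ε : ℝ, 0 < ε → ∃ c : ℝ, 0 < c ∧ ∀ h : ℝ, 0 < h →
      ∀ᶠ k in atTop, μ k (LwB c β h) ≤ ENNReal.ofReal ε) : ∀ᵐ γ ∂ν, ∀ β : ℝ, 3 / 4 < β → Rough β γ := by
  have hlim' : ToLaw (fun k => μ (k + 1)) (fun k => φ k - 1) ν := fun f => by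
    refine (hlim f).congr' ?_
    filter_upwards [hφ.eventually_ge_atTop 1] with k hk
    rw [Nat.sub_add_cancel hk]
  have hφ' : Tendsto (fun k => φ k - 1) atTop atTop := (tendsto_sub_atTop_nat 1).comp hφ
  have key : ∀ β : ℝ, 3 / 4 < β → ∀ᵐ γ ∂ν, Rough β γ := by
    intro β hβ
    rw [ae_iff]
    refine le_antisymm (ENNReal.le_of_forall_pos_le_add ?_) zero_le
    intro ε hε _
    rw [zero_add]
    obtain ⟨c, hc, h1⟩ := h β hβ ε (by exact_mod_cast hε)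
    have h2 : ∀ m : ℕ, ν (LwB c β (1 / ((m : ℝ) + 1))) ≤ ENNReal.ofReal ε := fun m =>
      lim_open hT hφ' hν hlim' (lwB_open _ _ _) (ev_succ (h1 _ (by positivity)))
    have h3 : Monotone fun m : ℕ => LwB c β (1 / ((m : ℝ) + 1)) := by
      intro m m' hm γ hγ
      obtain ⟨u, v, a1, a2, a3⟩ := hγ
      refine ⟨u, v, le_trans ?_ a1, a2, a3⟩
      exact one_div_le_one_div_of_le (by positivity) (by
        have : (m : ℝ) ≤ m' := by exact_mod_cast hm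
        linarith)
    have h4 : ν (⋃ m : ℕ, LwB c β (1 / ((m : ℝ) + 1))) ≤ ENNReal.ofReal ε := by
      rw [h3.measure_iUnion]
      exact iSup_le h2
    rw [ENNReal.ofReal_coe_nnreal] at h4
    refine (measure_mono ?_).trans h4
    intro γ hγ
    rw [Set.mem_ofPred_eq] at hγ
    by_contra hcon
    refine hγ ⟨c, hc, fun u v huv => ?_⟩
    by_contra hne
    push Not at hne
    have huv' : (0 : ℝ) < (v : ℝ) - u := sub_pos.2 (by exact_mod_cast huv)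
    obtain ⟨m, hm⟩ := exists_nat_one_div_lt huv'
    refine hcon (Set.mem_iUnion.2 ⟨m, u, v, hm.le, huv.le, fun x x1 x2 => ?_⟩)
    rw [dist_eq_norm]
    exact hne x x1 x2
  have h2 : ∀ᵐ γ ∂ν, ∀ m : ℕ, Rough (3 / 4 + 1 / ((m : ℝ) + 1)) γ := by
    rw [ae_all_iff]
    exact fun m => key _ (by
      have : (0 : ℝ) < 1 / ((m : ℝ) + 1) := by positivity
      linarith)
  filter_upwards [h2] with γ hγ β hβ
  obtain ⟨m, hm⟩ := exists_nat_one_div_lt (sub_pos.2 hβ)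
  exact (hγ m).mono (by linarith)

/-- **the limits of the curves of the walk are nowhere Hoelder of an exponent above 3/4** -/
theorem low_y (hQ : QD Q) {φ : ℕ → ℕ} {ν : Measure C(unitInterval, ℂ)} (hφ : Tendsto φ atTop atTop)
    (hν : IsProbabilityMeasure ν) (hlim : ToLaw (ylaw Q) φ ν) : ∀ᵐ γ ∂ν, ∀ β : ℝ, 3 / 4 < β → ∃ c : ℝ, 0 < c ∧
      ∀ u v : unitInterval, u < v → ∃ x : unitInterval, u ≤ x ∧ x ≤ v ∧ c * ((v : ℝ) - u) ^ β ≤ ‖γ x - γ u‖ :=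
  rough_lim (fun j => ylaw_prob0 hQ.prob (j + 1)) hφ hν hlim fun _ hβ _ hε => lowYb hQ hβ hε

/-- **the same for the averages over the scales** -/
theorem low_a (hQ : QD Q) {φ : ℕ → ℕ} {ν : Measure C(unitInterval, ℂ)} (hφ : Tendsto φ atTop atTop)
    (hν : IsProbabilityMeasure ν) (hlim : ToLaw (alaw Q) φ ν) : ∀ᵐ γ ∂ν, ∀ β : ℝ, 3 / 4 < β → ∃ c : ℝ, 0 < c ∧
      ∀ u v : unitInterval, u < v → ∃ x : unitInterval, u ≤ x ∧ x ≤ v ∧ c * ((v : ℝ) - u) ^ β ≤ ‖γ x - γ u‖ :=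
  rough_lim (fun j => Sym.alaw_prob hQ.prob (Nat.le_add_left 1 j)) hφ hν hlim fun β hβ ε hε => by
    obtain ⟨c, hc, h⟩ := lowYb hQ hβ (half_pos hε)
    exact ⟨c, hc, fun h' hh' => alaw_small hQ.prob hε (h h' hh')⟩

/-- **the limits of the curves of the two-sided walk** -/
theorem stC (hQ : QD Q) : StC Q :=
  stC_of hQ.prob (mp_Q hQ) (holU hQ) (pinU hQ) (lowU hQ) fun _ _ hφ hν hlim => low_y hQ hφ hν hlim

/-- **the limits of the averages over the scales** -/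
theorem stD (hQ : QD Q) : StD Q :=
  stD_of hQ.prob (mp_Q hQ) (holU hQ) (pinU hQ) (lowU hQ) fun _ _ hφ hν hlim => low_a hQ hφ hν hlim

end Pool.Agent.TSW
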