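import Pool.Agent.TSW.Res
import Pool.Agent.TSW.LayB
import Pool.Agent.TSW.LowB

/-!
# TSW: assembly, the open rows as hypotheses (helper14)

Rows: layer A (41), layer B (22), Sym (69), NiceL, StCD (41), BadK, NiceY (78); open: StE (22), StF (84, 29, 22, 41).
-/

set_option autoImplicit false

open MeasureTheory Filter Topology

namespace Pool.Agent.TSW

/-- the rows (a) - (d) are theorems -/
theorem two_sided_of (hE : ∀ Q, QOk Q → StE Q) : ∃ Q, StA Q ∧ StB Q ∧ StC Q ∧ StD Q ∧ StE Q := by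
  obtain ⟨Q, hQ⟩ := exists_QOk
  have hD : QD Q := ⟨hQ.1.1, hQ.2⟩
  exact ⟨Q, hQ.1, stB_of hQ, stC hD, stD hD, hE Q hQ⟩

end Pool.Agent.TSW
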