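import Pool.Agent.TSW.BC3Defs
import Pool.Agent.TSW.ShiftDefs
import Pool.Agent.TSW.LayA
import Pool.Agent.NTS.Law

/-!
TSW, bulk coupling (doc next/46f0ca_14b), row B4 (helper51): the averaging step, `stF_of`.
-/

set_option autoImplicit false

open MeasureTheory Filter Topology ENNReal
open scoped Classical

namespace Pool.Agent.TSW

open Pool.Agent.NTS.Res
open Pool.Agent.IW.Res (mean)

/-- `mean` with the public set `saw` -/
lemma mean_def (n : ℕ) (f : (Fin n → Fin 3) → ℝ) : mean n f = (∑ s ∈ saw n, f s) / ((saw n).card : ℝ) := rfl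

/-- the windows near the step `k`, as hits -/
lemma sum_ind {n : ℕ} (s : Fin n → Fin 3) {k m H : ℕ} (hm : m ≤ k) (hH : k + H + m ≤ n) (S : Set (Fin (2 * m) → Bool)) :
    ∑ u ∈ Finset.range H, (if seen s (k + u) ∈ cyl (-(m : ℤ)) S then (1 : ℝ) else 0) = hits s S (k - m) (k - m + H) := by
  have h1 : ∀ u ∈ Finset.range H, (if seen s (k + u) ∈ cyl (-(m : ℤ)) S then (1 : ℝ) else 0) =
      if (fun j : Fin (2 * m) => turn s (k - m + u + j)) ∈ S then 1 else 0 := by
    intro u _
    have h2 := seen_cyl s (i := k + u) (a := -(m : ℤ)) (by push_cast; omega) S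
    have h3 : (((k + u : ℕ) : ℤ) + -(m : ℤ)).toNat = k - m + u := by
      push_cast
      omega
    rw [h3] at h2
    simp only [h2]
  rw [Finset.sum_congr rfl h1, ← Finset.sum_filter, Finset.sum_const, nsmul_eq_mul, mul_one]
  norm_cast
  unfold hits
  refine Finset.card_nbij' (fun u => k - m + u) (fun i => i - (k - m)) ?_ ?_ ?_ ?_
  · intro u hu
    rw [Finset.mem_coe, Finset.mem_filter, Finset.mem_range] at hu
    rw [Finset.mem_coe, Finset.mem_filter, Finset.mem_Ico]
    show (k - m ≤ k - m + u ∧ k - m + u < k - m + H) ∧ k - m + u + 2 * m < n ∧ _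
    exact ⟨by omega, by omega, hu.2⟩
  · intro i hi
    rw [Finset.mem_coe, Finset.mem_filter, Finset.mem_Ico] at hi
    rw [Finset.mem_coe, Finset.mem_filter, Finset.mem_range]
    show i - (k - m) < H ∧ _
    refine ⟨by omega, ?_⟩
    have h2 : k - m + (i - (k - m)) = i := by omega
    rw [h2]
    exact hi.2.2
  · intro u _
    show k - m + u - (k - m) = u
    omega
  · intro i hi
    rw [Finset.mem_coe, Finset.mem_filter, Finset.mem_Ico] at hi
    show k - m + (i - (k - m)) = i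
    omega

/-- the mean of a bounded function that is small off a small set -/
lemma mean_le {n : ℕ} {f : (Fin n → Fin 3) → ℝ} {P : (Fin n → Fin 3) → Prop} {a b : ℝ} (ha : 0 ≤ a)
    (h1 : ∀ s ∈ saw n, |f s| ≤ 1) (h2 : ∀ s ∈ saw n, ¬ P s → |f s| ≤ a)
    (h3 : (((saw n).filter fun s => P s).card : ℝ) ≤ b * (saw n).card) : |mean n f| ≤ a + b := by
  have hc : (0 : ℝ) < (saw n).card := by exact_mod_cast (NTSF.saw_nonempty n).card_pos
  rw [mean_def, abs_div, abs_of_pos hc, div_le_iff₀ hc]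
  refine (Finset.abs_sum_le_sum_abs _ _).trans ?_
  have h4 : ∀ s ∈ saw n, |f s| ≤ a + if P s then 1 else 0 := by
    intro s hs
    split_ifs with h
    · have := h1 s hs
      linarith
    · rw [add_zero]
      exact h2 s hs h
  refine (Finset.sum_le_sum h4).trans ?_
  rw [Finset.sum_add_distrib, Finset.sum_const, nsmul_eq_mul, ← Finset.sum_filter, Finset.sum_const, nsmul_eq_mul, mul_one]
  nlinarith

/-- **row B4**: the averaging step -/
theorem stF_of {Q : Measure (ℤ → Bool)} (hQ : QD Q) (hT : ShiftT) (h3 : BC3 Q) : StF Q := by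
  intro ε hε
  haveI := hQ.prob
  obtain ⟨ε1, hε1⟩ : ∃ ε1 : ℝ, ε1 = min ε 1 / 4 := ⟨_, rfl⟩
  have hm0 : 0 < min ε 1 := lt_min hε one_pos
  have he1 : 0 < ε1 := by
    rw [hε1]
    positivity
  have he2 : 4 * ε1 ≤ ε := by
    rw [hε1]
    have := min_le_left ε 1
    linarith
  have he3 : 4 * ε1 ≤ 1 := by
    rw [hε1]
    have := min_le_right ε 1
    linarith
  obtain ⟨δ1, hδ1, n1, hT⟩ := hT ε1 he1
  obtain ⟨η, hη⟩ : ∃ η : ℝ, η = min δ1 ε1 := ⟨_, rfl⟩
  have hη0 : 0 < η := by
    rw [hη]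
    exact lt_min hδ1 he1
  have hη1 : η ≤ δ1 := by
    rw [hη]
    exact min_le_left _ _
  have hη2 : η ≤ ε1 := by
    rw [hη]
    exact min_le_right _ _
  obtain ⟨ε3, hε3⟩ : ∃ ε3 : ℝ, ε3 = η * ε1 / 4 := ⟨_, rfl⟩
  have he4 : 0 < ε3 := by
    rw [hε3]
    positivity
  obtain ⟨δ3, hδ3, n3, h3⟩ := h3 ε3 he4
  obtain ⟨n2, hn2⟩ : ∃ n2 : ℕ, n2 = n1 + n3 + ⌈2 / η⌉₊ + 1 := ⟨_, rfl⟩
  have hn2' : (0 : ℝ) < n2 := by
    rw [hn2]
    positivity
  refine ⟨min (min δ1 (δ3 / 2)) (min ε1 (1 / (2 * n2))), by positivity, fun n k m hk1 hk2 hm S G hG hL hs => ?_⟩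
  obtain ⟨δ, hδ⟩ : ∃ δ : ℝ, δ = min (min δ1 (δ3 / 2)) (min ε1 (1 / (2 * n2))) := ⟨_, rfl⟩
  rw [← hδ] at hm
  have hd1 : δ ≤ δ1 := by
    rw [hδ]
    exact (min_le_left _ _).trans (min_le_left _ _)
  have hd2 : δ ≤ δ3 / 2 := by
    rw [hδ]
    exact (min_le_left _ _).trans (min_le_right _ _)
  have hd3 : δ ≤ ε1 := by
    rw [hδ]
    exact (min_le_right _ _).trans (min_le_left _ _)
  have hd4 : δ ≤ 1 / (2 * n2) := by
    rw [hδ]
    exact (min_le_right _ _).trans (min_le_right _ _)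
  have hn0 : (0 : ℝ) ≤ n := Nat.cast_nonneg n
  have hc : (0 : ℝ) < (saw n).card := by exact_mod_cast (NTSF.saw_nonempty n).card_pos
  rw [NTSF.integral_law]
  by_cases hn : n < n2
  · -- a trivial window
    have h4 : (m : ℝ) < 1 := by
      have h5 : (n : ℝ) ≤ n2 := by exact_mod_cast hn.le
      have h6 : δ * n ≤ 1 / (2 * n2) * n2 := mul_le_mul hd4 h5 hn0 (by positivity)
      have h7 : 1 / (2 * (n2 : ℝ)) * n2 = 1 / 2 := by field_simp
      linarith
    have h5 : m = 0 := by
      have : m < 1 := by exact_mod_cast h4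
      omega
    subst h5
    by_cases hS : S = ∅
    · have h6 : cyl (-((0 : ℕ) : ℤ)) S = ∅ := by
        ext ω
        rw [mem_cyl, hS]
        simp
      simp only [h6, Set.mem_empty_iff_false, if_false, Finset.sum_const_zero, zero_div, measureReal_empty, zero_mul, sub_zero, abs_zero]
      exact hε.le
    · have h6 : cyl (-((0 : ℕ) : ℤ)) S = Set.univ := by
        obtain ⟨x, hx⟩ := Set.nonempty_iff_ne_empty.2 hS
        ext ω
        rw [mem_cyl]
        simp only [Set.mem_univ, iff_true]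
        have : (fun j : Fin (2 * 0) => ω (-((0 : ℕ) : ℤ) + (j : ℕ))) = x := by
          funext j
          exact absurd j.2 (by omega)
        rw [this]
        exact hx
      simp only [h6, Set.mem_univ, if_true, probReal_univ, one_mul, sub_self, abs_zero]
      exact hε.le
  push Not at hn
  have hnn : (n2 : ℝ) ≤ n := by exact_mod_cast hn
  have hceil := Nat.le_ceil (2 / η)
  have hηn : 2 ≤ η * n := by
    have h5 : 2 / η ≤ n := by
      refine hceil.trans ?_
      have : ⌈2 / η⌉₊ ≤ n := by omega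
      exact_mod_cast this
    rwa [div_le_iff₀ hη0, mul_comm] at h5
  obtain ⟨H, hH⟩ : ∃ H : ℕ, H = ⌊η * n⌋₊ := ⟨_, rfl⟩
  have hH1 : (H : ℝ) ≤ η * n := by
    rw [hH]
    exact Nat.floor_le (by positivity)
  have hH2 : η * n < H + 1 := by
    rw [hH]
    exact Nat.lt_floor_add_one _
  have hH3 : η * n / 2 ≤ H := by linarith
  have hH0 : (0 : ℝ) < H := by linarith
  have hnpos : (0 : ℝ) < n := by linarith
  have hmn : (m : ℝ) ≤ ε1 * n := hm.trans (mul_le_mul_of_nonneg_right hd3 hn0)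
  have hmk : m ≤ k := by
    have : (m : ℝ) ≤ k := by
      have : ε1 * n ≤ ε * n := mul_le_mul_of_nonneg_right (by linarith) hn0
      linarith
    exact_mod_cast this
  have hkH : k + H + m ≤ n := by
    have h5 : η * n ≤ ε1 * n := mul_le_mul_of_nonneg_right hη2 hn0
    have h6 : 4 * ε1 * n ≤ ε * n := mul_le_mul_of_nonneg_right he2 hn0
    have h7 : (k : ℝ) + H + m ≤ n := by nlinarith
    exact_mod_cast h7
  obtain ⟨q, hq⟩ : ∃ q, q = Q.real (cyl (-(m : ℤ)) S) := ⟨_, rfl⟩
  have hq1 : q = Q.real (cyl 0 S) := by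
    rw [hq]
    exact Den.unique (hQ.den (2 * m) S _) (hQ.den (2 * m) S _)
  have hq0 : 0 ≤ q ∧ q ≤ 1 := by
    rw [hq]
    exact ⟨measureReal_nonneg, measureReal_le_one⟩
  -- the means
  obtain ⟨V, hV⟩ : ∃ V : ℕ → ℝ, V = fun u => mean n (fun s => (if seen s (k + u) ∈ cyl (-(m : ℤ)) S then 1 else 0) * G (curve s)) :=
    ⟨_, rfl⟩
  have hV0 : (∑ s ∈ saw n, if seen s k ∈ cyl (-(m : ℤ)) S then G (curve s) else 0) / ((saw n).card : ℝ) = V 0 := by
    rw [hV]
    show _ = mean n _
    rw [mean_def]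
    congr 1
    refine Finset.sum_congr rfl fun s _ => ?_
    rw [add_zero]
    split_ifs <;> simp
  have hVu : ∀ u ∈ Finset.range H, |V u - V 0| ≤ ε1 := by
    intro u hu
    rw [Finset.mem_range] at hu
    have hu' : (u : ℝ) ≤ H := by exact_mod_cast hu.le
    rw [hV]
    refine hT n k u m (by omega) ?_ ?_ ?_ ?_ S G hG hL hs
    · refine le_trans (mul_le_mul_of_nonneg_right (by linarith) hn0) hk1
    · refine hk2.trans (mul_le_mul_of_nonneg_right (by linarith) hn0)
    · refine hu'.trans (hH1.trans (mul_le_mul_of_nonneg_right hη1 hn0))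
    · exact hm.trans (mul_le_mul_of_nonneg_right hd1 hn0)
  have hA : |(∑ u ∈ Finset.range H, V u) / H - V 0| ≤ ε1 := by
    have h5 : (∑ u ∈ Finset.range H, V u) / H - V 0 = (∑ u ∈ Finset.range H, (V u - V 0)) / H := by
      rw [Finset.sum_sub_distrib, Finset.sum_const, Finset.card_range, nsmul_eq_mul, sub_div, mul_div_cancel_left₀ _ hH0.ne']
    rw [h5, abs_div, abs_of_pos hH0, div_le_iff₀ hH0]
    refine (Finset.abs_sum_le_sum_abs _ _).trans ((Finset.sum_le_card_nsmul _ _ _ hVu).trans ?_)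
    rw [Finset.card_range, nsmul_eq_mul, mul_comm]
  -- the mean of the hits
  have hB : (∑ u ∈ Finset.range H, V u) / H - q * ((∑ s ∈ saw n, G (curve s)) / ((saw n).card : ℝ)) =
      mean n (fun s => ((hits s S (k - m) (k - m + H) : ℝ) / H - q) * G (curve s)) := by
    rw [hV]
    simp only [mean_def]
    rw [← Finset.sum_div, Finset.sum_comm, div_div, mul_comm ((saw n).card : ℝ), ← div_div, Finset.sum_div, ← mul_div_assoc, ← sub_div,
      Finset.mul_sum, ← Finset.sum_sub_distrib]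
    congr 1
    refine Finset.sum_congr rfl fun s _ => ?_
    rw [← Finset.sum_mul, sum_ind s hmk hkH S]
    ring
  have hh := h3 n (2 * m) (by omega) (by
    push_cast
    have : δ * n ≤ δ3 / 2 * n := mul_le_mul_of_nonneg_right hd2 hn0
    linarith) S
  have hC := mean_le (n := n) (f := fun s => ((hits s S (k - m) (k - m + H) : ℝ) / H - q) * G (curve s))
    (P := fun s => ∃ a b : ℕ, a ≤ b ∧ b ≤ n ∧ ε3 * n < |(hits s S a b : ℝ) - Q.real (cyl 0 S) * ((b : ℝ) - a)|)
    (a := ε1 / 2) (b := ε3) (by positivity) (fun s _ => ?_) (fun s _ hP => ?_) hh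
  · rw [hV0, ← hq]
    have h5 : V 0 - q * ((∑ s ∈ saw n, G (curve s)) / ((saw n).card : ℝ)) =
        -((∑ u ∈ Finset.range H, V u) / H - V 0) + ((∑ u ∈ Finset.range H, V u) / H - q * ((∑ s ∈ saw n, G (curve s)) / ((saw n).card : ℝ))) := by
      ring
    rw [h5, hB]
    refine (abs_add_le _ _).trans ?_
    rw [abs_neg]
    have h6 : ε3 ≤ ε1 := by
      rw [hε3]
      have : η ≤ 1 := by linarith
      nlinarith
    linarith
  · rw [abs_mul]
    have h5 : |(hits s S (k - m) (k - m + H) : ℝ) / H - q| ≤ 1 := by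
      have h6 : (hits s S (k - m) (k - m + H) : ℝ) ≤ H := by
        have := hits_le s S (k - m) (k - m + H)
        have h7 : hits s S (k - m) (k - m + H) ≤ H := by omega
        exact_mod_cast h7
      have h7 : (hits s S (k - m) (k - m + H) : ℝ) / H ≤ 1 := by
        rw [div_le_one hH0]
        exact h6
      have h8 : 0 ≤ (hits s S (k - m) (k - m + H) : ℝ) / H := by positivity
      rw [abs_le]
      constructor <;> linarith [hq0.1, hq0.2]
    exact mul_le_one₀ h5 (abs_nonneg _) (hG _)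
  · have h5 : |(hits s S (k - m) (k - m + H) : ℝ) / H - q| ≤ ε1 / 2 := by
      have h6 : |(hits s S (k - m) (k - m + H) : ℝ) - q * H| ≤ ε3 * n := by
        by_contra hcon
        push Not at hcon
        refine hP ⟨k - m, k - m + H, by omega, by omega, ?_⟩
        rw [← hq1]
        push_cast
        rw [add_sub_cancel_left]
        exact hcon
      have h7 : (hits s S (k - m) (k - m + H) : ℝ) / H - q = ((hits s S (k - m) (k - m + H) : ℝ) - q * H) / H := by
        field_simp
      rw [h7, abs_div, abs_of_pos hH0, div_le_iff₀ hH0]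
      refine h6.trans ?_
      rw [hε3]
      have h8 : η * n / 2 * (ε1 / 2) ≤ H * (ε1 / 2) := mul_le_mul_of_nonneg_right hH3 (by positivity)
      linarith
    rw [abs_mul]
    calc |(hits s S (k - m) (k - m + H) : ℝ) / H - q| * |G (curve s)| ≤ ε1 / 2 * 1 :=
          mul_le_mul h5 (hG _) (abs_nonneg _) (by positivity)
      _ = ε1 / 2 := mul_one _

end Pool.Agent.TSW
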