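import Pool.Agent.TSW.All0
import Pool.Agent.TSW.StF
import Pool.Agent.TSW.ShiftT

/-!
# TSW: assembly with the bulk coupling, the open rows as hypotheses (helper14)

Open: StE (22), BC1 (84, 41), BC3 (94, 22).
-/

set_option autoImplicit false

open MeasureTheory Filter Topology

namespace Pool.Agent.TSW

/-- the rows (a) - (d) are theorems; (f) from BC1 and BC3 -/
theorem two_sided_f (hE : ∀ Q, QOk Q → StE Q) (h1 : BC1) (h3 : ∀ Q, QOk Q → BC3 Q) :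
    ∃ Q, StA Q ∧ StB Q ∧ StC Q ∧ StD Q ∧ StE Q ∧ StF Q := by
  obtain ⟨Q, hQ⟩ := exists_QOk
  have hD : QD Q := ⟨hQ.1.1, hQ.2⟩
  exact ⟨Q, hQ.1, stB_of hQ, stC hD, stD hD, hE Q hQ, stF_of hD (shiftT h1) (h3 Q hQ)⟩

end Pool.Agent.TSW
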