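import Pool.Agent.MC.Slow

/-!
TSW, bulk coupling, row B1 (helper84): the literal of the word part.
-/

set_option autoImplicit false

open scoped Classical

namespace Pool.Agent.TSW

open HexObs HexObs.TS HexObs.SDN HexObs.TIW HexObs.MCP

/-- the function `F` of the words hardly sees an end of a diameter below `R` -/
def EndRob (R τ : ℝ) (F : List Bool → ℝ) : Prop :=
  ∀ A Y : List Bool, (∀ i, i ≤ Y.length → (hn (vx oo up Y i) : ℝ) < R) → |F (A ++ Y) - F A| ≤ τ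

/-- **the word part of B1** -/
def WordT : Prop := ∀ ε : ℝ, 0 < ε → ∃ τ : ℝ, 0 < τ ∧ ∀ ρ : ℝ, 0 < ρ → ∃ δ : ℝ, 0 < δ ∧ ∃ n0 : ℕ, ∀ n h j : ℕ, n0 ≤ n →
  (h : ℝ) ≤ δ * n → (j : ℝ) ≤ (1 - ε) * n → ∀ g F : List Bool → ℝ, (∀ x, |g x| ≤ 1) → (∀ x, |F x| ≤ 1) →
    EndRob (ρ * (n : ℝ) ^ (3 / 4 : ℝ)) τ F →
      |Eu (n + h) (fun t => g (t.take j) * F t) - Eu n (fun t => g (t.take j) * F t)| ≤ ε

/-- the slow change of the mean of a functional that hardly sees a small end, for even and odd changes of the number of letters -/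
def SlowAll : Prop := ∀ ε : ℝ, 0 < ε → ∃ τ : ℝ, 0 < τ ∧ ∀ c1 : ℕ, ∃ c2 k0 : ℕ, ∀ k n h : ℕ, k0 ≤ k → TIP.Sc k n →
  h * 2 ^ c2 ≤ n → ∀ H : List Bool → ℝ, (∀ t, |H t| ≤ 1) →
    (∀ A Y, A ++ Y ∈ SA → (∀ i, i ≤ Y.length → hn (vx oo up Y i) < 2 ^ (k - c1)) → |H (A ++ Y) - H A| ≤ τ) →
      |Eu (n + h) H - Eu n H| ≤ ε

end Pool.Agent.TSW
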