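import Pool.Agent.TSW.BC1T
import Pool.Agent.TSW.BCWDefs
import Pool.Agent.NPR.Scl

/-!
TSW, bulk coupling, row B1 (helper84): **`slowAll`**: the mean of a functional that hardly sees a small end hardly depends on the
number of letters, for even and odd changes (one step by the tip theorem `tipS`, an even number of steps by `slowF`).
-/

set_option autoImplicit false

namespace HexObs

namespace BCO

open Finset TS SDN TIW SLW PWN MCP NPR

/-- the hypothesis of the slow change -/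
def Rb (r : ℕ) (τ : ℝ) (H : List Bool → ℝ) : Prop := ∀ A Y : List Bool, A ++ Y ∈ SA →
  (∀ i, i ≤ Y.length → hn (vx oo up Y i) < 2 ^ r) → |H (A ++ Y) - H A| ≤ τ

lemma Rb_mono {r r' : ℕ} (h : r' ≤ r) {τ : ℝ} {H : List Bool → ℝ} (hH : Rb r τ H) : Rb r' τ H :=
  fun A Y hA hY => hH A Y hA fun i hi => (hY i hi).trans_le (pow_le_pow_right₀ (by norm_num) h)

lemma Rb_le {r : ℕ} {τ τ' : ℝ} (h : τ ≤ τ') {H : List Bool → ℝ} (hH : Rb r τ H) : Rb r τ' H :=
  fun A Y hA hY => (hH A Y hA hY).trans h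

lemma Rb_one (r : ℕ) {τ : ℝ} (hτ : 0 ≤ τ) : Rb r τ (fun _ => 1) := fun _ _ _ _ => by
  rw [sub_self, abs_zero]
  exact hτ

lemma wd_saw (n : ℕ) : TOG.wdN n = sawF n := by
  ext t
  rw [TOG.mem_wdN, mem_sawF]

/-- one letter is small -/
lemma hn_one (b : Bool) {i : ℕ} (hi : i ≤ [b].length) : hn (vx oo up [b] i) < 8 := by
  have h : [b].length = 1 := rfl
  rw [h] at hi
  interval_cases i <;> cases b <;> decide

/-- the last letter is hardly seen -/
lemma last_near {r : ℕ} (hr : 3 ≤ r) {τ : ℝ} {H : List Bool → ℝ} (hH : Rb r τ H) {t : List Bool} (ht : t ∈ SA) :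
    |H t - H t.dropLast| ≤ τ := by
  have hτ : 0 ≤ τ := (abs_nonneg _).trans (hH t [] (by rw [List.append_nil]; exact ht) (fun i hi => by
    have h0 : i = 0 := by simpa using hi
    subst h0
    have e : vx oo up ([] : List Bool) 0 = 0 := rfl
    rw [e]
    have : hn (0 : Pt) = 0 := by decide
    rw [this]
    positivity))
  rcases List.eq_nil_or_concat t with h | ⟨A, b, h⟩
  · rw [h]
    show |H [] - H []| ≤ τ
    rw [sub_self, abs_zero]
    exact hτ
  · rw [List.concat_eq_append] at h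
    rw [h, List.dropLast_concat]
    rw [h] at ht
    refine hH A [b] ht fun i hi => (hn_one b hi).trans_le ?_
    calc (8 : ℤ) = 2 ^ 3 := by norm_num
      _ ≤ 2 ^ r := pow_le_pow_right₀ (by norm_num) hr

/-- the functional of the word without its last letter -/
lemma Rb_last {r : ℕ} (hr : 3 ≤ r) {τ : ℝ} {H : List Bool → ℝ} (hH : Rb r τ H) : Rb r (2 * τ) (fun t => H t.dropLast) := by
  intro A Y hA hY
  have hAs : A ∈ SA := by
    have := SA_take hA A.length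
    rwa [List.take_left] at this
  have h1 := last_near hr hH hAs
  rcases List.eq_nil_or_concat Y with h | ⟨Y', b, h⟩
  · rw [h, List.append_nil]
    show |H A.dropLast - H A.dropLast| ≤ _
    rw [sub_self, abs_zero]
    have := (abs_nonneg _).trans h1
    linarith
  · rw [List.concat_eq_append] at h
    rw [h] at hA hY ⊢
    have e : (A ++ (Y' ++ [b])).dropLast = A ++ Y' := by
      rw [← List.append_assoc, List.dropLast_concat]
    show |H (A ++ (Y' ++ [b])).dropLast - H A.dropLast| ≤ _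
    rw [e]
    have hA' : A ++ Y' ∈ SA := by
      have := SA_take hA (A ++ Y').length
      rwa [← List.append_assoc, List.take_left] at this
    have h2 := hH A Y' hA' fun i hi => by
      have h3 := hY i (by rw [List.length_append]; omega)
      rwa [vx_append (by omega)] at h3
    have e2 : H (A ++ Y') - H A.dropLast = (H (A ++ Y') - H A) + (H A - H A.dropLast) := by ring
    rw [e2]
    refine (abs_add_le _ _).trans ?_
    linarith

/-- the sums over the words with one letter more -/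
lemma sum_last (n : ℕ) (H : List Bool → ℝ) :
    ∑ t ∈ sawF (n + 1), H t.dropLast = 2 * ∑ t ∈ sawF n, H t * TIP.ind (t ∈ OneS.Ah) := by
  have h := OneS.sum_succ n fun t => H t.dropLast
  rw [wd_saw, wd_saw] at h
  rw [h, mul_sum]
  refine sum_congr rfl fun t _ => ?_
  show TIP.ind (t ∈ OneS.Ah) * (H (t ++ [true]).dropLast + H (t ++ [false]).dropLast) = _
  rw [List.dropLast_concat, List.dropLast_concat]
  ring

lemma cS_succ (n : ℕ) : (cS (n + 1) : ℝ) = 2 * ∑ t ∈ sawF n, TIP.ind (t ∈ OneS.Ah) := by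
  have h := sum_last n fun _ => 1
  rw [sum_const, nsmul_eq_mul, mul_one, SLW.card_sawF] at h
  rw [h]
  congr 1
  exact sum_congr rfl fun t _ => one_mul _

lemma cS_succ_le (n : ℕ) : (cS (n + 1) : ℝ) ≤ 2 * cS n := by
  rw [cS_succ]
  refine mul_le_mul_of_nonneg_left ?_ (by norm_num)
  calc ∑ t ∈ sawF n, TIP.ind (t ∈ OneS.Ah) ≤ ∑ _t ∈ sawF n, (1 : ℝ) := sum_le_sum fun t _ => TIP.ind_le_one _
    _ = cS n := by rw [sum_const, nsmul_eq_mul, mul_one, SLW.card_sawF]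

/-- the scale of n + 1 -/
lemma sc_succ {k n : ℕ} (h : TIP.Sc k n) (hn : 1 ≤ n) : ∃ k', k ≤ k' ∧ k' ≤ k + 1 ∧ TIP.Sc k' (n + 1) := by
  have h1 : (n : ℝ) ≤ ((n + 1 : ℕ) : ℝ) := by exact_mod_cast Nat.le_succ n
  rcases lt_or_ge (((n + 1 : ℕ) : ℝ)) (PW.mZ (2 ^ (k + 1))) with h2 | h2
  · exact ⟨k, le_rfl, Nat.le_succ k, h.1.trans h1, h2⟩
  · refine ⟨k + 1, Nat.le_succ k, le_rfl, h2, ?_⟩
    have h3 := mz_low (k + 1) 1
    have h4 := h.2
    rw [pow_one] at h3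
    have h5 : ((n + 1 : ℕ) : ℝ) ≤ 2 * n := by
      have : n + 1 ≤ 2 * n := by omega
      exact_mod_cast this
    calc ((n + 1 : ℕ) : ℝ) ≤ 2 * n := h5
      _ < 2 * PW.mZ (2 ^ (k + 1)) := by linarith
      _ ≤ _ := h3

/-- the slow change of the sums of H times the event that the vertex ahead is free -/
lemma slowS_ah {δ : ℝ} {c1 c2 k n : ℕ} (hk : c1 + 3 ≤ k) {H : List Bool → ℝ}
    (hS : ∀ k' h : ℕ, k ≤ k' → k' ≤ k + 1 → TIP.Sc k' (n + 1) → Even h → h * 2 ^ c2 ≤ n + 1 →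
      |xc ^ (n + 1 + h) * ∑ t ∈ sawF (n + 1 + h), H t.dropLast - xc ^ (n + 1) * ∑ t ∈ sawF (n + 1), H t.dropLast| ≤
        δ * (cS (n + 1) * xc ^ (n + 1))) (hδ : 0 ≤ δ) (hsc : TIP.Sc k n) (hn : 1 ≤ n) :
    SlowS δ c2 n (fun t => H t * TIP.ind (t ∈ OneS.Ah)) := by
  intro h hh hh2
  obtain ⟨k', hk1, hk2, hsc'⟩ := sc_succ hsc hn
  have h1 := hS k' h hk1 hk2 hsc' hh (hh2.trans (Nat.le_succ n))
  have e1 : n + 1 + h = (n + h) + 1 := by omega
  rw [e1, sum_last, sum_last] at h1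
  have hx := xc_pos
  have e2 : xc ^ (n + h + 1) * (2 * ∑ t ∈ sawF (n + h), H t * TIP.ind (t ∈ OneS.Ah)) -
      xc ^ (n + 1) * (2 * ∑ t ∈ sawF n, H t * TIP.ind (t ∈ OneS.Ah)) =
      (2 * xc) * (xc ^ (n + h) * ∑ t ∈ sawF (n + h), H t * TIP.ind (t ∈ OneS.Ah) -
        xc ^ n * ∑ t ∈ sawF n, H t * TIP.ind (t ∈ OneS.Ah)) := by
    rw [pow_succ, pow_succ]
    ring
  rw [e2, abs_mul, abs_of_pos (by positivity)] at h1
  have h2 : δ * (cS (n + 1) * xc ^ (n + 1)) ≤ (2 * xc) * (δ * (cS n * xc ^ n)) := by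
    have h3 := cS_succ_le n
    calc δ * (cS (n + 1) * xc ^ (n + 1)) ≤ δ * (2 * cS n * xc ^ (n + 1)) := by gcongr
      _ = (2 * xc) * (δ * (cS n * xc ^ n)) := by
          rw [pow_succ]
          ring
  exact le_of_mul_le_mul_left (h1.trans h2) (by positivity)

/-- the probability that the vertex ahead is free is at least 1 / 2 -/
lemma ah_low {n : ℕ} {δ : ℝ} (hδ : δ ≤ 1 / 4)
    (h : |xc ^ (n + 2) * ∑ _t ∈ sawF (n + 2), (1 : ℝ) - xc ^ n * ∑ _t ∈ sawF n, (1 : ℝ)| ≤ δ * (cS n * xc ^ n)) :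
    1 / 2 ≤ (∑ t ∈ sawF n, TIP.ind (t ∈ OneS.Ah)) / cS n := by
  have hx := xc_pos
  have hc := cS0 n
  rw [sum_const, sum_const, nsmul_eq_mul, nsmul_eq_mul, mul_one, mul_one, SLW.card_sawF, SLW.card_sawF] at h
  have h1 := (abs_le.1 h).1
  have h2 := cS_succ n
  have h3 := cS_succ_le (n + 1)
  have h4 : xc ^ 2 ≤ 3 / 10 := by
    rw [xc_sq, div_le_div_iff₀ (by positivity) (by norm_num)]
    have : (7 / 5 : ℝ) ≤ Real.sqrt 2 := by
      rw [show (7 / 5 : ℝ) = Real.sqrt ((7 / 5) ^ 2) by rw [Real.sqrt_sq (by norm_num)]]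
      exact Real.sqrt_le_sqrt (by norm_num)
    linarith
  have h5 : (3 / 4 : ℝ) * (cS n * xc ^ n) ≤ xc ^ (n + 2) * cS (n + 2) := by
    have : δ * (cS n * xc ^ n) ≤ 1 / 4 * (cS n * xc ^ n) := mul_le_mul_of_nonneg_right hδ (by positivity)
    linarith
  have h6 : (3 / 4 : ℝ) * cS n ≤ xc ^ 2 * cS (n + 2) := by
    have e : xc ^ (n + 2) * (cS (n + 2) : ℝ) = (xc ^ 2 * cS (n + 2)) * xc ^ n := by
      rw [pow_add]
      ring
    rw [e, ← mul_assoc] at h5
    exact le_of_mul_le_mul_right h5 (pow_pos hx n)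
  have h7 : xc ^ 2 * (cS (n + 2) : ℝ) ≤ 3 / 10 * cS (n + 2) := mul_le_mul_of_nonneg_right h4 (Nat.cast_nonneg _)
  have h8 : (cS (n + 2) : ℝ) ≤ 2 * cS (n + 1) := h3
  rw [le_div_iff₀ hc]
  linarith

/-- **one step** -/
theorem one_step : ∀ ε : ℝ, 0 < ε → ∃ τ : ℝ, 0 < τ ∧ ∀ c1 : ℕ, ∃ k0 : ℕ, ∀ k n : ℕ, k0 ≤ k → TIP.Sc k n →
    ∀ H : List Bool → ℝ, (∀ t, |H t| ≤ 1) → Rb (k - c1) τ H → |Eu (n + 1) H - Eu n H| ≤ ε := by
  intro ε hε
  obtain ⟨ε1, hε1⟩ : ∃ ε1 : ℝ, ε1 = min ε 1 / 16 := ⟨_, rfl⟩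
  have hm0 : 0 < min ε 1 := lt_min hε one_pos
  have hε0 : 0 < ε1 := by rw [hε1]; positivity
  have hεa : ε1 ≤ ε / 16 := by rw [hε1]; exact div_le_div_of_nonneg_right (min_le_left _ _) (by norm_num)
  have hεb : ε1 ≤ 1 / 16 := by rw [hε1]; exact div_le_div_of_nonneg_right (min_le_right _ _) (by norm_num)
  obtain ⟨δ, hδ⟩ : ∃ δ : ℝ, δ = min (ε1 / 16) (1 / 2) := ⟨_, rfl⟩
  have hδ0 : 0 < δ := by rw [hδ]; exact lt_min (by positivity) (by norm_num)
  have hδ4 : δ ≤ 1 / 4 := by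
    rw [hδ]
    refine (min_le_left _ _).trans ?_
    linarith
  obtain ⟨τa, hτa, hT⟩ := tipS (tent_bump 0) (tent_one 0) ε1 hε0
  obtain ⟨τb, hτb, hS⟩ := slowF δ hδ0
  obtain ⟨τ, hτ⟩ : ∃ τ : ℝ, τ = min τa (min (τb / 2) ε1) := ⟨_, rfl⟩
  have hτ0 : 0 < τ := by rw [hτ]; exact lt_min hτa (lt_min (by positivity) hε0)
  have hτ1 : τ ≤ τa := by rw [hτ]; exact min_le_left _ _
  have hτ2 : 2 * τ ≤ τb := by
    have : τ ≤ τb / 2 := by rw [hτ]; exact (min_le_right _ _).trans (min_le_left _ _)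
    linarith
  have hτ3 : τ ≤ ε1 := by rw [hτ]; exact (min_le_right _ _).trans (min_le_right _ _)
  refine ⟨τ, hτ0, fun c1 => ?_⟩
  obtain ⟨c20, hT⟩ := hT c1
  obtain ⟨c2b, kb, hS⟩ := hS (c1 + 1)
  obtain ⟨C1, hT⟩ := hT (c20 + c2b) (by omega)
  obtain ⟨k1, hT⟩ := hT (C1 + c1) (C1 + c1 + C1) (by omega) (by omega)
  obtain ⟨k2, hk2⟩ := big_n (2 * 2 ^ (c20 + c2b) + 1)
  refine ⟨k1 + kb + k2 + c1 + 3 + (C1 + c1 + C1), fun k n hk hsc H hH1 hH => ?_⟩
  have hn2 := hk2 k n (by omega) hsc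
  have hpw : 1 ≤ 2 ^ (c20 + c2b) := Nat.one_le_two_pow
  have hn1 : 1 ≤ n := by omega
  have hcn := cS0 n
  have hcn1 := cS0 (n + 1)
  -- the general tip statement
  have hgen : ∀ Φ : List Bool → ℝ, (∀ t, |Φ t| ≤ 1) → Rb (k - c1) τ Φ →
      |(∑ t ∈ sawF n, Φ t * TIP.ind (t ∈ OneS.Ah)) / cS n - EA (tent 0) n (fun t => TIP.ind (t ∈ OneS.Ah)) * En n Φ| ≤ ε1 := by
    intro Φ hΦ1 hΦ
    refine hT k n k n (by omega) le_rfl hsc hsc (fun t => TIP.ind (t ∈ OneS.Ah)) Φ (fun _ => τ) Φ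
      (fun t => by
        rw [abs_of_nonneg (TIP.ind_nonneg _)]
        exact TIP.ind_le_one _) hΦ1 hΦ1
      (fun M lv hlv => innQ_ah fun i hi => by have := hlv i hi; omega) ?_ (fun _ => hτ0.le) ?_ (fun _ => rfl)
      (Rb_le hτ1 hΦ) ?_
    · intro A Y hA _ hY
      refine hΦ A Y hA fun i hi => (hY i hi).trans_le ?_
      push_cast
      exact pow_le_pow_right₀ (by norm_num) (by omega)
    · intro m _ _
      rw [sum_const, nsmul_eq_mul, SLW.card_sawF, mul_comm]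
      refine mul_le_mul_of_nonneg_right ?_ (Nat.cast_nonneg _)
      exact pow_le_pow_left₀ hτ0.le hτ1 2
    · rw [← hδ]
      refine slowS_ah (c1 := c1) (by omega) (fun k' h hk1 hk2' hsc' hh hh2 => ?_) hδ0.le hsc hn1
      have h1 : Rb (k' - (c1 + 1)) (2 * τ) (fun t => Φ t.dropLast) :=
        Rb_mono (by omega) (Rb_last (by omega : 3 ≤ k - c1) hΦ)
      refine hS k' (n + 1) h (by omega) hsc' hh ?_ (fun t => Φ t.dropLast) (fun t => hΦ1 _) (Rb_le hτ2 h1)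
      refine le_trans (Nat.mul_le_mul_left h (Nat.pow_le_pow_right (by norm_num) (by omega))) hh2
  have g1 := hgen H hH1 hH
  have g2 := hgen (fun _ => 1) (fun _ => by rw [abs_one]) (Rb_one _ hτ0.le)
  -- the probability that the vertex ahead is free
  have hlow := ah_low hδ4 (n := n) (hS k n 2 (by omega) hsc (by decide) (by
    refine le_trans (Nat.mul_le_mul_left 2 (Nat.pow_le_pow_right (by norm_num) (by omega : c2b ≤ c20 + c2b))) (by omega))
    (fun _ => 1) (fun _ => by rw [abs_one]) (Rb_one _ hτb.le))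
  obtain ⟨a, ha⟩ : ∃ a : ℝ, a = EA (tent 0) n (fun t => TIP.ind (t ∈ OneS.Ah)) := ⟨_, rfl⟩
  obtain ⟨p, hp⟩ : ∃ p : ℝ, p = (∑ t ∈ sawF n, TIP.ind (t ∈ OneS.Ah)) / cS n := ⟨_, rfl⟩
  obtain ⟨x, hx⟩ : ∃ x : ℝ, x = (∑ t ∈ sawF n, H t * TIP.ind (t ∈ OneS.Ah)) / cS n := ⟨_, rfl⟩
  obtain ⟨y, hy⟩ : ∃ y : ℝ, y = Eu n H := ⟨_, rfl⟩
  have e1 : En n H = y := by rw [hy]; rfl
  have e2 : En n (fun _ => 1) = 1 := Eu_one n
  have e3 : (∑ t ∈ sawF n, (fun _ => 1) t * TIP.ind (t ∈ OneS.Ah)) / cS n = p := by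
    rw [hp]
    congr 1
    exact sum_congr rfl fun t _ => one_mul _
  rw [e2, e3, ← ha, mul_one] at g2
  rw [e1, ← ha, ← hx] at g1
  rw [← hp] at hlow
  have hy1 : |y| ≤ 1 := by rw [hy]; exact Eu_le hH1
  have hxp : |x - p * y| ≤ 2 * ε1 := by
    have e4 : x - p * y = (x - a * y) - (p - a) * y := by ring
    rw [e4]
    refine (abs_sub _ _).trans ?_
    have h1 : |(p - a) * y| ≤ ε1 := by
      rw [abs_mul]
      calc |p - a| * |y| ≤ ε1 * 1 := mul_le_mul g2 hy1 (abs_nonneg _) hε0.le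
        _ = ε1 := mul_one _
    linarith
  -- the mean over the words with one letter more
  have e5 : Eu (n + 1) (fun t => H t.dropLast) = x / p := by
    have h1 : (cS (n + 1) : ℝ) = 2 * (p * cS n) := by
      rw [cS_succ, hp]
      field_simp
    have h2 : ∑ t ∈ sawF (n + 1), H t.dropLast = 2 * (x * cS n) := by
      rw [sum_last, hx]
      field_simp
    unfold Eu
    rw [h1, h2]
    have hp0 : p ≠ 0 := by linarith
    field_simp
  have h6 : |Eu (n + 1) (fun t => H t.dropLast) - y| ≤ 4 * ε1 := by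
    rw [e5]
    have hp0 : 0 < p := by linarith
    have e6 : x / p - y = (x - p * y) / p := by field_simp
    rw [e6, abs_div, abs_of_pos hp0, div_le_iff₀ hp0]
    have : 4 * ε1 * (1 / 2) ≤ 4 * ε1 * p := mul_le_mul_of_nonneg_left hlow (by positivity)
    linarith
  have h7 : |Eu (n + 1) H - Eu (n + 1) (fun t => H t.dropLast)| ≤ τ := by
    rw [← Eu_sub]
    refine (Eu_abs _ _).trans ?_
    unfold Eu
    rw [div_le_iff₀ hcn1]
    calc ∑ t ∈ sawF (n + 1), |H t - H t.dropLast| ≤ ∑ _t ∈ sawF (n + 1), τ :=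
          sum_le_sum fun t ht => last_near (by omega : 3 ≤ k - c1) hH (mem_sawF.1 ht).2
      _ = τ * cS (n + 1) := by rw [sum_const, nsmul_eq_mul, SLW.card_sawF, mul_comm]
  have e7 : Eu (n + 1) H - y = (Eu (n + 1) H - Eu (n + 1) (fun t => H t.dropLast)) +
      (Eu (n + 1) (fun t => H t.dropLast) - y) := by ring
  rw [← hy, e7]
  refine (abs_add_le _ _).trans ?_
  linarith

/-- **the slow change for even and odd changes of the number of letters** -/
theorem slowAll : Pool.Agent.TSW.SlowAll := by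
  intro ε hε
  obtain ⟨τa, hτa, hO⟩ := one_step (ε / 2) (by positivity)
  obtain ⟨τb, hτb, hS⟩ := slowF (ε / 4) (by positivity)
  refine ⟨min τa τb, lt_min hτa hτb, fun c1 => ?_⟩
  obtain ⟨ka, hO⟩ := hO (c1 + 1)
  obtain ⟨c2, kb, hS⟩ := hS c1
  refine ⟨c2, ka + kb + c1, fun k n h hk hsc hh H hH1 hH => ?_⟩
  have hpw : 1 ≤ 2 ^ c2 := Nat.one_le_two_pow
  have hev : ∀ h : ℕ, Even h → h * 2 ^ c2 ≤ n → |Eu (n + h) H - Eu n H| ≤ ε / 2 := by
    intro h he hh
    have h1 := slow_E hH1 (hS k n h (by omega) hsc he hh H hH1 (Rb_le (min_le_right _ _) hH))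
      (hS k n h (by omega) hsc he hh (fun _ => 1) (fun _ => by rw [abs_one]) (Rb_one _ hτb.le))
    linarith
  rcases Nat.even_or_odd h with he | ho
  · have := hev h he hh
    linarith
  · obtain ⟨i, hi⟩ := ho
    have hle : 2 * i * 2 ^ c2 ≤ n := le_trans (Nat.mul_le_mul_right _ (by omega)) hh
    have h1 := hev (2 * i) (even_two_mul i) hle
    have h2n : 2 * i ≤ n := le_trans (Nat.le_mul_of_pos_right _ (by omega)) hle
    have hn1 : 1 ≤ n := by
      have h3 : h * 1 ≤ h * 2 ^ c2 := Nat.mul_le_mul_left _ hpw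
      omega
    -- the scale of n + 2 i
    obtain ⟨k', hk1, hk2, hsc'⟩ : ∃ k', k ≤ k' ∧ k' ≤ k + 1 ∧ TIP.Sc k' (n + 2 * i) := by
      have h3 : (n : ℝ) ≤ ((n + 2 * i : ℕ) : ℝ) := by exact_mod_cast Nat.le_add_right _ _
      rcases lt_or_ge (((n + 2 * i : ℕ) : ℝ)) (PW.mZ (2 ^ (k + 1))) with h4 | h4
      · exact ⟨k, le_rfl, Nat.le_succ k, hsc.1.trans h3, h4⟩
      · refine ⟨k + 1, Nat.le_succ k, le_rfl, h4, ?_⟩
        have h5 := mz_low (k + 1) 1
        have h6 := hsc.2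
        rw [pow_one] at h5
        have h7 : ((n + 2 * i : ℕ) : ℝ) ≤ 2 * n := by
          have : n + 2 * i ≤ 2 * n := by omega
          exact_mod_cast this
        calc ((n + 2 * i : ℕ) : ℝ) ≤ 2 * n := h7
          _ < 2 * PW.mZ (2 ^ (k + 1)) := by linarith
          _ ≤ _ := h5
    have h8 := hO k' (n + 2 * i) (by omega) hsc' H hH1 (Rb_mono (by omega) (Rb_le (min_le_left _ _) hH))
    have e : n + h = n + 2 * i + 1 := by omega
    rw [e]
    have e2 : Eu (n + 2 * i + 1) H - Eu n H = (Eu (n + 2 * i + 1) H - Eu (n + 2 * i) H) + (Eu (n + 2 * i) H - Eu n H) := by ring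
    rw [e2]
    refine (abs_add_le _ _).trans ?_
    linarith

end BCO

end HexObs
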