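import Pool.Agent.TSW.Res

/-!
TSW: the laws `alaw Q N` are tight if the laws `ylaw Q k` are (helper14)
-/

set_option autoImplicit false

open MeasureTheory Filter Topology ENNReal
open scoped Classical

namespace Pool.Agent.TSW

lemma tight_alaw {Q : Measure (ℤ → Bool)} (h : IsTightMeasureSet {μ | ∃ k : ℕ, 1 ≤ k ∧ μ = ylaw Q k}) :
    IsTightMeasureSet {μ | ∃ N : ℕ, 1 ≤ N ∧ μ = alaw Q N} := by
  rw [isTightMeasureSet_iff_exists_isCompact_measure_compl_le] at h ⊢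
  intro ε hε
  obtain ⟨K, hK, hb⟩ := h ε hε
  refine ⟨K, hK, ?_⟩
  rintro μ ⟨N, hN, rfl⟩
  unfold alaw
  have h1 : ∀ k ∈ Finset.Icc 1 N, (k : ℝ≥0∞)⁻¹ * ylaw Q k Kᶜ ≤ (k : ℝ≥0∞)⁻¹ * ε := by
    intro k hk
    rw [Finset.mem_Icc] at hk
    gcongr
    exact hb _ ⟨k, hk.1, rfl⟩
  have h2 : ∑ k ∈ Finset.Icc 1 N, (k : ℝ≥0∞)⁻¹ ≠ 0 := by
    intro h0
    rw [Finset.sum_eq_zero_iff] at h0
    have h3 := h0 1 (Finset.mem_Icc.2 ⟨le_refl 1, hN⟩)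
    simp at h3
  have h4 : ∑ k ∈ Finset.Icc 1 N, (k : ℝ≥0∞)⁻¹ ≠ ∞ := by
    refine (ENNReal.sum_lt_top.2 fun k hk => ?_).ne
    rw [Finset.mem_Icc] at hk
    rw [ENNReal.inv_lt_top]
    exact_mod_cast hk.1
  simp only [Measure.smul_apply, Measure.finsetSum_apply, smul_eq_mul]
  calc (∑ k ∈ Finset.Icc 1 N, (k : ℝ≥0∞)⁻¹)⁻¹ * ∑ k ∈ Finset.Icc 1 N, (k : ℝ≥0∞)⁻¹ * ylaw Q k Kᶜ
      ≤ (∑ k ∈ Finset.Icc 1 N, (k : ℝ≥0∞)⁻¹)⁻¹ * ∑ k ∈ Finset.Icc 1 N, (k : ℝ≥0∞)⁻¹ * ε := by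
        gcongr with k hk
        exact hb _ ⟨k, (Finset.mem_Icc.1 hk).1, rfl⟩
    _ = ε := by
        rw [← Finset.sum_mul, ← mul_assoc, ENNReal.inv_mul_cancel h2 h4, one_mul]

end Pool.Agent.TSW
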