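import Pool.Agent.TSW.All1
import Pool.Agent.TSW.StE
import Pool.Agent.TSW.TightA
import Pool.Agent.TSW.BC1O
import Pool.Agent.TSW.BC1W
import Pool.Agent.TSW.BC1Pub
import Pool.Agent.CRT.All

/-!
# TSW: assembly with the bulk coupling, the open row BC3 as hypothesis (helper14)
-/

set_option autoImplicit false

open MeasureTheory Filter Topology

namespace Pool.Agent.TSW

theorem bc1 : BC1 := BP.bc1_of (wordT_of HexObs.BCO.slowAll)

/-- all rows but BC3 are theorems -/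
theorem two_sided_g (h3 : ∀ Q, QOk Q → BC3 Q) :
    ∃ Q, StA Q ∧ StB Q ∧ StC Q ∧ StD Q ∧ StE Q ∧ StF Q :=
  two_sided_f (fun _ hQ => E.stE_of Pool.Agent.CRT.regSz exR hQ (stC ⟨hQ.1.1, hQ.2⟩)) bc1 h3

end Pool.Agent.TSW
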