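import Pool.Agent.PW.TipNF
import Pool.Agent.TIW.InsA
import Pool.Agent.NTS.MergeW

/-!
TSW, bulk coupling, row B1 (helper84), one step: **`tipS`**: the tip theorem `tipN_of` (helper45) for functionals `q` of the tip
without a robust function with the same sums; instead of it the sums of `Φ q` change slowly with the number of letters. For
`q` = the vertex ahead is free: `innQ_ah`.
-/

set_option autoImplicit false

namespace HexObs

namespace PWN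

open Finset TS SDN TIW SLW SLW.TW RM

/-- the passage from the words with n letters to the plane ensemble -/
lemma slow_AA {Lg : ℝ} {g : ℝ → ℝ} (hg : Bump Lg g) {c2 n : ℕ} (hs : ∀ u, 1 + 1 / 2 ^ c2 < u → g u = 0) (hn : 1 ≤ n)
    {F : List Bool → ℝ} (hF1 : ∀ t, |F t| ≤ 1) {δ : ℝ} (hδ0 : 0 < δ) (hδ2 : δ ≤ 1 / 2)
    (hF : ∀ h : ℕ, Even h → h * 2 ^ c2 ≤ n →
      |xc ^ (n + h) * ∑ t ∈ sawF (n + h), F t - xc ^ n * ∑ t ∈ sawF n, F t| ≤ δ * (cS n * xc ^ n))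
    (h1 : ∀ h : ℕ, Even h → h * 2 ^ c2 ≤ n →
      |xc ^ (n + h) * ∑ _t ∈ sawF (n + h), (1 : ℝ) - xc ^ n * ∑ _t ∈ sawF n, (1 : ℝ)| ≤ δ * (cS n * xc ^ n)) :
    |∑ t ∈ AAF n, pA g n t * F t - MA g n * ((∑ t ∈ sawF n, F t) / cS n)| ≤ 4 * δ * MA g n := by
  have ha : 0 < (cS n * xc ^ n : ℝ) := by
    have h1 : (0 : ℝ) < cS n := by exact_mod_cast TOG.cS_pos n
    exact mul_pos h1 (pow_pos xc_pos _)
  have hc : (0 : ℝ) < cS n := by exact_mod_cast TOG.cS_pos n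
  have hW := WA_nonneg hg n
  have h1' := AA_near hg hs hn (F := F) hF
  have h2 := AA_near hg hs hn (F := fun _ => 1) h1
  have e1 : ∑ t ∈ AAF n, pA g n t * 1 = MA g n := by
    unfold MA
    exact sum_congr rfl fun t _ => mul_one _
  have e2 : xc ^ n * ∑ _t ∈ sawF n, (1 : ℝ) = cS n * xc ^ n := by
    rw [sum_const, nsmul_eq_mul, SLW.card_sawF]
    ring
  rw [e1, e2] at h2
  obtain ⟨m, hm⟩ : ∃ m : ℝ, m = (∑ t ∈ sawF n, F t) / cS n := ⟨_, rfl⟩
  have hm1 : |m| ≤ 1 := by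
    rw [hm, abs_div, abs_of_pos hc, div_le_one hc]
    refine (abs_sum_le_sum_abs _ _).trans ?_
    calc ∑ t ∈ sawF n, |F t| ≤ ∑ _t ∈ sawF n, (1 : ℝ) := sum_le_sum fun t _ => hF1 t
      _ = cS n := by rw [sum_const, nsmul_eq_mul, SLW.card_sawF, mul_one]
  have e3 : xc ^ n * ∑ t ∈ sawF n, F t = m * (cS n * xc ^ n) := by
    rw [hm]
    field_simp
  rw [e3] at h1'
  rw [← hm]
  have h3 := abs_le.1 h1'
  have h4 := abs_le.1 h2
  have h5 := abs_le.1 hm1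
  -- the mass
  have h6 : WA g n * (cS n * xc ^ n) ≤ 2 * MA g n := by nlinarith [mul_nonneg hW ha.le]
  have h7 : |∑ t ∈ AAF n, pA g n t * F t - MA g n * m| ≤ 2 * (δ * (WA g n * (cS n * xc ^ n))) := by
    have h8 : |(WA g n * (cS n * xc ^ n) - MA g n) * m| ≤ WA g n * (δ * (cS n * xc ^ n)) := by
      rw [abs_mul, abs_sub_comm]
      exact (mul_le_mul h2 hm1 (abs_nonneg _) ((abs_nonneg _).trans h2)).trans (le_of_eq (mul_one _))
    have e4 : ∑ t ∈ AAF n, pA g n t * F t - MA g n * m =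
        (∑ t ∈ AAF n, pA g n t * F t - WA g n * (m * (cS n * xc ^ n))) + (WA g n * (cS n * xc ^ n) - MA g n) * m := by ring
    rw [e4]
    refine (abs_add_le _ _).trans ((add_le_add h1' h8).trans (le_of_eq ?_))
    ring
  refine h7.trans ?_
  have h9 : 0 ≤ MA g n := MA_nonneg hg n
  calc 2 * (δ * (WA g n * (cS n * xc ^ n))) ≤ 2 * (δ * (2 * MA g n)) := by
        refine mul_le_mul_of_nonneg_left (mul_le_mul_of_nonneg_left h6 hδ0.le) (by norm_num)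
    _ = 4 * δ * MA g n := by ring

/-- the vertex ahead is free: an inner functional of the levels of the trivial chains -/
theorem innQ_ah {M : ℕ} {lv : ℕ → ℕ} (h : ∀ i, i < M → 6 ≤ lv i) :
    InnQ M lv 0 (fun _ => {[]}) (fun t => TIP.ind (t ∈ OneS.Ah)) := by
  classical
  intro i hi θ t ht
  unfold NW
  rw [mul_sum]
  refine sum_congr rfl fun p hp => ?_
  rw [mem_filter] at hp
  rcases eq_or_ne (chi (2 ^ lv i) (t.drop p.2)) 0 with h0 | h0
  · rw [h0]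
    ring
  · obtain ⟨hp1, h1, h2, h3, h4⟩ := hp
    have h5 : ((t.take p.2).drop p.1).length = 0 := by
      rw [Set.mem_singleton_iff.1 h3]
      rfl
    rw [List.length_drop, List.length_take] at h5
    rw [Finset.mem_product, mem_range, mem_range] at hp1
    have h6 : p.1 = p.2 := by omega
    have h7 : t.take p.1 ∈ Fe (2 * 2 ^ lv i) := by
      intro j hj hj2
      have h8 := h2 j hj hj2
      rw [add_zero] at h8
      refine le_trans ?_ h8
      push_cast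
      have : (0 : ℤ) ≤ 2 ^ lv i := by positivity
      linarith
    have h9 : TIP.ind (t.take p.1 ++ t.drop p.2 ∈ OneS.Ah) = TIP.ind (t.drop p.2 ∈ OneS.Ah) := by
      refine TIP.ind_congr (inside_ah ?_ _ _ h7 ?_ ?_ h0)
      · calc 64 = 2 ^ 6 := by norm_num
          _ ≤ 2 ^ lv i := Nat.pow_le_pow_right (by norm_num) (h i hi)
      · exact h4.1
      · rw [h6, List.take_append_drop]
        exact ht
    rw [h6, List.take_append_drop] at h9
    beta_reduce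
    rw [h9]
    ring

/-- the sums of `Φ` change slowly with an even number of letters -/
def SlowS (δ : ℝ) (c2 n : ℕ) (Φ : List Bool → ℝ) : Prop := ∀ h : ℕ, Even h → h * 2 ^ c2 ≤ n →
  |xc ^ (n + h) * ∑ t ∈ sawF (n + h), Φ t - xc ^ n * ∑ t ∈ sawF n, Φ t| ≤ δ * (cS n * xc ^ n)

/-- **the tip of the walk with `n` steps**: instead of a robust function with the sums of `Φ q`, the slow change of these sums -/
theorem tipS {Lg : ℝ} {g : ℝ → ℝ} (hg : Bump Lg g) {u : ℝ} (hu : g u = 1) : ∀ ε : ℝ, 0 < ε → ∃ τ : ℝ, 0 < τ ∧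
    ∀ c1 : ℕ, ∃ c20 : ℕ, ∀ c2 : ℕ, c20 ≤ c2 → ∃ C1 : ℕ, ∀ C0 C : ℕ, C1 ≤ C0 → C0 + C1 ≤ C → ∃ k0 : ℕ,
      ∀ k n k' n' : ℕ, k0 ≤ k' → k' ≤ k → TIP.Sc k n → TIP.Sc k' n' → ∀ q Φ er G : List Bool → ℝ,
        (∀ t, |q t| ≤ 1) → (∀ t, |Φ t| ≤ 1) → (∀ t, |G t| ≤ 1) →
        (∀ (M : ℕ) (lv : ℕ → ℕ), (∀ i, i < M → k' - C + 8 ≤ lv i) → InnQ M lv 0 (fun _ => {[]}) q) →
        Rob (2 ^ (k' - C0)) Φ er → (∀ t, 0 ≤ er t) →
        (∀ m, n ≤ m → m ≤ 2 * n → ∑ t ∈ sawF m, er t ^ 2 ≤ τ ^ 2 * cS m) →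
        (∀ m, ∑ t ∈ sawF m, G t = ∑ t ∈ sawF m, Φ t) → SRob (k - c1) τ G →
        SlowS (min (ε / 16) (1 / 2)) c2 n (fun t => Φ t * q t) →
        |(∑ t ∈ sawF n, Φ t * q t) / cS n - EA g n' q * En n G| ≤ ε := by
  have hA := aReg
  have hF := slowF
  have hS := smallN
  intro ε hε
  obtain ⟨ε', hε'⟩ : ∃ ε' : ℝ, ε' = min ε 1 / 64 := ⟨_, rfl⟩
  have hm0 : 0 < min ε 1 := lt_min hε one_pos
  have hε0 : 0 < ε' := by rw [hε']; positivity
  have hε1 : ε' ≤ ε / 64 := by rw [hε']; exact div_le_div_of_nonneg_right (min_le_left _ _) (by norm_num)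
  have hε2 : ε' ≤ 1 / 64 := by rw [hε']; exact div_le_div_of_nonneg_right (min_le_right _ _) (by norm_num)
  obtain ⟨Cm, hCm, hMom⟩ := momA (momU hA)
  obtain ⟨D, hD1, hD⟩ := UT_low
  obtain ⟨c, hc, hS⟩ := hS (ε' / 4) (by positivity)
  obtain ⟨M0, hS⟩ := hS 1 0 one_pos
  obtain ⟨B, hB⟩ : ∃ B : ℝ, B = (Cm * (D ^ 0 / 1)) ^ 2 := ⟨_, rfl⟩
  have hB0 : 0 ≤ B := by rw [hB]; positivity
  obtain ⟨M1, hM1⟩ := exists_nat_gt (4 * B / (c ^ 2 * ε'))
  obtain ⟨M, hMdef⟩ : ∃ M : ℕ, M = M0 + M1 + 1 := ⟨_, rfl⟩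
  have hM : 1 ≤ M := by omega
  have hMr : (0 : ℝ) < M := by exact_mod_cast (by omega : 0 < M)
  have hBM : B / (c ^ 2 * M) ≤ ε' / 4 := by
    have h1 : 4 * B / (c ^ 2 * ε') ≤ M := hM1.le.trans (by exact_mod_cast (by omega : M1 ≤ M))
    rw [div_le_iff₀ (by positivity)] at h1
    rw [div_le_iff₀ (by positivity)]
    nlinarith
  obtain ⟨s0, hS⟩ := hS M (by omega)
  obtain ⟨s1, hs1⟩ := pow_unbounded_of_one_lt (512 * B / (c ^ 2 * ε')) (one_lt_two : (1 : ℝ) < 2)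
  obtain ⟨s', hs'⟩ : ∃ s' : ℕ, s' = s0 + s1 + 8 := ⟨_, rfl⟩
  have hBs : 128 * B / (2 ^ s' * c ^ 2) ≤ ε' / 4 := by
    have h1 : 512 * B / (c ^ 2 * ε') ≤ 2 ^ s' := hs1.le.trans (pow_le_pow_right₀ (by norm_num) (by omega))
    rw [div_le_iff₀ (by positivity)] at h1
    rw [div_le_iff₀ (by positivity)]
    nlinarith
  obtain ⟨c0, l0, hS⟩ := hS s' (by omega)
  obtain ⟨τ1, hτ1, hslow⟩ := slowA hF (ε / 4) (by positivity)
  obtain ⟨δ, hδ⟩ : ∃ δ : ℝ, δ = min (ε / 16) (1 / 2) := ⟨_, rfl⟩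
  have hδ0 : 0 < δ := by rw [hδ]; exact lt_min (by positivity) (by norm_num)
  have hδ1 : δ ≤ ε / 16 := by rw [hδ]; exact min_le_left _ _
  have hδ2 : δ ≤ 1 / 2 := by rw [hδ]; exact min_le_right _ _
  obtain ⟨τ2, hτ2, hone⟩ := hF δ hδ0
  obtain ⟨τ, hτdef⟩ : ∃ τ : ℝ, τ = min τ1 (ε' * c / (B + 1)) := ⟨_, rfl⟩
  have hτ0 : 0 < τ := by rw [hτdef]; exact lt_min hτ1 (by positivity)
  have hττ : τ ≤ τ1 := by rw [hτdef]; exact min_le_left _ _
  have hτB : τ * (B + 1) ≤ ε' * c := by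
    have h1 : τ ≤ ε' * c / (B + 1) := by rw [hτdef]; exact min_le_right _ _
    rwa [le_div_iff₀ (by positivity)] at h1
  refine ⟨τ, hτ0, fun c1 => ?_⟩
  obtain ⟨c2', k2, hslow⟩ := hslow c1
  obtain ⟨c2'', k3, hone⟩ := hone 0
  refine ⟨c2' + c2'', fun c2 hc2 => ?_⟩
  obtain ⟨Ca, la, hCa, hLa⟩ := levAe hA hg hu
  obtain ⟨Cb, lb, hCb, hLb⟩ := levAe hA (tent_bump c2) (tent_one c2)
  obtain ⟨ka, hka⟩ := MA_pos hA hg hu
  obtain ⟨kb, hkb⟩ := MA_pos hA (tent_bump c2) (tent_one c2)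
  obtain ⟨β, hβdef⟩ : ∃ β : ℝ, β = ε' * c / 4 := ⟨_, rfl⟩
  have hβ0 : 0 < β := by rw [hβdef]; positivity
  obtain ⟨j, hj⟩ := pow_unbounded_of_one_lt ((Ca + Cb) / β) (one_lt_two : (1 : ℝ) < 2)
  rw [div_lt_iff₀ hβ0] at hj
  refine ⟨c0 + j + 9 + 3 * M * s', fun C0 C hC0 hC => ⟨C + l0 + la + lb + k2 + k3 + ka + kb, ?_⟩⟩
  intro k n k' n' hk0 hk' hSc hSc' q Φ er G hq hΦ hG1 hInn hfar her0 her2 hGΦ hGr hSl
  -- the levels
  obtain ⟨lv, hlv⟩ : ∃ lv : ℕ → ℕ, lv = fun i => k' - C + 8 + i * s' := ⟨_, rfl⟩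
  have hlv' : ∀ i, lv i = k' - C + 8 + i * s' := fun i => by rw [hlv]
  have hlow : ∀ i, k' - C + 8 ≤ lv i := fun i => by rw [hlv']; exact Nat.le_add_right _ _
  have htop : ∀ i, i < 3 * M → lv i + C0 + c0 + j + 1 ≤ k' := by
    intro i hi
    have h1 : i * s' + s' ≤ 3 * M * s' := by
      calc i * s' + s' = (i + 1) * s' := by ring
        _ ≤ 3 * M * s' := Nat.mul_le_mul_right _ hi
    rw [hlv']
    omega
  have hgap : ∀ i j, i < j → j < 3 * M → lv i + 0 + s' ≤ lv j := by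
    intro i j' hij _
    have h1 : i * s' + s' ≤ j' * s' := by
      calc i * s' + s' = (i + 1) * s' := by ring
        _ ≤ j' * s' := Nat.mul_le_mul_right _ hij
    rw [hlv', hlv']
    omega
  obtain ⟨Ch, hCh⟩ : ∃ Ch : ℕ → Set (List Bool), Ch = fun _ => {[]} := ⟨_, rfl⟩
  have hLv : LvS (3 * M) lv 0 s' 1 Ch := ⟨hgap, fun i _ => by rw [hCh]; exact chn_nil _,
    fun i _ => by rw [hCh]; exact wD_nil.ge⟩
  have hll : l0 + la + lb ≤ k' - C + 8 := by omega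
  -- the small sums at every number of letters of the window
  have hsm : ∀ (k1 n1 : ℕ), k' ≤ k1 → TIP.Sc k1 n1 → ∀ m, n1 ≤ m → m ≤ 2 * n1 → ∀ e : ℕ → ℕ, (∀ j, j < M → e j < 3 * M) →
      (∀ i j, i < j → j < M → e i < e j) → ∑ t ∈ sawF m, smI c (fun j => N0 (lv (e j)) (lv (e j) + 0) (Ch (e j)) t /
        UT (lv (e j)) (lv (e j) + 0) (Ch (e j)) / M) M ≤ ε' / 4 * cS m := by
    intro k1 n1 hk1 hSc1 m hm1 _ e he1 he2
    obtain ⟨k3, hk3, hSc3⟩ := sc_ex (k := k1) (n := m) (hSc1.1.trans (by exact_mod_cast hm1))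
    refine hS k3 m (fun j => lv (e j)) (fun j => Ch (e j)) hSc3 (hLv.sub he1 he2) ?_ fun i hi => ?_
    · have := hlow (e 0)
      show l0 ≤ lv (e 0)
      omega
    · have := htop (e i) (he1 i hi)
      show lv (e i) + 0 + c0 ≤ k3
      omega
  have hMA : 0 < MA g n' := hka k' n' (by omega) hSc'.1
  have hMB : 0 < MA (tent c2) n := hkb k n (by omega) hSc.1
  have hn1 : 1 ≤ n := by
    by_contra h
    have h1 : n = 0 := by omega
    have h2 := hSc.1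
    rw [h1, Nat.cast_zero] at h2
    exact absurd h2 (not_le.2 (NTA.mlow_M.pos k))
  have hEA := ensA (c := c) (x := ε' / 4) (M := M) hMom hg hD hCm one_pos hLv hMA (hsm k' n' le_rfl hSc')
  have hEB := ensA (c := c) (x := ε' / 4) (M := M) hMom (tent_bump c2) hD hCm one_pos hLv hMB (hsm k n hk' hSc)
  have hLA := levEA (β := β) hg hCa hLa hD1 hD hSc' one_pos hLv (fun i _ => by have := hlow i; omega)
    (fun i hi => by have := htop i hi; omega) (fun i hi => by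
      have h1 := htop i hi
      have h2 : (2 : ℝ) ^ j ≤ 2 ^ (k' - lv i) := pow_le_pow_right₀ (by norm_num) (by omega)
      have h3 : Ca ≤ 2 ^ j * β := by linarith
      calc Ca * (D ^ 0 / 1) = Ca := by rw [pow_zero, div_one, mul_one]
        _ ≤ 2 ^ j * β := h3
        _ ≤ 2 ^ (k' - lv i) * β := mul_le_mul_of_nonneg_right h2 hβ0.le
        _ = β * 2 ^ (k' - lv i) := by ring) hq
  have hLB := levEA (β := β) (tent_bump c2) hCb hLb hD1 hD hSc one_pos hLv (fun i _ => by have := hlow i; omega)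
    (fun i hi => by have := htop i hi; omega) (fun i hi => by
      have h1 := htop i hi
      have h2 : (2 : ℝ) ^ j ≤ 2 ^ (k - lv i) := pow_le_pow_right₀ (by norm_num) (by omega)
      have h3 : Cb ≤ 2 ^ j * β := by linarith
      calc Cb * (D ^ 0 / 1) = Cb := by rw [pow_zero, div_one, mul_one]
        _ ≤ 2 ^ j * β := h3
        _ ≤ 2 ^ (k - lv i) * β := mul_le_mul_of_nonneg_right h2 hβ0.le
        _ = β * 2 ^ (k - lv i) := by ring) hq
  have hIQ : InnQ (3 * M) lv 0 Ch q := by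
    rw [hCh]
    exact hInn (3 * M) lv fun i _ => hlow i
  have hAm : ∑ t ∈ AAF n', pA g n' t = MA g n' := rfl
  have e2 : (2 * (64 / 2 ^ s' * B / c) + β) / c = 128 * B / (2 ^ s' * c ^ 2) + β / c := by
    field_simp
    ring
  have hβc : β / c = ε' / 4 := by
    rw [hβdef]
    field_simp
  have hτc : τ * (B + 1) / c ≤ ε' := by
    rw [div_le_iff₀ hc]
    exact hτB
  have hT := T_tip (r0 := 2 ^ (k' - C0)) (er := er) (τ := τ) (ε' := ε') (err := ε / 2) hgap (by omega : 8 ≤ s') hM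
    (fun i hi => Nat.pow_le_pow_right (by norm_num) (by have := htop i hi; omega)) hEA hAm hLA hEB hLB hβ0.le hq hIQ
    hc hc hε0 (by
      rw [← hB, e2, hβc]
      linarith) (by linarith) hτ0.le hΦ hfar her0 (by
      rw [mul_one]
      exact AA_le' (tent_bump c2) her2) (by
      rw [← hB]
      have e3 : (τ * (B + 1) + 2 * (64 / 2 ^ s' * B / c) + β) / c =
          τ * (B + 1) / c + (2 * (64 / 2 ^ s' * B / c) + β) / c := by ring
      rw [e3, e2, hβc]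
      have h1 : ε' / 4 + B / (c ^ 2 * M) ≤ 1 := by linarith
      have h2 : 4 * ε' * (1 + (ε' / 4 + B / (c ^ 2 * M))) ≤ 4 * ε' * 2 :=
        mul_le_mul_of_nonneg_left (by linarith) (by positivity)
      linarith)
  -- the exact number of letters
  rw [← hδ] at hSl
  have hpw : ∀ h : ℕ, h * 2 ^ c2 ≤ n → h * 2 ^ c2'' ≤ n := fun h hh =>
    (Nat.mul_le_mul_left h (Nat.pow_le_pow_right (by norm_num) (by omega))).trans hh
  have hsF := slow_AA (tent_bump c2) (c2 := c2) (n := n) (fun v hv => tent_hi hv) hn1 (F := fun t => Φ t * q t)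
    (fun t => by
      rw [abs_mul]
      exact mul_le_one₀ (hΦ t) (abs_nonneg _) (hq t)) hδ0 hδ2 hSl
    (fun h hh hq => hone k n h (by omega) hSc hh (hpw h hq) (fun _ => 1) (fun _ => by rw [abs_one])
      (fun _ _ _ _ => by rw [sub_self, abs_zero]; exact hτ2.le))
  have hsG := hslow k n (by omega) hn1 hSc _ (tent c2) (tent_bump c2) (fun v hv => tent_hi (lt_of_le_of_lt (by
      have h1 : (2 : ℝ) ^ c2' ≤ 2 ^ c2 := pow_le_pow_right₀ (by norm_num) (by omega)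
      have h2 : (1 : ℝ) / 2 ^ c2 ≤ 1 / 2 ^ c2' := one_div_le_one_div_of_le (by positivity) h1
      linarith) hv)) G hG1
    (fun A Y hAY hY => (hGr A Y hAY hY).trans hττ)
  rw [AA_congr (fun m => hGΦ m) n] at hsG
  have hq1 := EA_abs hg hMA hq
  obtain ⟨x, hx⟩ : ∃ x, x = ∑ t ∈ AAF n, pA (tent c2) n t * (Φ t * q t) := ⟨_, rfl⟩
  obtain ⟨y, hy⟩ : ∃ y, y = ∑ t ∈ AAF n, pA (tent c2) n t * Φ t := ⟨_, rfl⟩
  obtain ⟨a, ha⟩ : ∃ a, a = EA g n' q := ⟨_, rfl⟩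
  have ha' : (∑ t ∈ AAF n', pA g n' t * q t) / MA g n' = a := by rw [ha]; rfl
  obtain ⟨b1, hb1⟩ : ∃ b, b = (∑ t ∈ sawF n, Φ t * q t) / cS n := ⟨_, rfl⟩
  obtain ⟨b2, hb2⟩ : ∃ b, b = En n G := ⟨_, rfl⟩
  have hb2' : (∑ t ∈ sawF n, G t) / cS n = b2 := by rw [hb2]; rfl
  rw [ha', ← hx, ← hy] at hT
  have hx' : ∑ t ∈ AAF n, pA (tent c2) n t * (fun t => Φ t * q t) t = x := hx.symm
  have hb1' : (∑ t ∈ sawF n, (fun t => Φ t * q t) t) / cS n = b1 := hb1.symm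
  rw [hb1', hx'] at hsF
  rw [hb2', ← hy] at hsG
  rw [← ha] at hq1 ⊢
  rw [← hb1, ← hb2]
  obtain ⟨m, hm⟩ : ∃ m, m = MA (tent c2) n := ⟨_, rfl⟩
  rw [← hm] at hT hsF hsG hMB
  have h1 : |m * (b1 - a * b2)| ≤ ε * m := by
    have e4 : m * (b1 - a * b2) = -(x - m * b1) + (x - a * y) + a * (y - m * b2) := by ring
    rw [e4]
    have h2 : |a * (y - m * b2)| ≤ ε / 4 * m := by
      rw [abs_mul]
      calc |a| * |y - m * b2| ≤ 1 * (ε / 4 * m) := mul_le_mul hq1 hsG (abs_nonneg _) zero_le_one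
        _ = ε / 4 * m := one_mul _
    have h3 := abs_add_le (-(x - m * b1) + (x - a * y)) (a * (y - m * b2))
    have h4 := abs_add_le (-(x - m * b1)) (x - a * y)
    rw [abs_neg] at h4
    have h5 : 4 * δ * m ≤ ε / 4 * m := mul_le_mul_of_nonneg_right (by linarith) hMB.le
    linarith
  rw [abs_mul, abs_of_pos hMB, mul_comm] at h1
  exact le_of_mul_le_mul_right h1 hMB

end PWN

end HexObs
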