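import Pool.Agent.TSW.LayB
import Pool.Agent.TSW.LayA

/-!
# TSW, bulk coupling (doc next/46f0ca_14b), row B3 (helper94): the mean over a macroscopic interval of the windows

* `dens_Q`: all the densities at once, uniform in the length m of the windows and in the set S of the patterns;
* **`bc2`**: for `m ≤ δ n`, `θ n ≤ h`: `E_n |(1 / h) ∑_{u < h} 1[seen s (k + u) ∈ cyl (-m) S] - Q (cyl (-m) S)| ≤ ε`.
-/

set_option autoImplicit false

open MeasureTheory Filter Topology ENNReal
open scoped Classical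

namespace Pool.Agent.TSW

open Pool.Agent.NTS.Res

variable {Q : Measure (ℤ → Bool)}

/-- **the densities, uniform in the windows** -/
theorem dens_Q (hQ : QD Q) {ε : ℝ} (hε : 0 < ε) : ∃ R : ℕ, ∀ (m : ℕ) (S : Set (Fin m → Bool)) (a0 : ℤ) (n : ℕ),
    R * (m + 1) ≤ n → (((saw n).filter fun s => ∃ a b : ℕ, a ≤ b ∧ b ≤ n ∧
      ε * n < |(hits s S a b : ℝ) - Q.real (cyl a0 S) * ((b : ℝ) - a)|).card : ℝ) ≤ ε * (saw n).card := by
  obtain ⟨c, C, j0, ρ, -, -, -, h2⟩ := dens_all exR
  have hρ : ∀ (m : ℕ) (S : Set (Fin m → Bool)) (a0 : ℤ), Q.real (cyl a0 S) = ρ m (fun x => if x ∈ S then 1 else 0) := by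
    intro m S a0
    refine (hQ.den m S a0).unique fun ε hε => ?_
    obtain ⟨R, hR⟩ := h2 ε hε
    filter_upwards [Filter.eventually_ge_atTop (R * (m + 1))] with n hn
    refine hR m _ (ind_bd S) n hn _ fun s => ?_
    simp only [hits_eq]
  obtain ⟨R, hR⟩ := h2 ε hε
  refine ⟨R, fun m S a0 n hn => ?_⟩
  refine hR m _ (ind_bd S) n hn _ fun s => ?_
  rw [hρ]
  simp only [hits_eq]

variable {n k m h : ℕ}

/-- the windows around the steps of an interval -/
lemma sum_seen (s : Fin n → Fin 3) (hk : m ≤ k) (hn : k + h + m ≤ n) (S : Set (Fin (2 * m) → Bool)) :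
    ∑ u ∈ Finset.range h, (if seen s (k + u) ∈ cyl (-(m : ℤ)) S then (1 : ℝ) else 0) = hits s S (k - m) (k - m + h) := by
  unfold hits
  rw [Finset.card_filter]
  have h2 := Finset.sum_Ico_add' (fun i => if (i + 2 * m < n ∧ (fun j : Fin (2 * m) => turn s (i + j)) ∈ S) then (1 : ℝ) else 0)
    0 h (k - m)
  rw [zero_add, add_comm h (k - m)] at h2
  push_cast
  rw [← h2, Finset.range_eq_Ico]
  refine Finset.sum_congr rfl fun u hu => ?_
  rw [Finset.mem_Ico] at hu
  have h3 := seen_cyl s (i := k + u) (a := -(m : ℤ)) (by push_cast; omega) S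
  have h4 : (((k + u : ℕ) : ℤ) + -(m : ℤ)).toNat = u + (k - m) := by
    push_cast
    omega
  rw [h4] at h3
  by_cases h5 : seen s (k + u) ∈ cyl (-(m : ℤ)) S
  · rw [if_pos h5, if_pos ⟨by omega, h3.1 h5⟩]
  · rw [if_neg h5, if_neg fun h6 => h5 (h3.2 h6.2)]

/-- the mean of a function which is small outside of a small set of walks -/
lemma mean_le_of {g : (Fin n → Fin 3) → ℝ} {P : (Fin n → Fin 3) → Prop} {x y : ℝ} (hx : 0 ≤ x)
    (h1 : ∀ s ∈ saw n, ¬ P s → g s ≤ x) (h2 : ∀ s ∈ saw n, g s ≤ 1)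
    (h3 : (((saw n).filter P).card : ℝ) ≤ y * (saw n).card) :
    (∑ s ∈ saw n, g s) / ((saw n).card : ℝ) ≤ x + y := by
  have hc : (0 : ℝ) < (saw n).card := by exact_mod_cast (NTSF.saw_nonempty n).card_pos
  rw [div_le_iff₀ hc]
  have h4 : ∀ s ∈ saw n, g s ≤ x + (if P s then 1 else 0) := by
    intro s hs
    by_cases hP : P s
    · rw [if_pos hP]
      linarith [h2 s hs]
    · rw [if_neg hP, add_zero]
      exact h1 s hs hP
  calc ∑ s ∈ saw n, g s ≤ ∑ s ∈ saw n, (x + (if P s then 1 else 0)) := Finset.sum_le_sum h4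
    _ = x * (saw n).card + ((saw n).filter P).card := by
      rw [Finset.sum_add_distrib, Finset.sum_const, nsmul_eq_mul, Finset.card_filter]
      push_cast
      ring
    _ ≤ (x + y) * (saw n).card := by linarith

/-- **B3** -/
theorem bc2 (hQ : QD Q) {ε θ : ℝ} (hε : 0 < ε) (hθ : 0 < θ) : ∃ δ : ℝ, 0 < δ ∧ ∀ n k m h : ℕ, (m : ℝ) ≤ δ * n →
    m ≤ k → k + h + m ≤ n → 0 < h → θ * n ≤ h → ∀ S : Set (Fin (2 * m) → Bool),
    (∑ s ∈ saw n, |(∑ u ∈ Finset.range h, if seen s (k + u) ∈ cyl (-(m : ℤ)) S then (1 : ℝ) else 0) / h -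
      Q.real (cyl (-(m : ℤ)) S)|) / ((saw n).card : ℝ) ≤ ε := by
  have := hQ.prob
  obtain ⟨e, he⟩ : ∃ e : ℝ, e = ε * min θ 1 / 2 := ⟨_, rfl⟩
  have hmin : 0 < min θ 1 := lt_min hθ one_pos
  have he0 : 0 < e := by
    rw [he]
    positivity
  have he1 : e ≤ ε / 2 := by
    rw [he]
    have := min_le_right θ 1
    nlinarith
  have he2 : e ≤ ε / 2 * θ := by
    rw [he]
    have := min_le_left θ 1
    nlinarith
  obtain ⟨R, hR⟩ := dens_Q hQ he0
  refine ⟨1 / (4 * R + 4), by positivity, fun n k m h hm hk hn hh0 hh S => ?_⟩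
  have hh' : (0 : ℝ) < h := by exact_mod_cast hh0
  have hc : (0 : ℝ) < (saw n).card := by exact_mod_cast (NTSF.saw_nonempty n).card_pos
  rcases Nat.eq_zero_or_pos m with h0 | h0
  · -- no letters
    subst h0
    have key : ∀ x y : Fin (2 * 0) → Bool, x = y := fun x y => by
      funext j
      exact absurd j.2 (by omega)
    have h1 : ∀ s : Fin n → Fin 3, |(∑ u ∈ Finset.range h, if seen s (k + u) ∈ cyl (-((0 : ℕ) : ℤ)) S then (1 : ℝ) else 0) / h -
        Q.real (cyl (-((0 : ℕ) : ℤ)) S)| = 0 := by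
      intro s
      by_cases hS : (fun _ => false) ∈ S
      · have h2 : cyl (-((0 : ℕ) : ℤ)) S = Set.univ := by
          rw [Set.eq_univ_iff_forall]
          intro ω
          rw [mem_cyl]
          have h3 := key (fun j : Fin (2 * 0) => ω (-((0 : ℕ) : ℤ) + j)) fun _ => false
          rw [h3]
          exact hS
        rw [h2]
        simp only [Set.mem_univ, if_true, Finset.sum_const, Finset.card_range, nsmul_eq_mul, mul_one]
        rw [div_self hh'.ne', probReal_univ, sub_self, abs_zero]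
      · have h2 : cyl (-((0 : ℕ) : ℤ)) S = ∅ := by
          rw [Set.eq_empty_iff_forall_notMem]
          intro ω hω
          rw [mem_cyl] at hω
          have h3 := key (fun j : Fin (2 * 0) => ω (-((0 : ℕ) : ℤ) + j)) fun _ => false
          rw [h3] at hω
          exact hS hω
        rw [h2]
        simp
    simp only [h1, Finset.sum_const_zero, zero_div]
    exact hε.le
  -- long walks
  have hRn : R * (2 * m + 1) ≤ n := by
    have h1 : ((4 * R + 4 : ℕ) : ℝ) * m ≤ n := by
      have h2 : (0 : ℝ) < 4 * R + 4 := by positivity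
      have h3 : (4 * (R : ℝ) + 4) * m ≤ (4 * R + 4) * (1 / (4 * R + 4) * n) := mul_le_mul_of_nonneg_left hm h2.le
      have h4 : (4 * (R : ℝ) + 4) * (1 / (4 * R + 4) * n) = n := by
        field_simp
      rw [h4] at h3
      push_cast
      exact h3
    have h2 : (4 * R + 4) * m ≤ n := by exact_mod_cast h1
    calc R * (2 * m + 1) ≤ R * (2 * m + m) := Nat.mul_le_mul_left _ (by omega)
      _ ≤ (4 * R + 4) * m := by nlinarith
      _ ≤ n := h2
  have hbad := hR (2 * m) S (-(m : ℤ)) n hRn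
  have hQ0 : 0 ≤ Q.real (cyl (-(m : ℤ)) S) := measureReal_nonneg
  have hQ1 : Q.real (cyl (-(m : ℤ)) S) ≤ 1 := measureReal_le_one
  refine (mean_le_of (x := ε / 2) (y := e) (by linarith) (fun s _ hs => ?_) (fun s _ => ?_) hbad).trans (by linarith)
  · push Not at hs
    have h1 := hs (k - m) (k - m + h) (by omega) (by omega)
    rw [sum_seen s hk hn S]
    have h2 : ((k - m + h : ℕ) : ℝ) - ((k - m : ℕ) : ℝ) = h := by
      push_cast
      ring
    rw [h2] at h1
    have h3 : (hits s S (k - m) (k - m + h) : ℝ) / h - Q.real (cyl (-(m : ℤ)) S) =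
        ((hits s S (k - m) (k - m + h) : ℝ) - Q.real (cyl (-(m : ℤ)) S) * h) / h := by
      field_simp
    rw [h3, abs_div, abs_of_pos hh', div_le_iff₀ hh']
    have h4 : e * n ≤ ε / 2 * θ * n := mul_le_mul_of_nonneg_right he2 (Nat.cast_nonneg n)
    have h5 : ε / 2 * (θ * n) ≤ ε / 2 * h := mul_le_mul_of_nonneg_left hh (by linarith)
    linarith
  · rw [sum_seen s hk hn S]
    have h1 : (hits s S (k - m) (k - m + h) : ℝ) ≤ h := by
      have h2 := hits_le s S (k - m) (k - m + h)
      have h3 : hits s S (k - m) (k - m + h) ≤ h := by omega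
      exact_mod_cast h3
    have h2 : (hits s S (k - m) (k - m + h) : ℝ) / h ≤ 1 := by
      rw [div_le_one hh']
      exact h1
    have h3 : 0 ≤ (hits s S (k - m) (k - m + h) : ℝ) / h := by positivity
    rw [abs_le]
    constructor <;> linarith

end Pool.Agent.TSW
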