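import Pool.Agent.TSW.BC3Defs
import Pool.Agent.TSW.BCMean
import Pool.Agent.TSW.Geo

/-!
# TSW, bulk coupling (doc next/46f0ca_14b), row B3 (helper94): `bc3 : ∀ Q, QOk Q → BC3 Q`
-/

set_option autoImplicit false

open MeasureTheory Filter Topology ENNReal
open scoped Classical

namespace Pool.Agent.TSW

open Pool.Agent.NTS.Res

/-- **B3** -/
theorem bc3_of {Q : Measure (ℤ → Bool)} (hQ : QD Q) : BC3 Q := by
  intro ε hε
  obtain ⟨R, hR⟩ := dens_Q hQ hε
  refine ⟨1 / (2 * R + 2), by positivity, 2 * R + 2, fun n m hn hm S => hR m S 0 n ?_⟩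
  have h1 : ((2 * R + 2 : ℕ) : ℝ) * m ≤ n := by
    have h2 : (0 : ℝ) < 2 * R + 2 := by positivity
    have h3 : (2 * (R : ℝ) + 2) * m ≤ (2 * R + 2) * (1 / (2 * R + 2) * n) := mul_le_mul_of_nonneg_left hm h2.le
    have h4 : (2 * (R : ℝ) + 2) * (1 / (2 * R + 2) * n) = n := by
      field_simp
    rw [h4] at h3
    push_cast
    exact h3
  have h2 : (2 * R + 2) * m ≤ n := by exact_mod_cast h1
  nlinarith

theorem bc3 : ∀ Q, QOk Q → BC3 Q := fun Q hQ => bc3_of ⟨hQ.1.1, hQ.2⟩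

end Pool.Agent.TSW
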