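import Pool.Agent.TSW.Res

/-!
TSW, bulk coupling (doc next/46f0ca_14b), row B3: the literal (helper41).
-/

set_option autoImplicit false

open MeasureTheory Filter Topology ENNReal
open scoped Classical

namespace Pool.Agent.TSW

open Pool.Agent.NTS.Res

/-- **B3**: the densities, uniformly in the windows of at most `δ n` turns -/
def BC3 (Q : Measure (ℤ → Bool)) : Prop := ∀ ε : ℝ, 0 < ε → ∃ δ : ℝ, 0 < δ ∧ ∃ n0 : ℕ, ∀ n m : ℕ, n0 ≤ n → (m : ℝ) ≤ δ * n →
  ∀ S : Set (Fin m → Bool), (((saw n).filter fun s => ∃ a b : ℕ, a ≤ b ∧ b ≤ n ∧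
    ε * n < |(hits s S a b : ℝ) - Q.real (cyl 0 S) * ((b : ℝ) - a)|).card : ℝ) ≤ ε * (saw n).card

end Pool.Agent.TSW
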