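import Pool.Agent.TSW.BulkW
import Pool.Agent.TSW.Geo

/-!
# TSW, layer B (helper22): most of the windows of k steps have the density ρ

* `first_part` : the windows which start in the first three quarters (transfer principle of helper83);
* **`bulkF_of`** : `RT → TimeF → FK4 → ExR → BulkF`.
-/

set_option autoImplicit false

open Finset

open scoped ENNReal

namespace Pool.Agent.TSW

open HexObs hiding pos turn
open HexObs.NPR HexObs.TS HexObs.TIW HexObs.NTA HexObs.SDN HexObs.TIP
open Pool.Agent.NTS.Res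
open NTF (sw aa de Ed JJ)
open NTSF (rot)

/-- the transfer to the walks, first three quarters -/
theorem first_part (hRT : SSI.RT) (hT : TimeF) (hF : FK4) (h : ExR) {m : ℕ} (S : Set (Fin m → Bool)) {ρ : ℝ}
    (hS : Den S ρ) {ε : ℝ} (hε : 0 < ε) : ∃ k0 : ℕ, ∀ k : ℕ, k0 ≤ k → ∀ᶠ n : ℕ in Filter.atTop,
      ((∑ s ∈ saw n, ((range (3 * n / 4)).filter fun i => ε * k < |(hits s S i (i + k) : ℝ) - ρ * k|).card : ℕ) : ℝ) ≤
        ε * (n * (saw n).card) := by
  classical
  obtain ⟨c, C, j0, ρ', hc, hC, h1, h2⟩ := dens_all h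
  obtain ⟨Φ, hΦd⟩ : ∃ Φ : (Fin m → Bool) → ℝ, Φ = fun x => if x ∈ S then 1 else 0 := ⟨_, rfl⟩
  have hΦ : ∀ x, 0 ≤ Φ x ∧ Φ x ≤ 1 := by
    rw [hΦd]
    exact ind_bd S
  have hden : Den S (ρ' m Φ) := by
    intro e he
    obtain ⟨R, hR⟩ := h2 e he
    filter_upwards [Filter.eventually_ge_atTop (R * (m + 1))] with n hn
    refine hR m Φ hΦ n hn _ fun s => ?_
    rw [hΦd]
    simp only [hits_eq]
  have hρ : ρ = ρ' m Φ := hS.unique hden
  obtain ⟨δ, θ, c0, L0, hδ, hθ, hRT⟩ := hRT (ε / 2) (by linarith)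
  have h3 := (h1 m Φ hΦ).2.2
  rw [← hρ] at h3
  obtain ⟨k0, hk0⟩ := bq_small hT hF hc hC h3 (show 0 < ε / 2 by linarith) hδ hθ L0
  obtain ⟨k1, hk1⟩ := exists_nat_ge (2 * (m : ℝ) / ε)
  refine ⟨k0 + k1, fun k hk => ?_⟩
  obtain ⟨L, hL, hkL, hgf⟩ := hk0 k (by omega)
  have hmk : (m : ℝ) ≤ ε / 2 * k := by
    have h4 : 2 * (m : ℝ) / ε ≤ k := hk1.trans (by exact_mod_cast (show k1 ≤ k by omega))
    rw [div_le_iff₀ hε] at h4
    linarith
  filter_upwards [Filter.eventually_ge_atTop (⌈PW.mZ (2 ^ (L + c0))⌉₊ + 4 * k + 4)] with n hn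
  have hn0 : PW.mZ (2 ^ (L + c0)) ≤ n := (Nat.le_ceil _).trans (by exact_mod_cast (show _ ≤ n by omega))
  obtain ⟨k', hk'⟩ := sc_ex (n := n) ((mz_mono (Nat.zero_le (L + c0))).trans hn0)
  have hLk : L + c0 ≤ k' := by
    by_contra hcon
    have h4 := mz_mono (show k' + 1 ≤ L + c0 by omega)
    have h5 := hk'.2
    linarith
  have h4 := hRT L k (BQ Φ ρ (ε / 2) k) hL hkL hgf k' n hLk hk'
  obtain ⟨f, hf⟩ : ∃ f : (Fin n → Fin 3) → ℕ, f = fun s =>
    ((range (3 * n / 4)).filter fun i => ε * k < |(hits s S i (i + k) : ℝ) - ρ * k|).card := ⟨_, rfl⟩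
  have hfn : ∀ s, f s ≤ n := by
    intro s
    rw [hf]
    refine (card_filter_le _ _).trans ?_
    rw [card_range]
    omega
  have hcard := saw_of_Pn (n := n) (by omega) (fun s => ε / 2 * n < (f s : ℝ)) (fun s => by
    rw [hf]
    simp only [hits_eq, hitw_rot]) (fun t ht hP => by
      show ε / 2 * n < (SSI.cnt k (BQ Φ ρ (ε / 2) k) t 0 (3 * n / 4) : ℝ)
      refine hP.trans_le ?_
      have : f (sw n t) ≤ SSI.cnt k (BQ Φ ρ (ε / 2) k) t 0 (3 * n / 4) := by
        rw [hf]
        unfold SSI.cnt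
        refine card_le_card fun i hi => ?_
        rw [Finset.mem_filter, mem_range] at hi
        rw [Finset.mem_filter, Finset.mem_Ico]
        refine ⟨⟨Nat.zero_le _, hi.1⟩, [], wd t i (i + k), [], by simp, ?_, ?_⟩
        · rw [wd_len (by rw [ht.1]; omega), Nat.add_sub_cancel_left]
        · have h5 := hi.2
          rw [hits_eq] at h5
          have h6 := hitw_VW hΦ ht.1 (show i ≤ i + k by omega) (by omega)
          rw [hΦd] at h6
          rw [hΦd]
          by_contra hcon
          push Not at hcon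
          rw [abs_le] at hcon h6
          have h7 : |hitw (sw n t) (fun x => if x ∈ S then 1 else 0) i (i + k) - ρ * k| ≤ ε * k := by
            rw [abs_le]
            constructor
            · linarith [hcon.1, h6.1]
            · linarith [hcon.2, h6.2]
          linarith
      exact_mod_cast this) h4
  have hsum : ((∑ s ∈ saw n, f s : ℕ) : ℝ) ≤ ∑ s ∈ saw n, (ε / 2 * n + if ε / 2 * n < (f s : ℝ) then (n : ℝ) else 0) := by
    rw [Nat.cast_sum]
    refine sum_le_sum fun s _ => ?_
    split_ifs with h5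
    · have h6 : (f s : ℝ) ≤ n := by exact_mod_cast hfn s
      have h7 : 0 ≤ ε / 2 * n := by positivity
      linarith
    · push Not at h5
      linarith
  rw [hf] at hsum
  refine hsum.trans ?_
  rw [hf] at hcard
  rw [sum_add_distrib, sum_const, nsmul_eq_mul, ← Finset.sum_filter, sum_const, nsmul_eq_mul]
  have h5 := mul_le_mul_of_nonneg_right hcard (Nat.cast_nonneg (α := ℝ) n)
  linarith

/-! ### reversal -/

lemma RP_RP {m : ℕ} (S : Set (Fin m → Bool)) : RP (RP S) = S := by
  ext p
  unfold RP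
  simp only [Set.mem_setOf_eq, Fin.rev_rev, Bool.not_not]

lemma rvs_rvs (n : ℕ) (s : Fin n → Fin 3) : rvs n (rvs n s) = s := by
  funext i
  unfold rvs
  rw [Fin.rev_rev]

/-- the windows of the reversed walk -/
lemma hits_rvs2 {n m : ℕ} {s : Fin n → Fin 3} (hs : s ∈ saw n) (S : Set (Fin m → Bool)) {a b : ℕ} (hb : b + m ≤ n) :
    hits s (RP S) (n - m - b) (n - m - a) = hits (rvs n s) S a b := by
  classical
  unfold hits
  have key : ∀ i, i + m < n → ((fun j : Fin m => turn s (n - 1 - m - i + j)) ∈ RP S ↔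
      (fun j : Fin m => turn (rvs n s) (i + j)) ∈ S) := by
    intro i hi
    unfold RP
    rw [Set.mem_setOf_eq]
    have h2 : (fun j : Fin m => !turn s (n - 1 - m - i + (j.rev : ℕ))) = fun j : Fin m => turn (rvs n s) (i + j) := by
      funext j
      have hj := j.2
      rw [turn_rvs hs (by omega)]
      congr 2
      rw [Fin.val_rev]
      omega
    rw [h2]
  refine Finset.card_bij' (fun i _ => n - 1 - m - i) (fun i _ => n - 1 - m - i) ?_ ?_ ?_ ?_
  · intro i hi
    rw [Finset.mem_filter, Finset.mem_Ico] at hi ⊢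
    obtain ⟨⟨h1, h2⟩, h3, h4⟩ := hi
    refine ⟨⟨by omega, by omega⟩, by omega, ?_⟩
    rw [← key (n - 1 - m - i) (by omega)]
    have e : n - 1 - m - (n - 1 - m - i) = i := by omega
    rw [e]
    exact h4
  · intro i hi
    rw [Finset.mem_filter, Finset.mem_Ico] at hi ⊢
    obtain ⟨⟨h1, h2⟩, h3, h4⟩ := hi
    exact ⟨⟨by omega, by omega⟩, by omega, (key i h3).2 h4⟩
  · intro i hi
    rw [Finset.mem_filter, Finset.mem_Ico] at hi
    omega
  · intro i hi
    rw [Finset.mem_filter, Finset.mem_Ico] at hi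
    omega

/-- the density of the reversed pattern -/
lemma den_RP (hD : DenF) {m : ℕ} {S : Set (Fin m → Bool)} {ρ : ℝ} (h : Den S ρ) : Den (RP S) ρ := by
  obtain ⟨Q, h1, h2⟩ := exists_Q hD
  have hQ : QD Q := ⟨h1, h2⟩
  have h3 : Q (cyl 0 (RP S)) = Q (cyl 0 S) :=
    sym_of hQ S (RP S) 0 0 rvs (fun n s hs => rvs_saw hs) rvs_rvs fun n s hs => hits_rvs hs S
  have h4 := h2 m (RP S) 0
  have h5 : Q.real (cyl 0 (RP S)) = Q.real (cyl 0 S) := by
    unfold MeasureTheory.Measure.real
    rw [h3]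
  rw [h5, ← h.unique (h2 m S 0)] at h4
  exact h4

/-- **layer B, second half** -/
theorem bulkF_of (hRT : SSI.RT) (hT : TimeF) (hF : FK4) (h : ExR) : BulkF := by
  classical
  intro m S ρ hS ε hε
  have hS' : Den (RP S) ρ := den_RP (denF_of h) hS
  obtain ⟨k1, hk1⟩ := first_part hRT hT hF h S hS (show 0 < ε / 3 by linarith)
  obtain ⟨k2, hk2⟩ := first_part hRT hT hF h (RP S) hS' (show 0 < ε / 3 by linarith)
  refine ⟨k1 + k2, fun k hk => ?_⟩
  obtain ⟨n3, hn3⟩ := exists_nat_ge (3 * ((k : ℝ) + m) / ε)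
  filter_upwards [hk1 k (by omega), hk2 k (by omega), Filter.eventually_ge_atTop (n3 + 4 * (k + m) + 4)] with n e1 e2 hn
  have hn3' : (k : ℝ) + m ≤ ε / 3 * n := by
    have h4 : 3 * ((k : ℝ) + m) / ε ≤ n := hn3.trans (by exact_mod_cast (show n3 ≤ n by omega))
    rw [div_le_iff₀ hε] at h4
    linarith
  obtain ⟨B, hB⟩ : ∃ B : (Set (Fin m → Bool)) → (Fin n → Fin 3) → ℕ → Prop, B = fun T s i =>
    ε / 3 * k < |(hits s T i (i + k) : ℝ) - ρ * k| := ⟨_, rfl⟩
  have hone : ∀ s ∈ saw n, ((range n).filter fun i => ε * k < |(hits s S i (i + k) : ℝ) - ρ * k|).card ≤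
      ((range (3 * n / 4)).filter fun i => B S s i).card + ((range (3 * n / 4)).filter fun i => B (RP S) (rvs n s) i).card +
        (k + m) := by
    intro s hs
    have hsub : ((range n).filter fun i => ε * k < |(hits s S i (i + k) : ℝ) - ρ * k|) ⊆
        ((range (3 * n / 4)).filter fun i => B S s i) ∪
        (((range (3 * n / 4)).filter fun i => B (RP S) (rvs n s) i).image fun j => n - m - k - j) ∪
        Finset.Ico (n - (k + m)) n := by
      intro i hi
      rw [Finset.mem_filter, mem_range] at hi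
      obtain ⟨hi1, hi2⟩ := hi
      have hi3 : ε / 3 * k < |(hits s S i (i + k) : ℝ) - ρ * k| := by
        refine lt_of_le_of_lt ?_ hi2
        have : 0 ≤ ε * k := by positivity
        linarith
      rw [mem_union, mem_union]
      by_cases c1 : i < 3 * n / 4
      · refine Or.inl (Or.inl ?_)
        rw [Finset.mem_filter, mem_range, hB]
        exact ⟨c1, hi3⟩
      · by_cases c2 : i + k + m ≤ n
        · refine Or.inl (Or.inr ?_)
          rw [Finset.mem_image]
          refine ⟨n - m - k - i, ?_, by omega⟩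
          rw [Finset.mem_filter, mem_range, hB]
          refine ⟨by omega, ?_⟩
          have h5 := hits_rvs2 hs (RP S) (a := n - m - k - i) (b := n - m - k - i + k) (by omega)
          rw [RP_RP] at h5
          have e5 : n - m - (n - m - k - i + k) = i := by omega
          have e6 : n - m - (n - m - k - i) = i + k := by omega
          rw [e5, e6] at h5
          show ε / 3 * k < |(hits (rvs n s) (RP S) (n - m - k - i) (n - m - k - i + k) : ℝ) - ρ * k|
          rw [← h5]
          exact hi3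
        · refine Or.inr ?_
          rw [Finset.mem_Ico]
          omega
    refine (card_le_card hsub).trans ((card_union_le _ _).trans ?_)
    refine add_le_add ((card_union_le _ _).trans (add_le_add le_rfl card_image_le)) ?_
    rw [Nat.card_Ico]
    omega
  have hsum : ∑ s ∈ saw n, ((range n).filter fun i => ε * k < |(hits s S i (i + k) : ℝ) - ρ * k|).card ≤
      ∑ s ∈ saw n, ((range (3 * n / 4)).filter fun i => B S s i).card +
        ∑ s ∈ saw n, ((range (3 * n / 4)).filter fun i => B (RP S) s i).card + (saw n).card * (k + m) := by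
    refine (sum_le_sum hone).trans (le_of_eq ?_)
    rw [sum_add_distrib, sum_add_distrib, sum_const, smul_eq_mul]
    congr 2
    exact Finset.sum_nbij' (rvs n) (rvs n) (fun s hs => rvs_saw hs) (fun s hs => rvs_saw hs) (fun s _ => rvs_rvs n s)
      (fun s _ => rvs_rvs n s) fun s _ => rfl
  have hsum' : ((∑ s ∈ saw n, ((range n).filter fun i => ε * k < |(hits s S i (i + k) : ℝ) - ρ * k|).card : ℕ) : ℝ) ≤
      ((∑ s ∈ saw n, ((range (3 * n / 4)).filter fun i => B S s i).card : ℕ) : ℝ) +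
        ((∑ s ∈ saw n, ((range (3 * n / 4)).filter fun i => B (RP S) s i).card : ℕ) : ℝ) +
        (saw n).card * ((k : ℝ) + m) := by
    exact_mod_cast hsum
  refine hsum'.trans ?_
  rw [hB]
  have h6 := mul_le_mul_of_nonneg_left hn3' (Nat.cast_nonneg (α := ℝ) (saw n).card)
  linarith

end Pool.Agent.TSW
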