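import Pool.Agent.TSW.DenF
import Pool.Agent.SSI.Rt
import Pool.Agent.NPR.Fast
import Pool.Agent.ERG.Dens
import Pool.Agent.SLW.LzB

/-!
# TSW, layer B (helper22): the words with a window of untypical density have small mass

* `BQ Φ ρ η k` : words with k letters and density away from ρ.
* **`bq_small`** : in the box of the scale L of k the words with a factor in `BQ` have mass at most `δ FK L`.
-/

set_option autoImplicit false

open Finset

open scoped ENNReal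

namespace Pool.Agent.TSW

open HexObs hiding pos turn
open HexObs.NPR HexObs.TS HexObs.TIW HexObs.NTA HexObs.SDN HexObs.TIP
open Pool.Agent.NTS.Res
open NTF (sw aa de Ed JJ)
open NTSF (rot)

/-- words with k letters whose density is not ρ -/
def BQ {m : ℕ} (Φ : (Fin m → Bool) → ℝ) (ρ η : ℝ) (k : ℕ) : Set (List Bool) :=
  {Q | Q.length = k ∧ η * k < |VW Φ Q - ρ * k|}

lemma wl_mono {K K' : ℕ} (h : K ≤ K') {t : List Bool} (ht : t ∈ WL K) : t ∈ WL K' :=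
  ⟨ht.1, fun i hi dir => (ht.2 i hi dir).trans (pow_le_pow_right₀ (by norm_num) h)⟩

/-- long words in a box -/
lemma long_small (hT : TimeF) (hF : FK4) (c1 : ℕ) {δ : ℝ} (hδ : 0 < δ) : ∃ v : ℕ, c1 ≤ v ∧ ∀ L : ℕ,
    gf {t | t ∈ WL (L + c1) ∧ ML (L + v + 2) < t.length} ≤ ENNReal.ofReal δ * FK L := by
  obtain ⟨A, B, hA, hB, h⟩ := hT 3
  obtain ⟨D, hD, hF⟩ := hF
  have hA0 : 0 < A := by linarith
  have hD0 : 0 < D := by linarith
  obtain ⟨q, hq⟩ := exists_pow_lt_of_lt_one (show 0 < δ / (A * D * 4 ^ (c1 + 3)) by positivity)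
    (show (1 / 2 : ℝ) < 1 by norm_num)
  obtain ⟨u, hu⟩ : ∃ u, u = c1 + 3 := ⟨_, rfl⟩
  refine ⟨u + q, by omega, fun L => ?_⟩
  have h1 := h (L + (u + q)) (L + (u + q)) q le_rfl (by omega)
  rw [Nat.sub_self, pow_zero, mul_one] at h1
  have h2 : {t | t ∈ WL (L + c1) ∧ ML (L + (u + q) + 2) < t.length} ⊆
      {t | t ∈ WL (L + (u + q)) ∧ t ∈ Fac {Q | In (2 ^ (L + (u + q) - q)) Q ∧
        PW.mZ (2 ^ (L + (u + q))) / 8 ≤ (Q.length : ℝ)}} := by
    rintro t ⟨t1, t2⟩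
    refine ⟨wl_mono (by omega) t1, [], t, [], by simp, ?_, ?_⟩
    · have h3 := SLW.in_WL t1
      rw [show L + (u + q) - q = L + c1 + 3 by omega]
      exact h3
    · have h3 : (ML (L + (u + q) + 2) : ℝ) ≤ t.length := by exact_mod_cast t2.le
      have h4 := ML_ge (L + (u + q) + 2)
      have h5 := mz_mono (show L + (u + q) ≤ L + (u + q) + 2 by omega)
      have h6 := mz_pos (L + (u + q))
      linarith
  refine (gf_mono h2).trans (h1.trans ?_)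
  have h3 := hF L (u + q)
  refine (mul_le_mul' le_rfl h3).trans ?_
  rw [← mul_assoc, ← ENNReal.ofReal_mul (by positivity)]
  refine mul_le_mul' (ENNReal.ofReal_le_ofReal ?_) le_rfl
  rw [lt_div_iff₀ (by positivity)] at hq
  have h4 : (2 : ℝ) ^ (3 * q) = 8 ^ q := by
    rw [pow_mul]
    norm_num
  have h5 : A / (2 : ℝ) ^ (3 * q) * (D * 4 ^ (u + q)) = (1 / 2) ^ q * (A * D * 4 ^ u) := by
    rw [h4, pow_add, div_mul_eq_mul_div, div_eq_iff (by positivity)]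
    have h6 : (8 : ℝ) ^ q * (1 / 2) ^ q = 4 ^ q := by
      rw [← mul_pow]
      norm_num
    calc A * (D * (4 ^ u * 4 ^ q)) = A * (D * (4 ^ u * (8 ^ q * (1 / 2) ^ q))) := by rw [h6]
      _ = _ := by ring
  rw [h5, hu]
  exact hq.le

/-- the scale of k: `θ₁ mZ (2 ^ L) ≤ k ≤ θ mZ (2 ^ L)` -/
lemma scale_of {θ : ℝ} (hθ : 0 < θ) : ∃ θ1 : ℝ, 0 < θ1 ∧ ∀ Lm : ℕ, ∃ k0 : ℕ, ∀ k : ℕ, k0 ≤ k → ∃ L : ℕ, Lm ≤ L ∧
    (k : ℝ) ≤ θ * PW.mZ (2 ^ L) ∧ θ1 * PW.mZ (2 ^ L) ≤ k := by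
  classical
  obtain ⟨C4, hC4, hup⟩ := exists_mz_up
  have hC0 : 0 < C4 := by linarith
  refine ⟨θ / (4 * C4), by positivity, fun Lm => ?_⟩
  refine ⟨⌈θ * PW.mZ (2 ^ (Lm + 1))⌉₊ + 1, fun k hk => ?_⟩
  have hk' : θ * PW.mZ (2 ^ (Lm + 1)) < k := by
    have h1 := Nat.le_ceil (θ * PW.mZ (2 ^ (Lm + 1)))
    have h2 : ((⌈θ * PW.mZ (2 ^ (Lm + 1))⌉₊ + 1 : ℕ) : ℝ) ≤ k := by exact_mod_cast hk
    push_cast at h2
    linarith
  have hex : ∃ L, (k : ℝ) ≤ θ * PW.mZ (2 ^ L) := by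
    obtain ⟨j, hj⟩ := pow_unbounded_of_one_lt ((k : ℝ) / θ) (one_lt_two : (1 : ℝ) < 2)
    refine ⟨j, ?_⟩
    rw [div_lt_iff₀ hθ] at hj
    have h1 := mz_low 0 j
    have h2 := mz_one 0
    rw [Nat.zero_add] at h1
    have h3 : (2 : ℝ) ^ j * 1 ≤ 2 ^ j * PW.mZ (2 ^ 0) := mul_le_mul_of_nonneg_left h2 (by positivity)
    have h4 := mul_le_mul_of_nonneg_left (h3.trans h1) hθ.le
    linarith
  have h1 := Nat.find_spec hex
  have h2 : Lm + 1 < Nat.find hex := by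
    by_contra hc
    push Not at hc
    have := mul_le_mul_of_nonneg_left (mz_mono hc) hθ.le
    linarith
  refine ⟨Nat.find hex, by omega, h1, ?_⟩
  have h3 := Nat.find_min hex (m := Nat.find hex - 1) (by omega)
  push Not at h3
  have h4 := hup (Nat.find hex - 1) 1
  rw [Nat.sub_add_cancel (by omega), pow_one] at h4
  have h5 : θ / (4 * C4) * PW.mZ (2 ^ Nat.find hex) ≤ θ / (4 * C4) * (C4 * 4 * PW.mZ (2 ^ (Nat.find hex - 1))) :=
    mul_le_mul_of_nonneg_left h4 (by positivity)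
  have h6 : θ / (4 * C4) * (C4 * 4 * PW.mZ (2 ^ (Nat.find hex - 1))) = θ * PW.mZ (2 ^ (Nat.find hex - 1)) := by
    field_simp
  linarith

/-- **the words with an untypical window** -/
theorem bq_small (hT : TimeF) (hF : FK4) {m : ℕ} {Φ : (Fin m → Bool) → ℝ} {c C ρ : ℝ} {j0 : ℕ} (hc : 0 < c) (hC : 0 < C)
    (hD : ∀ K, lsc m + j0 ≤ K → gf {t | t ∈ WL K ∧ t.length ≤ ML (K + 2) ∧ ¬ ∀ x y : ℕ, x ≤ y → y ≤ t.length →
      |VW Φ (wd t x y) + (m + 1) - ρ * ((y : ℝ) - x)| ≤ C * ((K : ℝ) - lsc m + 1) ^ (-c) * PW.mZ (2 ^ K)} ≤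
      ENNReal.ofReal ((1 / 2) ^ (K - lsc m)) * FK K) {η δ θ : ℝ} (hη : 0 < η) (hδ : 0 < δ) (hθ : 0 < θ) (Lm : ℕ) :
    ∃ k0 : ℕ, ∀ k : ℕ, k0 ≤ k → ∃ L : ℕ, Lm ≤ L ∧ (k : ℝ) ≤ θ * PW.mZ (2 ^ L) ∧
      gf {t | t ∈ WL (L + 16) ∧ t ∈ Fac (BQ Φ ρ η k)} ≤ ENNReal.ofReal δ * FK L := by
  obtain ⟨v, hv, hlong⟩ := long_small hT hF 16 (show 0 < δ / 2 by linarith)
  obtain ⟨θ1, hθ1, hsc⟩ := scale_of hθ
  obtain ⟨C4, hC4, hup⟩ := exists_mz_up
  obtain ⟨D, hD1, hF⟩ := hF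
  have hC0 : 0 < C4 := by linarith
  have hD0 : 0 < D := by linarith
  -- the numbers
  have hlim : Filter.Tendsto (fun j : ℕ => C * ((j : ℝ) + 1) ^ (-c)) Filter.atTop (nhds 0) := by
    have h1 : Filter.Tendsto (fun j : ℕ => ((j : ℝ) + 1)) Filter.atTop Filter.atTop :=
      Filter.tendsto_atTop_add_const_right _ _ tendsto_natCast_atTop_atTop
    have h2 := (tendsto_rpow_neg_atTop hc).comp h1
    have h3 := h2.const_mul C
    rw [mul_zero] at h3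
    exact h3
  obtain ⟨d1, hd1⟩ := Filter.eventually_atTop.1
    (hlim.eventually (gt_mem_nhds (show 0 < η * θ1 / (2 * (C4 * 4 ^ v)) by positivity)))
  obtain ⟨d2, hd2⟩ := exists_pow_lt_of_lt_one (show 0 < δ / (2 * (D * 4 ^ v)) by positivity) (show (1 / 2 : ℝ) < 1 by norm_num)
  obtain ⟨k1, hk1⟩ := hsc (Lm + lsc m + j0 + d1 + d2)
  obtain ⟨k2, hk2⟩ := exists_nat_ge (2 * ((m : ℝ) + 1) / η)
  refine ⟨k1 + k2, fun k hk => ?_⟩
  obtain ⟨L, hL, hkL, hkL'⟩ := hk1 k (by omega)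
  refine ⟨L, by omega, hkL, ?_⟩
  obtain ⟨K, hK⟩ : ∃ K, K = L + v := ⟨_, rfl⟩
  have hcast : ((K - lsc m : ℕ) : ℝ) = (K : ℝ) - lsc m := Nat.cast_sub (by omega)
  have g1 : C * ((K : ℝ) - lsc m + 1) ^ (-c) * PW.mZ (2 ^ K) ≤ η / 2 * k := by
    have h1 := hd1 (K - lsc m) (by omega)
    rw [hcast] at h1
    have h2 : PW.mZ (2 ^ K) ≤ C4 * 4 ^ v * PW.mZ (2 ^ L) := by
      rw [hK]
      exact hup L v
    have h3 := mul_le_mul h1.le h2 (mz_pos K).le (by positivity)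
    have h4 : η * θ1 / (2 * (C4 * 4 ^ v)) * (C4 * 4 ^ v * PW.mZ (2 ^ L)) = η / 2 * (θ1 * PW.mZ (2 ^ L)) := by
      field_simp
    have h5 : η / 2 * (θ1 * PW.mZ (2 ^ L)) ≤ η / 2 * k := mul_le_mul_of_nonneg_left hkL' (by linarith)
    linarith
  have g2 : (m : ℝ) + 1 ≤ η / 2 * k := by
    have h1 : 2 * ((m : ℝ) + 1) / η ≤ k := hk2.trans (by exact_mod_cast (show k2 ≤ k by omega))
    rw [div_le_iff₀ hη] at h1
    linarith
  have hsub : {t | t ∈ WL (L + 16) ∧ t ∈ Fac (BQ Φ ρ η k)} ⊆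
      {t | t ∈ WL (L + 16) ∧ ML (L + v + 2) < t.length} ∪
      {t | t ∈ WL K ∧ t.length ≤ ML (K + 2) ∧ ¬ ∀ x y : ℕ, x ≤ y → y ≤ t.length →
        |VW Φ (wd t x y) + (m + 1) - ρ * ((y : ℝ) - x)| ≤ C * ((K : ℝ) - lsc m + 1) ^ (-c) * PW.mZ (2 ^ K)} := by
    rintro t ⟨t1, X, Q, Y, t2, t3, t4⟩
    by_cases h1 : ML (L + v + 2) < t.length
    · exact Or.inl ⟨t1, h1⟩
    · refine Or.inr ⟨wl_mono (by omega) t1, by rw [hK]; omega, fun hcon => ?_⟩
      have h2 : wd t X.length (X.length + k) = Q := by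
        unfold wd
        rw [t2, List.take_append, List.take_of_length_le (by omega), Nat.add_sub_cancel_left, List.take_left' t3,
          List.drop_left]
      have h3 := hcon X.length (X.length + k) (by omega) (by
        rw [t2, List.length_append, List.length_append]
        omega)
      rw [h2] at h3
      push_cast at h3
      rw [add_sub_cancel_left] at h3
      rw [abs_le] at h3
      have h4 : |VW Φ Q - ρ * k| ≤ η * k := by
        have hm : (0 : ℝ) ≤ m := Nat.cast_nonneg m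
        rw [abs_le]
        constructor
        · linarith [h3.1]
        · linarith [h3.2]
      linarith
  refine (gf_mono hsub).trans ((gf_union_le _ _).trans ?_)
  have e : ENNReal.ofReal δ = ENNReal.ofReal (δ / 2) + ENNReal.ofReal (δ / 2) := by
    rw [← ENNReal.ofReal_add (by linarith) (by linarith)]
    congr 1
    ring
  rw [e, add_mul]
  refine add_le_add (hlong L) ((hD K (by omega)).trans ?_)
  have h1 := hF L v
  rw [← hK] at h1
  refine (mul_le_mul' le_rfl h1).trans ?_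
  rw [← mul_assoc, ← ENNReal.ofReal_mul (by positivity)]
  refine mul_le_mul' (ENNReal.ofReal_le_ofReal ?_) le_rfl
  have h2 : ((1 : ℝ) / 2) ^ (K - lsc m) ≤ (1 / 2) ^ d2 := pow_le_pow_of_le_one (by norm_num) (by norm_num) (by omega)
  have h3 := h2.trans hd2.le
  have h4 := mul_le_mul_of_nonneg_right h3 (show 0 ≤ D * 4 ^ v by positivity)
  have h5 : δ / (2 * (D * 4 ^ v)) * (D * 4 ^ v) = δ / 2 := by field_simp
  linarith

end Pool.Agent.TSW
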