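import Pool.Agent.TSW.Res
import Pool.Agent.IW.Inj

/-!
# Two-sided walk (helper78): piecewise linear curves of sequences of points

* `crv k p` : the curve through the points `p 0, ..., p k` divided by `k ^ (3 / 4)`;
* `crv_holder`, `crv_pinch`, `crv_flat` : from the curve to the points.
-/

set_option autoImplicit false

open MeasureTheory Filter Topology
open scoped Classical

namespace Pool.Agent.TSW

open HexObs.SIM (Pinch)
open Pool.Agent.IW (Flat)

/-- the curve through the points `p 0, ..., p k`, divided by `k ^ (3 / 4)` -/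
noncomputable def crv (k : ℕ) (p : ℕ → ℂ) : C(unitInterval, ℂ) where
  toFun u := ∑ j ∈ Finset.range k, ((max 0 (min 1 ((u : ℝ) * k - j)) : ℝ) : ℂ) *
    ((p (j + 1) - p j) / ((k : ℝ) ^ (3 / 4 : ℝ) : ℝ))
  continuous_toFun := by fun_prop

lemma crv_apply (k : ℕ) (p : ℕ → ℂ) (u : unitInterval) : crv k p u = ∑ j ∈ Finset.range k,
    ((max 0 (min 1 ((u : ℝ) * k - j)) : ℝ) : ℂ) * ((p (j + 1) - p j) / ((k : ℝ) ^ (3 / 4 : ℝ) : ℝ)) := rfl

lemma crv_zero (k : ℕ) (p : ℕ → ℂ) : crv k p 0 = 0 := by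
  rw [crv_apply]
  refine Finset.sum_eq_zero fun j _ => ?_
  have h1 : ((0 : unitInterval) : ℝ) * (k : ℝ) - (j : ℝ) ≤ 0 := by
    have h2 : (0 : ℝ) ≤ j := Nat.cast_nonneg j
    rw [Set.Icc.coe_zero, zero_mul]
    linarith
  rw [min_eq_right (by linarith), max_eq_left h1]
  simp

/-- the clamps add up -/
lemma sum_clamp (k : ℕ) : ∀ x : ℝ, 0 ≤ x → ∑ j ∈ Finset.range k, max 0 (min 1 (x - j)) = min x k := by
  induction k with
  | zero =>
    intro x hx
    simp [hx]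
  | succ k ih =>
    intro x hx
    rw [Finset.sum_range_succ, ih x hx]
    push_cast
    rcases le_total x k with h | h
    · rw [min_eq_left h, min_eq_left (by linarith : x ≤ (k : ℝ) + 1), min_eq_right (by linarith : x - k ≤ 1),
        max_eq_left (by linarith), add_zero]
    · rw [min_eq_right h]
      rcases le_total x (k + 1) with h' | h'
      · rw [min_eq_left h', min_eq_right (by linarith : x - k ≤ 1), max_eq_right (by linarith)]
        ring
      · rw [min_eq_right h', min_eq_left (by linarith : (1 : ℝ) ≤ x - k), max_eq_right zero_le_one]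

section

variable {k : ℕ} {p : ℕ → ℂ}

lemma rk_pos (hk : 1 ≤ k) : (0 : ℝ) < (k : ℝ) ^ (3 / 4 : ℝ) := Real.rpow_pos_of_pos (by exact_mod_cast hk) _

/-- at the grid points -/
lemma crv_grid (hk : 1 ≤ k) {i : ℕ} (hi : i ≤ k) {u : unitInterval} (hu : (u : ℝ) * k = i) :
    crv k p u = (p i - p 0) / ((k : ℝ) ^ (3 / 4 : ℝ) : ℝ) := by
  rw [crv_apply, hu]
  have h1 : ∀ j ∈ Finset.range k, ((max 0 (min 1 ((i : ℝ) - j)) : ℝ) : ℂ) * ((p (j + 1) - p j) / ((k : ℝ) ^ (3 / 4 : ℝ) : ℝ)) =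
      if j < i then (p (j + 1) - p j) / ((k : ℝ) ^ (3 / 4 : ℝ) : ℝ) else 0 := by
    intro j _
    split_ifs with h
    · have h2 : (1 : ℝ) ≤ (i : ℝ) - j := by
        have : ((j + 1 : ℕ) : ℝ) ≤ i := by exact_mod_cast h
        push_cast at this
        linarith
      rw [min_eq_left h2, max_eq_right zero_le_one]
      simp
    · have h2 : (i : ℝ) - j ≤ 0 := by
        have : (i : ℝ) ≤ j := by exact_mod_cast not_lt.1 h
        linarith
      rw [min_eq_right (by linarith), max_eq_left h2]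
      simp
  rw [Finset.sum_congr rfl h1, ← Finset.sum_filter]
  have h2 : (Finset.range k).filter (fun j => j < i) = Finset.range i := by
    ext j
    simp only [Finset.mem_filter, Finset.mem_range]
    omega
  rw [h2, ← Finset.sum_div, Finset.sum_range_sub]

/-- the curve is Lipschitz -/
lemma crv_lip (hk : 1 ≤ k) (hp : ∀ j, j < k → ‖p (j + 1) - p j‖ ≤ 1) (u v : unitInterval) :
    dist (crv k p u) (crv k p v) ≤ (k : ℝ) / (k : ℝ) ^ (3 / 4 : ℝ) * dist u v := by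
  have hr := rk_pos hk
  have key : ∀ u v : unitInterval, u ≤ v → dist (crv k p u) (crv k p v) ≤ (k : ℝ) / (k : ℝ) ^ (3 / 4 : ℝ) * dist u v := by
    intro u v huv
    have huv' : (u : ℝ) ≤ v := huv
    have hk0 : (0 : ℝ) ≤ k := Nat.cast_nonneg k
    rw [dist_comm, dist_eq_norm, crv_apply, crv_apply, ← Finset.sum_sub_distrib]
    refine (norm_sum_le _ _).trans ?_
    have h1 : ∀ j ∈ Finset.range k, ‖((max 0 (min 1 ((v : ℝ) * k - j)) : ℝ) : ℂ) * ((p (j + 1) - p j) / ((k : ℝ) ^ (3 / 4 : ℝ) : ℝ)) -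
        ((max 0 (min 1 ((u : ℝ) * k - j)) : ℝ) : ℂ) * ((p (j + 1) - p j) / ((k : ℝ) ^ (3 / 4 : ℝ) : ℝ))‖ ≤
        (max 0 (min 1 ((v : ℝ) * k - j)) - max 0 (min 1 ((u : ℝ) * k - j))) * (1 / (k : ℝ) ^ (3 / 4 : ℝ)) := by
      intro j hj
      rw [← sub_mul, ← Complex.ofReal_sub, norm_mul, Complex.norm_real, norm_div, Complex.norm_real]
      have h2 : 0 ≤ max 0 (min 1 ((v : ℝ) * k - j)) - max 0 (min 1 ((u : ℝ) * k - j)) := by
        have h3 : (u : ℝ) * k - j ≤ (v : ℝ) * k - j := by nlinarith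
        have h4 := max_le_max (le_refl (0 : ℝ)) (min_le_min (le_refl (1 : ℝ)) h3)
        linarith
      rw [Real.norm_of_nonneg h2, Real.norm_of_nonneg hr.le]
      exact mul_le_mul_of_nonneg_left (div_le_div_of_nonneg_right (hp j (Finset.mem_range.1 hj)) hr.le) h2
    refine (Finset.sum_le_sum h1).trans ?_
    rw [← Finset.sum_mul, Finset.sum_sub_distrib, sum_clamp k _ (mul_nonneg v.2.1 hk0), sum_clamp k _ (mul_nonneg u.2.1 hk0)]
    have hv1 : (v : ℝ) * k ≤ k := mul_le_of_le_one_left hk0 v.2.2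
    have hu1 : (u : ℝ) * k ≤ k := mul_le_of_le_one_left hk0 u.2.2
    rw [min_eq_left hv1, min_eq_left hu1, Subtype.dist_eq, Real.dist_eq, abs_sub_comm, abs_of_nonneg (by linarith)]
    apply le_of_eq
    ring
  rcases le_total u v with h | h
  · exact key u v h
  · rw [dist_comm, dist_comm u v]
    exact key v u h

/-- the time i / k -/
noncomputable def ti (k i : ℕ) (h : i ≤ k) : unitInterval :=
  ⟨(i : ℝ) / k, by positivity, by
    rcases Nat.eq_zero_or_pos k with h0 | h0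
    · rw [h0]
      simp
    · rw [div_le_one (by exact_mod_cast h0)]
      exact_mod_cast h⟩

lemma ti_mul (hk : 1 ≤ k) {i : ℕ} (h : i ≤ k) : (ti k i h : ℝ) * k = i := by
  have : (0 : ℝ) < k := by exact_mod_cast hk
  show (i : ℝ) / k * k = i
  field_simp

lemma crv_ti (hk : 1 ≤ k) {i : ℕ} (h : i ≤ k) : crv k p (ti k i h) = (p i - p 0) / ((k : ℝ) ^ (3 / 4 : ℝ) : ℝ) :=
  crv_grid hk h (ti_mul hk h)

lemma crv_dist (hk : 1 ≤ k) {i j : ℕ} (hi : i ≤ k) (hj : j ≤ k) :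
    dist (crv k p (ti k j hj)) (crv k p (ti k i hi)) = ‖p j - p i‖ / (k : ℝ) ^ (3 / 4 : ℝ) := by
  rw [dist_eq_norm, crv_ti hk, crv_ti hk, ← sub_div, sub_sub_sub_cancel_right, norm_div, Complex.norm_real,
    Real.norm_of_nonneg (rk_pos hk).le]

/-- points near to each other in time -/
lemma crv_near (hk : 1 ≤ k) (hp : ∀ j, j < k → ‖p (j + 1) - p j‖ ≤ 1) {u v : unitInterval} (h : dist u v ≤ 1 / k) :
    dist (crv k p u) (crv k p v) ≤ 1 / (k : ℝ) ^ (3 / 4 : ℝ) := by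
  have hk0 : (0 : ℝ) < k := by exact_mod_cast hk
  refine (crv_lip hk hp u v).trans ?_
  calc (k : ℝ) / (k : ℝ) ^ (3 / 4 : ℝ) * dist u v ≤ (k : ℝ) / (k : ℝ) ^ (3 / 4 : ℝ) * (1 / k) :=
        mul_le_mul_of_nonneg_left h (div_nonneg hk0.le (rk_pos hk).le)
    _ = _ := by field_simp

/-- the number of the grid point below u -/
lemma floor_le (hk : 1 ≤ k) (u : unitInterval) : ⌊(u : ℝ) * k⌋₊ ≤ k := by
  have hk0 : (0 : ℝ) ≤ k := Nat.cast_nonneg k
  have h1 : (u : ℝ) * k ≤ k := mul_le_of_le_one_left hk0 u.2.2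
  exact_mod_cast (Nat.floor_le (mul_nonneg u.2.1 hk0)).trans h1

lemma floor_dist (hk : 1 ≤ k) (u : unitInterval) : dist u (ti k ⌊(u : ℝ) * k⌋₊ (floor_le hk u)) ≤ 1 / k := by
  have hk0 : (0 : ℝ) < k := by exact_mod_cast hk
  have h1 := Nat.floor_le (mul_nonneg u.2.1 hk0.le)
  have h2 := Nat.lt_floor_add_one ((u : ℝ) * k)
  rw [Subtype.dist_eq, Real.dist_eq]
  show |(u : ℝ) - (⌊(u : ℝ) * k⌋₊ : ℝ) / k| ≤ 1 / k
  rw [abs_le, neg_le_sub_iff_le_add, sub_le_iff_le_add, ← add_div]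
  constructor
  · rw [div_le_iff₀ hk0, add_mul, one_div_mul_cancel hk0.ne']
    linarith
  · rw [le_div_iff₀ hk0]
    linarith

lemma ceil_le (hk : 1 ≤ k) (u : unitInterval) : ⌈(u : ℝ) * k⌉₊ ≤ k := by
  have hk0 : (0 : ℝ) ≤ k := Nat.cast_nonneg k
  exact Nat.ceil_le.2 (mul_le_of_le_one_left hk0 u.2.2)

/-- **the Hoelder property of the curve from that of the points** -/
theorem crv_holder (hk : 1 ≤ k) (hp : ∀ j, j < k → ‖p (j + 1) - p j‖ ≤ 1) {M a : NNReal} (ha : (a : ℝ) ≤ 3 / 4)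
    (h : ∀ i j : ℕ, i < j → j ≤ k → ‖p j - p i‖ ≤ M * (k : ℝ) ^ (3 / 4 : ℝ) * (((j : ℝ) - i) / k) ^ (a : ℝ)) :
    HolderWith (M + 2) a (crv k p) := by
  have hk0 : (0 : ℝ) < k := by exact_mod_cast hk
  have hk1 : (1 : ℝ) ≤ k := by exact_mod_cast hk
  have hr := rk_pos hk
  -- short times
  have hshort : ∀ u v : unitInterval, dist u v ≤ 1 / k → dist (crv k p u) (crv k p v) ≤ dist u v ^ (a : ℝ) := by
    intro u v huv
    refine (crv_lip hk hp u v).trans ?_
    rcases eq_or_lt_of_le (dist_nonneg (x := u) (y := v)) with h0 | h0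
    · rw [← h0, mul_zero]
      exact Real.rpow_nonneg le_rfl _
    · have e1 : dist u v = dist u v ^ (a : ℝ) * dist u v ^ (1 - (a : ℝ)) := by
        rw [← Real.rpow_add h0, add_sub_cancel, Real.rpow_one]
      have e2 : dist u v ^ (1 - (a : ℝ)) ≤ (1 / (k : ℝ)) ^ (1 - (a : ℝ)) := Real.rpow_le_rpow h0.le huv (by linarith)
      have e3 : (k : ℝ) / (k : ℝ) ^ (3 / 4 : ℝ) * (1 / (k : ℝ)) ^ (1 - (a : ℝ)) ≤ 1 := by
        rw [one_div, Real.inv_rpow hk0.le, ← Real.rpow_neg hk0.le]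
        nth_rewrite 1 [← Real.rpow_one (k : ℝ)]
        rw [← Real.rpow_sub hk0, ← Real.rpow_add hk0]
        exact Real.rpow_le_one_of_one_le_of_nonpos hk1 (by linarith)
      have e4 : 0 ≤ dist u v ^ (a : ℝ) := Real.rpow_nonneg h0.le _
      have e5 : (0 : ℝ) ≤ (k : ℝ) / (k : ℝ) ^ (3 / 4 : ℝ) := by positivity
      calc (k : ℝ) / (k : ℝ) ^ (3 / 4 : ℝ) * dist u v
          = dist u v ^ (a : ℝ) * ((k : ℝ) / (k : ℝ) ^ (3 / 4 : ℝ) * dist u v ^ (1 - (a : ℝ))) := by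
            nth_rewrite 1 [e1]
            ring
        _ ≤ dist u v ^ (a : ℝ) * ((k : ℝ) / (k : ℝ) ^ (3 / 4 : ℝ) * (1 / (k : ℝ)) ^ (1 - (a : ℝ))) :=
            mul_le_mul_of_nonneg_left (mul_le_mul_of_nonneg_left e2 e5) e4
        _ ≤ dist u v ^ (a : ℝ) * 1 := mul_le_mul_of_nonneg_left e3 e4
        _ = _ := mul_one _
  have key : ∀ u v : unitInterval, u ≤ v → dist (crv k p u) (crv k p v) ≤ (M + 2 : ℝ) * dist u v ^ (a : ℝ) := by
    intro u v huv
    have huv' : (u : ℝ) ≤ v := huv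
    have hM := M.coe_nonneg
    have hd0 : 0 ≤ dist u v ^ (a : ℝ) := Real.rpow_nonneg dist_nonneg _
    have hduv : dist u v = (v : ℝ) - u := by
      rw [Subtype.dist_eq, Real.dist_eq, abs_sub_comm, abs_of_nonneg (by linarith)]
    rcases le_total (dist u v) (1 / k) with hs | hs
    · refine (hshort u v hs).trans ?_
      nlinarith
    · obtain ⟨i, hi⟩ : ∃ i, i = ⌈(u : ℝ) * k⌉₊ := ⟨_, rfl⟩
      obtain ⟨j, hj⟩ : ∃ j, j = ⌊(v : ℝ) * k⌋₊ := ⟨_, rfl⟩
      have hik : i ≤ k := hi ▸ ceil_le hk u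
      have hjk : j ≤ k := hj ▸ floor_le hk v
      have hu0 : 0 ≤ (u : ℝ) * k := mul_nonneg u.2.1 hk0.le
      have hv0 : 0 ≤ (v : ℝ) * k := mul_nonneg v.2.1 hk0.le
      have hi1 : (u : ℝ) * k ≤ i := hi ▸ Nat.le_ceil _
      have hi2 : (i : ℝ) < (u : ℝ) * k + 1 := hi ▸ Nat.ceil_lt_add_one hu0
      have hj1 : (j : ℝ) ≤ (v : ℝ) * k := hj ▸ Nat.floor_le hv0
      have hj2 : (v : ℝ) * k < j + 1 := hj ▸ Nat.lt_floor_add_one _
      have hs' : (u : ℝ) * k + 1 ≤ (v : ℝ) * k := by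
        rw [hduv, div_le_iff₀ hk0] at hs
        linarith
      have hij : i ≤ j := by
        have : (i : ℝ) < j + 1 := by linarith
        have : i < j + 1 := by exact_mod_cast this
        omega
      have d1 : dist u (ti k i hik) ≤ 1 / k := by
        rw [Subtype.dist_eq, Real.dist_eq]
        show |(u : ℝ) - (i : ℝ) / k| ≤ 1 / k
        rw [abs_le, neg_le_sub_iff_le_add, sub_le_iff_le_add, ← add_div]
        constructor
        · rw [div_le_iff₀ hk0, add_mul, one_div_mul_cancel hk0.ne']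
          linarith
        · rw [le_div_iff₀ hk0]
          linarith
      have d2 : dist (ti k j hjk) v ≤ 1 / k := by
        rw [Subtype.dist_eq, Real.dist_eq]
        show |(j : ℝ) / k - (v : ℝ)| ≤ 1 / k
        rw [abs_le, neg_le_sub_iff_le_add, sub_le_iff_le_add]
        constructor
        · rw [← add_div, le_div_iff₀ hk0]
          linarith
        · rw [div_le_iff₀ hk0, add_mul, one_div_mul_cancel hk0.ne']
          linarith
      have m1 : dist u (ti k i hik) ^ (a : ℝ) ≤ dist u v ^ (a : ℝ) :=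
        Real.rpow_le_rpow dist_nonneg (d1.trans hs) a.2
      have m2 : dist (ti k j hjk) v ^ (a : ℝ) ≤ dist u v ^ (a : ℝ) :=
        Real.rpow_le_rpow dist_nonneg (d2.trans hs) a.2
      have h1 := hshort u (ti k i hik) d1
      have h2 := hshort (ti k j hjk) v d2
      have h3 : dist (crv k p (ti k i hik)) (crv k p (ti k j hjk)) ≤ M * dist u v ^ (a : ℝ) := by
        rcases Nat.eq_or_lt_of_le hij with h0 | h0
        · subst h0
          rw [dist_self]
          positivity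
        · rw [dist_comm, crv_dist hk, div_le_iff₀ hr]
          refine (h i j h0 hjk).trans ?_
          have h4 : (((j : ℝ) - i) / k) ^ (a : ℝ) ≤ dist u v ^ (a : ℝ) := by
            refine Real.rpow_le_rpow ?_ ?_ a.2
            · have : (i : ℝ) ≤ j := by exact_mod_cast hij
              exact div_nonneg (by linarith) hk0.le
            · rw [hduv, div_le_iff₀ hk0]
              linarith
          calc (M : ℝ) * (k : ℝ) ^ (3 / 4 : ℝ) * (((j : ℝ) - i) / k) ^ (a : ℝ)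
              ≤ (M : ℝ) * (k : ℝ) ^ (3 / 4 : ℝ) * dist u v ^ (a : ℝ) := mul_le_mul_of_nonneg_left h4 (by positivity)
            _ = _ := by ring
      have h4 := dist_triangle4 (crv k p u) (crv k p (ti k i hik)) (crv k p (ti k j hjk)) (crv k p v)
      linarith
  intro u v
  have hc : ((M + 2 : NNReal) : ℝ) = (M + 2 : ℝ) := by push_cast; ring
  have hall : dist (crv k p u) (crv k p v) ≤ ((M + 2 : NNReal) : ℝ) * dist u v ^ (a : ℝ) := by
    rw [hc]
    rcases le_total u v with h | h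
    · exact key u v h
    · rw [dist_comm, dist_comm u v]
      exact key v u h
  have e1 : edist (crv k p u) (crv k p v) = ENNReal.ofReal (dist (crv k p u) (crv k p v)) := edist_dist _ _
  have e2 : edist u v = ENNReal.ofReal (dist u v) := edist_dist _ _
  have e3 : ENNReal.ofReal (dist u v) ^ (a : ℝ) = ENNReal.ofReal (dist u v ^ (a : ℝ)) :=
    ENNReal.ofReal_rpow_of_nonneg dist_nonneg a.2
  rw [e1, e2, e3, ← ENNReal.ofReal_coe_nnreal, ← ENNReal.ofReal_mul (NNReal.coe_nonneg _)]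
  exact ENNReal.ofReal_le_ofReal hall

/-- **a near touch of the curve gives a near touch of the points** -/
theorem crv_pinch (hk : 1 ≤ k) (hp : ∀ j, j < k → ‖p (j + 1) - p j‖ ≤ 1) {η δ : ℝ} (h : crv k p ∈ Pinch η δ) :
    ∃ i l j : ℕ, i ≤ l ∧ l ≤ j ∧ j ≤ k ∧ η * (k : ℝ) ^ (3 / 4 : ℝ) - 2 ≤ ‖p l - p i‖ ∧
      ‖p j - p i‖ ≤ δ * (k : ℝ) ^ (3 / 4 : ℝ) + 2 := by
  have hk0 : (0 : ℝ) < k := by exact_mod_cast hk
  have hr := rk_pos hk
  obtain ⟨u, w, v, h1, h2, h3, h4⟩ := h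
  have h1' : (u : ℝ) ≤ w := h1
  have h2' : (w : ℝ) ≤ v := h2
  have n1 := crv_near hk hp (floor_dist hk u)
  have n2 := crv_near hk hp (floor_dist hk w)
  have n3 := crv_near hk hp (floor_dist hk v)
  refine ⟨⌊(u : ℝ) * k⌋₊, ⌊(w : ℝ) * k⌋₊, ⌊(v : ℝ) * k⌋₊, Nat.floor_le_floor (by nlinarith), Nat.floor_le_floor (by nlinarith),
    floor_le hk v, ?_, ?_⟩
  · have e1 := crv_dist (p := p) hk (floor_le hk u) (floor_le hk w)
    rw [eq_div_iff hr.ne'] at e1
    rw [← e1]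
    have t1 := dist_triangle4 (crv k p w) (crv k p (ti k _ (floor_le hk w))) (crv k p (ti k _ (floor_le hk u))) (crv k p u)
    rw [dist_comm (crv k p (ti k _ (floor_le hk u))) (crv k p u)] at t1
    have t2 : η - 2 / (k : ℝ) ^ (3 / 4 : ℝ) ≤ dist (crv k p (ti k _ (floor_le hk w))) (crv k p (ti k _ (floor_le hk u))) := by
      have : 2 / (k : ℝ) ^ (3 / 4 : ℝ) = 1 / (k : ℝ) ^ (3 / 4 : ℝ) + 1 / (k : ℝ) ^ (3 / 4 : ℝ) := by ring
      linarith
    have t3 := mul_le_mul_of_nonneg_right t2 hr.le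
    rw [sub_mul, div_mul_cancel₀ _ hr.ne'] at t3
    exact t3
  · have e1 := crv_dist (p := p) hk (floor_le hk u) (floor_le hk v)
    rw [eq_div_iff hr.ne'] at e1
    rw [← e1]
    have t1 := dist_triangle4 (crv k p (ti k _ (floor_le hk v))) (crv k p v) (crv k p u) (crv k p (ti k _ (floor_le hk u)))
    rw [dist_comm (crv k p (ti k _ (floor_le hk v))) (crv k p v)] at t1
    have t2 : dist (crv k p (ti k _ (floor_le hk v))) (crv k p (ti k _ (floor_le hk u))) ≤ δ + 2 / (k : ℝ) ^ (3 / 4 : ℝ) := by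
      have : 2 / (k : ℝ) ^ (3 / 4 : ℝ) = 1 / (k : ℝ) ^ (3 / 4 : ℝ) + 1 / (k : ℝ) ^ (3 / 4 : ℝ) := by ring
      linarith
    have t3 := mul_le_mul_of_nonneg_right t2 hr.le
    rw [add_mul, div_mul_cancel₀ _ hr.ne'] at t3
    exact t3

/-- **a nearly constant piece of the curve gives a slow piece of the points** -/
theorem crv_flat (hk : 1 ≤ k) (hp : ∀ j, j < k → ‖p (j + 1) - p j‖ ≤ 1) {h η : ℝ} (hh : 4 ≤ h * k) (hf : crv k p ∈ Flat h η) :
    ∃ i j : ℕ, i < j ∧ j ≤ k ∧ h * k / 2 ≤ (j : ℝ) - i ∧ ∀ l l' : ℕ, i ≤ l → l ≤ j → i ≤ l' → l' ≤ j →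
      ‖p l' - p l‖ ≤ 2 * η * (k : ℝ) ^ (3 / 4 : ℝ) := by
  have hk0 : (0 : ℝ) < k := by exact_mod_cast hk
  have hr := rk_pos hk
  obtain ⟨u, v, h1, h2, h3⟩ := hf
  have hu0 : 0 ≤ (u : ℝ) * k := mul_nonneg u.2.1 hk0.le
  have hv0 : 0 ≤ (v : ℝ) * k := mul_nonneg v.2.1 hk0.le
  obtain ⟨i, hi⟩ : ∃ i, i = ⌈(u : ℝ) * k⌉₊ := ⟨_, rfl⟩
  obtain ⟨j, hj⟩ : ∃ j, j = ⌊(v : ℝ) * k⌋₊ := ⟨_, rfl⟩
  have hi1 : (u : ℝ) * k ≤ i := hi ▸ Nat.le_ceil _
  have hi2 : (i : ℝ) < (u : ℝ) * k + 1 := hi ▸ Nat.ceil_lt_add_one hu0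
  have hj1 : (j : ℝ) ≤ (v : ℝ) * k := hj ▸ Nat.floor_le hv0
  have hj2 : (v : ℝ) * k < j + 1 := hj ▸ Nat.lt_floor_add_one _
  have hjk : j ≤ k := hj ▸ floor_le hk v
  have h1' : h * k ≤ ((v : ℝ) - u) * k := mul_le_mul_of_nonneg_right h1 hk0.le
  rw [sub_mul] at h1'
  have hlen : h * k / 2 ≤ (j : ℝ) - i := by linarith
  have hij : i < j := by
    have : (i : ℝ) < j := by linarith
    exact_mod_cast this
  refine ⟨i, j, hij, hjk, hlen, fun l l' a1 a2 a3 a4 => ?_⟩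
  have key : ∀ l : ℕ, ∀ hl : l ≤ k, i ≤ l → l ≤ j → dist (crv k p (ti k l hl)) (crv k p u) < η := by
    intro l hl b1 b2
    have b1' : (i : ℝ) ≤ l := by exact_mod_cast b1
    have b2' : (l : ℝ) ≤ j := by exact_mod_cast b2
    refine h3 _ ?_ ?_
    · show (u : ℝ) ≤ (l : ℝ) / k
      rw [le_div_iff₀ hk0]
      linarith
    · show (l : ℝ) / k ≤ (v : ℝ)
      rw [div_le_iff₀ hk0]
      linarith
  have c1 := key l (a2.trans hjk) a1 a2
  have c2 := key l' (a4.trans hjk) a3 a4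
  have e1 := crv_dist (p := p) hk (a2.trans hjk) (a4.trans hjk)
  rw [eq_div_iff hr.ne'] at e1
  rw [← e1]
  have c3 := dist_triangle_right (crv k p (ti k l' (a4.trans hjk))) (crv k p (ti k l (a2.trans hjk))) (crv k p u)
  exact mul_le_mul_of_nonneg_right (by linarith) hr.le

end

end Pool.Agent.TSW
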