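import Pool.Agent.TSW.Defs
import Mathlib.Dynamics.Ergodic.Ergodic
import Mathlib.MeasureTheory.Constructions.Cylinders
import Mathlib.MeasureTheory.Integral.Bochner.Set

/-!
# Two-sided walk: cylinders, shift, a criterion for ergodicity (helper41)

* `ext_cyl` : measures are determined by the cylinders;
* **`ergodic_of`** : if the frequencies of all the windows are deterministic in probability, the shift is ergodic.
-/

set_option autoImplicit false

open MeasureTheory Filter Topology Set
open scoped ENNReal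

namespace Pool.Agent.TSW

variable {m : ℕ}

lemma mem_cyl {a : ℤ} {S : Set (Fin m → Bool)} {ω : ℤ → Bool} : ω ∈ cyl a S ↔ (fun j : Fin m => ω (a + j)) ∈ S := Iff.rfl

lemma isClopen_cyl (a : ℤ) (S : Set (Fin m → Bool)) : IsClopen (cyl a S) := by
  have h1 : Continuous fun (ω : ℤ → Bool) (j : Fin m) => ω (a + j) := by fun_prop
  exact (isClopen_discrete S).preimage h1

lemma measurableSet_cyl (a : ℤ) (S : Set (Fin m → Bool)) : MeasurableSet (cyl a S) := (isClopen_cyl a S).isOpen.measurableSet

/-- the measurable cylinders are cylinders -/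
lemma exists_cyl {t : Set (ℤ → Bool)} (ht : t ∈ measurableCylinders fun _ : ℤ => Bool) :
    ∃ (a : ℤ) (m : ℕ) (S : Set (Fin m → Bool)), t = cyl a S := by
  rw [mem_measurableCylinders] at ht
  obtain ⟨s, S, -, rfl⟩ := ht
  obtain ⟨N, hN⟩ : ∃ N : ℕ, ∀ i ∈ s, -(N : ℤ) ≤ i ∧ i < N := by
    obtain ⟨N, hN⟩ : ∃ N : ℕ, ∀ i ∈ s, i.natAbs < N := by
      refine ⟨(s.sup fun i => i.natAbs) + 1, fun i hi => ?_⟩
      have := Finset.le_sup (f := fun i : ℤ => i.natAbs) hi
      exact Nat.lt_succ_of_le this
    refine ⟨N, fun i hi => ?_⟩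
    have := hN i hi
    omega
  refine ⟨-(N : ℤ), 2 * N, {p | (fun i : s => p ⟨((i : ℤ) + N).toNat, by have := hN i i.2; omega⟩) ∈ S}, ?_⟩
  ext ω
  rw [mem_cylinder, mem_cyl]
  have h1 : s.restrict ω = fun i : s => ω (-(N : ℤ) + (((i : ℤ) + N).toNat : ℕ)) := by
    funext i
    have := hN i i.2
    show ω i = _
    congr 1
    omega
  rw [h1]
  rfl

/-- measures are determined by the cylinders -/
lemma ext_cyl {μ ν : Measure (ℤ → Bool)} [IsFiniteMeasure μ] (h : ∀ (m : ℕ) (a : ℤ) (S : Set (Fin m → Bool)),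
    μ (cyl a S) = ν (cyl a S)) : μ = ν := by
  refine ext_of_generate_finite (measurableCylinders fun _ : ℤ => Bool) generateFrom_measurableCylinders.symm
    isPiSystem_measurableCylinders (fun t ht => ?_) ?_
  · obtain ⟨a, m, S, rfl⟩ := exists_cyl ht
    exact h m a S
  · have h1 := h 0 0 univ
    have h2 : cyl (m := 0) (0 : ℤ) univ = univ := by
      ext ω
      simp [mem_cyl]
    rwa [h2] at h1

/-! ### the shift -/

lemma continuous_shift : Continuous shift := by
  unfold shift
  fun_prop

lemma shift_cyl (a : ℤ) (S : Set (Fin m → Bool)) : shift ⁻¹' cyl a S = cyl (a + 1) S := by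
  ext ω
  rw [mem_preimage, mem_cyl, mem_cyl]
  have : (fun j : Fin m => shift ω (a + j)) = fun j : Fin m => ω (a + 1 + j) := by
    funext j
    show ω (a + j + 1) = _
    congr 1
    ring
  rw [this]

/-- invariance from the cylinders -/
lemma preserving_of {Q : Measure (ℤ → Bool)} [IsProbabilityMeasure Q]
    (h : ∀ (m : ℕ) (a : ℤ) (S : Set (Fin m → Bool)), Q (cyl (a + 1) S) = Q (cyl a S)) : MeasurePreserving shift Q Q := by
  refine ⟨continuous_shift.measurable, ?_⟩
  have : IsProbabilityMeasure (Q.map shift) := Measure.isProbabilityMeasure_map continuous_shift.measurable.aemeasurable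
  refine ext_cyl fun m a S => ?_
  rw [Measure.map_apply continuous_shift.measurable (measurableSet_cyl a S), shift_cyl]
  exact h m a S

/-- number of windows in `S` which start in `[0, k)` -/
noncomputable def cnt (S : Set (Fin m → Bool)) (k : ℕ) (ω : ℤ → Bool) : ℝ :=
  ∑ j ∈ Finset.range k, (cyl (j : ℤ) S).indicator (fun _ => (1 : ℝ)) ω

lemma cnt_nonneg (S : Set (Fin m → Bool)) (k : ℕ) (ω : ℤ → Bool) : 0 ≤ cnt S k ω :=
  Finset.sum_nonneg fun j _ => indicator_nonneg (fun _ _ => zero_le_one) _

lemma cnt_le (S : Set (Fin m → Bool)) (k : ℕ) (ω : ℤ → Bool) : cnt S k ω ≤ k := by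
  unfold cnt
  calc ∑ j ∈ Finset.range k, (cyl (j : ℤ) S).indicator (fun _ => (1 : ℝ)) ω ≤ ∑ j ∈ Finset.range k, (1 : ℝ) :=
        Finset.sum_le_sum fun j _ => indicator_le_self' (fun _ _ => zero_le_one) _
    _ = k := by simp

lemma measurable_cnt (S : Set (Fin m → Bool)) (k : ℕ) : Measurable (cnt S k) := by
  unfold cnt
  exact Finset.measurable_fun_sum _ fun j _ => measurable_const.indicator (measurableSet_cyl _ S)

variable {Q : Measure (ℤ → Bool)} [IsProbabilityMeasure Q]

/-- an invariant event does not see the place of the window -/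
lemma inv_cyl (hT : MeasurePreserving shift Q Q) {A : Set (ℤ → Bool)} (hA : MeasurableSet A) (hAT : shift ⁻¹' A = A)
    (S : Set (Fin m → Bool)) (a : ℤ) : Q (A ∩ cyl a S) = Q (A ∩ cyl 0 S) := by
  have step : ∀ b : ℤ, Q (A ∩ cyl (b + 1) S) = Q (A ∩ cyl b S) := by
    intro b
    have h1 := hT.measure_preimage (hA.inter (measurableSet_cyl b S)).nullMeasurableSet
    rw [preimage_inter, hAT, shift_cyl] at h1
    exact h1
  induction a using Int.induction_on with
  | zero => rfl
  | succ i ih => rw [step, ih]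
  | pred i ih =>
    rw [← ih]
    have := step (-(i : ℤ) - 1)
    rw [sub_add_cancel] at this
    exact this.symm

/-- the mean of the number of windows on an invariant event -/
lemma int_cnt (hT : MeasurePreserving shift Q Q) {A : Set (ℤ → Bool)} (hA : MeasurableSet A) (hAT : shift ⁻¹' A = A)
    (S : Set (Fin m → Bool)) (k : ℕ) : ∫ ω in A, cnt S k ω ∂Q = k * Q.real (A ∩ cyl 0 S) := by
  unfold cnt
  rw [integral_finsetSum]
  · have h1 : ∀ j ∈ Finset.range k, ∫ ω in A, (cyl (j : ℤ) S).indicator (fun _ => (1 : ℝ)) ω ∂Q = Q.real (A ∩ cyl 0 S) := by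
      intro j _
      rw [integral_indicator (measurableSet_cyl _ S), Measure.restrict_restrict (measurableSet_cyl _ S)]
      rw [setIntegral_const, smul_eq_mul, mul_one, inter_comm]
      unfold Measure.real
      rw [inv_cyl hT hA hAT S j]
    rw [Finset.sum_congr rfl h1, Finset.sum_const, Finset.card_range, nsmul_eq_mul]
  · exact fun j _ => ((integrable_const (1 : ℝ)).indicator (measurableSet_cyl _ S)).integrableOn

/-- the frequencies are deterministic: mixing of an invariant event and a window -/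
lemma indep_of (hT : MeasurePreserving shift Q Q) {A : Set (ℤ → Bool)} (hA : MeasurableSet A) (hAT : shift ⁻¹' A = A)
    (S : Set (Fin m → Bool)) (hS : ∀ ε : ℝ, 0 < ε → ∃ k : ℕ, 1 ≤ k ∧
      Q {ω | ε * k < |cnt S k ω - Q.real (cyl 0 S) * k|} ≤ ENNReal.ofReal ε) (a : ℤ) :
    Q.real (A ∩ cyl a S) = Q.real A * Q.real (cyl a S) := by
  have e1 : Q.real (A ∩ cyl a S) = Q.real (A ∩ cyl 0 S) := by
    unfold Measure.real
    rw [inv_cyl hT hA hAT]
  have e2 : Q.real (cyl a S) = Q.real (cyl 0 S) := by
    have h1 := inv_cyl (Q := Q) hT MeasurableSet.univ preimage_univ S a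
    rw [univ_inter, univ_inter] at h1
    unfold Measure.real
    rw [h1]
  rw [e1, e2]
  obtain ⟨ρ, hρ⟩ : ∃ ρ, ρ = Q.real (cyl 0 S) := ⟨_, rfl⟩
  rw [← hρ] at hS ⊢
  have hρ0 : 0 ≤ ρ := by rw [hρ]; exact measureReal_nonneg
  have hρ1 : ρ ≤ 1 := by rw [hρ]; exact measureReal_le_one
  have key : ∀ ε : ℝ, 0 < ε → |Q.real (A ∩ cyl 0 S) - Q.real A * ρ| ≤ 2 * ε := by
    intro ε hε
    obtain ⟨k, hk, hB⟩ := hS ε hε
    obtain ⟨B, hBd⟩ : ∃ B : Set (ℤ → Bool), B = {ω | ε * k < |cnt S k ω - ρ * k|} := ⟨_, rfl⟩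
    rw [← hBd] at hB
    have hk0 : (0 : ℝ) < k := by exact_mod_cast hk
    have hmB : MeasurableSet B := by
      rw [hBd]
      exact measurableSet_lt measurable_const (((measurable_cnt S k).sub measurable_const).norm)
    have hB' : Q.real B ≤ ε := by
      unfold Measure.real
      exact ENNReal.toReal_le_of_le_ofReal hε.le hB
    have hbd : ∀ ω, |cnt S k ω - ρ * k| ≤ ε * k + B.indicator (fun _ => (k : ℝ)) ω := by
      intro ω
      by_cases h : ω ∈ B
      · rw [indicator_of_mem h, abs_le]
        have h1 := cnt_nonneg S k ω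
        have h2 := cnt_le S k ω
        have h3 : 0 ≤ ρ * k := by positivity
        have h4 : ρ * k ≤ k := mul_le_of_le_one_left hk0.le hρ1
        have h5 : 0 ≤ ε * k := by positivity
        constructor <;> linarith
      · rw [indicator_of_notMem h, add_zero]
        rw [hBd, mem_setOf_eq, not_lt] at h
        exact h
    have hi1 : Integrable (cnt S k) Q := by
      refine Integrable.of_bound (measurable_cnt S k).aestronglyMeasurable k (Eventually.of_forall fun ω => ?_)
      rw [Real.norm_eq_abs, abs_of_nonneg (cnt_nonneg S k ω)]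
      exact cnt_le S k ω
    have hi2 : Integrable (fun ω => cnt S k ω - ρ * k) Q := hi1.sub (integrable_const _)
    have hi3 : Integrable (fun ω => ε * k + B.indicator (fun _ => (k : ℝ)) ω) Q :=
      (integrable_const _).add ((integrable_const _).indicator hmB)
    have h1 : ∫ ω in A, (cnt S k ω - ρ * k) ∂Q = k * (Q.real (A ∩ cyl 0 S) - Q.real A * ρ) := by
      rw [integral_sub hi1.integrableOn (integrable_const _).integrableOn, int_cnt hT hA hAT, setIntegral_const,
        smul_eq_mul]
      ring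
    have h2 : |∫ ω in A, (cnt S k ω - ρ * k) ∂Q| ≤ 2 * ε * k := by
      calc |∫ ω in A, (cnt S k ω - ρ * k) ∂Q| ≤ ∫ ω in A, |cnt S k ω - ρ * k| ∂Q := abs_integral_le_integral_abs
        _ ≤ ∫ ω, |cnt S k ω - ρ * k| ∂Q := setIntegral_le_integral hi2.abs (Eventually.of_forall fun ω => abs_nonneg _)
        _ ≤ ∫ ω, (ε * k + B.indicator (fun _ => (k : ℝ)) ω) ∂Q := integral_mono hi2.abs hi3 hbd
        _ = ε * k + Q.real B * k := by
            rw [integral_add (integrable_const _) ((integrable_const _).indicator hmB), integral_indicator hmB,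
              setIntegral_const, integral_const, probReal_univ]
            simp
        _ ≤ 2 * ε * k := by nlinarith
    rw [h1, abs_mul, abs_of_pos hk0] at h2
    have h3 : k * |Q.real (A ∩ cyl 0 S) - Q.real A * ρ| ≤ k * (2 * ε) := by linarith
    exact le_of_mul_le_mul_left h3 hk0
  have h0 : |Q.real (A ∩ cyl 0 S) - Q.real A * ρ| ≤ 0 := by
    refine le_of_forall_pos_le_add fun ε hε => ?_
    have := key (ε / 2) (half_pos hε)
    linarith
  have := abs_nonpos_iff.1 h0
  linarith

/-- **a criterion for ergodicity** -/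
theorem ergodic_of (hT : MeasurePreserving shift Q Q) (hS : ∀ (m : ℕ) (S : Set (Fin m → Bool)) (ε : ℝ), 0 < ε → ∃ k : ℕ, 1 ≤ k ∧
      Q {ω | ε * k < |cnt S k ω - Q.real (cyl 0 S) * k|} ≤ ENNReal.ofReal ε) : Ergodic shift Q := by
  refine ⟨hT, ⟨fun A hA hAT => ?_⟩⟩
  have h1 : Q.restrict A = Q A • Q := by
    have : IsFiniteMeasure (Q.restrict A) := inferInstance
    refine ext_cyl fun m a S => ?_
    rw [Measure.restrict_apply (measurableSet_cyl a S), Measure.smul_apply, smul_eq_mul, inter_comm]
    have h2 := indep_of hT hA hAT S (hS m S) a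
    unfold Measure.real at h2
    rw [← ENNReal.toReal_mul] at h2
    exact (ENNReal.toReal_eq_toReal_iff' (measure_ne_top _ _)
      (ENNReal.mul_ne_top (measure_ne_top _ _) (measure_ne_top _ _))).1 h2
  have h2 : Q A = Q A * Q A := by
    have h3 := congrArg (fun μ : Measure (ℤ → Bool) => μ A) h1
    simp only [Measure.restrict_apply_self, Measure.smul_apply, smul_eq_mul] at h3
    exact h3
  rw [eventuallyConst_set']
  rcases eq_or_ne (Q A) 0 with h3 | h3
  · left
    exact ae_eq_empty.2 h3
  · right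
    have h4 : Q A = 1 := by
      have h5 := measure_ne_top Q A
      have h6 : Q A * 1 = Q A * Q A := by
        rw [mul_one]
        exact h2
      exact ((ENNReal.mul_right_inj h3 h5).1 h6).symm
    rw [ae_eq_univ, measure_compl hA (measure_ne_top _ _), measure_univ, h4, tsub_self]

end Pool.Agent.TSW
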