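import Pool.Agent.NTS.ResDefs

/-!
# ERG, Q8 (doc ERG/Q8_66): the two-sided infinite walk. Definitions and literals (helper41, design helper66)

Turn sequences `ℤ → Bool` (`true` = left turn by 60 degrees). Public objects of `NTS.Res`: `saw`, `pos`, `step`.
-/

set_option autoImplicit false

open MeasureTheory Filter Topology
open scoped ENNReal Classical

namespace Pool.Agent.TSW

open Pool.Agent.NTS.Res

/-- the turn between the steps `i` and `i + 1` -/
def turn {n : ℕ} (s : Fin n → Fin 3) (i : ℕ) : Bool :=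
  if h : i + 1 < n then decide (s ⟨i + 1, h⟩ - s ⟨i, Nat.lt_of_succ_lt h⟩ = 2) else false

/-- number of the windows of `m` turns in `S`, starting at `i ∈ [a, b)` -/
noncomputable def hits {n : ℕ} (s : Fin n → Fin 3) {m : ℕ} (S : Set (Fin m → Bool)) (a b : ℕ) : ℕ :=
  ((Finset.Ico a b).filter fun i => i + m < n ∧ (fun j : Fin m => turn s (i + j)) ∈ S).card

/-- the walk seen from the step `i` -/
def seen {n : ℕ} (s : Fin n → Fin 3) (i : ℕ) : ℤ → Bool :=
  fun j => if 0 ≤ (i : ℤ) + j then turn s ((i : ℤ) + j).toNat else false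

/-- left minus right turns -/
def sg (b : Bool) : ℤ := if b then 1 else -1

/-- the displacement of the steps `a, ..., a + m - 1`, relative to the direction of the step `a` -/
noncomputable def disp (ω : ℤ → Bool) (a : ℤ) (m : ℕ) : ℂ :=
  ∑ k ∈ Finset.range m, Complex.exp (Real.pi / 3 * Complex.I * ((∑ l ∈ Finset.range k, sg (ω (a + l)) : ℤ) : ℂ))

/-- the density of the patterns `S` is `ρ` -/
def Den {m : ℕ} (S : Set (Fin m → Bool)) (ρ : ℝ) : Prop := ∀ ε : ℝ, 0 < ε → ∀ᶠ n : ℕ in atTop,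
  (((saw n).filter fun s => ∃ a b : ℕ, a ≤ b ∧ b ≤ n ∧ ε * n < |(hits s S a b : ℝ) - ρ * ((b : ℝ) - a)|).card : ℝ) ≤
    ε * (saw n).card

/-- **input of Q8 (layer B)**: the densities exist -/
def DenF : Prop := ∀ (m : ℕ) (S : Set (Fin m → Bool)), ∃ ρ : ℝ, Den S ρ

/-- **input of Q8 (layer B)**: most of the windows of `k` steps have the density `ρ` -/
def BulkF : Prop := ∀ (m : ℕ) (S : Set (Fin m → Bool)) (ρ : ℝ), Den S ρ → ∀ ε : ℝ, 0 < ε → ∃ k0 : ℕ, ∀ k : ℕ, k0 ≤ k →
  ∀ᶠ n : ℕ in atTop, ((∑ s ∈ saw n, ((Finset.range n).filter fun i =>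
    ε * k < |(hits s S i (i + k) : ℝ) - ρ * k|).card : ℕ) : ℝ) ≤ ε * (n * (saw n).card)

/-- the cylinder events -/
def cyl {m : ℕ} (a : ℤ) (S : Set (Fin m → Bool)) : Set (ℤ → Bool) := {ω | (fun j : Fin m => ω (a + j)) ∈ S}

/-- the shift -/
def shift (ω : ℤ → Bool) : ℤ → Bool := fun j => ω (j + 1)

/-- the law of the walk with `n` steps seen from a uniform step -/
noncomputable def law2 (n : ℕ) : Measure (ℤ → Bool) :=
  ∑ s ∈ saw n, ∑ i ∈ Finset.range n, ((n * (saw n).card : ℕ) : ℝ≥0∞)⁻¹ • Measure.dirac (seen s i)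

end Pool.Agent.TSW
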