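import Pool.Agent.TSW.Defs
import Pool.Agent.NTS.Dict
import Pool.Agent.NPR.RevN
import Pool.Agent.NPR.StageA

/-!
# TSW, layer B (helper22): the windows of the turns of a walk and the factors of its word

* `hitw s Φ a b` : the sum of the weights `Φ` of the windows of `m` turns which start in `[a, b)`; `VW Φ u` : the same sum for
  all the windows of the word `u`.
* `VW_le`, `VW_ge` : additive up to `m`; `hitw_VW` : the sums agree up to `m`; `saw_of_Pn` : proportions.
-/

set_option autoImplicit false

open Finset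

namespace Pool.Agent.TSW

open HexObs hiding pos turn
open HexObs.NPR
open Pool.Agent.NTS.Res
open NTF (sw aa de Ed JJ)
open NTSF (rot)

/-- the sum of the weights of the windows of the walk which start in [a, b) -/
noncomputable def hitw {n : ℕ} (s : Fin n → Fin 3) {m : ℕ} (Φ : (Fin m → Bool) → ℝ) (a b : ℕ) : ℝ :=
  ∑ i ∈ Finset.Ico a b, if i + m < n then Φ (fun j : Fin m => turn s (i + j)) else 0

/-- the sum of the weights of the windows of the word -/
noncomputable def VW {m : ℕ} (Φ : (Fin m → Bool) → ℝ) (u : List Bool) : ℝ :=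
  ∑ x ∈ range u.length, if x + m ≤ u.length then Φ (fun j : Fin m => tf u (x + j)) else 0

/-! ### turns -/

lemma turn_dir : ∀ d ∈ dirs, ∀ b : Bool, decide (aa (HexObs.turn b d) - aa d = 2) = b := by decide

lemma turn_sw {n : ℕ} (t : List Bool) {i : ℕ} (h : i + 1 < n) : turn (sw n t) i = tf t i := by
  unfold turn
  rw [dif_pos h]
  show decide (aa (dx up t (i + 1)) - aa (dx up t i) = 2) = tf t i
  rw [dx_succ]
  exact turn_dir _ (dx_mem upd t i) _

lemma turn_rot {n : ℕ} (s : Fin n → Fin 3) (i : ℕ) : turn (rot s) i = turn s i := by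
  unfold turn
  split_ifs with h
  · show decide (s ⟨i + 1, h⟩ + 1 - (s ⟨i, Nat.lt_of_succ_lt h⟩ + 1) = 2) = _
    rw [add_sub_add_right_eq_sub]
  · rfl

lemma hitw_rot {n : ℕ} (s : Fin n → Fin 3) {m : ℕ} (Φ : (Fin m → Bool) → ℝ) (a b : ℕ) :
    hitw (rot s) Φ a b = hitw s Φ a b := by
  unfold hitw
  refine sum_congr rfl fun i _ => ?_
  have : (fun j : Fin m => turn (rot s) (i + j)) = fun j : Fin m => turn s (i + j) := by
    funext j
    exact turn_rot s _
  rw [this]

open Classical in
/-- the number of the windows in S -/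
lemma hits_eq {n : ℕ} (s : Fin n → Fin 3) {m : ℕ} (S : Set (Fin m → Bool)) (a b : ℕ) :
    (hits s S a b : ℝ) = hitw s (fun x => if x ∈ S then 1 else 0) a b := by
  unfold hits hitw
  rw [Finset.card_filter]
  push_cast
  refine sum_congr rfl fun i _ => ?_
  by_cases h1 : i + m < n
  · by_cases h2 : (fun j : Fin m => turn s (i + j)) ∈ S
    · rw [if_pos ⟨h1, h2⟩, if_pos h1, if_pos h2]
    · rw [if_neg fun h => h2 h.2, if_pos h1, if_neg h2]
  · rw [if_neg fun h => h1 h.1, if_neg h1]

/-! ### words -/

section word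

variable {m : ℕ} {Φ : (Fin m → Bool) → ℝ} (hΦ : ∀ x, 0 ≤ Φ x ∧ Φ x ≤ 1)

include hΦ

lemma VW_nonneg (u : List Bool) : 0 ≤ VW Φ u := by
  refine sum_nonneg fun x _ => ?_
  split_ifs
  · exact (hΦ _).1
  · exact le_rfl

lemma VW_len (u : List Bool) : VW Φ u ≤ u.length := by
  refine (sum_le_card_nsmul _ _ 1 fun x _ => ?_).trans (by rw [card_range, nsmul_eq_mul, mul_one])
  split_ifs
  · exact (hΦ _).2
  · exact zero_le_one

lemma VW_app (u v : List Bool) : VW Φ u + VW Φ v ≤ VW Φ (u ++ v) ∧ VW Φ (u ++ v) ≤ VW Φ u + VW Φ v + m := by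
  have h1 : VW Φ (u ++ v) = (∑ x ∈ range u.length, if x + m ≤ u.length + v.length then
      Φ (fun j : Fin m => tf (u ++ v) (x + j)) else 0) + VW Φ v := by
    unfold VW
    rw [List.length_append, Finset.sum_range_add]
    congr 1
    refine sum_congr rfl fun x _ => ?_
    have e : (fun j : Fin m => tf (u ++ v) (u.length + x + j)) = fun j : Fin m => tf v (x + j) := by
      funext j
      rw [add_assoc, tf_append_right]
    rw [e]
    by_cases h : x + m ≤ v.length
    · rw [if_pos h, if_pos (by omega)]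
    · rw [if_neg h, if_neg (by omega)]
  have h2 : ∀ x ∈ range u.length, (0 : ℝ) ≤ (if x + m ≤ u.length + v.length then
      Φ (fun j : Fin m => tf (u ++ v) (x + j)) else 0) - (if x + m ≤ u.length then Φ (fun j : Fin m => tf u (x + j)) else 0) ∧
      (if x + m ≤ u.length + v.length then
      Φ (fun j : Fin m => tf (u ++ v) (x + j)) else 0) - (if x + m ≤ u.length then Φ (fun j : Fin m => tf u (x + j)) else 0) ≤
      if u.length - m ≤ x then (1 : ℝ) else 0 := by
    intro x hx
    rw [mem_range] at hx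
    by_cases h : x + m ≤ u.length
    · have e : (fun j : Fin m => tf (u ++ v) (x + j)) = fun j : Fin m => tf u (x + j) := by
        funext j
        rw [tf_append_left (by omega)]
      rw [if_pos h, if_pos (by omega), e, sub_self]
      refine ⟨le_rfl, ?_⟩
      split_ifs
      · exact zero_le_one
      · exact le_rfl
    · rw [if_neg h, if_pos (show u.length - m ≤ x by omega), sub_zero]
      split_ifs
      · exact hΦ _
      · exact ⟨le_rfl, zero_le_one⟩
  have h3 : (∑ x ∈ range u.length, if u.length - m ≤ x then (1 : ℝ) else 0) ≤ m := by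
    rw [← Finset.sum_filter, sum_const, nsmul_eq_mul, mul_one]
    have : ((range u.length).filter fun x => u.length - m ≤ x) ⊆ Finset.Ico (u.length - m) u.length := by
      intro x hx
      rw [Finset.mem_filter, mem_range] at hx
      rw [Finset.mem_Ico]
      exact ⟨hx.2, hx.1⟩
    have := card_le_card this
    rw [Nat.card_Ico] at this
    exact_mod_cast this.trans (by omega)
  have h4 : (∑ x ∈ range u.length, if x + m ≤ u.length + v.length then
      Φ (fun j : Fin m => tf (u ++ v) (x + j)) else 0) - VW Φ u =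
      ∑ x ∈ range u.length, ((if x + m ≤ u.length + v.length then
      Φ (fun j : Fin m => tf (u ++ v) (x + j)) else 0) -
        (if x + m ≤ u.length then Φ (fun j : Fin m => tf u (x + j)) else 0)) := by
    unfold VW
    rw [sum_sub_distrib]
  have h5 := sum_nonneg fun x hx => (h2 x hx).1
  have h6 := (sum_le_sum fun x hx => (h2 x hx).2).trans h3
  rw [← h4] at h5 h6
  rw [h1]
  constructor <;> linarith

/-- the additive functional of the engine -/
lemma add1_VW : Add1 (fun u => VW Φ u / (m + 1) + 1) where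
  pos := fun u => by
    have := VW_nonneg hΦ u
    positivity
  le := fun u v => by
    have h1 := (VW_app hΦ u v).2
    have hm : (0 : ℝ) < m + 1 := by positivity
    have h2 : VW Φ (u ++ v) / (m + 1) ≤ (VW Φ u + VW Φ v + (m + 1)) / (m + 1) := by
      gcongr
      linarith
    rw [add_div, add_div, div_self hm.ne'] at h2
    linarith
  ge := fun u v => by
    have h1 := (VW_app hΦ u v).1
    have h2 : (VW Φ u + VW Φ v) / ((m : ℝ) + 1) ≤ VW Φ (u ++ v) / (m + 1) := by gcongr
    rw [add_div] at h2
    linarith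

lemma bd_VW (u : List Bool) : ((m : ℝ) + 1) * (VW Φ u / (m + 1) + 1) ≤ 1 * (u.length + (m + 1)) := by
  have h1 := VW_len hΦ u
  have hm : (0 : ℝ) < m + 1 := by positivity
  rw [mul_add, mul_div_cancel₀ _ hm.ne']
  linarith

/-- the walk and the word -/
lemma hitw_VW {n : ℕ} {t : List Bool} (ht : t.length = n) {a b : ℕ} (hab : a ≤ b) (hb : b ≤ n) :
    |hitw (sw n t) Φ a b - VW Φ (wd t a b)| ≤ m := by
  have hlen : (wd t a b).length = b - a := wd_len (by rw [ht]; exact hb)
  have h1 : VW Φ (wd t a b) = ∑ i ∈ Finset.Ico a b, if i + m ≤ b then Φ (fun j : Fin m => tf t (i + j)) else 0 := by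
    unfold VW
    rw [hlen, Finset.sum_Ico_eq_sum_range]
    refine sum_congr rfl fun x hx => ?_
    rw [mem_range] at hx
    by_cases h : x + m ≤ b - a
    · rw [if_pos h, if_pos (by omega)]
      congr 1
      funext j
      have hj := j.2
      unfold wd tf
      rw [List.getD_eq_getElem?_getD, List.getD_eq_getElem?_getD, List.getElem?_drop, List.getElem?_take, if_pos (by omega)]
      congr 2
      omega
    · rw [if_neg h, if_neg (by omega)]
  have h2 : hitw (sw n t) Φ a b - VW Φ (wd t a b) = ∑ i ∈ Finset.Ico a b,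
      ((if i + m < n then Φ (fun j : Fin m => turn (sw n t) (i + j)) else 0) -
        if i + m ≤ b then Φ (fun j : Fin m => tf t (i + j)) else 0) := by
    rw [h1]
    unfold hitw
    rw [sum_sub_distrib]
  have h3 : ∀ i ∈ Finset.Ico a b, |(if i + m < n then Φ (fun j : Fin m => turn (sw n t) (i + j)) else 0) -
        (if i + m ≤ b then Φ (fun j : Fin m => tf t (i + j)) else 0)| ≤ if b - m ≤ i then (1 : ℝ) else 0 := by
    intro i hi
    rw [Finset.mem_Ico] at hi
    by_cases h4 : i + m < b
    · have e : (fun j : Fin m => turn (sw n t) (i + j)) = fun j : Fin m => tf t (i + j) := by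
        funext j
        have hj := j.2
        exact turn_sw t (by omega)
      rw [if_pos (by omega), if_pos h4.le, e, sub_self, abs_zero]
      split_ifs
      · exact zero_le_one
      · exact le_rfl
    · rw [if_pos (show b - m ≤ i by omega)]
      have h5 : ∀ p q : ℝ, 0 ≤ p → p ≤ 1 → 0 ≤ q → q ≤ 1 → |p - q| ≤ 1 := by
        intro p q h1 h2 h3 h4
        rw [abs_le]
        constructor <;> linarith
      refine h5 _ _ ?_ ?_ ?_ ?_
      · split_ifs
        · exact (hΦ _).1
        · exact le_rfl
      · split_ifs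
        · exact (hΦ _).2
        · exact zero_le_one
      · split_ifs
        · exact (hΦ _).1
        · exact le_rfl
      · split_ifs
        · exact (hΦ _).2
        · exact zero_le_one
  have h4 : (∑ i ∈ Finset.Ico a b, if b - m ≤ i then (1 : ℝ) else 0) ≤ m := by
    rw [← Finset.sum_filter, sum_const, nsmul_eq_mul, mul_one]
    have : ((Finset.Ico a b).filter fun i => b - m ≤ i) ⊆ Finset.Ico (b - m) b := by
      intro x hx
      rw [Finset.mem_filter, Finset.mem_Ico] at hx
      rw [Finset.mem_Ico]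
      exact ⟨hx.2, hx.1.2⟩
    have := card_le_card this
    rw [Nat.card_Ico] at this
    exact_mod_cast this.trans (by omega)
  rw [h2]
  exact (abs_sum_le_sum_abs _ _).trans ((sum_le_sum h3).trans h4)

end word

/-- **proportions** -/
theorem saw_of_Pn {n : ℕ} (hn : 0 < n) (P : (Fin n → Fin 3) → Prop) [DecidablePred P] (hP : ∀ s, P (rot s) ↔ P s)
    {C : Set (List Bool)} (hC : ∀ t ∈ SawN n, P (sw n t) → t ∈ C) {c : ℝ} (h : TOG.Pn n C ≤ c) :
    (((saw n).filter P).card : ℝ) ≤ c * ((saw n).card : ℝ) := by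
  have h1 := NTSF.card_saw hn P hP
  have h2 := NTSF.card_saw hn (fun _ => True) (fun _ => Iff.rfl)
  rw [Finset.filter_true_of_mem (fun _ _ => trivial)] at h2
  have h3 : {t | t ∈ SawN n ∧ True}.ncard = cS n := by
    have : {t : List Bool | t ∈ SawN n ∧ True} = SawN n := by
      ext t
      simp
    rw [this]
    rfl
  have h3' : {t | t ∈ SawN n ∧ (fun _ : Fin n → Fin 3 => True) (sw n t)}.ncard = cS n := h3
  rw [h3'] at h2
  have h4 : {t | t ∈ SawN n ∧ P (sw n t)}.ncard ≤ {t | t ∈ SawN n ∧ t ∈ C}.ncard :=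
    Set.ncard_le_ncard (fun t ht => ⟨ht.1, hC t ht.1 ht.2⟩) (RevX.pn_fin n C)
  have h5 : (0 : ℝ) < cS n := Pool.Agent.IW.cS_pos hn
  unfold TOG.Pn at h
  rw [div_le_iff₀ h5] at h
  have h6 : (2 : ℝ) * (((saw n).filter P).card : ℝ) = 3 * ({t | t ∈ SawN n ∧ P (sw n t)}.ncard : ℝ) := by exact_mod_cast h1
  have h7 : (2 : ℝ) * ((saw n).card : ℝ) = 3 * (cS n : ℝ) := by exact_mod_cast h2
  have h8 : ({t | t ∈ SawN n ∧ P (sw n t)}.ncard : ℝ) ≤ ({t | t ∈ SawN n ∧ t ∈ C}.ncard : ℝ) := by exact_mod_cast h4
  have h9 : c * (2 * ((saw n).card : ℝ)) = c * (3 * (cS n : ℝ)) := by rw [h7]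
  linarith

end Pool.Agent.TSW
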