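import Pool.Agent.TSW.Cyl
import Pool.Agent.NTS.Base

/-!
# Two-sided walk: the finite walks seen from a uniform step (helper41)

* `law2_real` : the mass of an event; `law2_prob`;
* `law2_cyl` : the mass of a cylinder converges to the density;
* `law2_cnt` : the frequencies in a window of `k` steps.
-/

set_option autoImplicit false

open MeasureTheory Filter Topology Set
open scoped ENNReal Classical

namespace Pool.Agent.TSW

open Pool.Agent.NTS.Res

variable {n m : ℕ}

/-- number of the steps from which the walk is seen in `E` -/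
noncomputable def ns (s : Fin n → Fin 3) (E : Set (ℤ → Bool)) : ℕ := ((Finset.range n).filter fun i => seen s i ∈ E).card

lemma ns_le (s : Fin n → Fin 3) (E : Set (ℤ → Bool)) : ns s E ≤ n := by
  unfold ns
  exact (Finset.card_filter_le _ _).trans (Finset.card_range n).le

lemma law2_apply {E : Set (ℤ → Bool)} (hE : MeasurableSet E) :
    law2 n E = ((n * (saw n).card : ℕ) : ℝ≥0∞)⁻¹ * ((∑ s ∈ saw n, ns s E : ℕ) : ℝ≥0∞) := by
  unfold law2
  rw [Measure.finsetSum_apply]
  have h : ∀ s ∈ saw n, (∑ i ∈ Finset.range n, ((n * (saw n).card : ℕ) : ℝ≥0∞)⁻¹ • Measure.dirac (seen s i)) E =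
      ((n * (saw n).card : ℕ) : ℝ≥0∞)⁻¹ * (ns s E : ℝ≥0∞) := by
    intro s _
    rw [Measure.finsetSum_apply]
    have h2 : ∀ i ∈ Finset.range n, (((n * (saw n).card : ℕ) : ℝ≥0∞)⁻¹ • Measure.dirac (seen s i)) E =
        ((n * (saw n).card : ℕ) : ℝ≥0∞)⁻¹ * (if seen s i ∈ E then 1 else 0) := by
      intro i _
      rw [Measure.smul_apply, Measure.dirac_apply' _ hE, smul_eq_mul, indicator_apply, Pi.one_apply]
    rw [Finset.sum_congr rfl h2, ← Finset.mul_sum]
    congr 1
    unfold ns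
    rw [Finset.card_filter]
    push_cast
    rfl
  rw [Finset.sum_congr rfl h, ← Finset.mul_sum]
  push_cast
  rfl

lemma card_pos' (hn : 1 ≤ n) : 0 < n * (saw n).card := Nat.mul_pos hn (NTSF.saw_nonempty n).card_pos

lemma law2_prob (hn : 1 ≤ n) : IsProbabilityMeasure (law2 n) := by
  constructor
  rw [law2_apply MeasurableSet.univ]
  have h1 : ∑ s ∈ saw n, ns s univ = n * (saw n).card := by
    have h2 : ∀ s ∈ saw n, ns s univ = n := by
      intro s _
      unfold ns
      refine (congrArg Finset.card ?_).trans (Finset.card_range n)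
      ext i
      simp
    rw [Finset.sum_congr rfl h2, Finset.sum_const, smul_eq_mul, mul_comm]
  rw [h1]
  have h2 := card_pos' hn
  exact ENNReal.inv_mul_cancel (by exact_mod_cast h2.ne') (ENNReal.natCast_ne_top _)

lemma law2_real {E : Set (ℤ → Bool)} (hE : MeasurableSet E) :
    (law2 n).real E = (∑ s ∈ saw n, (ns s E : ℝ)) / (n * (saw n).card) := by
  unfold Measure.real
  rw [law2_apply hE, ENNReal.toReal_mul, ENNReal.toReal_inv, ENNReal.toReal_natCast, ENNReal.toReal_natCast]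
  push_cast
  rw [div_eq_inv_mul]

/-! ### windows -/

lemma seen_nat (s : Fin n → Fin 3) {i : ℕ} {a : ℤ} (h : 0 ≤ (i : ℤ) + a) (l : ℕ) :
    seen s i (a + l) = turn s (((i : ℤ) + a).toNat + l) := by
  unfold seen
  rw [if_pos (by omega)]
  congr 1
  omega

lemma seen_cyl (s : Fin n → Fin 3) {i : ℕ} {a : ℤ} (h : 0 ≤ (i : ℤ) + a) (S : Set (Fin m → Bool)) :
    seen s i ∈ cyl a S ↔ (fun j : Fin m => turn s (((i : ℤ) + a).toNat + j)) ∈ S := by
  rw [mem_cyl]
  have h1 : (fun j : Fin m => seen s i (a + j)) = fun j : Fin m => turn s (((i : ℤ) + a).toNat + j) := by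
    funext j
    exact seen_nat s h j
  rw [h1]

lemma card_le_bad {F1 F2 bad : Finset ℕ} (f : ℕ → ℕ) (h : ∀ i ∈ F1, i ∉ bad → f i ∈ F2)
    (hi : ∀ i ∈ F1, ∀ j ∈ F1, i ∉ bad → j ∉ bad → f i = f j → i = j) : F1.card ≤ F2.card + bad.card := by
  refine (Finset.card_le_card_sdiff_add_card (s := F1) (t := bad)).trans (Nat.add_le_add_right ?_ _)
  refine Finset.card_le_card_of_injOn f (fun i hi' => ?_) fun i hi' j hj' he => ?_
  · rw [Finset.mem_coe, Finset.mem_sdiff] at hi'
    exact h i hi'.1 hi'.2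
  · rw [Finset.mem_coe, Finset.mem_sdiff] at hi' hj'
    exact hi i hi'.1 j hj'.1 hi'.2 hj'.2 he

/-- the number of the windows at a shifted place -/
lemma ns_cyl (s : Fin n → Fin 3) (a : ℤ) (S : Set (Fin m → Bool)) :
    |(ns s (cyl a S) : ℝ) - hits s S 0 n| ≤ 2 * a.natAbs + m := by
  have h1 : ns s (cyl a S) ≤ hits s S 0 n + (a.natAbs + (a.natAbs + m)) := by
    unfold ns hits
    refine (card_le_bad (bad := Finset.range a.natAbs ∪ Finset.Ico (n - (a.natAbs + m)) n)
      (fun i => ((i : ℤ) + a).toNat) ?_ ?_).trans (Nat.add_le_add_left ?_ _)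
    · intro i hi hb
      rw [Finset.mem_filter, Finset.mem_range] at hi
      rw [Finset.mem_union, Finset.mem_range, Finset.mem_Ico, not_or] at hb
      have h0 : 0 ≤ (i : ℤ) + a := by omega
      rw [seen_cyl s h0] at hi
      rw [Finset.mem_filter, Finset.mem_Ico]
      exact ⟨by omega, by omega, hi.2⟩
    · intro i hi j hj hb hb' he
      rw [Finset.mem_filter, Finset.mem_range] at hi hj
      rw [Finset.mem_union, Finset.mem_range, Finset.mem_Ico, not_or] at hb hb'
      omega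
    · refine (Finset.card_union_le _ _).trans ?_
      rw [Finset.card_range, Nat.card_Ico]
      omega
  have h2 : hits s S 0 n ≤ ns s (cyl a S) + (a.natAbs + a.natAbs) := by
    unfold ns hits
    refine (card_le_bad (bad := Finset.range a.natAbs ∪ Finset.Ico (n - a.natAbs) n)
      (fun i => ((i : ℤ) - a).toNat) ?_ ?_).trans (Nat.add_le_add_left ?_ _)
    · intro i hi hb
      rw [Finset.mem_filter, Finset.mem_Ico] at hi
      rw [Finset.mem_union, Finset.mem_range, Finset.mem_Ico, not_or] at hb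
      have h0 : 0 ≤ (((i : ℤ) - a).toNat : ℤ) + a := by omega
      have h3 : ((((i : ℤ) - a).toNat : ℤ) + a).toNat = i := by omega
      rw [Finset.mem_filter, Finset.mem_range, seen_cyl s h0, h3]
      exact ⟨by omega, hi.2.2⟩
    · intro i hi j hj hb hb' he
      rw [Finset.mem_filter, Finset.mem_Ico] at hi hj
      rw [Finset.mem_union, Finset.mem_range, Finset.mem_Ico, not_or] at hb hb'
      omega
    · refine (Finset.card_union_le _ _).trans ?_
      rw [Finset.card_range, Nat.card_Ico]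
      omega
  rw [abs_le]
  have h3 : (ns s (cyl a S) : ℝ) ≤ hits s S 0 n + (a.natAbs + (a.natAbs + m)) := by exact_mod_cast h1
  have h4 : (hits s S 0 n : ℝ) ≤ ns s (cyl a S) + (a.natAbs + a.natAbs) := by exact_mod_cast h2
  have h5 : (0 : ℝ) ≤ m := Nat.cast_nonneg m
  constructor <;> linarith

lemma hits_le (s : Fin n → Fin 3) (S : Set (Fin m → Bool)) (a b : ℕ) : hits s S a b ≤ b - a := by
  unfold hits
  exact (Finset.card_filter_le _ _).trans (Nat.card_Ico a b).le

/-! ### the densities -/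

/-- most of the walks have the density -/
lemma Den.mem {S : Set (Fin m → Bool)} {ρ : ℝ} (h : Den S ρ) : 0 ≤ ρ ∧ ρ ≤ 1 := by
  have key : ∀ ε : ℝ, 0 < ε → ε < 1 → -ε ≤ ρ ∧ ρ ≤ 1 + ε := by
    intro ε hε hε1
    obtain ⟨n0, hn0⟩ := eventually_atTop.1 (h ε hε)
    obtain ⟨n, hn⟩ : ∃ n, n = max n0 1 := ⟨_, rfl⟩
    have h1 := hn0 n (by omega)
    have hn1 : 1 ≤ n := by omega
    have hc := NTSF.saw_card_pos n
    obtain ⟨s, hs, hs2⟩ : ∃ s ∈ saw n, ¬ ∃ a b : ℕ, a ≤ b ∧ b ≤ n ∧ ε * n < |(hits s S a b : ℝ) - ρ * ((b : ℝ) - a)| := by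
      by_contra hcon
      push Not at hcon
      rw [Finset.filter_true_of_mem fun s hs => hcon s hs] at h1
      nlinarith
    push Not at hs2
    have h2 := hs2 0 n (Nat.zero_le n) le_rfl
    have h3 : (hits s S 0 n : ℝ) ≤ n := by
      have := hits_le s S 0 n
      rw [Nat.sub_zero] at this
      exact_mod_cast this
    have h4 : (0 : ℝ) ≤ hits s S 0 n := Nat.cast_nonneg _
    have h5 : (0 : ℝ) < n := by exact_mod_cast hn1
    rw [Nat.cast_zero, sub_zero, abs_le] at h2
    constructor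
    · have : 0 ≤ (ρ + ε) * n := by linarith [h2.2]
      have := (mul_nonneg_iff_of_pos_right h5).1 this
      linarith
    · have : 0 ≤ (1 + ε - ρ) * n := by linarith [h2.1]
      have := (mul_nonneg_iff_of_pos_right h5).1 this
      linarith
  constructor
  · refine le_of_forall_pos_le_add fun ε hε => ?_
    have h1 := (key (min ε (1 / 2)) (lt_min hε (by norm_num)) ((min_le_right _ _).trans_lt (by norm_num))).1
    linarith [min_le_left ε (1 / 2)]
  · refine le_of_forall_pos_le_add fun ε hε => ?_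
    have h1 := (key (min ε (1 / 2)) (lt_min hε (by norm_num)) ((min_le_right _ _).trans_lt (by norm_num))).2
    linarith [min_le_left ε (1 / 2)]

/-- the mean number of the windows -/
lemma Den.mean {S : Set (Fin m → Bool)} {ρ : ℝ} (h : Den S ρ) {ε : ℝ} (hε : 0 < ε) : ∀ᶠ n : ℕ in atTop,
    |(∑ s ∈ saw n, (hits s S 0 n : ℝ)) - ρ * (n * (saw n).card)| ≤ 2 * ε * (n * (saw n).card) := by
  obtain ⟨hρ0, hρ1⟩ := h.mem
  filter_upwards [h ε hε] with n hn
  have hn0 : (0 : ℝ) ≤ n := Nat.cast_nonneg n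
  have e1 : (∑ s ∈ saw n, (hits s S 0 n : ℝ)) - ρ * (n * (saw n).card) = ∑ s ∈ saw n, ((hits s S 0 n : ℝ) - ρ * n) := by
    rw [Finset.sum_sub_distrib, Finset.sum_const, nsmul_eq_mul]
    ring
  rw [e1]
  refine (Finset.abs_sum_le_sum_abs _ _).trans ?_
  have h1 : ∀ s ∈ saw n, |(hits s S 0 n : ℝ) - ρ * n| ≤ ε * n +
      (if (∃ a b : ℕ, a ≤ b ∧ b ≤ n ∧ ε * n < |(hits s S a b : ℝ) - ρ * ((b : ℝ) - a)|) then (n : ℝ) else 0) := by
    intro s _
    have h3 : (hits s S 0 n : ℝ) ≤ n := by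
      have := hits_le s S 0 n
      rw [Nat.sub_zero] at this
      exact_mod_cast this
    have h4 : (0 : ℝ) ≤ hits s S 0 n := Nat.cast_nonneg _
    split_ifs with h2
    · have h5 : ρ * n ≤ n := mul_le_of_le_one_left hn0 hρ1
      have h6 : 0 ≤ ρ * n := by positivity
      have h7 : 0 ≤ ε * n := by positivity
      rw [abs_le]
      constructor <;> linarith
    · push Not at h2
      have h5 := h2 0 n (Nat.zero_le n) le_rfl
      rw [Nat.cast_zero, sub_zero] at h5
      linarith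
  refine (Finset.sum_le_sum h1).trans ?_
  rw [Finset.sum_add_distrib, Finset.sum_const, nsmul_eq_mul, ← Finset.sum_filter, Finset.sum_const, nsmul_eq_mul]
  have h2 := mul_le_mul_of_nonneg_right hn hn0
  linarith

/-- **the mass of a cylinder** -/
theorem law2_cyl {S : Set (Fin m → Bool)} {ρ : ℝ} (h : Den S ρ) (a : ℤ) :
    Tendsto (fun n : ℕ => (law2 n).real (cyl a S)) atTop (𝓝 ρ) := by
  rw [Metric.tendsto_atTop]
  intro ε hε
  obtain ⟨N1, hN1⟩ := eventually_atTop.1 (h.mean (ε := ε / 8) (by positivity))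
  obtain ⟨N2, hN2⟩ := exists_nat_gt ((2 * a.natAbs + m) / (ε / 4))
  refine ⟨max (max N1 N2) 1, fun n hn => ?_⟩
  have hn1 : 1 ≤ n := (le_max_right _ _).trans hn
  have hnN1 : N1 ≤ n := ((le_max_left _ _).trans (le_max_left _ _)).trans hn
  have hnN2 : N2 ≤ n := ((le_max_right _ _).trans (le_max_left _ _)).trans hn
  have hn0 : (0 : ℝ) < n := by exact_mod_cast hn1
  have hc := NTSF.saw_card_pos n
  have h1 := hN1 n hnN1
  have h2 : |∑ s ∈ saw n, (ns s (cyl a S) : ℝ) - ∑ s ∈ saw n, (hits s S 0 n : ℝ)| ≤ (2 * a.natAbs + m) * (saw n).card := by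
    rw [← Finset.sum_sub_distrib]
    refine (Finset.abs_sum_le_sum_abs _ _).trans ?_
    calc ∑ s ∈ saw n, |(ns s (cyl a S) : ℝ) - hits s S 0 n| ≤ ∑ s ∈ saw n, (2 * (a.natAbs : ℝ) + m) :=
          Finset.sum_le_sum fun s _ => ns_cyl s a S
      _ = _ := by rw [Finset.sum_const, nsmul_eq_mul, mul_comm]
  have h3 : (2 * a.natAbs + m : ℝ) ≤ ε / 4 * n := by
    rw [div_lt_iff₀ (by positivity)] at hN2
    have : (N2 : ℝ) ≤ n := by exact_mod_cast hnN2
    nlinarith
  rw [Real.dist_eq, law2_real (measurableSet_cyl a S)]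
  have hd : (0 : ℝ) < n * (saw n).card := by positivity
  have e1 : (∑ s ∈ saw n, (ns s (cyl a S) : ℝ)) / (n * (saw n).card) - ρ =
      ((∑ s ∈ saw n, (ns s (cyl a S) : ℝ)) - ρ * (n * (saw n).card)) / (n * (saw n).card) := by
    field_simp
  rw [e1, abs_div, abs_of_pos hd, div_lt_iff₀ hd]
  calc |(∑ s ∈ saw n, (ns s (cyl a S) : ℝ)) - ρ * (n * (saw n).card)| ≤
        |∑ s ∈ saw n, (ns s (cyl a S) : ℝ) - ∑ s ∈ saw n, (hits s S 0 n : ℝ)| +
          |(∑ s ∈ saw n, (hits s S 0 n : ℝ)) - ρ * (n * (saw n).card)| := by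
        refine le_trans (le_of_eq ?_) (abs_add_le _ _)
        congr 1
        ring
    _ ≤ (2 * a.natAbs + m) * (saw n).card + 2 * (ε / 8) * (n * (saw n).card) := add_le_add h2 h1
    _ ≤ ε / 4 * n * (saw n).card + 2 * (ε / 8) * (n * (saw n).card) := by
        have := mul_le_mul_of_nonneg_right h3 hc.le
        linarith
    _ = ε / 2 * (n * (saw n).card) := by ring
    _ < ε * (n * (saw n).card) := by nlinarith

/-! ### the windows of k steps -/

lemma cnt_seen (s : Fin n → Fin 3) (S : Set (Fin m → Bool)) {i k : ℕ} (h : i + k + m ≤ n) :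
    cnt S k (seen s i) = hits s S i (i + k) := by
  unfold cnt hits
  have h1 : ∀ j ∈ Finset.range k, (cyl (j : ℤ) S).indicator (fun _ => (1 : ℝ)) (seen s i) =
      if (i + j + m < n ∧ (fun l : Fin m => turn s (i + j + l)) ∈ S) then 1 else 0 := by
    intro j hj
    rw [Finset.mem_range] at hj
    have h2 := seen_cyl s (i := i) (a := (j : ℤ)) (by omega) S
    have h3 : ((i : ℤ) + (j : ℤ)).toNat = i + j := by omega
    rw [h3] at h2
    rw [indicator_apply]
    by_cases h4 : seen s i ∈ cyl (j : ℤ) S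
    · rw [if_pos h4, if_pos ⟨by omega, h2.1 h4⟩]
    · rw [if_neg h4, if_neg fun h5 => h4 (h2.2 h5.2)]
  rw [Finset.sum_congr rfl h1, Finset.card_filter, Finset.range_eq_Ico]
  have h2 := Finset.sum_Ico_add' (fun j => if (j + m < n ∧ (fun l : Fin m => turn s (j + l)) ∈ S) then (1 : ℝ) else 0) 0 k i
  rw [zero_add, add_comm k i] at h2
  push_cast
  rw [← h2]
  refine Finset.sum_congr rfl fun j _ => ?_
  rw [add_comm i j]

lemma measurableSet_bad (S : Set (Fin m → Bool)) (k : ℕ) (ρ x : ℝ) : MeasurableSet {ω | x < |cnt S k ω - ρ * k|} :=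
  measurableSet_lt measurable_const (((measurable_cnt S k).sub measurable_const).norm)

/-- **the frequencies in a window of k steps** -/
theorem law2_cnt (hB : BulkF) {S : Set (Fin m → Bool)} {ρ : ℝ} (h : Den S ρ) {ε : ℝ} (hε : 0 < ε) :
    ∃ k : ℕ, 1 ≤ k ∧ ∀ᶠ n : ℕ in atTop, (law2 n).real {ω | ε * k < |cnt S k ω - ρ * k|} ≤ ε := by
  obtain ⟨k0, hk0⟩ := hB m S ρ h (ε / 2) (half_pos hε)
  obtain ⟨k, hk⟩ : ∃ k, k = max k0 1 := ⟨_, rfl⟩
  refine ⟨k, by omega, ?_⟩
  obtain ⟨N2, hN2⟩ := exists_nat_gt ((k + m) / (ε / 2))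
  filter_upwards [hk0 k (by omega), eventually_ge_atTop (max N2 1)] with n hn hn'
  have hn1 : 1 ≤ n := (le_max_right _ _).trans hn'
  have hn0 : (0 : ℝ) < n := by exact_mod_cast hn1
  have hc := NTSF.saw_card_pos n
  rw [law2_real (measurableSet_bad S k ρ _), div_le_iff₀ (by positivity)]
  have h1 : ∀ s ∈ saw n, ns s {ω | ε * k < |cnt S k ω - ρ * k|} ≤
      ((Finset.range n).filter fun i => ε / 2 * k < |(hits s S i (i + k) : ℝ) - ρ * k|).card + (k + m) := by
    intro s _
    unfold ns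
    refine (card_le_bad (bad := Finset.Ico (n - (k + m)) n) id ?_ fun i _ j _ _ _ he => he).trans
      (Nat.add_le_add_left ?_ _)
    · intro i hi hb
      rw [Finset.mem_filter, Finset.mem_range] at hi
      rw [Finset.mem_Ico] at hb
      have h2 : ε * k < |cnt S k (seen s i) - ρ * k| := hi.2
      rw [cnt_seen s S (by omega)] at h2
      rw [Finset.mem_filter, Finset.mem_range]
      refine ⟨hi.1, lt_of_le_of_lt ?_ h2⟩
      have : (0 : ℝ) ≤ k := Nat.cast_nonneg k
      show ε / 2 * k ≤ ε * k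
      nlinarith
    · rw [Nat.card_Ico]
      omega
  have h2 : (∑ s ∈ saw n, ns s {ω | ε * k < |cnt S k ω - ρ * k|} : ℕ) ≤
      (∑ s ∈ saw n, ((Finset.range n).filter fun i => ε / 2 * k < |(hits s S i (i + k) : ℝ) - ρ * k|).card) +
        (saw n).card * (k + m) := by
    refine (Finset.sum_le_sum h1).trans ?_
    rw [Finset.sum_add_distrib, Finset.sum_const, smul_eq_mul]
  have h3 : (∑ s ∈ saw n, (ns s {ω | ε * k < |cnt S k ω - ρ * k|} : ℝ)) ≤
      ((∑ s ∈ saw n, ((Finset.range n).filter fun i => ε / 2 * k < |(hits s S i (i + k) : ℝ) - ρ * k|).card : ℕ) : ℝ) +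
        (saw n).card * (k + m) := by exact_mod_cast h2
  have h4 : (k + m : ℝ) ≤ ε / 2 * n := by
    rw [div_lt_iff₀ (by positivity)] at hN2
    have : (N2 : ℝ) ≤ n := by exact_mod_cast (le_max_left _ _).trans hn'
    nlinarith
  have h5 := mul_le_mul_of_nonneg_left h4 hc.le
  linarith

end Pool.Agent.TSW
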