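import Pool.Agent.TSW.Res
import Pool.Agent.IW.TightP

/-!
TSW: a general criterion. Laws on the curves that start at the origin, are uniformly Hoelder of every exponent below 3 / 4, and
have no near double points and no nearly constant pieces, up to small probabilities, are tight and their weak limits are carried
by `Nice` curves (helper41, after `IW.Inj` and `IW.TightP`).
-/

set_option autoImplicit false

open MeasureTheory Filter Topology
open scoped Classical ENNReal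

namespace Pool.Agent.TSW

open HexObs.SIM (Pinch pinch_open)

/-- simple, from 0, Hoelder of every exponent below 3/4 -/
def Nice0 (γ : C(unitInterval, ℂ)) : Prop :=
  Function.Injective γ ∧ γ 0 = 0 ∧ ∀ a : NNReal, (a : ℝ) < 3 / 4 → ∃ M : NNReal, HolderWith M a γ

/-- the data of the criterion -/
structure TameI (μ : ℕ → Measure C(unitInterval, ℂ)) : Prop where
  prob : ∀ j, IsProbabilityMeasure (μ j)
  zero : ∀ j, ∀ᵐ γ ∂(μ j), γ 0 = 0
  hol : ∀ a : NNReal, 0 < a → (a : ℝ) < 3 / 4 → ∀ ε : ℝ, 0 < ε → ∃ M : NNReal,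
    ∀ᶠ j in atTop, μ j {γ | ¬ HolderWith M a γ} ≤ ENNReal.ofReal ε
  pin : ∀ η ε : ℝ, 0 < η → 0 < ε → ∃ δ : ℝ, 0 < δ ∧ ∀ᶠ j in atTop, μ j (HexObs.SIM.Pinch η δ) ≤ ENNReal.ofReal ε
  low : ∀ h ε : ℝ, 0 < h → 0 < ε → ∃ η : ℝ, 0 < η ∧ ∀ᶠ j in atTop, μ j (IW.Flat h η) ≤ ENNReal.ofReal ε

/-- a curve that does not return after an excursion and has no constant piece is injective -/
lemma inj_of {γ : C(unitInterval, ℂ)}
    (h1 : ∀ u w v : unitInterval, u ≤ w → w ≤ v → γ v = γ u → γ w = γ u)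
    (h2 : ∀ u v : unitInterval, u < v → ∃ x : unitInterval, u ≤ x ∧ x ≤ v ∧ γ x ≠ γ u) : Function.Injective γ := by
  have key : ∀ u v : unitInterval, u < v → γ v ≠ γ u := by
    intro u v huv heq
    obtain ⟨w, hw1, hw2, hw3⟩ := h2 u v huv
    exact hw3 (h1 u w v hw1 hw2 heq)
  intro u v heq
  rcases lt_trichotomy u v with h4 | h4 | h4
  · exact absurd heq.symm (key u v h4)
  · exact h4
  · exact absurd heq (key v u h4)

/-- Hoelder of a sequence of exponents -/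
lemma exps : ∃ e : ℕ → NNReal, (∀ m, 0 < e m) ∧ (∀ m, (e m : ℝ) < 3 / 4) ∧
    ∀ a : NNReal, (a : ℝ) < 3 / 4 → ∃ m, a ≤ e m := by
  have h0 : ∀ m : ℕ, (1 : ℝ) / (m + 2) ≤ 1 / 2 := fun m => one_div_le_one_div_of_le (by norm_num) (by
    have : (0 : ℝ) ≤ m := Nat.cast_nonneg m
    linarith)
  have hp : ∀ m : ℕ, (0 : ℝ) < 1 / (m + 2) := fun m => by positivity
  obtain ⟨e, he⟩ : ∃ e : ℕ → NNReal, ∀ m, ((e m : NNReal) : ℝ) = 3 / 4 - 1 / ((m : ℝ) + 2) :=
    ⟨fun m => ⟨3 / 4 - 1 / ((m : ℝ) + 2), by linarith [h0 m]⟩, fun m => rfl⟩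
  refine ⟨e, fun m => ?_, fun m => ?_, fun a ha => ?_⟩
  · have h3 : (0 : ℝ) < e m := by
      rw [he]
      linarith [h0 m]
    exact_mod_cast h3
  · rw [he]
    linarith [hp m]
  · obtain ⟨m, hm⟩ := exists_nat_gt (1 / (3 / 4 - (a : ℝ)))
    have h1 : 0 < 3 / 4 - (a : ℝ) := by linarith
    have h2 : (a : ℝ) ≤ e m := by
      rw [he]
      have h3 : 1 / ((m : ℝ) + 2) ≤ 3 / 4 - a := by
        rw [div_lt_iff₀ h1] at hm
        rw [div_le_iff₀ (by positivity)]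
        nlinarith
      linarith
    exact ⟨m, by exact_mod_cast h2⟩

section

variable {μ : ℕ → Measure C(unitInterval, ℂ)} {φ : ℕ → ℕ} {ν : Measure C(unitInterval, ℂ)}

/-- an open set that eventually has a small probability has a small probability in the limit -/
lemma lim_open (hT : ∀ j, IsProbabilityMeasure (μ j)) (hφ : Tendsto φ atTop atTop) (hν : IsProbabilityMeasure ν)
    (hlim : ToLaw μ φ ν) {B : Set C(unitInterval, ℂ)} (hB : IsOpen B) {ε : ℝ≥0∞} (h : ∀ᶠ j in atTop, μ j B ≤ ε) : ν B ≤ ε := by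
  obtain ⟨ρ, hρ⟩ : ∃ ρ : ℕ → ProbabilityMeasure C(unitInterval, ℂ), ∀ k, (ρ k : Measure C(unitInterval, ℂ)) = μ (φ k) :=
    ⟨fun k => ⟨μ (φ k), hT (φ k)⟩, fun k => rfl⟩
  obtain ⟨σ, hσ⟩ : ∃ σ : ProbabilityMeasure C(unitInterval, ℂ), (σ : Measure C(unitInterval, ℂ)) = ν := ⟨⟨ν, hν⟩, rfl⟩
  have hlim2 : Tendsto ρ atTop (𝓝 σ) := by
    rw [ProbabilityMeasure.tendsto_iff_forall_integral_tendsto]
    intro f
    simp only [hρ, hσ]
    exact hlim f
  have h1 := NTF.open_le hlim2 hB (ε := ε) (by simpa only [hρ] using hφ.eventually h)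
  rwa [hσ] at h1

/-- **the weak limits of laws with `TameI` are carried by `Nice` curves** -/
theorem nice_lim (hT : TameI μ) (hφ : Tendsto φ atTop atTop) (hν : IsProbabilityMeasure ν) (hlim : ToLaw μ φ ν) :
    ∀ᵐ γ ∂ν, Nice0 γ := by
  have hO := fun {B : Set C(unitInterval, ℂ)} (hB : IsOpen B) {ε : ℝ≥0∞} (h : ∀ᶠ j in atTop, μ j B ≤ ε) =>
    lim_open hT.prob hφ hν hlim hB h
  -- the starting point
  have h0 : ∀ᵐ γ : C(unitInterval, ℂ) ∂ν, γ 0 = 0 := by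
    have c1 : IsClosed {γ : C(unitInterval, ℂ) | γ 0 = 0} := isClosed_eq (NTF.cont_eval 0) continuous_const
    have h1 : ν {γ : C(unitInterval, ℂ) | γ 0 = 0}ᶜ ≤ 0 :=
      hO c1.isOpen_compl (Eventually.of_forall fun k => le_of_eq (ae_iff.1 (hT.zero k)))
    exact le_antisymm h1 zero_le
  -- no constant piece
  have h2 : ∀ᵐ γ : C(unitInterval, ℂ) ∂ν, ∀ u v : unitInterval, u < v → ∃ x : unitInterval, u ≤ x ∧ x ≤ v ∧ γ x ≠ γ u := by
    have key : ∀ j : ℕ, ∀ᵐ γ : C(unitInterval, ℂ) ∂ν, ¬ ∃ u v : unitInterval, 1 / ((j : ℝ) + 1) ≤ (v : ℝ) - u ∧ u ≤ v ∧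
        ∀ x : unitInterval, u ≤ x → x ≤ v → γ x = γ u := by
      intro j
      rw [ae_iff]
      refine le_antisymm (ENNReal.le_of_forall_pos_le_add ?_) zero_le
      intro ε hε _
      rw [zero_add]
      obtain ⟨η, hη, h1⟩ := hT.low (1 / ((j : ℝ) + 1)) ε (by positivity) (by exact_mod_cast hε)
      have h4 := hO (IW.flat_open (1 / ((j : ℝ) + 1)) η) h1
      rw [ENNReal.ofReal_coe_nnreal] at h4
      refine le_trans (measure_mono ?_) h4
      intro γ hγ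
      rw [Set.mem_ofPred_eq, not_not] at hγ
      obtain ⟨u, v, h5, h6, h7⟩ := hγ
      exact ⟨u, v, h5, h6, fun x x1 x2 => by rwa [h7 x x1 x2, dist_self]⟩
    filter_upwards [ae_all_iff.2 key] with γ hγ u v huv
    by_contra hne
    push Not at hne
    have huv' : (0 : ℝ) < (v : ℝ) - u := sub_pos.2 (by exact_mod_cast huv)
    obtain ⟨j, hj⟩ := exists_nat_one_div_lt huv'
    exact hγ j ⟨u, v, hj.le, huv.le, hne⟩
  -- no return after an excursion
  have h3 : ∀ᵐ γ : C(unitInterval, ℂ) ∂ν, ∀ u w v : unitInterval, u ≤ w → w ≤ v → γ v = γ u → γ w = γ u := by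
    have key : ∀ j : ℕ, ∀ᵐ γ : C(unitInterval, ℂ) ∂ν,
        ¬ ∃ u w v : unitInterval, u ≤ w ∧ w ≤ v ∧ 1 / ((j : ℝ) + 1) < dist (γ w) (γ u) ∧ γ v = γ u := by
      intro j
      rw [ae_iff]
      refine le_antisymm (ENNReal.le_of_forall_pos_le_add ?_) zero_le
      intro ε hε _
      rw [zero_add]
      obtain ⟨δ, hδ, h1⟩ := hT.pin (1 / ((j : ℝ) + 1)) ε (by positivity) (by exact_mod_cast hε)
      have h4 := hO (pinch_open (1 / ((j : ℝ) + 1)) δ) h1
      rw [ENNReal.ofReal_coe_nnreal] at h4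
      refine le_trans (measure_mono ?_) h4
      intro γ hγ
      rw [Set.mem_ofPred_eq, not_not] at hγ
      obtain ⟨u, w, v, huw, hwv, h5, h6⟩ := hγ
      exact ⟨u, w, v, huw, hwv, h5, by rwa [h6, dist_self]⟩
    filter_upwards [ae_all_iff.2 key] with γ hγ u w v huw hwv heq
    by_contra hne
    have hd : 0 < dist (γ w) (γ u) := dist_pos.2 hne
    obtain ⟨j, hj⟩ := exists_nat_one_div_lt hd
    exact hγ j ⟨u, w, v, huw, hwv, hj, heq⟩
  -- Hoelder
  obtain ⟨e, he0, he1, he2⟩ := exps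
  have h4 : ∀ᵐ γ : C(unitInterval, ℂ) ∂ν, ∀ m : ℕ, ∃ M : NNReal, HolderWith M (e m) γ := by
    rw [ae_all_iff]
    intro m
    rw [ae_iff]
    refine le_antisymm (ENNReal.le_of_forall_pos_le_add ?_) zero_le
    intro ε hε _
    obtain ⟨M, hM⟩ := hT.hol (e m) (he0 m) (he1 m) ε (by exact_mod_cast hε)
    have h1 : ν {f : C(unitInterval, ℂ) | HolderWith M (e m) f}ᶜ ≤ ENNReal.ofReal ε :=
      hO (NTF.closed_holder M (e m)).isOpen_compl hM
    rw [zero_add]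
    rw [ENNReal.ofReal_coe_nnreal] at h1
    refine (measure_mono ?_).trans h1
    intro f hf hfM
    exact hf ⟨M, hfM⟩
  filter_upwards [h0, h2, h3, h4] with γ g0 g2 g3 g4
  refine ⟨inj_of g3 g2, g0, fun a ha => ?_⟩
  obtain ⟨m, hm⟩ := he2 a ha
  obtain ⟨M, hM⟩ := g4 m
  exact ⟨M, NTSF.holder_mono hm hM⟩

end

/-- **tightness from the uniform Hoelder bounds** -/
theorem tight_of {μ : ℕ → Measure C(unitInterval, ℂ)} (hz : ∀ k, 1 ≤ k → ∀ᵐ γ ∂(μ k), γ 0 = 0)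
    (hH : ∀ a : NNReal, 0 < a → (a : ℝ) < 3 / 4 → ∀ ε : ℝ, 0 < ε → ∃ M : NNReal,
      ∀ k, 1 ≤ k → μ k {γ | ¬ HolderWith M a γ} ≤ ENNReal.ofReal ε) :
    IsTightMeasureSet {ρ | ∃ k : ℕ, 1 ≤ k ∧ ρ = μ k} := by
  apply NTF.tight_of_modulus
  · rintro _ ⟨k, hk, rfl⟩
    exact ae_iff.1 (hz k hk)
  · intro ε r hε hr
    obtain ⟨M, hM⟩ := hH (1 / 2) (by norm_num) (by norm_num) ε hε
    obtain ⟨δ, hδ, h1⟩ := IW.md_of_holder (M := M) hr
    refine ⟨δ, hδ, ?_⟩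
    rintro _ ⟨k, hk, rfl⟩
    have hsub : {f : C(unitInterval, ℂ) | ¬ NTF.Md δ r f} ⊆ {f : C(unitInterval, ℂ) | ¬ HolderWith M (1 / 2) f} :=
      fun f hf hf' => hf (h1 f hf')
    exact (measure_mono hsub).trans (hM k hk)

end Pool.Agent.TSW
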