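import Pool.Agent.TSW.NiceL
import Pool.Agent.TSW.Sym

/-!
TSW: the rows (c) and (d) of the final statement from uniform Hoelder bounds, no near double points and no nearly constant
pieces for the curves `Y_k` (helper41, over `TSW.NiceL` and `TSW.Sym`).
-/

set_option autoImplicit false

open MeasureTheory Filter Topology
open scoped Classical ENNReal

namespace Pool.Agent.TSW

/-- uniform Hoelder bounds -/
def HolU (Q : Measure (ℤ → Bool)) : Prop := ∀ a : NNReal, 0 < a → (a : ℝ) < 3 / 4 → ∀ ε : ℝ, 0 < ε → ∃ M : NNReal,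
  ∀ k, 1 ≤ k → ylaw Q k {γ | ¬ HolderWith M a γ} ≤ ENNReal.ofReal ε

/-- no near double points -/
def PinU (Q : Measure (ℤ → Bool)) : Prop := ∀ η ε : ℝ, 0 < η → 0 < ε → ∃ δ : ℝ, 0 < δ ∧
  ∀ᶠ k in atTop, ylaw Q k (HexObs.SIM.Pinch η δ) ≤ ENNReal.ofReal ε

/-- no nearly constant pieces -/
def LowU (Q : Measure (ℤ → Bool)) : Prop := ∀ h ε : ℝ, 0 < h → 0 < ε → ∃ η : ℝ, 0 < η ∧
  ∀ᶠ k in atTop, ylaw Q k (IW.Flat h η) ≤ ENNReal.ofReal ε

variable {Q : Measure (ℤ → Bool)}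

lemma ycurve_zero (k : ℕ) (ζ : ℂ) (ω : ℤ → Bool) : ycurve k ζ ω 0 = 0 := by
  show ∑ j ∈ Finset.range k, _ = (0 : ℂ)
  refine Finset.sum_eq_zero fun j _ => ?_
  have h1 : ((0 : unitInterval) : ℝ) * (k : ℝ) - (j : ℝ) ≤ 0 := by
    have h2 : (0 : ℝ) ≤ j := Nat.cast_nonneg j
    rw [Set.Icc.coe_zero, zero_mul]
    linarith
  rw [min_eq_right (by linarith), max_eq_left h1]
  simp

lemma ylaw_null {k : ℕ} {B : Set C(unitInterval, ℂ)} (hB : MeasurableSet B)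
    (h : ∀ (ζ : ℂ) (ω : ℤ → Bool), ycurve k ζ ω ∉ B) : ylaw Q k B = 0 := by
  unfold ylaw
  rw [Measure.finsetSum_apply]
  refine Finset.sum_eq_zero fun a _ => ?_
  rw [Measure.smul_apply, Measure.map_apply (Sym.meas_ycurve k _) hB]
  have e : (ycurve k (Complex.exp ((Real.pi : ℂ) / 3 * Complex.I * ((a : ℕ) : ℂ)))) ⁻¹' B = ∅ := by
    ext ω
    simp only [Set.mem_preimage, Set.mem_empty_iff_false, iff_false]
    exact h _ ω
  rw [e, measure_empty, smul_zero]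

lemma ylaw_zero (k : ℕ) : ylaw Q k {γ : C(unitInterval, ℂ) | γ 0 = 0}ᶜ = 0 := by
  have c1 : IsClosed {γ : C(unitInterval, ℂ) | γ 0 = 0} := isClosed_eq (NTF.cont_eval 0) continuous_const
  exact ylaw_null c1.isOpen_compl.measurableSet fun ζ ω h => h (ycurve_zero k ζ ω)

lemma alaw_apply (N : ℕ) (B : Set C(unitInterval, ℂ)) :
    alaw Q N B = (∑ k ∈ Finset.Icc 1 N, (k : ℝ≥0∞)⁻¹)⁻¹ * ∑ k ∈ Finset.Icc 1 N, (k : ℝ≥0∞)⁻¹ * ylaw Q k B := by
  unfold alaw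
  rw [Measure.smul_apply, Measure.finsetSum_apply]
  simp only [Measure.smul_apply, smul_eq_mul]

lemma alaw_zero (N : ℕ) : alaw Q N {γ : C(unitInterval, ℂ) | γ 0 = 0}ᶜ = 0 := by
  rw [alaw_apply]
  simp only [ylaw_zero, mul_zero, Finset.sum_const_zero]

/-- the averages of small numbers are small -/
lemma avg_small {f : ℕ → ℝ≥0∞} (hf : ∀ k, f k ≤ 1) {ε : ℝ} (hε : 0 < ε) (h : ∀ᶠ k in atTop, f k ≤ ENNReal.ofReal ε) :
    ∀ᶠ N : ℕ in atTop, (∑ k ∈ Finset.Icc 1 N, (k : ℝ≥0∞)⁻¹)⁻¹ * ∑ k ∈ Finset.Icc 1 N, (k : ℝ≥0∞)⁻¹ * f k ≤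
      ENNReal.ofReal (2 * ε) := by
  obtain ⟨k0, hk0⟩ := eventually_atTop.1 h
  filter_upwards [Sym.hm_tendsto.eventually_ge_atTop ((k0 : ℝ) / ε), Sym.hm_tendsto.eventually_gt_atTop 0] with N h1 h2
  rw [Sym.hm_enn]
  have h3 : ∑ k ∈ Finset.Icc 1 N, (k : ℝ≥0∞)⁻¹ * f k ≤ (k0 : ℝ≥0∞) + ENNReal.ofReal (Sym.hm N) * ENNReal.ofReal ε := by
    have h4 : ∀ k ∈ Finset.Icc 1 N, (k : ℝ≥0∞)⁻¹ * f k ≤ (if k < k0 then 1 else 0) + (k : ℝ≥0∞)⁻¹ * ENNReal.ofReal ε := by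
      intro k hk
      rw [Finset.mem_Icc] at hk
      by_cases hc : k < k0
      · rw [if_pos hc]
        refine le_trans ?_ le_self_add
        refine (mul_le_mul' ?_ (hf k)).trans (mul_one _).le
        rw [ENNReal.inv_le_one]
        exact_mod_cast hk.1
      · rw [if_neg hc, zero_add]
        exact mul_le_mul' le_rfl (hk0 k (not_lt.1 hc))
    refine (Finset.sum_le_sum h4).trans ?_
    rw [Finset.sum_add_distrib, ← Finset.sum_mul, Sym.hm_enn]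
    refine add_le_add ?_ le_rfl
    rw [← Finset.sum_filter, Finset.sum_const, nsmul_eq_mul, mul_one]
    have h5 : ((Finset.Icc 1 N).filter fun k => k < k0).card ≤ k0 := by
      calc ((Finset.Icc 1 N).filter fun k => k < k0).card ≤ (Finset.range k0).card :=
            Finset.card_le_card fun k hk => by
              rw [Finset.mem_filter] at hk
              exact Finset.mem_range.2 hk.2
        _ = k0 := Finset.card_range k0
    exact_mod_cast h5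
  refine (mul_le_mul' le_rfl h3).trans ?_
  have h6 : (0 : ℝ) < Sym.hm N := h2
  have h7 : (k0 : ℝ≥0∞) + ENNReal.ofReal (Sym.hm N) * ENNReal.ofReal ε ≤ ENNReal.ofReal (Sym.hm N * (2 * ε)) := by
    rw [← ENNReal.ofReal_mul h6.le, ← ENNReal.ofReal_natCast, ← ENNReal.ofReal_add (Nat.cast_nonneg _) (by positivity)]
    refine ENNReal.ofReal_le_ofReal ?_
    rw [div_le_iff₀ hε] at h1
    linarith
  refine (mul_le_mul' le_rfl h7).trans ?_
  rw [ENNReal.ofReal_mul h6.le, ← mul_assoc,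
    ENNReal.inv_mul_cancel (ENNReal.ofReal_pos.2 h6).ne' ENNReal.ofReal_ne_top, one_mul]

lemma alaw_small (hQ : IsProbabilityMeasure Q) {B : Set C(unitInterval, ℂ)} {ε : ℝ} (hε : 0 < ε)
    (h : ∀ᶠ k in atTop, ylaw Q k B ≤ ENNReal.ofReal (ε / 2)) : ∀ᶠ N in atTop, alaw Q N B ≤ ENNReal.ofReal ε := by
  have h1 := avg_small (f := fun k => ylaw Q k B) (fun k => by
    have := Sym.ylaw_prob hQ k
    exact prob_le_one) (half_pos hε) h
  filter_upwards [h1] with N hN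
  rw [alaw_apply]
  refine hN.trans ?_
  rw [mul_div_cancel₀ _ (two_ne_zero)]

lemma ev_succ {p : ℕ → Prop} (h : ∀ᶠ k in atTop, p k) : ∀ᶠ k in atTop, p (k + 1) :=
  (tendsto_add_atTop_nat 1).eventually h

/-- the laws of `Y_k` -/
theorem tame_y_of (hQ : IsProbabilityMeasure Q) (hH : HolU Q) (hP : PinU Q) (hL : LowU Q) :
    TameI (fun k => ylaw Q (k + 1)) where
  prob := fun j => Sym.ylaw_prob hQ (j + 1)
  zero := fun j => ae_iff.2 (ylaw_zero (j + 1))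
  hol := fun a ha ha1 ε hε => by
    obtain ⟨M, hM⟩ := hH a ha ha1 ε hε
    exact ⟨M, Eventually.of_forall fun j => hM (j + 1) (Nat.le_add_left 1 j)⟩
  pin := fun η ε hη hε => by
    obtain ⟨δ, hδ, h1⟩ := hP η ε hη hε
    exact ⟨δ, hδ, ev_succ h1⟩
  low := fun h ε hh hε => by
    obtain ⟨η, hη, h1⟩ := hL h ε hh hε
    exact ⟨η, hη, ev_succ h1⟩

/-- the laws of `Y_k`, `k` with the weights `1 / k` -/
theorem tame_a_of (hQ : IsProbabilityMeasure Q) (hH : HolU Q) (hP : PinU Q) (hL : LowU Q) :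
    TameI (fun N => alaw Q (N + 1)) where
  prob := fun j => Sym.alaw_prob hQ (Nat.le_add_left 1 j)
  zero := fun j => ae_iff.2 (alaw_zero (j + 1))
  hol := fun a ha ha1 ε hε => by
    obtain ⟨M, hM⟩ := hH a ha ha1 (ε / 2) (half_pos hε)
    exact ⟨M, ev_succ (alaw_small hQ hε (eventually_atTop.2 ⟨1, hM⟩))⟩
  pin := fun η ε hη hε => by
    obtain ⟨δ, hδ, h1⟩ := hP η (ε / 2) hη (half_pos hε)
    exact ⟨δ, hδ, ev_succ (alaw_small hQ hε h1)⟩
  low := fun h ε hh hε => by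
    obtain ⟨η, hη, h1⟩ := hL h (ε / 2) hh (half_pos hε)
    exact ⟨η, hη, ev_succ (alaw_small hQ hε h1)⟩

/-- `nice_lim` for a sequence that is tame from the index 1 on -/
lemma nice_succ {μ : ℕ → Measure C(unitInterval, ℂ)} (hT : TameI fun k => μ (k + 1)) {φ : ℕ → ℕ}
    {ν : Measure C(unitInterval, ℂ)} (hφ : Tendsto φ atTop atTop) (hν : IsProbabilityMeasure ν) (hlim : ToLaw μ φ ν) :
    ∀ᵐ γ ∂ν, Nice0 γ := by
  refine nice_lim hT (φ := fun k => φ k - 1) ((tendsto_sub_atTop_nat 1).comp hφ) hν fun f => ?_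
  refine (hlim f).congr' ?_
  filter_upwards [hφ.eventually_ge_atTop 1] with k hk
  rw [Nat.sub_add_cancel hk]

/-- on no interval Hoelder of an exponent above 3/4, uniformly -/
def RoughU (μ : ℕ → Measure C(unitInterval, ℂ)) : Prop := ∀ (φ : ℕ → ℕ) (ν : Measure C(unitInterval, ℂ)),
  Tendsto φ atTop atTop → IsProbabilityMeasure ν → ToLaw μ φ ν → ∀ᵐ γ ∂ν, ∀ b : ℝ, 3 / 4 < b → ∃ c : ℝ, 0 < c ∧
    ∀ u v : unitInterval, u < v → ∃ x : unitInterval, u ≤ x ∧ x ≤ v ∧ c * ((v : ℝ) - u) ^ b ≤ ‖γ x - γ u‖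

lemma nice_of {ν : Measure C(unitInterval, ℂ)} (h1 : ∀ᵐ γ ∂ν, Nice0 γ) (h2 : ∀ᵐ γ : C(unitInterval, ℂ) ∂ν, ∀ b : ℝ, 3 / 4 < b →
    ∃ c : ℝ, 0 < c ∧ ∀ u v : unitInterval, u < v → ∃ x : unitInterval, u ≤ x ∧ x ≤ v ∧ c * ((v : ℝ) - u) ^ b ≤ ‖γ x - γ u‖) :
    ∀ᵐ γ ∂ν, Nice γ := by
  filter_upwards [h1, h2] with γ g1 g2
  exact ⟨g1.1, g1.2.1, g1.2.2, g2⟩

/-- **(c)** -/
theorem stC_of (hQ : IsProbabilityMeasure Q) (hS : MeasurePreserving (fun (ω : ℤ → Bool) (j : ℤ) => ω (j + 1)) Q Q)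
    (hH : HolU Q) (hP : PinU Q) (hL : LowU Q) (hR : RoughU (ylaw Q)) : StC Q :=
  ⟨tight_of (fun k _ => ae_iff.2 (ylaw_zero k)) hH, fun _ _ hφ hν hlim =>
    ⟨nice_of (nice_succ (tame_y_of hQ hH hP hL) hφ hν hlim) (hR _ _ hφ hν hlim),
      fun _ _ hs hc hsc => stat_y hQ hS hφ hν hlim hs hc hsc⟩⟩

/-- **(d)** -/
theorem stD_of (hQ : IsProbabilityMeasure Q) (hS : MeasurePreserving (fun (ω : ℤ → Bool) (j : ℤ) => ω (j + 1)) Q Q)
    (hH : HolU Q) (hP : PinU Q) (hL : LowU Q) (hR : RoughU (alaw Q)) : StD Q :=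
  fun _ _ hφ hν hlim => ⟨nice_of (nice_succ (tame_a_of hQ hH hP hL) hφ hν hlim) (hR _ _ hφ hν hlim),
    fun _ _ hs hc hsc => self_a hQ hS hφ hν hlim hs hc hsc⟩

end Pool.Agent.TSW
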