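import Pool.Agent.TSW.TameY
import Pool.Agent.TSW.StCD

/-!
# Two-sided walk (helper78): the laws of the curves

* `holU`, `pinU`, `lowU` : the rare curves of `ylaw Q k`;
-/

set_option autoImplicit false

open MeasureTheory Filter Topology
open scoped Classical ENNReal

namespace Pool.Agent.TSW

open Pool.Agent.NTS.Res
open HexObs.SIM (Pinch)
open Pool.Agent.IW (Flat)

variable {Q : Measure (ℤ → Bool)}

/-- the curve depends on finitely many turns -/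
lemma ycurve_congr0 {k : ℕ} {ζ : ℂ} {ω ω' : ℤ → Bool} (h : ∀ l : ℕ, l < k → ω l = ω' l) : ycurve k ζ ω = ycurve k ζ ω' := by
  ext u
  show ∑ j ∈ Finset.range k, _ = ∑ j ∈ Finset.range k, _
  refine Finset.sum_congr rfl fun j hj => ?_
  rw [Finset.mem_range] at hj
  rw [disp_congr (k := j + 1) fun l hl => h l (by omega), disp_congr (k := j) fun l hl => h l (by omega)]

lemma cont_ycurve (k : ℕ) (ζ : ℂ) : Continuous (ycurve k ζ) := by
  have e : ycurve k ζ = (fun η : Fin k → Bool => ycurve k ζ (exten η)) ∘ fun (ω : ℤ → Bool) (j : Fin k) => ω ((j : ℕ) : ℤ) := by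
    funext ω
    refine ycurve_congr0 fun l hl => ?_
    rw [exten_nat _ hl]
  rw [e]
  exact continuous_of_discreteTopology.comp (by fun_prop)

lemma meas_ycurve0 (k : ℕ) (ζ : ℂ) : Measurable (ycurve k ζ) := (cont_ycurve k ζ).measurable

lemma unit6 (a : Fin 6) : ‖Complex.exp ((Real.pi : ℂ) / 3 * Complex.I * ((a : ℕ) : ℂ))‖ = 1 := by
  rw [show (Real.pi : ℂ) / 3 * Complex.I * ((a : ℕ) : ℂ) = ((Real.pi / 3 * ((a : ℕ) : ℝ) : ℝ) : ℂ) * Complex.I by push_cast; ring]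
  exact Complex.norm_exp_ofReal_mul_I _

/-- bounds for the law of the curves -/
lemma ylaw_le {k : ℕ} {B : Set C(unitInterval, ℂ)} (hB : MeasurableSet B) {c : ℝ≥0∞}
    (h : ∀ ζ : ℂ, ‖ζ‖ = 1 → Q {ω | ycurve k ζ ω ∈ B} ≤ c) : ylaw Q k B ≤ c := by
  unfold ylaw
  rw [Measure.finsetSum_apply]
  have h1 : ∀ a ∈ (Finset.univ : Finset (Fin 6)), ((6 : ℝ≥0∞)⁻¹ • Q.map (ycurve k (Complex.exp ((Real.pi : ℂ) / 3 *
      Complex.I * ((a : ℕ) : ℂ))))) B ≤ (6 : ℝ≥0∞)⁻¹ * c := by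
    intro a _
    rw [Measure.smul_apply, smul_eq_mul, Measure.map_apply (meas_ycurve0 _ _) hB]
    exact mul_le_mul_right (h _ (unit6 a)) _
  refine (Finset.sum_le_sum h1).trans (le_of_eq ?_)
  rw [Finset.sum_const, Finset.card_univ, Fintype.card_fin, nsmul_eq_mul, ← mul_assoc]
  push_cast
  rw [ENNReal.mul_inv_cancel (by norm_num) (by norm_num), one_mul]

lemma ylaw_prob0 (hQ : IsProbabilityMeasure Q) (k : ℕ) : IsProbabilityMeasure (ylaw Q k) := by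
  refine ⟨?_⟩
  unfold ylaw
  rw [Measure.finsetSum_apply]
  have h1 : ∀ a ∈ (Finset.univ : Finset (Fin 6)), ((6 : ℝ≥0∞)⁻¹ • Q.map (ycurve k (Complex.exp ((Real.pi : ℂ) / 3 *
      Complex.I * ((a : ℕ) : ℂ))))) Set.univ = (6 : ℝ≥0∞)⁻¹ := by
    intro a _
    rw [Measure.smul_apply, smul_eq_mul, Measure.map_apply (meas_ycurve0 _ _) MeasurableSet.univ, Set.preimage_univ, measure_univ,
      mul_one]
  rw [Finset.sum_congr rfl h1, Finset.sum_const, Finset.card_univ, Fintype.card_fin, nsmul_eq_mul]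
  push_cast
  exact ENNReal.mul_inv_cancel (by norm_num) (by norm_num)

/-! ### the rare curves -/

section

variable (hQ : QD Q)

include hQ

lemma of_real {E : Set (ℤ → Bool)} {ε : ℝ} (h : Q.real E ≤ ε) : Q E ≤ ENNReal.ofReal ε := by
  have := hQ.prob
  rw [← ENNReal.ofReal_toReal (measure_ne_top Q E)]
  exact ENNReal.ofReal_le_ofReal h

/-- **Hoelder** -/
theorem holY {a : NNReal} (ha : 0 < a) (ha2 : (a : ℝ) < 3 / 4) {ε : ℝ} (hε : 0 < ε) : ∃ M : NNReal, ∀ k : ℕ, 1 ≤ k →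
    ylaw Q k {γ | ¬ HolderWith M a γ} ≤ ENNReal.ofReal ε := by
  have := hQ.prob
  obtain ⟨M, hM, h⟩ := holK hQ (a := (a : ℝ)) (by exact_mod_cast ha) ha2 hε
  refine ⟨⟨M, hM.le⟩ + 2, fun k hk => ?_⟩
  refine ylaw_le (NTF.closed_holder _ a).isOpen_compl.measurableSet fun ζ hζ => ?_
  refine (measure_mono ?_).trans (of_real hQ (h k hk))
  intro ω hω
  by_contra hcon
  refine hω ?_
  rw [Set.mem_ofPred_eq] at hcon
  push Not at hcon
  show HolderWith _ _ (ycurve k ζ ω)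
  rw [ycurve_crv]
  refine crv_holder hk (fun j _ => pts_step hζ ω j) ha2.le fun i j hij hj => ?_
  rw [pts_norm hζ]
  exact hcon i j hij hj

/-- **near touches** -/
theorem pinY {η : ℝ} (hη : 0 < η) {ε : ℝ} (hε : 0 < ε) : ∃ (δ : ℝ) (k0 : ℕ), 0 < δ ∧ ∀ k : ℕ, k0 ≤ k →
    ylaw Q k (Pinch η δ) ≤ ENNReal.ofReal ε := by
  have := hQ.prob
  obtain ⟨e, k0, he, h⟩ := pinK hQ (η := η / 4) (by positivity) hε
  obtain ⟨δ, hδ⟩ : ∃ δ : ℝ, δ = min (e / 2) (η / 4) := ⟨_, rfl⟩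
  have hδ0 : 0 < δ := by
    rw [hδ]
    exact lt_min (by positivity) (by positivity)
  have hδ1 : δ ≤ e / 2 := by
    rw [hδ]
    exact min_le_left _ _
  have hδ2 : δ ≤ η / 4 := by
    rw [hδ]
    exact min_le_right _ _
  obtain ⟨k1, hk1⟩ : ∃ k1 : ℕ, ∀ k : ℕ, k1 ≤ k → 16 / δ ≤ (k : ℝ) ^ (3 / 4 : ℝ) := by
    have h1 : Tendsto (fun k : ℕ => (k : ℝ) ^ (3 / 4 : ℝ)) atTop atTop :=
      (tendsto_rpow_atTop (by norm_num)).comp tendsto_natCast_atTop_atTop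
    exact eventually_atTop.1 (h1.eventually_ge_atTop (16 / δ))
  refine ⟨δ, max (max k0 k1) 1, hδ0, fun k hk => ?_⟩
  have hk01 : 1 ≤ k := (le_max_right _ _).trans hk
  refine ylaw_le (HexObs.SIM.pinch_open _ _).measurableSet fun ζ hζ => ?_
  refine (measure_mono ?_).trans (of_real hQ (h k (by omega)))
  intro ω hω
  have h3 := hk1 k (by omega)
  rw [div_le_iff₀ hδ0] at h3
  have h4 : ycurve k ζ ω ∈ Pinch η δ := hω
  rw [ycurve_crv] at h4
  obtain ⟨i, l, j, a1, a2, a3, a4, a5⟩ := crv_pinch hk01 (fun j _ => pts_step hζ ω j) h4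
  rw [pts_norm hζ] at a4 a5
  have hr := rk_pos (k := k) hk01
  have q1 : δ * (k : ℝ) ^ (3 / 4 : ℝ) ≤ e / 2 * (k : ℝ) ^ (3 / 4 : ℝ) := mul_le_mul_of_nonneg_right hδ1 hr.le
  have q2 : δ * (k : ℝ) ^ (3 / 4 : ℝ) ≤ η / 4 * (k : ℝ) ^ (3 / 4 : ℝ) := mul_le_mul_of_nonneg_right hδ2 hr.le
  have h5 : dQ ω i l ≤ dQ ω i j + dQ ω l j := by
    unfold dQ
    have := norm_sub_le (disp ω 0 j - disp ω 0 i) (disp ω 0 j - disp ω 0 l)
    rwa [show disp ω 0 j - disp ω 0 i - (disp ω 0 j - disp ω 0 l) = disp ω 0 l - disp ω 0 i by ring] at this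
  refine ⟨i, l, j, a1, a2, a3, by linarith, by linarith, by linarith⟩

/-- **slow pieces** -/
theorem lowY {h : ℝ} (hh : 0 < h) {ε : ℝ} (hε : 0 < ε) : ∃ (η : ℝ) (k0 : ℕ), 0 < η ∧ ∀ k : ℕ, k0 ≤ k →
    ylaw Q k (Flat h η) ≤ ENNReal.ofReal ε := by
  have := hQ.prob
  obtain ⟨η, k0, hη, h1⟩ := lowK hQ (h := h / 2) (by positivity) hε
  refine ⟨η / 2, max (max k0 ⌈4 / h⌉₊) 1, by positivity, fun k hk => ?_⟩
  have hk01 : 1 ≤ k := (le_max_right _ _).trans hk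
  refine ylaw_le (Pool.Agent.IW.flat_open _ _).measurableSet fun ζ hζ => ?_
  refine (measure_mono ?_).trans (of_real hQ (h1 k (by omega)))
  intro ω hω
  have h2 : 4 ≤ h * k := by
    have h3 : 4 / h ≤ k := (Nat.le_ceil _).trans (by exact_mod_cast (by omega : ⌈4 / h⌉₊ ≤ k))
    rw [div_le_iff₀ hh] at h3
    linarith
  have h4 : ycurve k ζ ω ∈ Flat h (η / 2) := hω
  rw [ycurve_crv] at h4
  obtain ⟨i, j, a1, a2, a3, a4⟩ := crv_flat hk01 (fun j _ => pts_step hζ ω j) h2 h4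
  refine ⟨i, j, a1, a2, by linarith, fun l l' b1 b2 b3 b4 => ?_⟩
  have h5 := a4 l l' b1 b2 b3 b4
  rw [pts_norm hζ] at h5
  linarith

end

theorem holU (hQ : QD Q) : HolU Q := fun _ ha ha2 _ hε => holY hQ ha ha2 hε

theorem pinU (hQ : QD Q) : PinU Q := by
  intro η ε hη hε
  obtain ⟨δ, k0, hδ, h⟩ := pinY hQ hη hε
  exact ⟨δ, hδ, eventually_atTop.2 ⟨k0, h⟩⟩

theorem lowU (hQ : QD Q) : LowU Q := by
  intro h ε hh hε
  obtain ⟨η, k0, hη, h1⟩ := lowY hQ hh hε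
  exact ⟨η, hη, eventually_atTop.2 ⟨k0, h1⟩⟩

end Pool.Agent.TSW
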