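import Pool.Agent.TSW.Sym
import Pool.Agent.TSW.Geo
import Pool.Agent.TSW.DenF

/-!
# TSW, row StE (helper22), part a: the windows of the n-step walk, of its curve and of the two-sided walk

* `Vc s y k` : the window of the walk from the time y to the time y + k; `av F` : average over the six rotations;
* `Ph k b F` : the functional `av F` of the windows of k turns, the curve divided by b;
* **`riemann`** : the sum of the functional over the windows of the walk and the integral over the windows of the curve.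
-/

set_option autoImplicit false

open Set Filter Topology MeasureTheory
open scoped ENNReal

namespace Pool.Agent.TSW.E

open Pool.Agent.TSW Pool.Agent.TSW.Sym Pool.Agent.NTS.Res

variable {n : ℕ}

lemma step_norm (i : ℕ) (a : Fin 3) : ‖step i a‖ = 1 := by
  unfold step
  rw [norm_mul, norm_pow, norm_neg, norm_one, one_pow, one_mul,
    show 2 * (Real.pi : ℂ) * Complex.I * ((a : ℕ) : ℂ) / 3 = ((2 * Real.pi * (a : ℕ) / 3 : ℝ) : ℂ) * Complex.I by
      push_cast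
      ring, Complex.norm_exp_ofReal_mul_I]

lemma pos_const (s : Fin n → Fin 3) {j : ℕ} (h : n ≤ j) : pos s (j + 1) = pos s j := by
  unfold pos
  congr 1
  ext i
  have := i.2
  simp only [Finset.mem_filter, Finset.mem_univ, true_and]
  constructor <;> intro <;> omega

lemma pos_step (s : Fin n → Fin 3) (j : ℕ) : ‖pos s (j + 1) - pos s j‖ ≤ 1 := by
  rcases Nat.lt_or_ge j n with h | h
  · rw [NTSF.pos_succ s j h, add_sub_cancel_left, step_norm]
  · rw [pos_const s h, sub_self, norm_zero]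
    exact zero_le_one

/-- the curve -/
lemma curve_Wf (s : Fin n → Fin 3) (u : unitInterval) : curve s u = ((size n : ℝ) : ℂ)⁻¹ * Wf (pos s) (u * n) := by
  have hu1 : (u : ℝ) ≤ 1 := u.2.2
  have h1 : (u : ℝ) * n ≤ n := mul_le_of_le_one_left (Nat.cast_nonneg n) hu1
  rw [← WK_eq _ h1]
  unfold WK
  rw [Finset.mul_sum]
  show ∑ k ∈ Finset.range n, ((max 0 (min 1 ((u : ℝ) * n - k)) : ℝ) : ℂ) * ((pos s (k + 1) - pos s k) / size n) = _
  refine Finset.sum_congr rfl fun j _ => ?_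
  unfold cl
  rw [div_eq_mul_inv]
  ring

/-- windows of the walk -/
noncomputable def Vc (s : Fin n → Fin 3) (y k : ℝ) : CI where
  toFun u := Wf (pos s) (y + k * u) - Wf (pos s) y
  continuous_toFun := by
    have h1 : Continuous (Wf (pos s)) := by
      refine (LipschitzWith.of_dist_le_mul (K := 1) fun x y => ?_).continuous
      rw [dist_eq_norm, NNReal.coe_one, one_mul, Real.dist_eq]
      exact Wf_lip (pos_step s) x y
    exact (h1.comp (by fun_prop)).sub continuous_const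

lemma Vc_apply (s : Fin n → Fin 3) (y k : ℝ) (u : unitInterval) : Vc s y k u = Wf (pos s) (y + k * u) - Wf (pos s) y := rfl

lemma Vc_dist (s : Fin n → Fin 3) (y y' k : ℝ) : ‖Vc s y k - Vc s y' k‖ ≤ 2 * |y - y'| := by
  refine (ContinuousMap.norm_le _ (by positivity)).2 fun u => ?_
  rw [ContinuousMap.sub_apply, Vc_apply, Vc_apply]
  have e : Wf (pos s) (y + k * u) - Wf (pos s) y - (Wf (pos s) (y' + k * u) - Wf (pos s) y') =
      (Wf (pos s) (y + k * u) - Wf (pos s) (y' + k * u)) - (Wf (pos s) y - Wf (pos s) y') := by ring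
  rw [e]
  refine (norm_sub_le _ _).trans ?_
  have h1 := Wf_lip (pos_step s) (y + k * u) (y' + k * u)
  have h2 := Wf_lip (pos_step s) y y'
  rw [show y + k * (u : ℝ) - (y' + k * u) = y - y' by ring] at h1
  linarith

lemma Wf_le (hn : 1 ≤ n) (s : Fin n → Fin 3) {x : ℝ} (h0 : 0 ≤ x) (h1 : x ≤ n) : ‖Wf (pos s) x‖ ≤ size n * ‖curve s‖ := by
  have hn0 : (0 : ℝ) < n := by exact_mod_cast hn
  have hs := NTSF.size_pos hn
  have h2 := (curve s).norm_coe_le_norm ⟨x / n, by positivity, by rw [div_le_one hn0]; exact h1⟩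
  rw [curve_Wf, norm_mul, norm_inv, Complex.norm_real, Real.norm_eq_abs, abs_of_pos hs] at h2
  have e : x / n * (n : ℝ) = x := by field_simp
  simp only [e] at h2
  rw [inv_mul_le_iff₀ hs] at h2
  exact h2

lemma Vc_norm (hn : 1 ≤ n) (s : Fin n → Fin 3) {y k : ℝ} (hy : 0 ≤ y) (hk : 0 ≤ k) (h : y + k ≤ n) :
    ‖Vc s y k‖ ≤ 2 * (size n * ‖curve s‖) := by
  have hs := NTSF.size_pos hn
  refine (ContinuousMap.norm_le _ (by positivity)).2 fun u => ?_
  have hu0 : (0 : ℝ) ≤ u := u.2.1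
  have hu1 : (u : ℝ) ≤ 1 := u.2.2
  have hku : k * u ≤ k := mul_le_of_le_one_right hk hu1
  have hku0 : 0 ≤ k * u := by positivity
  rw [Vc_apply]
  refine (norm_sub_le _ _).trans ?_
  have h1 := Wf_le hn s (x := y + k * u) (by linarith) (by linarith)
  have h2 := Wf_le hn s (x := y) hy (by linarith)
  linarith

/-- the windows of the curve -/
lemma part_curve (hn : 1 ≤ n) (s : Fin n → Fin 3) {x c : ℝ} (hx : 0 ≤ x) (hc : 0 < c) (h : x + c ≤ 1) :
    part x c (curve s) = ((size n : ℝ) : ℂ)⁻¹ • Vc s (x * n) (c * n) := by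
  ext t
  have ht0 : (0 : ℝ) ≤ t := t.2.1
  have ht1 : (t : ℝ) ≤ 1 := t.2.2
  have hct : c * t ≤ c := mul_le_of_le_one_right hc.le ht1
  have hct0 : 0 ≤ c * t := by positivity
  have e1 : ((projIcc (0 : ℝ) 1 zero_le_one (x + c * t) : unitInterval) : ℝ) = x + c * t := by
    rw [projIcc_of_mem zero_le_one (⟨by linarith, by linarith⟩ : x + c * t ∈ Icc (0 : ℝ) 1)]
  have e2 : ((projIcc (0 : ℝ) 1 zero_le_one x : unitInterval) : ℝ) = x := by
    rw [projIcc_of_mem zero_le_one (⟨hx, by linarith⟩ : x ∈ Icc (0 : ℝ) 1)]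
  show curve s (projIcc 0 1 zero_le_one (x + c * t)) - curve s (projIcc 0 1 zero_le_one x) = _
  rw [curve_Wf, curve_Wf, e1, e2, ContinuousMap.smul_apply, Vc_apply, smul_eq_mul]
  have e3 : (x + c * (t : ℝ)) * n = x * n + c * n * t := by ring
  rw [e3]
  ring

/-! ### averages over the six rotations -/

/-- average over the six rotations -/
noncomputable def av (F : CI → ℝ) (γ : CI) : ℝ := 6⁻¹ * ∑ a : Fin 6, F (ex ((a : ℕ) : ℤ) • γ)

lemma av_rot (F : CI → ℝ) (b : ℤ) (γ : CI) : av F (ex b • γ) = av F γ := by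
  unfold av
  congr 1
  have h := sum_rot (fun ζ => F (ζ • γ)) b
  rw [← h]
  exact Finset.sum_congr rfl fun a _ => by rw [smul_smul]

lemma av_bd {F : CI → ℝ} (hF : ∀ γ, 0 ≤ F γ ∧ F γ ≤ 1) (γ : CI) : 0 ≤ av F γ ∧ av F γ ≤ 1 := by
  unfold av
  rw [Fin.sum_univ_six]
  have h := fun a : Fin 6 => hF (ex ((a : ℕ) : ℤ) • γ)
  have h0 := h 0
  have h1 := h 1
  have h2 := h 2
  have h3 := h 3
  have h4 := h 4
  have h5 := h 5
  constructor
  · linarith [h0.1, h1.1, h2.1, h3.1, h4.1, h5.1]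
  · linarith [h0.2, h1.2, h2.2, h3.2, h4.2, h5.2]

lemma av_lip {F : CI → ℝ} {K : ℝ} (hK : 0 ≤ K) (hF : ∀ γ γ', |F γ - F γ'| ≤ K * ‖γ - γ'‖) (γ γ' : CI) :
    |av F γ - av F γ'| ≤ K * ‖γ - γ'‖ := by
  unfold av
  rw [← mul_sub, ← Finset.sum_sub_distrib, abs_mul, abs_of_nonneg (by norm_num : (0 : ℝ) ≤ 6⁻¹)]
  have h1 : ∀ a ∈ (Finset.univ : Finset (Fin 6)), |F (ex ((a : ℕ) : ℤ) • γ) - F (ex ((a : ℕ) : ℤ) • γ')| ≤ K * ‖γ - γ'‖ := by
    intro a _
    refine (hF _ _).trans (le_of_eq ?_)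
    have e : ex ((a : ℕ) : ℤ) • γ - ex ((a : ℕ) : ℤ) • γ' = ex ((a : ℕ) : ℤ) • (γ - γ') := (smul_sub _ _ _).symm
    rw [e, norm_smul, ex_norm, one_mul]
  have h2 := (Finset.abs_sum_le_sum_abs _ _).trans (Finset.sum_le_sum h1)
  rw [Finset.sum_const, Finset.card_univ, Fintype.card_fin, nsmul_eq_mul] at h2
  push_cast at h2
  linarith

/-! ### the functional of the turns -/

/-- the functional of the windows of k turns; the curve is divided by b -/
noncomputable def Ph (k : ℕ) (b : ℝ) (F : CI → ℝ) (τ : Fin k → Bool) : ℝ :=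
  av F (((((k : ℝ) ^ (3 / 4 : ℝ) / b : ℝ)) : ℂ) • ycurve k 1 (xt k τ))

lemma Ph_bd {F : CI → ℝ} (hF : ∀ γ, 0 ≤ F γ ∧ F γ ≤ 1) (k : ℕ) (b : ℝ) (τ : Fin k → Bool) :
    0 ≤ Ph k b F τ ∧ Ph k b F τ ≤ 1 := av_bd hF _

lemma ycurve_smul (k : ℕ) (ζ : ℂ) (ω : ℤ → Bool) : ycurve k ζ ω = ζ • ycurve k 1 ω := by
  ext u
  rw [ContinuousMap.smul_apply, smul_eq_mul]
  show ∑ j ∈ Finset.range k, _ = ζ * ∑ j ∈ Finset.range k, _
  rw [Finset.mul_sum]
  refine Finset.sum_congr rfl fun j _ => ?_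
  ring

lemma xt_apply {k : ℕ} (τ : Fin k → Bool) {l : ℕ} (hl : l < k) : xt k τ (l : ℤ) = τ ⟨l, hl⟩ := by
  unfold xt
  rw [dif_pos (by simpa using hl)]
  simp

lemma sm_xt (s : Fin n → Fin 3) (i k : ℕ) {j : ℕ} (hj : j ≤ k) :
    sm (xt k fun l : Fin k => turn s (i + l)) j = ts s i j := by
  unfold sm ts
  refine Finset.sum_congr rfl fun l hl => ?_
  rw [Finset.mem_range] at hl
  rw [zero_add, xt_apply _ (show l < k by omega)]

/-- the direction of a step -/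
lemma step_ex (i : ℕ) (a : Fin 3) : ∃ b : ℤ, step i a = ex b := by
  refine ⟨3 * i + 2 * (a : ℕ), ?_⟩
  rw [step_w6]
  unfold w6 ex
  rw [← Complex.exp_nat_mul]
  have h1 : (-1 : ℂ) = Complex.exp (Real.pi * Complex.I) := Complex.exp_pi_mul_I.symm
  rw [h1, ← Complex.exp_nat_mul, ← Complex.exp_add]
  congr 1
  push_cast
  ring

/-- the window of the turns and the window of the walk -/
lemma ycurve_win {s : Fin n → Fin 3} (hs : s ∈ saw n) {i k : ℕ} (hk : 0 < k) (hi : i + k ≤ n) :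
    ∃ b : ℤ, (((k : ℝ) ^ (3 / 4 : ℝ) : ℝ) : ℂ) • ycurve k 1 (xt k fun l : Fin k => turn s (i + l)) = ex b • Vc s i k := by
  obtain ⟨b, hb⟩ := step_ex i (s ⟨i, by omega⟩)
  refine ⟨-b, ?_⟩
  obtain ⟨ω, hω⟩ : ∃ ω, ω = xt k fun l : Fin k => turn s (i + l) := ⟨_, rfl⟩
  rw [← hω]
  have hk0 : (0 : ℝ) < k := by exact_mod_cast hk
  have hkp : (0 : ℝ) < (k : ℝ) ^ (3 / 4 : ℝ) := Real.rpow_pos_of_pos hk0 _
  have hone : ‖(1 : ℂ)‖ = 1 := norm_one
  ext u
  have hu0 : (0 : ℝ) ≤ u := u.2.1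
  have hu1 : (u : ℝ) ≤ 1 := u.2.2
  have huk : (u : ℝ) * k ≤ k := mul_le_of_le_one_left hk0.le hu1
  rw [ycurve_eq hone, ContinuousMap.smul_apply, ContinuousMap.smul_apply, smul_eq_mul, smul_eq_mul, Yr_apply, Vc_apply,
    Wf_shift (pos s) i (by positivity), mul_comm (k : ℝ) (u : ℝ), ← WK_eq _ huk, ← WK_eq (fun j => pos s (i + j)) huk]
  have e1 : (((k : ℝ) ^ (3 / 4 : ℝ) : ℝ) : ℂ) * ((((k : ℝ) ^ (-(3 / 4) : ℝ) : ℝ) : ℂ) * WK (zz 1 ω) k (u * k)) =
      WK (zz 1 ω) k (u * k) := by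
    rw [← mul_assoc, ← Complex.ofReal_mul, Real.rpow_neg hk0.le, mul_inv_cancel₀ hkp.ne', Complex.ofReal_one, one_mul]
  rw [e1]
  unfold WK
  rw [Finset.mul_sum]
  refine Finset.sum_congr rfl fun j hj => ?_
  rw [Finset.mem_range] at hj
  have h1 : pos s (i + (j + 1)) - pos s (i + j) = ex b * ex (sm ω j) := by
    have h2 := NTSF.pos_succ s (i + j) (by omega)
    have h3 : pos s (i + (j + 1)) = pos s (i + j + 1) := rfl
    rw [h3, h2, add_sub_cancel_left, step_sum hs (by omega), hb, hω, sm_xt s i k (by omega)]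
    rfl
  rw [h1, zz_succ, one_mul]
  have h4 : ex (-b) * ex b = 1 := by
    rw [← ex_add, neg_add_cancel]
    unfold ex
    simp
  calc ((cl ((u : ℝ) * k - j) : ℝ) : ℂ) * ex (sm ω j) = (ex (-b) * ex b) * (((cl ((u : ℝ) * k - j) : ℝ) : ℂ) * ex (sm ω j)) := by
        rw [h4, one_mul]
    _ = _ := by ring

lemma Ph_win {s : Fin n → Fin 3} (hs : s ∈ saw n) {i k : ℕ} (hk : 0 < k) (hi : i + k ≤ n) (b : ℝ) (F : CI → ℝ) :
    Ph k b F (fun l : Fin k => turn s (i + l)) = av F (((b : ℝ) : ℂ)⁻¹ • Vc s i k) := by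
  obtain ⟨c, hc⟩ := ycurve_win hs hk hi
  unfold Ph
  have e : (((((k : ℝ) ^ (3 / 4 : ℝ) / b : ℝ)) : ℂ) • ycurve k 1 (xt k fun l : Fin k => turn s (i + l))) =
      ex c • (((b : ℝ) : ℂ)⁻¹ • Vc s i k) := by
    rw [smul_comm, ← hc, smul_smul]
    congr 1
    push_cast
    rw [div_eq_mul_inv]
    ring
  rw [e, av_rot]

end Pool.Agent.TSW.E
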