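import Pool.Agent.TSW.StEa

/-!
# TSW, row StE (helper22), part b: the sum over the windows of the walk and the integral over the windows of its curve

* `GR F R γ` : the integral of `av F` over the windows of length `1 / R` of the curve γ, magnified by `R ^ (3 / 4)`;
* **`riemann`** : the comparison for one walk.
-/

set_option autoImplicit false

open Set Filter Topology MeasureTheory
open scoped ENNReal

namespace Pool.Agent.TSW.E

open Pool.Agent.TSW Pool.Agent.TSW.Sym Pool.Agent.NTS.Res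

variable {n : ℕ}

/-- Riemann sums -/
lemma riemann_abs {g : ℝ → ℝ} (hg : Continuous g) (N : ℕ) {a : ℕ → ℝ} {δ : ℝ}
    (h : ∀ i : ℕ, i < N → ∀ y : ℝ, (i : ℝ) ≤ y → y ≤ i + 1 → |g y - a i| ≤ δ) :
    |(∫ y in (0 : ℝ)..N, g y) - ∑ i ∈ Finset.range N, a i| ≤ N * δ := by
  have hint : ∀ i : ℕ, IntervalIntegrable g volume ((i : ℕ) : ℝ) ((i + 1 : ℕ) : ℝ) := fun i => hg.intervalIntegrable _ _
  have h1 : ∫ y in (0 : ℝ)..N, g y = ∑ i ∈ Finset.range N, ∫ y in ((i : ℕ) : ℝ)..((i + 1 : ℕ) : ℝ), g y := by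
    rw [intervalIntegral.sum_integral_adjacent_intervals (a := fun i : ℕ => (i : ℝ)) fun i _ => hint i, Nat.cast_zero]
  rw [h1, ← Finset.sum_sub_distrib]
  have h2 : ∀ i ∈ Finset.range N, |(∫ y in ((i : ℕ) : ℝ)..((i + 1 : ℕ) : ℝ), g y) - a i| ≤ δ := by
    intro i hi
    rw [Finset.mem_range] at hi
    have h3 : (∫ y in ((i : ℕ) : ℝ)..((i + 1 : ℕ) : ℝ), g y) - a i = ∫ y in ((i : ℕ) : ℝ)..((i + 1 : ℕ) : ℝ), (g y - a i) := by
      rw [intervalIntegral.integral_sub (hint i) (by simp), intervalIntegral.integral_const]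
      push_cast
      rw [add_sub_cancel_left, one_smul]
    rw [h3, ← Real.norm_eq_abs]
    have h4 := intervalIntegral.norm_integral_le_of_norm_le_const (a := ((i : ℕ) : ℝ)) (b := ((i + 1 : ℕ) : ℝ)) (C := δ)
      (f := fun y => g y - a i) (fun y hy => by
        rw [uIoc_of_le (by push_cast; linarith)] at hy
        push_cast at hy
        rw [Real.norm_eq_abs]
        exact h i hi y hy.1.le hy.2)
    push_cast at h4 ⊢
    rw [add_sub_cancel_left, abs_one, mul_one] at h4
    exact h4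
  refine (Finset.abs_sum_le_sum_abs _ _).trans ((Finset.sum_le_sum h2).trans ?_)
  rw [Finset.sum_const, Finset.card_range, nsmul_eq_mul]

/-- one window of the curve -/
noncomputable def gw (F : CI → ℝ) (R : ℕ) (γ : CI) (x : ℝ) : ℝ :=
  av F ((((R : ℝ) ^ (3 / 4 : ℝ) : ℝ) : ℂ) • part x (1 / R) γ)

/-- the integral over the windows of the curve -/
noncomputable def GR (F : CI → ℝ) (R : ℕ) (γ : CI) : ℝ := ∫ x in (0 : ℝ)..(1 - 1 / R), gw F R γ x

section

variable {F : CI → ℝ} {K : ℝ} (hK : 0 ≤ K) (hL : ∀ γ γ', |F γ - F γ'| ≤ K * ‖γ - γ'‖)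

include hK hL

lemma av_cont : Continuous (av F) := by
  refine (LipschitzWith.of_dist_le_mul (K := ⟨K, hK⟩) fun γ γ' => ?_).continuous
  rw [Real.dist_eq, dist_eq_norm]
  exact av_lip hK hL γ γ'

omit hK hL in
lemma part_cont2 (c : ℝ) : Continuous fun p : CI × ℝ => part p.2 c p.1 := by
  refine ContinuousMap.continuous_of_continuous_uncurry _ ?_
  have h1 : Continuous fun q : (CI × ℝ) × unitInterval => q.1.1 (projIcc 0 1 zero_le_one (q.1.2 + c * q.2)) := by
    have h2 : Continuous fun q : (CI × ℝ) × unitInterval => projIcc (0 : ℝ) 1 zero_le_one (q.1.2 + c * q.2) :=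
      continuous_projIcc.comp (by fun_prop)
    exact (show Continuous fun q : (CI × ℝ) × unitInterval => q.1.1 from by fun_prop).eval h2
  have h3 : Continuous fun q : (CI × ℝ) × unitInterval => q.1.1 (projIcc 0 1 zero_le_one q.1.2) := by
    have h2 : Continuous fun q : (CI × ℝ) × unitInterval => projIcc (0 : ℝ) 1 zero_le_one q.1.2 :=
      continuous_projIcc.comp (by fun_prop)
    exact (show Continuous fun q : (CI × ℝ) × unitInterval => q.1.1 from by fun_prop).eval h2
  exact h1.sub h3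

lemma gw_cont (R : ℕ) : Continuous fun p : CI × ℝ => gw F R p.1 p.2 := by
  have h0 : Continuous fun p : CI × ℝ => (((R : ℝ) ^ (3 / 4 : ℝ) : ℝ) : ℂ) • part p.2 (1 / R) p.1 := by
    have h2 := part_cont2 (1 / (R : ℝ))
    fun_prop
  exact (av_cont hK hL).comp h0

omit hK hL in
lemma gw_bd (h01 : ∀ γ, 0 ≤ F γ ∧ F γ ≤ 1) (R : ℕ) (γ : CI) (x : ℝ) : 0 ≤ gw F R γ x ∧ gw F R γ x ≤ 1 := av_bd h01 _

lemma GR_cont (h01 : ∀ γ, 0 ≤ F γ ∧ F γ ≤ 1) (R : ℕ) : Continuous (GR F R) := by
  have h1 := gw_cont hK hL R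
  have hx : ∀ γ : CI, Continuous fun x : ℝ => gw F R γ x := by
    intro γ
    have h2 : Continuous fun x : ℝ => ((γ, x) : CI × ℝ) := by fun_prop
    have h3 := h1.comp h2
    exact h3
  have hy : ∀ x : ℝ, Continuous fun γ : CI => gw F R γ x := by
    intro x
    have h2 : Continuous fun γ : CI => ((γ, x) : CI × ℝ) := by fun_prop
    have h3 := h1.comp h2
    exact h3
  refine intervalIntegral.continuous_of_dominated_interval (bound := fun _ => 1) (fun γ => (hx γ).aestronglyMeasurable)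
    (fun γ => Eventually.of_forall fun x _ => ?_) (by simp) (Eventually.of_forall fun x _ => hy x)
  rw [Real.norm_eq_abs, abs_of_nonneg (gw_bd h01 R γ x).1]
  exact (gw_bd h01 R γ x).2

omit hK hL in
lemma GR_bd (h01 : ∀ γ, 0 ≤ F γ ∧ F γ ≤ 1) {R : ℕ} (hR : 1 ≤ R) (γ : CI) : 0 ≤ GR F R γ ∧ GR F R γ ≤ 1 := by
  have hR' : (1 : ℝ) ≤ R := by exact_mod_cast hR
  have h0 : 0 ≤ 1 - 1 / (R : ℝ) := by
    rw [sub_nonneg, div_le_one (by linarith)]
    exact hR'
  have h0' : 1 - 1 / (R : ℝ) ≤ 1 := by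
    have : 0 ≤ 1 / (R : ℝ) := by positivity
    linarith
  refine ⟨intervalIntegral.integral_nonneg h0 fun x _ => (gw_bd h01 R γ x).1, ?_⟩
  have h1 := intervalIntegral.norm_integral_le_of_norm_le_const (a := 0) (b := 1 - 1 / (R : ℝ)) (C := 1)
    (f := fun x => gw F R γ x) (fun x _ => by
      rw [Real.norm_eq_abs, abs_of_nonneg (gw_bd h01 R γ x).1]
      exact (gw_bd h01 R γ x).2)
  rw [sub_zero, abs_of_nonneg h0, one_mul] at h1
  exact (le_abs_self _).trans (h1.trans h0')

/-- **the comparison for one walk** -/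
theorem riemann (h01 : ∀ γ, 0 ≤ F γ ∧ F γ ≤ 1) {R k : ℕ} (hR : 1 ≤ R) (hk : 1 ≤ k) (hn : n = R * k) {s : Fin n → Fin 3}
    (hs : s ∈ saw n) : |n * GR F R (curve s) - hitw s (Ph k (size k) F) 0 n| ≤
      n * (K * (2 * |(R : ℝ) ^ (3 / 4 : ℝ) - size n / size k| * ‖curve s‖ + 2 / size k)) := by
  have hn1 : 1 ≤ n := by
    rw [hn]
    exact Nat.mul_pos hR hk
  have hkn : k ≤ n := by
    rw [hn]
    exact Nat.le_mul_of_pos_left _ hR
  have hn0 : (0 : ℝ) < n := by exact_mod_cast hn1
  have hR0 : (0 : ℝ) < R := by exact_mod_cast hR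
  have hk0 : (0 : ℝ) < k := by exact_mod_cast hk
  have hsn := NTSF.size_pos hn1
  have hsk := NTSF.size_pos hk
  have e1 : 1 / (R : ℝ) * n = k := by
    rw [hn]
    push_cast
    field_simp
  obtain ⟨c, hc⟩ : ∃ c : ℂ, c = ((((R : ℝ) ^ (3 / 4 : ℝ) : ℝ) : ℂ)) * ((size n : ℝ) : ℂ)⁻¹ := ⟨_, rfl⟩
  obtain ⟨g, hg⟩ : ∃ g : ℝ → ℝ, g = fun y => av F (c • Vc s y k) := ⟨_, rfl⟩
  have hVcont : Continuous fun y : ℝ => Vc s y k := by
    refine (LipschitzWith.of_dist_le_mul (K := 2) fun y y' => ?_).continuous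
    rw [dist_eq_norm, Real.dist_eq]
    exact_mod_cast Vc_dist s y y' k
  have hgc : Continuous g := by
    rw [hg]
    exact (av_cont hK hL).comp (hVcont.const_smul c)
  -- the integral
  have h1 : n * GR F R (curve s) = ∫ y in (0 : ℝ)..((n - k : ℕ) : ℝ), g y := by
    unfold GR
    have h2 : (∫ x in (0 : ℝ)..(1 - 1 / R), gw F R (curve s) x) = ∫ x in (0 : ℝ)..(1 - 1 / R), g (x * n) := by
      refine intervalIntegral.integral_congr fun x hx => ?_
      have h0 : 0 ≤ 1 - 1 / (R : ℝ) := by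
        rw [sub_nonneg, div_le_one hR0]
        exact_mod_cast hR
      rw [uIcc_of_le h0] at hx
      show av F _ = g (x * n)
      rw [hg, part_curve hn1 s hx.1 (by positivity) (by linarith [hx.2]), e1, smul_smul, ← hc]
    rw [h2, intervalIntegral.integral_comp_mul_right _ hn0.ne', zero_mul, smul_eq_mul, ← mul_assoc,
      mul_inv_cancel₀ hn0.ne', one_mul]
    congr 1
    rw [Nat.cast_sub hkn, sub_mul, one_mul, e1]
  -- the sum
  have h2 : hitw s (Ph k (size k) F) 0 n = ∑ i ∈ Finset.range (n - k), av F (((size k : ℝ) : ℂ)⁻¹ • Vc s (i : ℕ) k) := by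
    unfold hitw
    rw [← Finset.range_eq_Ico, ← Finset.sum_filter]
    have h3 : (Finset.range n).filter (fun i => i + k < n) = Finset.range (n - k) := by
      ext i
      simp only [Finset.mem_filter, Finset.mem_range]
      omega
    rw [h3]
    refine Finset.sum_congr rfl fun i hi => ?_
    rw [Finset.mem_range] at hi
    exact Ph_win hs hk (by omega) _ F
  rw [h1, h2]
  have h3 := riemann_abs hgc (n - k) (a := fun i => av F (((size k : ℝ) : ℂ)⁻¹ • Vc s (i : ℕ) k))
    (δ := K * (2 * |(R : ℝ) ^ (3 / 4 : ℝ) - size n / size k| * ‖curve s‖ + 2 / size k)) (fun i hi y hy1 hy2 => by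
      rw [hg]
      refine (av_lip hK hL _ _).trans (mul_le_mul_of_nonneg_left ?_ hK)
      have e2 : c • Vc s y k - ((size k : ℝ) : ℂ)⁻¹ • Vc s (i : ℕ) k =
          (c - ((size k : ℝ) : ℂ)⁻¹) • Vc s y k + ((size k : ℝ) : ℂ)⁻¹ • (Vc s y k - Vc s (i : ℕ) k) := by
        ext u
        simp only [ContinuousMap.sub_apply, ContinuousMap.add_apply, ContinuousMap.smul_apply, smul_eq_mul]
        ring
      rw [e2]
      refine (norm_add_le _ _).trans (add_le_add ?_ ?_)
      · rw [norm_smul]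
        have hyk : y + k ≤ n := by
          have h4 : (i : ℝ) + 1 + k ≤ n := by exact_mod_cast (show i + 1 + k ≤ n by omega)
          linarith
        have h5 := Vc_norm hn1 s (y := y) (k := k) (by have := Nat.cast_nonneg (α := ℝ) i; linarith) hk0.le hyk
        have e3 : c - ((size k : ℝ) : ℂ)⁻¹ = (((((R : ℝ) ^ (3 / 4 : ℝ) - size n / size k) / size n : ℝ)) : ℂ) := by
          rw [hc]
          push_cast
          have h6 : ((size n : ℝ) : ℂ) ≠ 0 := by exact_mod_cast hsn.ne'
          field_simp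
        rw [e3, Complex.norm_real, Real.norm_eq_abs, abs_div, abs_of_pos hsn]
        calc |(R : ℝ) ^ (3 / 4 : ℝ) - size n / size k| / size n * ‖Vc s y k‖ ≤
              |(R : ℝ) ^ (3 / 4 : ℝ) - size n / size k| / size n * (2 * (size n * ‖curve s‖)) :=
              mul_le_mul_of_nonneg_left h5 (by positivity)
          _ = _ := by field_simp
      · rw [norm_smul, norm_inv, Complex.norm_real, Real.norm_eq_abs, abs_of_pos hsk]
        have h5 := Vc_dist s y (i : ℕ) k
        have h6 : |y - i| ≤ 1 := by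
          rw [abs_le]
          constructor <;> linarith
        rw [inv_mul_le_iff₀ hsk]
        have h7 : size k * (2 / size k) = 2 := by field_simp
        linarith)
  refine h3.trans (mul_le_mul_of_nonneg_right (by exact_mod_cast Nat.sub_le n k) ?_)
  positivity

end

end Pool.Agent.TSW.E
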