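import Pool.Agent.TSW.BadK
import Pool.Agent.TSW.Crv

/-!
# Two-sided walk (helper78): the rare curves

* `holK`, `pinK`, `lowK` : the points of the walk under Q;
* `holY`, `pinY`, `lowY` : the curves `ycurve`.
-/

set_option autoImplicit false

open MeasureTheory Filter Topology
open scoped Classical

namespace Pool.Agent.TSW

open Pool.Agent.NTS.Res
open HexObs.SSI (WP cB dS BQ dW HB LB PB wp_HB wp_LB wp_PB)
open HexObs.SIM (Pinch)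
open Pool.Agent.IW (Flat)

lemma dQ_le (ω : ℤ → Bool) {i j : ℕ} (h : i ≤ j) : dQ ω i j ≤ (j : ℝ) - i := by
  obtain ⟨m, rfl⟩ := Nat.exists_eq_add_of_le h
  clear h
  unfold dQ
  have e : ((i + m : ℕ) : ℝ) - i = m := by push_cast; ring
  rw [e]
  induction m with
  | zero => simp
  | succ m ih =>
    have h1 : disp ω 0 ((i + (m + 1) : ℕ)) - disp ω 0 i = (disp ω 0 (i + m) - disp ω 0 i) + dirn ω (i + m) := by
      rw [← add_assoc, disp_succ0]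
      ring
    rw [h1]
    refine (norm_add_le _ _).trans ?_
    rw [dirn_norm]
    push_cast
    have := ih (by push_cast; ring)
    linarith

variable {Q : Measure (ℤ → Bool)}

/-- the points of the walk: Hoelder -/
theorem holK (hQ : QD Q) {a : ℝ} (ha : 0 < a) (ha2 : a < 3 / 4) {ε : ℝ} (hε : 0 < ε) : ∃ M : ℝ, 0 < M ∧ ∀ k : ℕ, 1 ≤ k →
    Q.real {ω | ∃ i j : ℕ, i < j ∧ j ≤ k ∧ M * (k : ℝ) ^ (3 / 4 : ℝ) * (((j : ℝ) - i) / k) ^ a < dQ ω i j} ≤ ε := by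
  have := hQ.prob
  obtain ⟨δ, θ, L0, hδ, hθ, hbad⟩ := badK hQ hε
  obtain ⟨M1, L1, hM1, hhol⟩ := HexObs.SSI.holA ha ha2 δ hδ
  obtain ⟨C1, C2, C3, hC1, hC2, hC3, hscl⟩ := HexObs.SSI.scl_r (θ := min θ 1) (T := 1 / 2) (lt_min hθ one_pos)
    (min_le_right _ _) le_rfl
  obtain ⟨r0, cn, hr0, hcn, hscl⟩ := hscl (max L0 L1) 0
  refine ⟨M1 * C2 + r0, by positivity, fun k hk => ?_⟩
  have hk0 : (0 : ℝ) < k := by exact_mod_cast hk
  have hk1 : (1 : ℝ) ≤ k := by exact_mod_cast hk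
  have hkp : (0 : ℝ) < (k : ℝ) ^ (3 / 4 : ℝ) := by positivity
  rcases le_total r0 k with hrk | hrk
  · obtain ⟨L, hL, hH, hm1, hm2, hL2, hL3, -⟩ := hscl k hrk
    have hkH : (k : ℝ) ≤ θ * HexObs.PW.mZ (2 ^ L) := by
      have h1 : (k : ℝ) ≤ HexObs.SSI.Hr (1 / 2) k := by
        unfold HexObs.SSI.Hr
        push_cast
        have h1 := Nat.lt_floor_add_one (2 * (1 / 2 : ℝ) * k)
        linarith
      have h2 : min θ 1 * HexObs.PW.mZ (2 ^ L) ≤ θ * HexObs.PW.mZ (2 ^ L) :=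
        mul_le_mul_of_nonneg_right (min_le_left _ _) (HexObs.NPR.mz_pos L).le
      linarith
    refine le_trans ?_ (hbad L k (HB (M1 * 2 ^ L) (HexObs.PW.mZ (2 ^ L)) a) (HB (M1 * 2 ^ L) (HexObs.PW.mZ (2 ^ L)) a) (wp_HB _ _ _) (wp_HB _ _ _)
      ((le_max_left _ _).trans hL) hkH (hhol L ((le_max_right _ _).trans hL)) ?_)
    · refine measureReal_mono ?_ (measure_ne_top _ _)
      rintro ω ⟨i, j, h1, h2, h3⟩
      refine ⟨i, j, Nat.zero_le _, h1, h2, le_trans ?_ h3.le⟩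
      have hij : (0 : ℝ) < (j : ℝ) - i := by
        have : (i : ℝ) < j := by exact_mod_cast h1
        linarith
      have h4 : (((j : ℝ) - i) / HexObs.PW.mZ (2 ^ L)) ^ a ≤ (((j : ℝ) - i) / k) ^ a :=
        Real.rpow_le_rpow (div_nonneg hij.le (HexObs.NPR.mz_pos L).le) (div_le_div_of_nonneg_left hij.le hk0 hm1) ha.le
      have h5 : M1 * 2 ^ L ≤ (M1 * C2 + r0) * (k : ℝ) ^ (3 / 4 : ℝ) := by
        have := mul_le_mul_of_nonneg_left hL2 hM1.le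
        have h6 : 0 ≤ r0 * (k : ℝ) ^ (3 / 4 : ℝ) := by positivity
        linarith
      exact mul_le_mul h5 h4 (Real.rpow_nonneg (div_nonneg hij.le (HexObs.NPR.mz_pos L).le) _) (by positivity)
    · rintro n t z ht hz ⟨i, j, h1, h2, h3, h4⟩
      exact ⟨i, j, h1, h2, h3, h4.trans (HexObs.SSI.dS_le t (by omega) (by omega))⟩
  · have h1 : {ω | ∃ i j : ℕ, i < j ∧ j ≤ k ∧ (M1 * C2 + r0) * (k : ℝ) ^ (3 / 4 : ℝ) * (((j : ℝ) - i) / k) ^ a < dQ ω i j} = ∅ := by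
      rw [Set.eq_empty_iff_forall_notMem]
      rintro ω ⟨i, j, h1, h2, h3⟩
      have h4 := dQ_le ω h1.le
      have hij : (0 : ℝ) < (j : ℝ) - i := by
        have : (i : ℝ) < j := by exact_mod_cast h1
        linarith
      have hjk : (j : ℝ) ≤ k := by exact_mod_cast h2
      have hx1 : ((j : ℝ) - i) / k ≤ 1 := by
        rw [div_le_one hk0]
        have : (0 : ℝ) ≤ i := Nat.cast_nonneg i
        linarith
      have hx0 : 0 < ((j : ℝ) - i) / k := div_pos hij hk0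
      have h5 : ((j : ℝ) - i) / k ≤ (((j : ℝ) - i) / k) ^ a := by
        calc ((j : ℝ) - i) / k = (((j : ℝ) - i) / k) ^ (1 : ℝ) := (Real.rpow_one _).symm
          _ ≤ _ := Real.rpow_le_rpow_of_exponent_ge hx0 hx1 (by linarith)
      have h6 : (k : ℝ) ≤ (M1 * C2 + r0) * (k : ℝ) ^ (3 / 4 : ℝ) := by
        have e : (k : ℝ) = (k : ℝ) ^ (1 / 4 : ℝ) * (k : ℝ) ^ (3 / 4 : ℝ) := by
          rw [← Real.rpow_add hk0]
          norm_num
        have h7 : (k : ℝ) ^ (1 / 4 : ℝ) ≤ r0 := by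
          calc (k : ℝ) ^ (1 / 4 : ℝ) ≤ (k : ℝ) ^ (1 : ℝ) := Real.rpow_le_rpow_of_exponent_le hk1 (by norm_num)
            _ = k := Real.rpow_one _
            _ ≤ r0 := hrk
        have h8 : r0 ≤ M1 * C2 + r0 := by
          have : 0 < M1 * C2 := by positivity
          linarith
        nth_rewrite 1 [e]
        exact mul_le_mul_of_nonneg_right (h7.trans h8) hkp.le
      have h7 : (j : ℝ) - i = k * (((j : ℝ) - i) / k) := by field_simp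
      have h8 : k * (((j : ℝ) - i) / k) ≤ (M1 * C2 + r0) * (k : ℝ) ^ (3 / 4 : ℝ) * (((j : ℝ) - i) / k) ^ a :=
        mul_le_mul h6 h5 hx0.le (by positivity)
      linarith
    rw [h1, measureReal_empty]
    exact hε.le

/-- the points of the walk: no near touches -/
theorem pinK (hQ : QD Q) {η : ℝ} (hη : 0 < η) {ε : ℝ} (hε : 0 < ε) : ∃ (e : ℝ) (k0 : ℕ), 0 < e ∧ ∀ k : ℕ, k0 ≤ k →
    Q.real {ω | ∃ i l j : ℕ, i ≤ l ∧ l ≤ j ∧ j ≤ k ∧ η * (k : ℝ) ^ (3 / 4 : ℝ) ≤ dQ ω i l ∧ η * (k : ℝ) ^ (3 / 4 : ℝ) ≤ dQ ω l j ∧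
      dQ ω i j ≤ e * (k : ℝ) ^ (3 / 4 : ℝ)} ≤ ε := by
  have := hQ.prob
  obtain ⟨δ, θ, L0, hδ, hθ, hbad⟩ := badK hQ hε
  obtain ⟨C1, C2, C3, hC1, hC2, hC3, hscl⟩ := HexObs.SSI.scl_r (θ := min θ 1) (T := 1 / 2) (lt_min hθ one_pos)
    (min_le_right _ _) le_rfl
  obtain ⟨e, L1, he, hpin⟩ := HexObs.SSI.pinB (η / C2) δ (by positivity) hδ
  obtain ⟨r0, cn, hr0, hcn, hscl⟩ := hscl (max L0 L1) 0
  refine ⟨e / 2 / C3, ⌈r0⌉₊, by positivity, fun k hk => ?_⟩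
  have hrk : r0 ≤ k := (Nat.le_ceil _).trans (by exact_mod_cast hk)
  obtain ⟨L, hL, hH, hm1, hm2, hL2, hL3, -⟩ := hscl k hrk
  have hk0 : (0 : ℝ) < k := by linarith
  have hkH : (k : ℝ) ≤ θ * HexObs.PW.mZ (2 ^ L) := by
    have h1 : (k : ℝ) ≤ HexObs.SSI.Hr (1 / 2) k := by
      unfold HexObs.SSI.Hr
      push_cast
      have h1 := Nat.lt_floor_add_one (2 * (1 / 2 : ℝ) * k)
      linarith
    have h2 : min θ 1 * HexObs.PW.mZ (2 ^ L) ≤ θ * HexObs.PW.mZ (2 ^ L) :=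
      mul_le_mul_of_nonneg_right (min_le_left _ _) (HexObs.NPR.mz_pos L).le
    linarith
  refine le_trans ?_ (hbad L k (PB (η / C2 * 2 ^ L) (e * 2 ^ L)) (PB (η / C2 * 2 ^ L) (e / 2 * 2 ^ L)) (wp_PB _ _) (wp_PB _ _)
    ((le_max_left _ _).trans hL) hkH (hpin L ((le_max_right _ _).trans hL)) ?_)
  · refine measureReal_mono ?_ (measure_ne_top _ _)
    rintro ω ⟨i, l, j, h1, h2, h3, h4, h5, h6⟩
    have h7 : η / C2 * 2 ^ L ≤ η * (k : ℝ) ^ (3 / 4 : ℝ) := by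
      rw [div_mul_eq_mul_div, div_le_iff₀ hC2]
      have := mul_le_mul_of_nonneg_left hL2 hη.le
      linarith
    have h8 : e / 2 / C3 * (k : ℝ) ^ (3 / 4 : ℝ) ≤ e / 2 * 2 ^ L := by
      rw [div_mul_eq_mul_div, div_le_iff₀ hC3]
      have := mul_le_mul_of_nonneg_left hL3 (show 0 ≤ e / 2 by positivity)
      linarith
    exact ⟨i, l, j, Nat.zero_le _, h1, h2, by omega, h7.trans h4, h7.trans h5, h6.trans h8⟩
  · rintro n t z ht hz ⟨i, l, j, h1, h2, h3, h4, h5, h6, h7⟩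
    refine ⟨i, l, j, h1, h2, h3, h4, h5.trans (HexObs.SSI.dS_le t (by omega) (by omega)),
      h6.trans (HexObs.SSI.dS_le t (by omega) (by omega)), ?_⟩
    have h8 := HexObs.SSI.dW_le (n := n) t (i := i) (j := j) (by omega) (by omega)
    linarith

/-- the points of the walk: no slow pieces -/
theorem lowK (hQ : QD Q) {h : ℝ} (hh : 0 < h) {ε : ℝ} (hε : 0 < ε) : ∃ (η : ℝ) (k0 : ℕ), 0 < η ∧ ∀ k : ℕ, k0 ≤ k →
    Q.real {ω | ∃ i j : ℕ, i < j ∧ j ≤ k ∧ h * k ≤ (j : ℝ) - i ∧ ∀ l l' : ℕ, i ≤ l → l ≤ j → i ≤ l' → l' ≤ j →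
      dQ ω l l' ≤ η * (k : ℝ) ^ (3 / 4 : ℝ)} ≤ ε := by
  have := hQ.prob
  obtain ⟨δ, θ, L0, hδ, hθ, hbad⟩ := badK hQ hε
  obtain ⟨C1, C2, C3, hC1, hC2, hC3, hscl⟩ := HexObs.SSI.scl_r (θ := min θ 1) (T := 1 / 2) (lt_min hθ one_pos)
    (min_le_right _ _) le_rfl
  obtain ⟨c, hc, hlow⟩ := HexObs.SSI.lowA (β := 1) (by norm_num) δ hδ
  obtain ⟨r0, cn, hr0, hcn, hscl⟩ := hscl L0 0
  refine ⟨c / 2 * h / (C1 * C3), ⌈r0⌉₊, by positivity, fun k hk => ?_⟩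
  have hrk : r0 ≤ k := (Nat.le_ceil _).trans (by exact_mod_cast hk)
  obtain ⟨L, hL, hH, hm1, hm2, hL2, hL3, -⟩ := hscl k hrk
  have hk0 : (0 : ℝ) < k := by linarith
  have hm0 : 0 < HexObs.PW.mZ (2 ^ L) := HexObs.NPR.mz_pos L
  have hkH : (k : ℝ) ≤ θ * HexObs.PW.mZ (2 ^ L) := by
    have h1 : (k : ℝ) ≤ HexObs.SSI.Hr (1 / 2) k := by
      unfold HexObs.SSI.Hr
      push_cast
      have h1 := Nat.lt_floor_add_one (2 * (1 / 2 : ℝ) * k)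
      linarith
    have h2 : min θ 1 * HexObs.PW.mZ (2 ^ L) ≤ θ * HexObs.PW.mZ (2 ^ L) :=
      mul_le_mul_of_nonneg_right (min_le_left _ _) hm0.le
    linarith
  refine le_trans ?_ (hbad L k (LB (c * 2 ^ L) (HexObs.PW.mZ (2 ^ L)) 1) (LB (c / 2 * 2 ^ L) (HexObs.PW.mZ (2 ^ L)) 1) (wp_LB _ _ _) (wp_LB _ _ _)
    hL hkH (hlow L) ?_)
  · refine measureReal_mono ?_ (measure_ne_top _ _)
    rintro ω ⟨i, j, h1, h2, h3, h4⟩
    have hjk : (j : ℝ) ≤ k := by exact_mod_cast h2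
    have hi0 : (0 : ℝ) ≤ i := Nat.cast_nonneg i
    refine ⟨i, j, Nat.zero_le _, h1, by omega, by linarith, fun l l' q1 q2 q3 q4 => (h4 l l' q1 q2 q3 q4).trans ?_⟩
    rw [Real.rpow_one]
    have h5 : h / C1 ≤ ((j : ℝ) - i) / HexObs.PW.mZ (2 ^ L) := by
      rw [div_le_div_iff₀ hC1 hm0]
      have a1 := mul_le_mul_of_nonneg_left hm2 hh.le
      have a2 := mul_le_mul_of_nonneg_left h3 hC1.le
      linarith
    have h6 : c / 2 * (k : ℝ) ^ (3 / 4 : ℝ) / C3 ≤ c / 2 * 2 ^ L := by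
      rw [div_le_iff₀ hC3]
      have := mul_le_mul_of_nonneg_left hL3 (show 0 ≤ c / 2 by positivity)
      linarith
    calc c / 2 * h / (C1 * C3) * (k : ℝ) ^ (3 / 4 : ℝ) = c / 2 * (k : ℝ) ^ (3 / 4 : ℝ) / C3 * (h / C1) := by
          field_simp
      _ ≤ c / 2 * 2 ^ L * (((j : ℝ) - i) / HexObs.PW.mZ (2 ^ L)) := mul_le_mul h6 h5 (by positivity) (by positivity)
  · rintro n t z ht hz ⟨i, j, h1, h2, h3, h4, h5⟩
    refine ⟨i, j, h1, h2, h3, h4, fun l l' q1 q2 q3 q4 => ?_⟩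
    have h8 := HexObs.SSI.dW_le (n := n) t (i := l) (j := l') (by omega) (by omega)
    have h9 := h5 l l' q1 q2 q3 q4
    calc dW t l l' ≤ 2 * dS (NTF.sw n t) l l' := h8
      _ ≤ 2 * (c / 2 * 2 ^ L * (((j : ℝ) - i) / HexObs.PW.mZ (2 ^ L)) ^ (1 : ℝ)) := by linarith
      _ = _ := by ring

/-! ### curves -/

lemma ycurve_crv (k : ℕ) (ζ : ℂ) (ω : ℤ → Bool) : ycurve k ζ ω = crv k fun j => ζ * disp ω 0 j := by
  ext u
  show ∑ j ∈ Finset.range k, _ = ∑ j ∈ Finset.range k, _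
  refine Finset.sum_congr rfl fun j _ => ?_
  rw [mul_sub]

section

variable {ζ : ℂ} (hζ : ‖ζ‖ = 1)

include hζ

lemma pts_norm (ω : ℤ → Bool) (i j : ℕ) : ‖ζ * disp ω 0 j - ζ * disp ω 0 i‖ = dQ ω i j := by
  rw [← mul_sub, norm_mul, hζ, one_mul]
  rfl

lemma pts_step (ω : ℤ → Bool) (j : ℕ) : ‖ζ * disp ω 0 (j + 1) - ζ * disp ω 0 j‖ ≤ 1 := by
  rw [pts_norm hζ]
  refine (dQ_le ω (Nat.le_succ j)).trans (le_of_eq ?_)
  push_cast
  ring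

end

end Pool.Agent.TSW
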